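import Mathlib
import Pool.Agent.Work.MP_787500_nt.KR.ADefs
import Pool.Agent.Work.MP_787500_nt.KR.PDefs
import Pool.Agent.Work.MP_787500_nt.GP.F04_Alt

/-!
Quadratic modules over a group with local subgroups, Lagrangian local conditions, isotropic submodules:
definitions (fixed, do not change).

`G` is the global group over the rational numbers, `i : I` the places.
-/

set_option autoImplicit false
set_option linter.unusedSectionVars false

namespace Pool.Agent.Work.MP_787500_nt.QS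

open Pool.Agent.Work.MP_787500_nt.GP (A0 IsAct d0 d1 d2 tw cup11 cup21 cup12 cup01 cup02 EvPow IsPow)
open Pool.Agent.Work.MP_787500_nt.KR (FSys Sm1 Sm2 IsChar Smooth Z1 Z2 B2 LocH Pair LDual GlobH Mid Sha2
  IsTr zM z1s b1s)

universe v

section quad

variable {V : Type*} [AddCommGroup V]

/-- the alternating form of a form -/
noncomputable def pB (β : V →+ V →+ A0) : V →+ V →+ A0 := β - β.flip

theorem pB_apply (β : V →+ V →+ A0) (v w : V) : pB β v w = β v w - β w v := rfl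

variable {G : Type*} [Group G] {O : Type*} [CommRing O] [Module O V]

/-- A quadratic module: `β` is a form, balanced over `O`, `l` its correction; the group acts on the
extension of `V` by the twist of `A0` given by `β`. -/
structure QM (S : FSys G) (χ : G → ℤ_[2]) (O : Type*) [CommRing O] [Module O V] (ρ : G → V → V)
    (β : V →+ V →+ A0) (l : O → G → V → A0) : Prop where
  act : IsAct ρ
  lin : ∀ g (a : O) m, ρ g (a • m) = a • ρ g m
  sm : Smooth S ρ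
  bal : ∀ (a : O) v w, β (a • v) w = β v (a • w)
  quad : ∀ (a : O) g v w,
    l a g (v + w) = l a g v + l a g w + (β (a • ρ g v) (ρ g w) - χ g • β (a • v) w)
  coc : ∀ (a : O) g h v, l a (g * h) v = χ g • l a h v + l a g (ρ h v)
  lsm : ∀ a : O, ∃ W, S.mem W ∧ ∀ w ∈ W, ∀ v, l a w v = 0
  nd : ∀ v, (∀ w, pB β v w = 0) → v = 0

/-- the quadratic cochain -/
noncomputable def Zq (ρ : G → V → V) (β : V →+ V →+ A0) (l : O → G → V → A0) (a : O) (x : G → V) :
    G → G → A0 := fun s t => β (a • x s) (ρ s (x t)) + l a s (x t)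

/-- A Lagrangian local condition: a submodule of the cocycles that is its own annihilator and on which
the quadratic functions vanish. -/
structure Lag (T : FSys G) (iv : (G → G → A0) → A0) (ρ : G → V → V) (β : V →+ V →+ A0)
    (l : O → G → V → A0) (Y : Submodule O (G → V)) : Prop where
  coc : ∀ x ∈ Y, Z1 T ρ x
  self : ∀ x, Z1 T ρ x → (x ∈ Y ↔ ∀ y ∈ Y, iv (cup11 ρ (pB β) x y) = 0)
  iso : ∀ (a : O), ∀ x ∈ Y, iv (Zq ρ β l a x) = 0

end quad

section sel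

variable {G : Type*} [Group G] (S : FSys G) {I : Type*} {D : I → Type*} [∀ i, Group (D i)]
  (j : ∀ i, D i →* G) {O : Type*} [CommRing O] {V : Type*} [AddCommGroup V] [Module O V]
  {ρ : G → V → V}

/-- the global cocycles that satisfy the local conditions -/
def selQ (act : IsAct ρ) (lin : ∀ g (a : O) m, ρ g (a • m) = a • ρ g m)
    (Y : ∀ i, Submodule O (D i → V)) : Submodule O (G → V) where
  carrier := {x | Z1 S ρ x ∧ ∀ i, (fun d => x (j i d)) ∈ Y i}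
  add_mem' := fun h h' => ⟨(zM S act lin).add_mem h.1 h'.1, fun i => (Y i).add_mem (h.2 i) (h'.2 i)⟩
  zero_mem' := ⟨(zM S act lin).zero_mem, fun i => (Y i).zero_mem⟩
  smul_mem' := fun a _ h => ⟨(zM S act lin).smul_mem a h.1, fun i => (Y i).smul_mem a (h.2 i)⟩

theorem mem_selQ {act : IsAct ρ} {lin : ∀ g (a : O) m, ρ g (a • m) = a • ρ g m}
    {Y : ∀ i, Submodule O (D i → V)} {x : G → V} :
    x ∈ selQ S j act lin Y ↔ Z1 S ρ x ∧ ∀ i, (fun d => x (j i d)) ∈ Y i := Iff.rfl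

/-- the global cocycles that are locally coboundaries -/
def shQ (act : IsAct ρ) (lin : ∀ g (a : O) m, ρ g (a • m) = a • ρ g m) : Submodule O (G → V) where
  carrier := {x | Z1 S ρ x ∧ ∀ i, ∃ m, ∀ d, x (j i d) = d0 (fun d => ρ (j i d)) m d}
  add_mem' := by
    rintro x y ⟨h1, h2⟩ ⟨h1', h2'⟩
    refine ⟨(zM S act lin).add_mem h1 h1', fun i => ?_⟩
    obtain ⟨m, hm⟩ := h2 i
    obtain ⟨m', hm'⟩ := h2' i
    refine ⟨m + m', fun d => ?_⟩
    simp only [Pi.add_apply, hm, hm', d0, act.add]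
    abel
  zero_mem' := ⟨(zM S act lin).zero_mem, fun i => ⟨0, fun d => by simp [d0, act.zero]⟩⟩
  smul_mem' := by
    rintro a x ⟨h1, h2⟩
    refine ⟨(zM S act lin).smul_mem a h1, fun i => ?_⟩
    obtain ⟨m, hm⟩ := h2 i
    refine ⟨a • m, fun d => ?_⟩
    simp only [Pi.smul_apply, hm, d0, lin, smul_sub]

theorem mem_shQ {act : IsAct ρ} {lin : ∀ g (a : O) m, ρ g (a • m) = a • ρ g m} {x : G → V} :
    x ∈ shQ S j act lin ↔ Z1 S ρ x ∧ ∀ i, ∃ m, ∀ d, x (j i d) = d0 (fun d => ρ (j i d)) m d := Iff.rfl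

end sel

section glob

variable {G : Type*} [Group G] (S : FSys G) {I : Type*} [Fintype I] {D : I → Type*}
  [∀ i, Group (D i)] (SD : ∀ i, FSys (D i)) (j : ∀ i, D i →* G) (χ : G → ℤ_[2])
  (inv : ∀ i, (D i → D i → A0) → A0) (tr : ((G → G → G → A0) × (∀ i, D i → D i → A0)) →+ A0)

/-- global duality for all finite pairs of modules in `Type v` -/
structure HQ : Prop where
  glob : GlobH S SD j χ inv
  istr : IsTr S SD j χ inv tr
  ld : ∀ i {M M' : Type v} [AddCommGroup M] [AddCommGroup M'] [Finite M] [Finite M']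
    {ρ : G → M → M} {ρ' : G → M' → M'} {B : M →+ M' →+ A0}, Pair S χ ρ ρ' B →
    LDual (SD i) (inv i) (fun d => ρ (j i d)) (fun d => ρ' (j i d)) B
  fin : ∀ {M M' : Type v} [AddCommGroup M] [AddCommGroup M'] [Finite M] [Finite M']
    {ρ : G → M → M} {ρ' : G → M' → M'} {B : M →+ M' →+ A0}, Pair S χ ρ ρ' B →
    Finite {x : G → M // Z1 S ρ x}
  pp : ∀ {M M' : Type v} [AddCommGroup M] [AddCommGroup M'] [Finite M] [Finite M']
    {ρ : G → M → M} {ρ' : G → M' → M'} {B : M →+ M' →+ A0}, Pair S χ ρ ρ' B →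
    KR.PP S SD j tr ρ ρ' B

end glob

/-! ## Isotropic submodules -/

/-- `U ⊆ V₁ = U^⊥ ⊆ V`, `Vb = V₁ / U`, `Q = V / V₁` (dual to `U`), `R = V / U` (dual to `V₁`),
`ι : Vb → R`, `qb : R → Q`. -/
structure Flag {G : Type*} {O : Type*} [CommRing O] {V V₁ Vb U Q R : Type*}
    [AddCommGroup V] [Module O V] [AddCommGroup V₁] [Module O V₁] [AddCommGroup Vb] [Module O Vb]
    [AddCommGroup U] [Module O U] [AddCommGroup Q] [Module O Q] [AddCommGroup R] [Module O R]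
    (ρ : G → V → V) (β : V →+ V →+ A0) (l : O → G → V → A0) (ρ₁ : G → V₁ → V₁)
    (ρb : G → Vb → Vb) (βb : Vb →+ Vb →+ A0) (lb : O → G → Vb → A0) (υ : G → U → U)
    (ω : G → Q → Q) (γ : U →+ Q →+ A0) (ρR : G → R → R) (γR : V₁ →+ R →+ A0)
    (e : U →ₗ[O] V₁) (i : V₁ →ₗ[O] V) (π : V₁ →ₗ[O] Vb) (q : V →ₗ[O] Q) (r : V →ₗ[O] R)
    (ι : Vb →ₗ[O] R) (qb : R →ₗ[O] Q) : Prop where
  einj : Function.Injective e
  iinj : Function.Injective i
  psurj : Function.Surjective π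
  qsurj : Function.Surjective q
  rsurj : Function.Surjective r
  iotainj : Function.Injective ι
  pker : ∀ m, π m = 0 ↔ ∃ u, e u = m
  qker : ∀ m, q m = 0 ↔ ∃ m₁, i m₁ = m
  rker : ∀ m, r m = 0 ↔ ∃ u, i (e u) = m
  ip : ∀ m, ι (π m) = r (i m)
  qr : ∀ m, qb (r m) = q m
  eqe : ∀ g u, e (υ g u) = ρ₁ g (e u)
  eqi : ∀ g m, i (ρ₁ g m) = ρ g (i m)
  eqp : ∀ g m, π (ρ₁ g m) = ρb g (π m)
  eqq : ∀ g m, q (ρ g m) = ω g (q m)
  eqr : ∀ g m, r (ρ g m) = ρR g (r m)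
  bet : ∀ m m', βb (π m) (π m') = β (i m) (i m')
  lam : ∀ (a : O) g m, lb a g (π m) = l a g (i m)
  pairU : ∀ u m, pB β (i (e u)) m = γ u (q m)
  pairR : ∀ m₁ m, pB β (i m₁) m = γR m₁ (r m)

section flag

variable {G : Type*} [Group G] {O : Type*} [CommRing O] {V V₁ Vb U Q R : Type*}
  [AddCommGroup V] [Module O V] [AddCommGroup V₁] [Module O V₁] [AddCommGroup Vb] [Module O Vb]
  [AddCommGroup U] [Module O U] [AddCommGroup Q] [Module O Q] [AddCommGroup R] [Module O R]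
  {ρ : G → V → V} {β : V →+ V →+ A0} {l : O → G → V → A0} {ρ₁ : G → V₁ → V₁}
  {ρb : G → Vb → Vb} {βb : Vb →+ Vb →+ A0} {lb : O → G → Vb → A0} {υ : G → U → U}
  {ω : G → Q → Q} {γ : U →+ Q →+ A0} {ρR : G → R → R} {γR : V₁ →+ R →+ A0}
  {e : U →ₗ[O] V₁} {i : V₁ →ₗ[O] V} {π : V₁ →ₗ[O] Vb} {q : V →ₗ[O] Q} {r : V →ₗ[O] R}
  {ι : Vb →ₗ[O] R} {qb : R →ₗ[O] Q}
  (fl : Flag ρ β l ρ₁ ρb βb lb υ ω γ ρR γR e i π q r ι qb)

include fl

theorem Flag.act₁ (h : IsAct ρ) : IsAct ρ₁ where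
  one m := fl.iinj (by rw [fl.eqi, h.one])
  mul g k m := fl.iinj (by rw [fl.eqi, fl.eqi, fl.eqi, h.mul])
  add g m m' := fl.iinj (by rw [fl.eqi, map_add, h.add, map_add, fl.eqi, fl.eqi])

theorem Flag.lin₁ (h : ∀ g (a : O) m, ρ g (a • m) = a • ρ g m) (g : G) (a : O) (m : V₁) :
    ρ₁ g (a • m) = a • ρ₁ g m := fl.iinj (by rw [fl.eqi, map_smul, h, map_smul, fl.eqi])

theorem Flag.actU (h : IsAct ρ) : IsAct υ where
  one m := fl.einj (by rw [fl.eqe, (fl.act₁ h).one])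
  mul g k m := fl.einj (by rw [fl.eqe, fl.eqe, fl.eqe, (fl.act₁ h).mul])
  add g m m' := fl.einj (by rw [fl.eqe, map_add, (fl.act₁ h).add, map_add, fl.eqe, fl.eqe])

theorem Flag.linU (h : ∀ g (a : O) m, ρ g (a • m) = a • ρ g m) (g : G) (a : O) (m : U) :
    υ g (a • m) = a • υ g m := fl.einj (by rw [fl.eqe, map_smul, fl.lin₁ h, map_smul, fl.eqe])

theorem Flag.actQ (h : IsAct ρ) : IsAct ω where
  one m := by
    obtain ⟨m, rfl⟩ := fl.qsurj m
    rw [← fl.eqq, h.one]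
  mul g k m := by
    obtain ⟨m, rfl⟩ := fl.qsurj m
    rw [← fl.eqq, ← fl.eqq, ← fl.eqq, h.mul]
  add g m m' := by
    obtain ⟨m, rfl⟩ := fl.qsurj m
    obtain ⟨m', rfl⟩ := fl.qsurj m'
    rw [← map_add, ← fl.eqq, ← fl.eqq, ← fl.eqq, h.add, map_add]

theorem Flag.linQ (h : ∀ g (a : O) m, ρ g (a • m) = a • ρ g m) (g : G) (a : O) (m : Q) :
    ω g (a • m) = a • ω g m := by
  obtain ⟨m, rfl⟩ := fl.qsurj m
  rw [← map_smul, ← fl.eqq, ← fl.eqq, h, map_smul]

theorem Flag.actR (h : IsAct ρ) : IsAct ρR where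
  one m := by
    obtain ⟨m, rfl⟩ := fl.rsurj m
    rw [← fl.eqr, h.one]
  mul g k m := by
    obtain ⟨m, rfl⟩ := fl.rsurj m
    rw [← fl.eqr, ← fl.eqr, ← fl.eqr, h.mul]
  add g m m' := by
    obtain ⟨m, rfl⟩ := fl.rsurj m
    obtain ⟨m', rfl⟩ := fl.rsurj m'
    rw [← map_add, ← fl.eqr, ← fl.eqr, ← fl.eqr, h.add, map_add]

theorem Flag.linR (h : ∀ g (a : O) m, ρ g (a • m) = a • ρ g m) (g : G) (a : O) (m : R) :
    ρR g (a • m) = a • ρR g m := by
  obtain ⟨m, rfl⟩ := fl.rsurj m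
  rw [← map_smul, ← fl.eqr, ← fl.eqr, h, map_smul]

theorem Flag.balU (hbal : ∀ (a : O) v w, β (a • v) w = β v (a • w)) (a : O) (u : U) (n : Q) :
    γ (a • u) n = γ u (a • n) := by
  obtain ⟨m, rfl⟩ := fl.qsurj n
  rw [← map_smul, ← fl.pairU, ← fl.pairU, map_smul, map_smul, pB_apply, pB_apply, hbal, hbal]

theorem Flag.comp {X : Type*} [Group X] (j : X →* G) :
    Flag (fun d => ρ (j d)) β (fun a d => l a (j d)) (fun d => ρ₁ (j d)) (fun d => ρb (j d)) βb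
      (fun a d => lb a (j d)) (fun d => υ (j d)) (fun d => ω (j d)) γ (fun d => ρR (j d)) γR
      e i π q r ι qb :=
  ⟨fl.einj, fl.iinj, fl.psurj, fl.qsurj, fl.rsurj, fl.iotainj, fl.pker, fl.qker, fl.rker, fl.ip,
    fl.qr, fun g => fl.eqe (j g), fun g => fl.eqi (j g), fun g => fl.eqp (j g),
    fun g => fl.eqq (j g), fun g => fl.eqr (j g), fl.bet, fun a g => fl.lam a (j g), fl.pairU,
    fl.pairR⟩

end flag

section ind

variable {X : Type*} [Group X] (T : FSys X) {O : Type*} [CommRing O] {V V₁ Vb : Type*}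
  [AddCommGroup V] [Module O V] [AddCommGroup V₁] [Module O V₁] [AddCommGroup Vb] [Module O Vb]
  {σ : X → V → V} {σ₁ : X → V₁ → V₁} (i : V₁ →ₗ[O] V) (π : V₁ →ₗ[O] Vb)

/-- the local condition on `V` induced by a local condition on `Vb` -/
def indY (act : IsAct σ) (lin : ∀ g (a : O) m, σ g (a • m) = a • σ g m) (act₁ : IsAct σ₁)
    (lin₁ : ∀ g (a : O) m, σ₁ g (a • m) = a • σ₁ g m) (Yb : Submodule O (X → Vb)) :
    Submodule O (X → V) where
  carrier := {x | ∃ (x₁ : X → V₁) (m : V), Z1 T σ₁ x₁ ∧ (fun d => π (x₁ d)) ∈ Yb ∧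
    ∀ d, x d = i (x₁ d) + d0 σ m d}
  add_mem' := by
    rintro x y ⟨x₁, m, h1, h2, h3⟩ ⟨y₁, n, h1', h2', h3'⟩
    refine ⟨x₁ + y₁, m + n, (zM T act₁ lin₁).add_mem h1 h1', ?_, fun d => ?_⟩
    · have e : (fun d => π ((x₁ + y₁) d)) = (fun d => π (x₁ d)) + fun d => π (y₁ d) := by
        funext d
        simp
      rw [e]
      exact Yb.add_mem h2 h2'
    · simp only [Pi.add_apply, h3, h3', map_add, d0, act.add]
      abel
  zero_mem' := by
    refine ⟨0, 0, (zM T act₁ lin₁).zero_mem, ?_, fun d => ?_⟩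
    · have e : (fun d => π ((0 : X → V₁) d)) = 0 := by
        funext d
        simp
      rw [e]
      exact Yb.zero_mem
    · simp [d0, act.zero]
  smul_mem' := by
    rintro a x ⟨x₁, m, h1, h2, h3⟩
    refine ⟨a • x₁, a • m, (zM T act₁ lin₁).smul_mem a h1, ?_, fun d => ?_⟩
    · have e : (fun d => π ((a • x₁) d)) = a • fun d => π (x₁ d) := by
        funext d
        simp
      rw [e]
      exact Yb.smul_mem a h2
    · simp only [Pi.smul_apply, h3, map_smul, d0, lin, smul_add, smul_sub]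

theorem mem_indY {act : IsAct σ} {lin : ∀ g (a : O) m, σ g (a • m) = a • σ g m} {act₁ : IsAct σ₁}
    {lin₁ : ∀ g (a : O) m, σ₁ g (a • m) = a • σ₁ g m} {Yb : Submodule O (X → Vb)} {x : X → V} :
    x ∈ indY T i π act lin act₁ lin₁ Yb ↔ ∃ (x₁ : X → V₁) (m : V), Z1 T σ₁ x₁ ∧
      (fun d => π (x₁ d)) ∈ Yb ∧ ∀ d, x d = i (x₁ d) + d0 σ m d := Iff.rfl

/-- the local condition on `Vb` given by a local condition on `V` -/
def redY (act₁ : IsAct σ₁) (lin₁ : ∀ g (a : O) m, σ₁ g (a • m) = a • σ₁ g m)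
    (Y : Submodule O (X → V)) : Submodule O (X → Vb) where
  carrier := {y | ∃ x₁ : X → V₁, Z1 T σ₁ x₁ ∧ (fun d => i (x₁ d)) ∈ Y ∧ ∀ d, y d = π (x₁ d)}
  add_mem' := by
    rintro x y ⟨x₁, h1, h2, h3⟩ ⟨y₁, h1', h2', h3'⟩
    refine ⟨x₁ + y₁, (zM T act₁ lin₁).add_mem h1 h1', ?_, fun d => ?_⟩
    · have e : (fun d => i ((x₁ + y₁) d)) = (fun d => i (x₁ d)) + fun d => i (y₁ d) := by
        funext d
        simp
      rw [e]
      exact Y.add_mem h2 h2'
    · simp only [Pi.add_apply, h3, h3', map_add]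
  zero_mem' := by
    refine ⟨0, (zM T act₁ lin₁).zero_mem, ?_, fun d => ?_⟩
    · have e : (fun d => i ((0 : X → V₁) d)) = 0 := by
        funext d
        simp
      rw [e]
      exact Y.zero_mem
    · simp
  smul_mem' := by
    rintro a x ⟨x₁, h1, h2, h3⟩
    refine ⟨a • x₁, (zM T act₁ lin₁).smul_mem a h1, ?_, fun d => ?_⟩
    · have e : (fun d => i ((a • x₁) d)) = a • fun d => i (x₁ d) := by
        funext d
        simp
      rw [e]
      exact Y.smul_mem a h2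
    · simp only [Pi.smul_apply, h3, map_smul]

theorem mem_redY {act₁ : IsAct σ₁} {lin₁ : ∀ g (a : O) m, σ₁ g (a • m) = a • σ₁ g m}
    {Y : Submodule O (X → V)} {y : X → Vb} :
    y ∈ redY T i π act₁ lin₁ Y ↔ ∃ x₁ : X → V₁, Z1 T σ₁ x₁ ∧ (fun d => i (x₁ d)) ∈ Y ∧
      ∀ d, y d = π (x₁ d) := Iff.rfl

end ind

section indQ

variable {G : Type*} [Group G] {S : FSys G} {I : Type*} {D : I → Type*}
  [∀ w, Group (D w)] (SD : ∀ w, FSys (D w)) (j : ∀ w, D w →* G) {χ : G → ℤ_[2]}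
  {O : Type*} [CommRing O] {V V₁ Vb U Q R : Type*}
  [AddCommGroup V] [Module O V] [AddCommGroup V₁] [Module O V₁] [AddCommGroup Vb] [Module O Vb]
  [AddCommGroup U] [Module O U] [AddCommGroup Q] [Module O Q] [AddCommGroup R] [Module O R]
  {ρ : G → V → V} {β : V →+ V →+ A0} {l : O → G → V → A0} {ρ₁ : G → V₁ → V₁}
  {ρb : G → Vb → Vb} {βb : Vb →+ Vb →+ A0} {lb : O → G → Vb → A0} {υ : G → U → U}
  {ω : G → Q → Q} {γ : U →+ Q →+ A0} {ρR : G → R → R} {γR : V₁ →+ R →+ A0}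
  {e : U →ₗ[O] V₁} {i : V₁ →ₗ[O] V} {π : V₁ →ₗ[O] Vb} {q : V →ₗ[O] Q} {r : V →ₗ[O] R}
  {ι : Vb →ₗ[O] R} {qb : R →ₗ[O] Q}

/-- the induced local conditions at all places -/
def indQ (h : QM S χ O ρ β l) (fl : Flag ρ β l ρ₁ ρb βb lb υ ω γ ρR γR e i π q r ι qb)
    (Yb : ∀ w, Submodule O (D w → Vb)) (w : I) : Submodule O (D w → V) :=
  indY (SD w) i π (h.act.comp (j w)) (fun g => h.lin (j w g)) ((fl.act₁ h.act).comp (j w))
    (fun g => fl.lin₁ h.lin (j w g)) (Yb w)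

/-- the local conditions for `Vb` given by local conditions for `V`, at all places -/
def redQ (h : QM S χ O ρ β l) (fl : Flag ρ β l ρ₁ ρb βb lb υ ω γ ρR γR e i π q r ι qb)
    (Y : ∀ w, Submodule O (D w → V)) (w : I) : Submodule O (D w → Vb) :=
  redY (SD w) i π ((fl.act₁ h.act).comp (j w)) (fun g => fl.lin₁ h.lin (j w g)) (Y w)

/-- the elements of the Selmer group of `Vb` that lift to cocycles with values in `V₁` -/
def lftQ (h : QM S χ O ρ β l) (hb : QM S χ O ρb βb lb)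
    (fl : Flag ρ β l ρ₁ ρb βb lb υ ω γ ρR γR e i π q r ι qb)
    (Y : ∀ w, Submodule O (D w → Vb)) : Submodule O (G → Vb) where
  carrier := {y | y ∈ selQ S j hb.act hb.lin Y ∧ ∃ x₁, Z1 S ρ₁ x₁ ∧ ∀ g, y g = π (x₁ g)}
  add_mem' := by
    rintro x y ⟨h1, x₁, h2, h3⟩ ⟨h1', y₁, h2', h3'⟩
    refine ⟨Submodule.add_mem _ h1 h1', x₁ + y₁,
      (zM S (fl.act₁ h.act) (fl.lin₁ h.lin)).add_mem h2 h2', fun g => ?_⟩
    simp only [Pi.add_apply, h3, h3', map_add]
  zero_mem' := ⟨Submodule.zero_mem _, 0, (zM S (fl.act₁ h.act) (fl.lin₁ h.lin)).zero_mem,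
    fun g => by simp⟩
  smul_mem' := by
    rintro a x ⟨h1, x₁, h2, h3⟩
    refine ⟨Submodule.smul_mem _ a h1, a • x₁,
      (zM S (fl.act₁ h.act) (fl.lin₁ h.lin)).smul_mem a h2, fun g => ?_⟩
    simp only [Pi.smul_apply, h3, map_smul]

end indQ

/-! ## Cochains with coboundary in `U` -/

section xx

variable {G : Type*} [Group G] (S : FSys G) {I : Type*} {D : I → Type*} [∀ i, Group (D i)]
  (SD : ∀ i, FSys (D i)) (j : ∀ i, D i →* G) {O : Type*} [CommRing O] {V V₁ U Q : Type*}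
  [AddCommGroup V] [Module O V] [AddCommGroup V₁] [Module O V₁] [AddCommGroup U] [Module O U]
  [AddCommGroup Q] [Module O Q] (ρ : G → V → V)
  (ω : G → Q → Q) (γ : U →+ Q →+ A0) (e : U →ₗ[O] V₁) (i : V₁ →ₗ[O] V)
  (Y : ∀ w, Submodule O (D w → V))

/-- `x` is a smooth cochain, `d x = F` is in `U`, and `x` is locally the sum of an element of `Y` and
a cochain `u` with values in `U` -/
structure XD (x : G → V) (F : G → G → U) (u : ∀ w, D w → U) : Prop where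
  sm : Sm1 S x
  dF : ∀ s t, i (e (F s t)) = d1 ρ x s t
  usm : ∀ w, Sm1 (SD w) (u w)
  loc : ∀ w, (fun d => x (j w d) - i (e (u w d))) ∈ Y w

/-- the value of the Cassels-Tate pairing of `x` with `s` -/
noncomputable def psi (tr : ((G → G → G → A0) × (∀ w, D w → D w → A0)) →+ A0) (F : G → G → U)
    (u : ∀ w, D w → U) (s : G → Q) : A0 :=
  tr (cup21 ω γ F s, fun w => cup11 (fun d => ω (j w d)) γ (u w) (fun d => s (j w d)))

end xx

end Pool.Agent.Work.MP_787500_nt.QS
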