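import Mathlib
import Pool.Agent.Work.MP_787500_nt.QS.Defs
import Pool.Agent.Work.MP_787500_nt.KR.MNSub

/-!
The module `M × M` over the rational numbers of a module `M` over the imaginary quadratic field: definitions
(fixed, do not change).

`G` is the group of the quadratic field, `Γ` the group of the rational numbers, `e : G →* Γ`, `c` the complex
conjugation, `κ` the conjugation by `c`. The places of the rational numbers are `Φ ⊕ Ψ`: the places in `Φ` split
(the local groups, the systems and the invariants are those of `G`), `Ψ` are the ramified places and infinity,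
`In p` is the inertia group of the quadratic field at `p` (trivial at infinity).
-/

set_option autoImplicit false
set_option linter.unusedSectionVars false

namespace Pool.Agent.Work.MP_787500_nt.QS

open Pool.Agent.Work.MP_787500_nt.GP (A0 IsAct d0 d1 d2 tw cup11 cup21 cup12 cup01 cup02 EvPow IsPow)
open Pool.Agent.Work.MP_787500_nt.KR (FSys Sm1 Sm2 IsChar Smooth Z1 Z2 B2 LocH Pair LDual GlobH Mid Sha2
  IsTr zM z1s b1s ParD SDualF perpM selM Betw SubU h1)

universe u v

section two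

variable {G Γ : Type*} [Group G] [Group Γ] (e : G →* Γ) (c : Γ) (κ : G →* G)

/-- `G` is a subgroup of index two and `c` is an involution outside of `G` -/
structure Two : Prop where
  inj : Function.Injective e
  cc : c * c = 1
  kap : ∀ g, e (κ g) = c * e g * c
  cases : ∀ σ, (∃ g, e g = σ) ∨ ∃ g, e g * c = σ
  nc : ∀ g, e g ≠ c

variable {M : Type*} [AddCommGroup M] (ρ : G → M → M)

open scoped Classical in
/-- the action on `M × M` -/
noncomputable def ac2 (σ : Γ) (v : M × M) : M × M :=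
  if h : ∃ g, e g = σ then (ρ h.choose v.1, ρ (κ h.choose) v.2)
  else if h : ∃ g, e g * c = σ then (ρ h.choose v.2, ρ (κ h.choose) v.1) else v

/-- the form on `M × M` -/
noncomputable def be2 (b : M →+ M →+ A0) : (M × M) →+ (M × M) →+ A0 :=
  AddMonoidHom.mk' (fun v => (b v.1).comp (AddMonoidHom.snd M M)) fun v w => by
    ext <;> simp

theorem be2_apply (b : M →+ M →+ A0) (v w : M × M) : be2 b v w = b v.1 w.2 := rfl

open scoped Classical in
/-- its correction -/
noncomputable def la2 {O : Type*} [CommRing O] [Module O M] (b : M →+ M →+ A0) (a : O) (σ : Γ)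
    (v : M × M) : A0 :=
  if ∃ g, e g = σ then 0 else be2 b (a • ac2 e c κ ρ σ v) (ac2 e c κ ρ σ v)

variable {e c κ ρ}

theorem Two.kk (X : Two e c κ) (g : G) : κ (κ g) = g := by
  apply X.inj
  rw [X.kap, X.kap]
  calc c * (c * e g * c) * c = (c * c) * e g * (c * c) := by group
    _ = e g := by rw [X.cc, one_mul, mul_one]

theorem Two.out (X : Two e c κ) (g g' : G) : e g' ≠ e g * c := by
  intro h
  refine X.nc (g⁻¹ * g') ?_
  rw [map_mul, map_inv, h, inv_mul_cancel_left]

theorem Two.ac_e (X : Two e c κ) (g : G) (v : M × M) :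
    ac2 e c κ ρ (e g) v = (ρ g v.1, ρ (κ g) v.2) := by
  have h : ∃ g', e g' = e g := ⟨g, rfl⟩
  have h1 : h.choose = g := X.inj h.choose_spec
  rw [ac2, dif_pos h, h1]

theorem Two.ac_ec (X : Two e c κ) (g : G) (v : M × M) :
    ac2 e c κ ρ (e g * c) v = (ρ g v.2, ρ (κ g) v.1) := by
  have h0 : ¬∃ g', e g' = e g * c := fun ⟨g', h⟩ => X.out g g' h
  have h : ∃ g', e g' * c = e g * c := ⟨g, rfl⟩
  have h1 : h.choose = g := X.inj (mul_right_cancel h.choose_spec)
  rw [ac2, dif_neg h0, dif_pos h, h1]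

theorem Two.ac_c (X : Two e c κ) (h : IsAct ρ) (v : M × M) : ac2 e c κ ρ c v = (v.2, v.1) := by
  have h1 := X.ac_ec (ρ := ρ) 1 v
  rw [map_one, one_mul, map_one, h.one, h.one] at h1
  exact h1

theorem Two.la_e (_ : Two e c κ) {O : Type*} [CommRing O] [Module O M] (b : M →+ M →+ A0) (a : O)
    (g : G) (v : M × M) : la2 e c κ ρ b a (e g) v = 0 := if_pos ⟨g, rfl⟩

theorem Two.la_ec (X : Two e c κ) {O : Type*} [CommRing O] [Module O M] (b : M →+ M →+ A0) (a : O)
    (g : G) (v : M × M) : la2 e c κ ρ b a (e g * c) v = b (a • ρ g v.2) (ρ (κ g) v.1) := by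
  have h0 : ¬∃ g', e g' = e g * c := fun ⟨g', h⟩ => X.out g g' h
  rw [la2, if_neg h0, X.ac_ec, be2_apply]
  rfl

theorem Two.act (X : Two e c κ) (h : IsAct ρ) : IsAct (ac2 e c κ ρ) where
  one v := by
    rw [← map_one e, X.ac_e, map_one, h.one, h.one]
  mul σ τ v := by
    rcases X.cases σ with ⟨g, rfl⟩ | ⟨g, rfl⟩ <;> rcases X.cases τ with ⟨k, rfl⟩ | ⟨k, rfl⟩
    · rw [← map_mul, X.ac_e, X.ac_e, X.ac_e, map_mul, h.mul, h.mul]
    · rw [← mul_assoc, ← map_mul, X.ac_ec, X.ac_ec, X.ac_e, map_mul, h.mul, h.mul]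
    · have h1 : e g * c * e k = e (g * κ k) * c := by
        rw [map_mul, X.kap]
        calc e g * c * e k = e g * c * e k * (c * c) := by rw [X.cc, mul_one]
          _ = e g * (c * e k * c) * c := by group
      rw [h1, X.ac_ec, X.ac_e, X.ac_ec, map_mul, X.kk, h.mul, h.mul]
    · have h1 : e g * c * (e k * c) = e (g * κ k) := by
        rw [map_mul, X.kap]
        group
      rw [h1, X.ac_e, X.ac_ec, X.ac_ec, map_mul, X.kk, h.mul, h.mul]
  add σ v w := by
    rcases X.cases σ with ⟨g, rfl⟩ | ⟨g, rfl⟩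
    · rw [X.ac_e, X.ac_e, X.ac_e]
      exact Prod.ext (h.add _ _ _) (h.add _ _ _)
    · rw [X.ac_ec, X.ac_ec, X.ac_ec]
      exact Prod.ext (h.add _ _ _) (h.add _ _ _)

theorem Two.lin (X : Two e c κ) {O : Type*} [CommRing O] [Module O M]
    (h : ∀ g (a : O) m, ρ g (a • m) = a • ρ g m) (σ : Γ) (a : O) (v : M × M) :
    ac2 e c κ ρ σ (a • v) = a • ac2 e c κ ρ σ v := by
  rcases X.cases σ with ⟨g, rfl⟩ | ⟨g, rfl⟩
  · rw [X.ac_e, X.ac_e]
    exact Prod.ext (h _ _ _) (h _ _ _)
  · rw [X.ac_ec, X.ac_ec]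
    exact Prod.ext (h _ _ _) (h _ _ _)

end two

/-! ## The family of places -/

section fam

variable {Φ Ψ : Type*} (D : Φ → Type u) (E : Ψ → Type u)

/-- the local groups -/
def gQ : Φ ⊕ Ψ → Type u
  | .inl w => D w
  | .inr p => E p

instance gQ_group [∀ w, Group (D w)] [∀ p, Group (E p)] : ∀ i, Group (gQ D E i)
  | .inl w => inferInstanceAs (Group (D w))
  | .inr p => inferInstanceAs (Group (E p))

variable {D E} [∀ w, Group (D w)] [∀ p, Group (E p)]

/-- the systems -/
def sQ (SD : ∀ w, FSys (D w)) (SE : ∀ p, FSys (E p)) : ∀ i, FSys (gQ D E i)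
  | .inl w => SD w
  | .inr p => SE p

variable {G Γ : Type*} [Group G] [Group Γ]

/-- the maps of the local groups -/
def jQ (e : G →* Γ) (j : ∀ w, D w →* G) (je : ∀ p, E p →* Γ) : ∀ i, gQ D E i →* Γ
  | .inl w => e.comp (j w)
  | .inr p => je p

/-- the invariants -/
def iQ (inv : ∀ w, (D w → D w → A0) → A0) (inve : ∀ p, (E p → E p → A0) → A0) :
    ∀ i, (gQ D E i → gQ D E i → A0) → A0
  | .inl w => inv w
  | .inr p => inve p

end fam

/-! ## Local conditions for `M × M` -/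

section cond

variable {O : Type*} [CommRing O] {M : Type*} [AddCommGroup M] [Module O M]

/-- a pair of conditions -/
def prY {X : Type*} (A B : Submodule O (X → M)) : Submodule O (X → M × M) where
  carrier := {y | (fun d => (y d).1) ∈ A ∧ (fun d => (y d).2) ∈ B}
  add_mem' := fun h h' => ⟨A.add_mem h.1 h'.1, B.add_mem h.2 h'.2⟩
  zero_mem' := ⟨A.zero_mem, B.zero_mem⟩
  smul_mem' := fun a _ h => ⟨A.smul_mem a h.1, B.smul_mem a h.2⟩

theorem mem_prY {X : Type*} {A B : Submodule O (X → M)} {y : X → M × M} :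
    y ∈ prY A B ↔ (fun d => (y d).1) ∈ A ∧ (fun d => (y d).2) ∈ B := Iff.rfl

/-- the cocycles that vanish on a set -/
def urY {X : Type*} [Group X] (T : FSys X) {V : Type*} [AddCommGroup V] [Module O V]
    {σ : X → V → V} (act : IsAct σ) (lin : ∀ g (a : O) m, σ g (a • m) = a • σ g m) (In : Set X) :
    Submodule O (X → V) where
  carrier := {y | Z1 T σ y ∧ ∀ d ∈ In, y d = 0}
  add_mem' := fun h h' => ⟨(zM T act lin).add_mem h.1 h'.1, fun d hd => by
    rw [Pi.add_apply, h.2 d hd, h'.2 d hd, add_zero]⟩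
  zero_mem' := ⟨(zM (O := O) T act lin).zero_mem, fun _ _ => rfl⟩
  smul_mem' := fun a _ h => ⟨(zM T act lin).smul_mem a h.1, fun d hd => by
    rw [Pi.smul_apply, h.2 d hd, smul_zero]⟩

theorem mem_urY {X : Type*} [Group X] {T : FSys X} {V : Type*} [AddCommGroup V] [Module O V]
    {σ : X → V → V} {act : IsAct σ} {lin : ∀ g (a : O) m, σ g (a • m) = a • σ g m} {In : Set X}
    {y : X → V} : y ∈ urY T act lin In ↔ Z1 T σ y ∧ ∀ d ∈ In, y d = 0 := Iff.rfl

end cond

/-! ## The hypotheses -/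

section hyp

variable {G : Type*} [Group G] (S : FSys G) {Φ Ψ : Type*} [Fintype Φ] [Fintype Ψ] {D : Φ → Type u}
  [∀ w, Group (D w)] (SD : ∀ w, FSys (D w)) (j : ∀ w, D w →* G) (χ : G → ℤ_[2])
  (inv : ∀ w, (D w → D w → A0) → A0) (κ : G →* G) {Γ : Type*} [Group Γ] (Sq : FSys Γ)
  {E : Ψ → Type u} [∀ p, Group (E p)] (SE : ∀ p, FSys (E p)) (je : ∀ p, E p →* Γ)
  (χq : Γ → ℤ_[2]) (inve : ∀ p, (E p → E p → A0) → A0) (e : G →* Γ) (c : Γ)
  (In : ∀ p, Set (E p))
  (tr : ((Γ → Γ → Γ → A0) × (∀ i, gQ D E i → gQ D E i → A0)) →+ A0)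

/-- The two fields. -/
structure KQ : Prop where
  two : Two e c κ
  chi : ∀ g, χq (e g) = χ g
  chic : χq c = -1
  up : ∀ W, S.mem W → ∃ W', Sq.mem W' ∧ ∀ σ ∈ W', ∃ g ∈ W, e g = σ
  inz : ∀ p, ∀ d ∈ In p, ∃ g, e g = je p d ∧ ∀ W, S.mem W → g ∈ W
  smo : ∀ {M : Type v} [AddCommGroup M] [Finite M] {ρ : G → M → M}, IsAct ρ → Smooth S ρ →
    ∀ x : G → M, (∀ a b, x (a * b) = x a + ρ a (x b)) →
    (∃ W, Sq.mem W ∧ ∀ g, e g ∈ W → x g = 0) →
    (∀ p, ∀ d ∈ In p, ∀ g, e g = je p d → x g = 0) → ∃ W, S.mem W ∧ ∀ g ∈ W, x g = 0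
  glob : HQ.{v} Sq (sQ SD SE) (jQ e j je) χq (iQ inv inve) tr

/-- The local conditions for `M × M` over the rational numbers. -/
noncomputable def condQ {O : Type*} [CommRing O] {M : Type*} [AddCommGroup M] [Module O M] {ρ : G → M → M}
    (X : Two e c κ) (act : IsAct ρ) (lin : ∀ g (a : O) m, ρ g (a • m) = a • ρ g m)
    (A B : ∀ w, Submodule O (D w → M)) : ∀ i, Submodule O (gQ D E i → M × M)
  | .inl w => prY (A w) (B w)
  | .inr p => urY (SE p) ((X.act act).comp (je p)) (fun d => X.lin lin (je p d)) (In p)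

end hyp

end Pool.Agent.Work.MP_787500_nt.QS
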