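import Mathlib
import Pool.Agent.Work.MP_787500_nt.QS.Defs
import Pool.Agent.Work.MP_787500_nt.KR.T04
import Pool.Agent.Work.MP_787500_nt.KR.T04b

/-!
# Module Th (size M): quadratic functions of cocycles

Symbols of `Defs`. Everything is elementary. Write `g v` for `ρ g v`.
* `l_zero`: `quad` with `v = w = 0`. `pB_bal`: `bal` twice. `pB_eqv`: subtract `quad a=1 g v w` and `quad 1 g w v`
  (`l a g (v + w)` is symmetric): `β (g v) (g w) - χ g β v w = β (g w) (g v) - χ g β w v`.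
* `QM.pair`: from `act`, `sm`, `pB_eqv`, `nd` (`pB β v w = - pB β w v`). `QM.comp`: restriction.
* `Zq_coc`, for a cocycle `x`: with `v = x t`, `w = t x r`: `d2 (Z)(s,t,r) = χ s β (a v, w) + χ s l_t (x r) - β (a x(st), s w)
  - l_(st) (x r) + β (a x s, s v + s w) + l_s (v + w) - β (a x s, s v) - l_s v`; use `coc`: `χ s l_t (x r) - l_(st)(x r) = - l_s (w)`,
  `quad`: `l_s (v+w) - l_s v - l_s w = β (a s v, s w) - χ s β (a v, w)`, and `x (st) = x s + s v`. All terms cancel.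
* `Zq_sm`: smoothness in both variables: `x`, `ρ`, `l` (`lsm` and `coc`: `l a (g w) v = χ g • l a w v + l a g (ρ w v)`); for the
  first variable use that members of the system are normal: `Zq` is a function of the cosets since `x`, `ρ`, `l a` are right
  invariant under `W` (as functions of `g`), and the second variable enters through `x t` only.
* `Zq_add`: with `u s = β (a x s, y s)`: expand `l_s (x t + y t)` by `quad`.
* `Zq_d0`: `x s = s m - m`; `l_s (t m - m) = l_s (t m) - l_s m - β (a (s t m - s m), s m) + χ s β (a (t m - m), m)` (`quad` for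
  `(t m - m) + m`), `l_s (t m) = l_(st) m - χ s l_t m` (`coc`); then `pB (a s m, s t m) = χ s pB (a m, t m)`.
* `iv_*`: apply `iv` (`LocH.add`, `LocH.cob`; `iv` is additive on `Z2 T (tw χ)`, so it is also compatible with subtraction).
* `iv_symm`: `cup_anti` (KR/T04) with `B = pB β`, `B.flip = - B`.
* `Lag.cob`: `self`; `iv (cup11 ρ (pB β) (d0 ρ m) y) = 0` (`leib01` of KR/T04: `cup11 (d0 m) y = d1 (cup01 m y)` for a cocycle `y`).
-/

set_option autoImplicit false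
set_option linter.unusedSectionVars false

namespace Pool.Agent.Work.MP_787500_nt.QS

open Pool.Agent.Work.MP_787500_nt.GP (A0 IsAct d0 d1 d2 tw cup11 cup21 cup12 cup01 cup02 EvPow IsPow)
open Pool.Agent.Work.MP_787500_nt.KR (FSys Sm1 Sm2 IsChar Smooth Z1 Z2 B2 LocH Pair LDual GlobH Mid Sha2
  IsTr zM z1s b1s h1 sh1)

variable {X : Type*} [Group X] {T : FSys X} {χ : X → ℤ_[2]} {iv : (X → X → A0) → A0}
  {O : Type*} [CommRing O] {V : Type*} [AddCommGroup V] [Module O V] {ρ : X → V → V}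
  {β : V →+ V →+ A0} {l : O → X → V → A0}

theorem l_zero (h : QM T χ O ρ β l) (a : O) (g : X) : l a g 0 = 0 := by
  have h1 := h.quad a g 0 0
  have h2 : ρ g 0 = 0 := h.act.zero g
  simp only [add_zero, h2, smul_zero, map_zero, AddMonoidHom.zero_apply, sub_zero] at h1
  exact add_eq_left.1 h1.symm

theorem pB_bal (h : QM T χ O ρ β l) (a : O) (v w : V) : pB β (a • v) w = pB β v (a • w) := by
  rw [pB_apply, pB_apply, h.bal a v w, h.bal a w v]

theorem pB_flip (β : V →+ V →+ A0) : (pB β).flip = -pB β := by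
  ext v w
  simp only [AddMonoidHom.flip_apply, AddMonoidHom.neg_apply, pB_apply, neg_sub]

theorem pB_eqv (h : QM T χ O ρ β l) (g : X) (v w : V) :
    pB β (ρ g v) (ρ g w) = χ g • pB β v w := by
  have h1 := h.quad 1 g v w
  have h2 := h.quad 1 g w v
  rw [add_comm w v, h1] at h2
  simp only [one_smul] at h2
  rw [pB_apply, pB_apply, smul_sub, sub_eq_sub_iff_sub_eq_sub]
  have h3 : l 1 g v + l 1 g w + (β (ρ g v) (ρ g w) - χ g • β v w) =
      l 1 g v + l 1 g w + (β (ρ g w) (ρ g v) - χ g • β w v) := by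
    rw [h2, add_comm (l 1 g w) (l 1 g v)]
  exact add_left_cancel h3

theorem QM.pair (h : QM T χ O ρ β l) : Pair T χ ρ ρ (pB β) where
  act := h.act
  act' := h.act
  sm := h.sm
  sm' := h.sm
  eqv := pB_eqv h
  nd := h.nd
  nd' := fun m' hm' => h.nd m' fun m => by
    have := hm' m
    rw [pB_apply] at this ⊢
    rw [← neg_sub, this, neg_zero]

theorem QM.comp (h : QM T χ O ρ β l) {Y : Type*} [Group Y] {T' : FSys Y} {j : Y →* X}
    (hj : ∀ W, T.mem W → ∃ W', T'.mem W' ∧ ∀ w ∈ W', j w ∈ W) :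
    QM T' (fun d => χ (j d)) O (fun d => ρ (j d)) β (fun a d => l a (j d)) where
  act := h.act.comp j
  lin := fun g => h.lin (j g)
  sm := h.sm.comp hj
  bal := h.bal
  quad := fun a g => h.quad a (j g)
  coc := fun a g k v => by
    simp only [map_mul]
    exact h.coc a (j g) (j k) v
  lsm := fun a => by
    obtain ⟨W, hW, h1⟩ := h.lsm a
    obtain ⟨W', hW', h2⟩ := hj W hW
    exact ⟨W', hW', fun w hw v => h1 (j w) (h2 w hw) v⟩
  nd := h.nd

theorem Zq_coc (h : QM T χ O ρ β l) {x : X → V} (hx : ∀ s t, x (s * t) = x s + ρ s (x t)) (a : O)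
    (s t k : X) : d2 (tw χ) (Zq ρ β l a x) s t k = 0 := by
  simp only [d2, tw, Zq, hx, h.act.mul, h.act.add, h.coc, h.quad, smul_add, map_add,
    AddMonoidHom.add_apply]
  abel

theorem Zq_sm (hχ : IsChar T χ) (h : QM T χ O ρ β l) {x : X → V} (hx : Sm1 T x) (a : O) :
    Sm2 T (Zq ρ β l a x) := by
  obtain ⟨W0, hW0, h0⟩ := h.sm
  obtain ⟨W1, hW1, h1⟩ := hx
  obtain ⟨W2, hW2, h2⟩ := h.lsm a
  refine ⟨W0 ⊓ (W1 ⊓ W2), T.inf hW0 (T.inf hW1 hW2), fun g k w hw w' hw' => ?_⟩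
  simp only [Zq]
  rw [h1 g w hw.2.1, h1 k w' hw'.2.1, h.act.mul, h0 w hw.1, h.coc, h2 w hw.2.2, h0 w hw.1, smul_zero,
    zero_add]

theorem Zq_Z2 (hχ : IsChar T χ) (h : QM T χ O ρ β l) {x : X → V} (hx : Z1 T ρ x) (a : O) :
    Z2 T (tw χ) (Zq ρ β l a x) := ⟨Zq_sm hχ h hx.1 a, Zq_coc h hx.2 a⟩

theorem Zq_add (h : QM T χ O ρ β l) {x y : X → V} (hx : ∀ s t, x (s * t) = x s + ρ s (x t))
    (hy : ∀ s t, y (s * t) = y s + ρ s (y t)) (a : O) (s t : X) :
    Zq ρ β l a (x + y) s t = Zq ρ β l a x s t + Zq ρ β l a y s t + cup11 ρ (pB β) (a • y) x s t -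
      d1 (tw χ) (fun s => β (a • x s) (y s)) s t := by
  have hb := h.bal a (ρ s (x t)) (y s)
  simp only [Zq, cup11, d1, tw, pB_apply, Pi.add_apply, Pi.smul_apply, hx, hy, smul_add, map_add,
    AddMonoidHom.add_apply, h.act.add, h.quad, hb]
  abel

theorem Zq_d0 (h : QM T χ O ρ β l) (m : V) (a : O) :
    Zq ρ β l a (d0 ρ m) =
      d1 (tw χ) (fun s => -l a s m + β (a • m) (ρ s m) - β (a • m) m) := by
  funext s t
  have h1 := h.quad a s (ρ t m - m) m
  rw [sub_add_cancel] at h1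
  have h2 := h.coc a s t m
  have h3 := pB_eqv h s (a • m) (ρ t m)
  rw [h.lin, pB_apply, pB_apply] at h3
  have h4 := h.bal a (ρ s (ρ t m)) (ρ s m)
  have h5 := h.bal a (ρ t m) m
  have h6 : l a s (ρ t m - m) = l a s (ρ t m) - l a s m -
      (β (a • ρ s (ρ t m - m)) (ρ s m) - χ s • β (a • (ρ t m - m)) m) := by
    rw [h1]
    abel
  have h7 : l a s (ρ t m) = l a (s * t) m - χ s • l a t m := by
    rw [h2]
    abel
  simp only [Zq, d0, d1, tw, h6, h7, h.act.sub, h.act.mul, smul_sub, smul_add, smul_neg, map_sub,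
    AddMonoidHom.sub_apply]
  rw [h4, h5]
  have h8 : β (a • ρ s m) (ρ s (ρ t m)) = β (ρ s (ρ t m)) (a • ρ s m) +
      (χ s • β (a • m) (ρ t m) - χ s • β (ρ t m) (a • m)) := by
    rw [← smul_sub, ← h3]
    abel
  rw [h8]
  abel

private theorem iv_cob (hL : LocH T χ iv) {f f' : X → X → A0} {z : X → A0}
    (hf' : Z2 T (tw χ) f') (hz : Sm1 T z) (e : ∀ s t, f s t = f' s t + d1 (tw χ) z s t) :
    iv f = iv f' := by
  have h1 : f = fun s t => f' s t + d1 (tw χ) z s t := funext fun s => funext fun t => e s t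
  rw [h1, hL.add _ _ hf' (KR.d1_tw_Z2 hL.char hz), hL.cob z hz, add_zero]

private theorem sm_pair {A B C : Type*} {x : X → A} {y : X → B} (hx : Sm1 T x) (hy : Sm1 T y)
    (f : A → B → C) : Sm1 T (fun g => f (x g) (y g)) := by
  obtain ⟨W1, hW1, h1⟩ := hx
  obtain ⟨W2, hW2, h2⟩ := hy
  refine ⟨W1 ⊓ W2, T.inf hW1 hW2, fun g w hw => ?_⟩
  simp only [h1 g w hw.1, h2 g w hw.2]

private theorem z1_smul (h : QM T χ O ρ β l) {x : X → V} (hx : Z1 T ρ x) (a : O) :
    Z1 T ρ (a • x) := by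
  refine ⟨?_, fun s t => ?_⟩
  · obtain ⟨W, hW, h1⟩ := hx.1
    exact ⟨W, hW, fun g w hw => by simp only [Pi.smul_apply, h1 g w hw]⟩
  · simp only [Pi.smul_apply, hx.2 s t, smul_add, h.lin]

theorem iv_symm (hL : LocH T χ iv) (h : QM T χ O ρ β l) {x y : X → V} (hx : Z1 T ρ x)
    (hy : Z1 T ρ y) : iv (cup11 ρ (pB β) x y) = iv (cup11 ρ (pB β) y x) := by
  refine iv_cob hL (z := fun g => -pB β (x g) (y g)) (KR.cup11_Z2 h.pair hy hx)
    (sm_pair hx.1 hy.1 fun u v => -pB β u v) fun s t => ?_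
  have h1 := KR.cup_anti h.pair hx hy s t
  rw [pB_flip] at h1
  have h2 : cup11 ρ (-pB β) y x s t = -cup11 ρ (pB β) y x s t := rfl
  rw [h2] at h1
  have h3 : cup11 ρ (pB β) x y s t = cup11 ρ (pB β) y x s t -
      d1 (tw χ) (fun g => pB β (x g) (y g)) s t := by
    rw [sub_eq_add_neg (cup11 ρ (pB β) y x s t), ← h1]
    abel
  rw [h3]
  simp only [d1, tw, smul_neg]
  abel

theorem iv_Zq_add (hL : LocH T χ iv) (h : QM T χ O ρ β l) {x y : X → V} (hx : Z1 T ρ x)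
    (hy : Z1 T ρ y) (a : O) : iv (Zq ρ β l a (x + y)) =
      iv (Zq ρ β l a x) + iv (Zq ρ β l a y) + iv (cup11 ρ (pB β) (a • y) x) := by
  have hA := KR.isAct_tw hL.char
  have z1 := Zq_Z2 hL.char h hx a
  have z2 := Zq_Z2 hL.char h hy a
  have z3 : Z2 T (tw χ) (cup11 ρ (pB β) (a • y) x) := KR.cup11_Z2 h.pair (z1_smul h hy a) hx
  have z12 := KR.Z2.add hA z1 z2
  have z123 := KR.Z2.add hA z12 z3
  rw [← hL.add _ _ z1 z2, ← hL.add _ _ z12 z3]
  refine iv_cob hL (z := fun g => -β (a • x g) (y g)) z123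
    (sm_pair hx.1 hy.1 fun u v => -β (a • u) v) fun s t => ?_
  rw [Zq_add h hx.2 hy.2 a s t]
  simp only [d1, tw, smul_neg]
  abel

theorem iv_Zq_d0 (hL : LocH T χ iv) (h : QM T χ O ρ β l) (m : V) (a : O) :
    iv (Zq ρ β l a (d0 ρ m)) = 0 := by
  rw [Zq_d0 h m a]
  refine hL.cob _ ?_
  obtain ⟨W0, hW0, h0⟩ := h.sm
  obtain ⟨W2, hW2, h2⟩ := h.lsm a
  refine ⟨W0 ⊓ W2, T.inf hW0 hW2, fun g w hw => ?_⟩
  simp only [h.coc, h.act.mul, h0 w hw.1, h2 w hw.2, smul_zero, zero_add]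

theorem iv_cup_d0 (hL : LocH T χ iv) (h : QM T χ O ρ β l) {y : X → V} (hy : Z1 T ρ y) (m : V) :
    iv (cup11 ρ (pB β) (d0 ρ m) y) = 0 := by
  have h1 : cup11 ρ (pB β) (d0 ρ m) y = d1 (tw χ) (cup01 (pB β) m y) := by
    funext s t
    rw [KR.leib01 (pB_eqv h) m y s t]
    have h2 : d1 ρ y s t = 0 := by simp only [d1, hy.2 s t, sub_self]
    simp only [cup02, h2, map_zero, add_zero]
  rw [h1]
  exact hL.cob _ (KR.cup01_sm hy.1)

theorem iv_Zq_cob (hL : LocH T χ iv) (h : QM T χ O ρ β l) {x : X → V} (hx : Z1 T ρ x) (m : V)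
    (a : O) : iv (Zq ρ β l a (x + d0 ρ m)) = iv (Zq ρ β l a x) := by
  have h1 : a • d0 ρ m = d0 ρ (a • m) := by
    funext s
    simp only [Pi.smul_apply, d0, smul_sub, h.lin]
  rw [iv_Zq_add hL h hx (KR.d0_Z1 h.act h.sm m) a, iv_Zq_d0 hL h m a, h1, iv_cup_d0 hL h hx, add_zero,
    add_zero]

theorem Lag.cob (hL : LocH T χ iv) (h : QM T χ O ρ β l) {Y : Submodule O (X → V)}
    (hY : Lag T iv ρ β l Y) (m : V) : d0 ρ m ∈ Y :=
  (hY.self _ (KR.d0_Z1 h.act h.sm m)).2 fun y hy => iv_cup_d0 hL h (hY.coc y hy) m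

end Pool.Agent.Work.MP_787500_nt.QS
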