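import Mathlib
import Pool.Agent.Work.MP_787500_nt.QS.Defs
import Pool.Agent.Work.MP_787500_nt.QS.Th
import Pool.Agent.Work.MP_787500_nt.KR.E1_Change

/-!
# Change of Lagrangian conditions over the rational numbers

`change_Q`: for two families `Y`, `Y'` of Lagrangian local conditions the product of the numbers of elements of the
two Selmer groups and of the `Y i ⊓ Y' i` and `Y i` is an even power of the order of the residue field. It is
`KR.change_pi` (three self-annihilating isotropic submodules) for `F` = the global cocycles and `Z i` = the local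
cocycles.
-/

set_option autoImplicit false
set_option linter.unusedSectionVars false

namespace Pool.Agent.Work.MP_787500_nt.QS

open Pool.Agent.Work.MP_787500_nt.GP (A0 IsAct d0 d1 d2 tw cup11 cup21 cup12 cup01 cup02 EvPow IsPow)
open Pool.Agent.Work.MP_787500_nt.KR (FSys Sm1 Sm2 IsChar Smooth Z1 Z2 B2 LocH Pair LDual GlobH Mid Sha2
  IsTr zM z1s b1s h1 sh1)

universe v

section local_form

variable {X : Type*} [Group X] {T : FSys X} {χ : X → ℤ_[2]} {iv : (X → X → A0) → A0}
  {O : Type*} [CommRing O] {V : Type*} [AddCommGroup V] [Module O V] {ρ : X → V → V}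
  {β : V →+ V →+ A0} {l : O → X → V → A0}

private theorem ch_add_left (hL : LocH T χ iv) (h : QM T χ O ρ β l) {x x' y : X → V}
    (hx : Z1 T ρ x) (hx' : Z1 T ρ x') (hy : Z1 T ρ y) :
    iv (cup11 ρ (pB β) (x + x') y) = iv (cup11 ρ (pB β) x y) + iv (cup11 ρ (pB β) x' y) := by
  rw [← hL.add _ _ (KR.cup11_Z2 h.pair hx hy) (KR.cup11_Z2 h.pair hx' hy)]
  congr 1
  funext a b
  simp only [cup11, Pi.add_apply, map_add, AddMonoidHom.add_apply]

private theorem ch_add_right (hL : LocH T χ iv) (h : QM T χ O ρ β l) {x y y' : X → V}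
    (hx : Z1 T ρ x) (hy : Z1 T ρ y) (hy' : Z1 T ρ y') :
    iv (cup11 ρ (pB β) x (y + y')) = iv (cup11 ρ (pB β) x y) + iv (cup11 ρ (pB β) x y') := by
  rw [← hL.add _ _ (KR.cup11_Z2 h.pair hx hy) (KR.cup11_Z2 h.pair hx hy')]
  congr 1
  funext a b
  simp only [cup11, Pi.add_apply, map_add, h.act.add]

/-- the pairing on local cocycles -/
noncomputable def locB (hL : LocH T χ iv) (h : QM T χ O ρ β l) :
    zM (O := O) T h.act h.lin →+ zM (O := O) T h.act h.lin →+ A0 :=
  AddMonoidHom.mk' (fun x => AddMonoidHom.mk' (fun y => iv (cup11 ρ (pB β) x.1 y.1))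
      (fun y y' => ch_add_right hL h x.2 y.2 y'.2))
    (fun x x' => by
      ext y
      exact ch_add_left hL h x.2 x'.2 y.2)

theorem locB_apply (hL : LocH T χ iv) (h : QM T χ O ρ β l) (x y : zM (O := O) T h.act h.lin) :
    locB hL h x y = iv (cup11 ρ (pB β) x.1 y.1) := rfl

theorem locB_symm (hL : LocH T χ iv) (h : QM T χ O ρ β l) (x y : zM (O := O) T h.act h.lin) :
    locB hL h x y = locB hL h y x := iv_symm hL h x.2 y.2

theorem locB_bal (hL : LocH T χ iv) (h : QM T χ O ρ β l) (a : O)
    (x y : zM (O := O) T h.act h.lin) : locB hL h (a • x) y = locB hL h x (a • y) := by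
  rw [locB_apply, locB_apply]
  congr 1
  funext s t
  show pB β (a • x.1 s) (ρ s (y.1 t)) = pB β (x.1 s) (ρ s (a • y.1 t))
  rw [h.lin, pB_bal h]

/-- a Lagrangian condition is its own annihilator -/
theorem Lag.perp (hL : LocH T χ iv) (h : QM T χ O ρ β l) {Y : Submodule O (X → V)}
    (hY : Lag T iv ρ β l Y) :
    KR.perpS (locB hL h) (locB_bal hL h) (Y.comap (zM (O := O) T h.act h.lin).subtype) =
      Y.comap (zM (O := O) T h.act h.lin).subtype := by
  ext z
  constructor
  · intro hz
    refine (hY.self z.1 z.2).2 fun y hy => ?_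
    have h1 := hz ⟨y, hY.coc y hy⟩ hy
    rw [locB_symm, locB_apply] at h1
    exact h1
  · intro hz x hx
    rw [locB_symm, locB_apply]
    exact (hY.self z.1 z.2).1 hz x.1 hx

end local_form

section glob

variable {G : Type*} [Group G] {S : FSys G} {I : Type*} [Fintype I] {D : I → Type*}
  [∀ i, Group (D i)] {SD : ∀ i, FSys (D i)} {j : ∀ i, D i →* G} {χ : G → ℤ_[2]}
  {inv : ∀ i, (D i → D i → A0) → A0} {tr : ((G → G → G → A0) × (∀ i, D i → D i → A0)) →+ A0}
  {O : Type*} [CommRing O] {V : Type v} [AddCommGroup V] [Module O V] [Finite V]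
  {ρ : G → V → V} {β : V →+ V →+ A0} {l : O → G → V → A0}

/-- the restriction of global cocycles -/
def resQ (H : HQ.{v} S SD j χ inv tr) (h : QM S χ O ρ β l) (w : I) :
    zM (O := O) S h.act h.lin →ₗ[O]
      zM (O := O) (SD w) (h.comp (H.glob.jsm w)).act (h.comp (H.glob.jsm w)).lin where
  toFun x := ⟨fun d => x.1 (j w d), KR.Z1.comp (H.glob.jsm w) x.2⟩
  map_add' _ _ := rfl
  map_smul' _ _ := rfl

/-- **Change of Lagrangian conditions.** -/
theorem change_Q [IsLocalRing O] [Finite (IsLocalRing.ResidueField O)]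
    (H : HQ.{v} S SD j χ inv tr) (h : QM S χ O ρ β l) {Y Y' : ∀ i, Submodule O (D i → V)}
    (hY : ∀ i, Lag (SD i) (inv i) (fun d => ρ (j i d)) β (fun a d => l a (j i d)) (Y i))
    (hY' : ∀ i, Lag (SD i) (inv i) (fun d => ρ (j i d)) β (fun a d => l a (j i d)) (Y' i)) :
    EvPow (Nat.card (IsLocalRing.ResidueField O))
      (Nat.card (selQ S j h.act h.lin Y) * Nat.card (selQ S j h.act h.lin Y') *
        ∏ i, (Nat.card ↥(Y i ⊓ Y' i) * Nat.card (Y i))) := by
  have hjsm := H.glob.jsm
  have hl : ∀ i, QM (SD i) (fun d => χ (j i d)) O (fun d => ρ (j i d)) β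
      (fun a d => l a (j i d)) := fun i => h.comp (hjsm i)
  have hfF : Finite (zM (O := O) S h.act h.lin) := H.fin h.pair
  have hfZ : ∀ i, Finite (zM (O := O) (SD i) (hl i).act (hl i).lin) := fun i =>
    (H.ld i h.pair).fin
  have key := KR.change_pi (O := O) (F := zM (O := O) S h.act h.lin)
    (Z := fun i => zM (O := O) (SD i) (hl i).act (hl i).lin)
    (fun i => locB (H.glob.loc i) (hl i)) (fun i => locB_bal (H.glob.loc i) (hl i))
    (fun i => locB_symm (H.glob.loc i) (hl i))
    (fun i a x => inv i (Zq (fun d => ρ (j i d)) β (fun a d => l a (j i d)) a x.1))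
    (fun i a x y => by
      have h1 := iv_Zq_add (H.glob.loc i) (hl i) x.2 y.2 a
      have h2 : inv i (cup11 (fun d => ρ (j i d)) (pB β) (a • y.1) x.1) =
          locB (H.glob.loc i) (hl i) (a • x) y := by
        rw [locB_bal, locB_symm]
        rfl
      rw [← h2]
      exact h1)
    (fun i => resQ H h i)
    (fun x x' => H.glob.recip _ (KR.cup11_Z2 h.pair x.2 x'.2))
    (fun z hz => by
      obtain ⟨X, m, hX, h1, h2⟩ := H.pp h.pair (fun _ _ => 0) (fun i => (z i).1)
        ⟨by
          obtain ⟨W, hW⟩ := S.ex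
          exact ⟨W, hW, fun _ _ _ _ _ _ => rfl⟩, fun a b c => by
          simp only [d2, h.act.zero, sub_zero, add_zero]⟩ (fun i => (z i).2.1)
        (fun i a b => by
          simp only [d1, (z i).2.2 a b, sub_self]) (fun x hx => by
          have h3 := hz ⟨x, hx⟩
          have h4 := H.istr (fun _ _ => 0) (fun i => cup11 (fun d => ρ (j i d)) (pB β) (z i).1
            (fun d => x (j i d))) ⟨S.ex.choose, S.ex.choose_spec, fun _ _ _ _ _ _ => rfl⟩
            (fun i => by
              simp only [sub_zero]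
              exact KR.cup11_Z2 (hl i).pair (z i).2 (KR.Z1.comp (hjsm i) hx))
          have h5 : cup21 ρ (pB β) (fun _ _ => (0 : V)) x = d2 (tw χ) (fun _ _ => 0) := by
            funext a b c
            simp only [cup21, d2, tw, smul_zero, sub_zero, add_zero, map_zero,
              AddMonoidHom.zero_apply]
          rw [h5, h4]
          refine Eq.trans (Finset.sum_congr rfl fun i _ => ?_) h3
          simp only [sub_zero]
          exact (locB_symm (H.glob.loc i) (hl i) (resQ H h i ⟨x, hx⟩) (z i)).symm)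
      refine ⟨⟨X, hX, fun a b => ?_⟩, fun i t => ?_⟩
      · have h3 := congrFun (congrFun h1 a) b
        simp only [d1] at h3
        exact (sub_eq_zero.1 h3.symm).symm
      · have h3 : (z i - resQ H h i ⟨X, hX, fun a b => by
            have h3 := congrFun (congrFun h1 a) b
            simp only [d1] at h3
            exact (sub_eq_zero.1 h3.symm).symm⟩).1 = d0 (fun d => ρ (j i d)) (-m i) := by
          funext d
          show (z i).1 d - X (j i d) = d0 (fun d => ρ (j i d)) (-m i) d
          rw [h2 i d]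
          simp only [d0, h.act.neg]
          abel
        rw [locB_symm, locB_apply, h3]
        exact iv_cup_d0 (H.glob.loc i) (hl i) t.2 _)
    (fun a x => H.glob.recip _ (Zq_Z2 H.glob.char h x.2 a))
    (fun i => (Y i).comap (zM (O := O) (SD i) (hl i).act (hl i).lin).subtype)
    (fun i => (Y' i).comap (zM (O := O) (SD i) (hl i).act (hl i).lin).subtype)
    (fun i => (hY i).perp (H.glob.loc i) (hl i)) (fun i => (hY' i).perp (H.glob.loc i) (hl i))
    (fun i a y hy => (hY i).iso a _ hy) (fun i a y hy => (hY' i).iso a _ hy)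
    ((selQ S j h.act h.lin Y).comap (zM (O := O) S h.act h.lin).subtype)
    ((selQ S j h.act h.lin Y').comap (zM (O := O) S h.act h.lin).subtype)
    (fun x => ⟨fun hx => hx.2, fun hx => ⟨x.2, hx⟩⟩) (fun x => ⟨fun hx => hx.2, fun hx => ⟨x.2, hx⟩⟩)
  have cA : ∀ Y : ∀ i, Submodule O (D i → V),
      Nat.card ((selQ S j h.act h.lin Y).comap (zM (O := O) S h.act h.lin).subtype) =
        Nat.card (selQ S j h.act h.lin Y) := fun Y =>
    Nat.card_congr ⟨fun x => ⟨x.1.1, x.2⟩, fun x => ⟨⟨x.1, x.2.1⟩, x.2⟩, fun x => rfl, fun x => rfl⟩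
  have cZ : ∀ i (Y : Submodule O (D i → V)), (∀ x ∈ Y, Z1 (SD i) (fun d => ρ (j i d)) x) →
      Nat.card (Y.comap (zM (O := O) (SD i) (hl i).act (hl i).lin).subtype) = Nat.card Y :=
    fun i Y hc => Nat.card_congr ⟨fun x => ⟨x.1.1, x.2⟩, fun x => ⟨⟨x.1, hc _ x.2⟩, x.2⟩,
      fun x => rfl, fun x => rfl⟩
  rw [cA, cA] at key
  have e1 : ∀ i, Nat.card ((Y i).comap (zM (O := O) (SD i) (hl i).act (hl i).lin).subtype) =
      Nat.card (Y i) := fun i => cZ i _ (hY i).coc
  have e2 : ∀ i, Nat.card ↥((Y i).comap (zM (O := O) (SD i) (hl i).act (hl i).lin).subtype ⊓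
      (Y' i).comap (zM (O := O) (SD i) (hl i).act (hl i).lin).subtype) =
      Nat.card ↥(Y i ⊓ Y' i) := fun i => cZ i (Y i ⊓ Y' i) fun x hx => (hY i).coc x hx.1
  simp only [e1, e2] at key
  rw [Finset.prod_mul_distrib, mul_comm (∏ i, Nat.card ↥(Y i ⊓ Y' i))]
  exact key

end glob

end Pool.Agent.Work.MP_787500_nt.QS
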