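import Mathlib
import Pool.Agent.Work.MP_787500_nt.QS.KQ
import Pool.Agent.Work.MP_787500_nt.QS.Th

/-!
# Module Qm2 (size S-M): the quadratic module `M × M`

Case distinction with `X.cases`; write `σ = e g` or `σ = e g * c`. Tools: `X.ac_e`, `X.ac_ec`, `X.la_e`, `X.la_ec`, `be2_apply`, `X.act`, `X.lin`, `X.kk`.
* `twist`: for `σ = e g * c`: `be2 b (a • σ v) (σ w) = b (a • ρ g v.2) (ρ (κ g) w.1) = b (ρ g (a • v.2)) (ρ (κ g) w.1) = χ g • b (a • v.2) w.1 = χ g • be2 b (a • w) v`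
  (`h.eqv`, `h.lin`, `h.symm`, `h.bal`), and `χ g = -χq σ`.
* `quad`: `σ = e g`: `l = 0` and `be2 b (a • σ v) (σ w) = χ g • be2 b (a • v) w`. `σ = e g * c`: expand `be2 b (a • σ (v + w)) (σ (v + w))`, use `twist` for
  `be2 b (a • σ w) (σ v)`.
* `coc`: four cases. Both in `e`: `0 = 0`. `σ = e g`, `τ = e k * c`: `στ = e (g k) * c`, `be2 b (a • σ (τ v)) (σ (τ v)) = χ g • ..`. `σ = e g * c`, `τ = e k`:
  `στ = e (g * κ k) * c`, `l a τ v = 0`. Both outside: `στ = e (g * κ k)`, and `χq σ • be2 b (a • w) w + be2 b (a • σ w) (σ w) = 0` for `w = τ v` by `twist`.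
* `sm`: for `W` with `ρ` trivial on `W` (`h.sm`) take `W'` with `κ W' ⊆ W` (`ks`), a common member of `W`, `W'` (`S.inf` or the like, see KR/Defs `FSys`) and `up`.
* `lsm`: `up` for any member: all `σ` in it are in the image of `e`.
* `nd`: take `w = (m, 0)` and `(0, m)`; `h.nd`, `h.symm`.
-/

set_option autoImplicit false
set_option linter.unusedSectionVars false

namespace Pool.Agent.Work.MP_787500_nt.QS

open Pool.Agent.Work.MP_787500_nt.GP (A0 IsAct d0 d1 d2 tw cup11 cup21 cup12 cup01 cup02 EvPow IsPow)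
open Pool.Agent.Work.MP_787500_nt.KR (FSys Sm1 Sm2 IsChar Smooth Z1 Z2 B2 LocH Pair LDual GlobH Mid Sha2
  IsTr zM z1s b1s ParD SDualF perpM selM Betw SubU h1 sh1)

universe u v

section

variable {G Γ : Type*} [Group G] [Group Γ] {S : FSys G} {Sq : FSys Γ} {χ : G → ℤ_[2]}
  {χq : Γ → ℤ_[2]} {κ : G →* G} {e : G →* Γ} {c : Γ} {Θ : Set (G × G)} {O : Type*} [CommRing O]
  {M : Type*} [AddCommGroup M] [Module O M] {ρ : G → M → M} {b : M →+ M →+ A0}

private theorem tw_e (X : Two e c κ) (h : SDualF S χ κ Θ O ρ b) (a : O) (g : G) (v w : M × M) :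
    be2 b (a • ac2 e c κ ρ (e g) v) (ac2 e c κ ρ (e g) w) = χ g • be2 b (a • v) w := by
  rw [X.ac_e, X.ac_e, be2_apply, be2_apply]
  show b (a • ρ g v.1) (ρ (κ g) w.2) = χ g • b (a • v.1) w.2
  rw [← h.lin, h.eqv]

private theorem tw_ec (X : Two e c κ) (h : SDualF S χ κ Θ O ρ b) (a : O) (g : G) (v w : M × M) :
    be2 b (a • ac2 e c κ ρ (e g * c) v) (ac2 e c κ ρ (e g * c) w) = χ g • be2 b (a • w) v := by
  rw [X.ac_ec, X.ac_ec, be2_apply, be2_apply]
  show b (a • ρ g v.2) (ρ (κ g) w.1) = χ g • b (a • w.1) v.2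
  rw [← h.lin, h.eqv, h.symm (a • w.1), h.bal]

private theorem la_ec' (X : Two e c κ) (a : O) (g : G) (v : M × M) :
    la2 e c κ ρ b a (e g * c) v =
      be2 b (a • ac2 e c κ ρ (e g * c) v) (ac2 e c κ ρ (e g * c) v) := by
  rw [X.la_ec, X.ac_ec, be2_apply]
  rfl

theorem qm_two (X : Two e c κ) (hχ : ∀ g, χq (e g) = χ g) (hc : χq c = -1)
    (hm : ∀ σ τ, χq (σ * τ) = χq σ * χq τ)
    (up : ∀ W, S.mem W → ∃ W', Sq.mem W' ∧ ∀ σ ∈ W', ∃ g ∈ W, e g = σ)
    (ks : ∀ W, S.mem W → ∃ W', S.mem W' ∧ ∀ v ∈ W', κ v ∈ W) (h : SDualF S χ κ Θ O ρ b) :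
    QM Sq χq O (ac2 e c κ ρ) (be2 b) (la2 e c κ ρ b) where
  act := X.act h.act
  lin := X.lin h.lin
  sm := by
    obtain ⟨W, hW, h1⟩ := h.sm
    obtain ⟨W', hW', h2⟩ := ks W hW
    obtain ⟨W'', hW'', h3⟩ := up (W ⊓ W') (S.inf hW hW')
    refine ⟨W'', hW'', fun σ hσ v => ?_⟩
    obtain ⟨g, hg, rfl⟩ := h3 σ hσ
    rw [X.ac_e]
    exact Prod.ext (h1 g hg.1 _) (h1 _ (h2 g hg.2) _)
  bal a v w := by
    rw [be2_apply, be2_apply]
    exact h.bal a v.1 w.2
  quad a σ v w := by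
    rcases X.cases σ with ⟨g, rfl⟩ | ⟨g, rfl⟩
    · rw [X.la_e, X.la_e, X.la_e, tw_e X h, hχ, sub_self, add_zero, add_zero]
    · rw [la_ec' X, la_ec' X, la_ec' X, (X.act h.act).add, smul_add, map_add, map_add,
        AddMonoidHom.add_apply, AddMonoidHom.add_apply, tw_ec X h a g w v, hm, hχ, hc, mul_neg_one,
        neg_smul]
      abel
  coc a σ τ v := by
    rcases X.cases σ with ⟨g, rfl⟩ | ⟨g, rfl⟩ <;> rcases X.cases τ with ⟨k, rfl⟩ | ⟨k, rfl⟩
    · rw [← map_mul, X.la_e, X.la_e, X.la_e, smul_zero, add_zero]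
    · have h1 := (X.act h.act).mul (e g) (e k * c) v
      rw [← mul_assoc, ← map_mul] at h1 ⊢
      rw [la_ec' X, h1, tw_e X h, X.la_e, add_zero, la_ec' X, hχ]
    · have h1 := (X.act h.act).mul (e g * c) (e k) v
      have h2 : e g * c * e k = e (g * κ k) * c := by
        rw [map_mul, X.kap]
        calc e g * c * e k = e g * c * e k * (c * c) := by rw [X.cc, mul_one]
          _ = e g * (c * e k * c) * c := by group
      rw [X.la_e, smul_zero, zero_add, la_ec' X, ← h1, h2, la_ec' X]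
    · have h2 : e g * c * (e k * c) = e (g * κ k) := by
        rw [map_mul, X.kap]
        group
      rw [h2, X.la_e, la_ec' X a g, tw_ec X h, la_ec' X a k, hm, hχ, hc, mul_neg_one, neg_smul,
        neg_add_cancel]
  lsm a := by
    obtain ⟨W, hW⟩ := S.ex
    obtain ⟨W', hW', h1⟩ := up W hW
    refine ⟨W', hW', fun σ hσ v => ?_⟩
    obtain ⟨g, -, rfl⟩ := h1 σ hσ
    exact X.la_e b a g v
  nd v hv := by
    have h1 : v.1 = 0 := by
      refine h.nd _ fun m => ?_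
      have := hv (0, m)
      rw [pB_apply, be2_apply, be2_apply] at this
      simpa using this
    have h2 : v.2 = 0 := by
      refine h.nd _ fun m => ?_
      have := hv (m, 0)
      rw [pB_apply, be2_apply, be2_apply] at this
      rw [h.symm]
      simpa using this
    exact Prod.ext h1 h2

end

end Pool.Agent.Work.MP_787500_nt.QS
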