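import Mathlib
import Pool.Agent.Work.MP_787500_nt.QS.KQ

/-!
Conditions at the places in `Ψ` (ramified places and infinity): definitions (fixed, do not change).
-/

set_option autoImplicit false
set_option linter.unusedSectionVars false

namespace Pool.Agent.Work.MP_787500_nt.QS

open Pool.Agent.Work.MP_787500_nt.GP (A0 IsAct d0 d1 d2 tw cup11 cup21 cup12 cup01 cup02 EvPow IsPow)
open Pool.Agent.Work.MP_787500_nt.KR (FSys Sm1 Sm2 IsChar Smooth Z1 Z2 B2 LocH Pair LDual GlobH Mid Sha2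
  IsTr zM z1s b1s ParD SDualF perpM selM Betw SubU h1)

universe u v

section ram

variable {G Γ : Type*} [Group G] [Group Γ] {e : G →* Γ} {c : Γ} {κ : G →* G} (X : Two e c κ)
  {P : Type*} [Group P] (T : FSys P) (jp : P →* Γ) (iv : (P → P → A0) → A0) (In : Set P)
  {O : Type*} [CommRing O] {M M₁ Mb U : Type*} [AddCommGroup M] [Module O M] [AddCommGroup M₁]
  [Module O M₁] [AddCommGroup Mb] [Module O Mb] [AddCommGroup U] [Module O U] {ρ : G → M → M}
  {ρ₁ : G → M₁ → M₁} {ρb : G → Mb → Mb} {υ : G → U → U}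

/-- the unramified condition for `M × M` -/
noncomputable abbrev urp (act : IsAct ρ) (lin : ∀ g (a : O) m, ρ g (a • m) = a • ρ g m) :
    Submodule O (P → M × M) :=
  urY T ((X.act act).comp jp) (fun d => X.lin lin (jp d)) In

/-- the unramified condition is Lagrangian -/
def LagR (act : IsAct ρ) (lin : ∀ g (a : O) m, ρ g (a • m) = a • ρ g m) (b : M →+ M →+ A0) :
    Prop :=
  Lag T iv (fun d => ac2 e c κ ρ (jp d)) (be2 b) (fun (a : O) d => la2 e c κ ρ b a (jp d))
    (urp X T jp In act lin)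

/-- the condition for `M × M` induced by the unramified condition for `Mb × Mb` -/
noncomputable abbrev indp (i : M₁ →ₗ[O] M) (π : M₁ →ₗ[O] Mb) (act : IsAct ρ)
    (lin : ∀ g (a : O) m, ρ g (a • m) = a • ρ g m) (act₁ : IsAct ρ₁)
    (lin₁ : ∀ g (a : O) m, ρ₁ g (a • m) = a • ρ₁ g m) (actb : IsAct ρb)
    (linb : ∀ g (a : O) m, ρb g (a • m) = a • ρb g m) : Submodule O (P → M × M) :=
  indY T (i.prodMap i) (π.prodMap π) ((X.act act).comp jp) (fun d => X.lin lin (jp d))
    ((X.act act₁).comp jp) (fun d => X.lin lin₁ (jp d)) (urp X T jp In actb linb)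

/-- the reduction of `indp` -/
noncomputable abbrev redp (i : M₁ →ₗ[O] M) (π : M₁ →ₗ[O] Mb) (act : IsAct ρ)
    (lin : ∀ g (a : O) m, ρ g (a • m) = a • ρ g m) (act₁ : IsAct ρ₁)
    (lin₁ : ∀ g (a : O) m, ρ₁ g (a • m) = a • ρ₁ g m) (actb : IsAct ρb)
    (linb : ∀ g (a : O) m, ρb g (a • m) = a • ρb g m) : Submodule O (P → Mb × Mb) :=
  redY T (i.prodMap i) (π.prodMap π) ((X.act act₁).comp jp) (fun d => X.lin lin₁ (jp d))
    (indp X T jp In i π act lin act₁ lin₁ actb linb)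

/-- the local number -/
def NumR (q : ℕ) (i : M₁ →ₗ[O] M) (π : M₁ →ₗ[O] Mb) (act : IsAct ρ)
    (lin : ∀ g (a : O) m, ρ g (a • m) = a • ρ g m) (act₁ : IsAct ρ₁)
    (lin₁ : ∀ g (a : O) m, ρ₁ g (a • m) = a • ρ₁ g m) (actb : IsAct ρb)
    (linb : ∀ g (a : O) m, ρb g (a • m) = a • ρb g m) (actU : IsAct υ) : Prop :=
  ∃ t : ℕ, t * t = h1 T ((X.act actU).comp jp) ∧ IsPow q t ∧
    EvPow q (Nat.card ↥(urp X T jp In act lin ⊓ indp X T jp In i π act lin act₁ lin₁ actb linb) *
      Nat.card (urp X T jp In act lin) *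
      (Nat.card ↥(redp X T jp In i π act lin act₁ lin₁ actb linb ⊓ urp X T jp In actb linb) *
        Nat.card (urp X T jp In actb linb)) * t)

end ram

end Pool.Agent.Work.MP_787500_nt.QS
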