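import Mathlib
import Pool.Agent.Work.MP_787500_nt.QS.KQ2
import Pool.Agent.Work.MP_787500_nt.QS.Th
import Pool.Agent.Work.MP_787500_nt.QS.Qm2

/-!
# Module InfR (size S-M): the place at infinity

`P = {1, c}`. `inf_cob`: every cocycle is a coboundary: if `jp d = c` then `d * d = 1` (`d * d` is `1` or `jp (d * d) = c`, but `c * c = 1`, and `c ≠ 1` by `X.nc 1`), so
`y d + c (y d) = 0`: `y d = (m, -m) = c v - v` for `v = (-m, 0)` (`X.ac_c`); `y 1 = 0`.
* `lagR_inf`: `urY ∅` = all cocycles = all coboundaries: `iv_cup_d0`, `iv_Zq_d0` (QS/Th) for `h.comp`.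
* `numR_inf`: `t = 1` (`h1 = 1`: `b1s = z1s`). `indp` contains the coboundaries, so the first intersection is `urp`; `redp ⊓ urp = redp`.. all cocycles of `Mb × Mb` are coboundaries `d0 m`, and
  `redp` contains them (lift `m` by `hpi`): so it is `urp`. The product is a square of powers of `q` (`GP.card_pow`; the cocycles are finite: functions on a group with at most 2
  elements with values in a finite module).
-/

set_option autoImplicit false
set_option linter.unusedSectionVars false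

namespace Pool.Agent.Work.MP_787500_nt.QS

open Pool.Agent.Work.MP_787500_nt.GP (A0 IsAct d0 d1 d2 tw cup11 cup21 cup12 cup01 cup02 EvPow IsPow)
open Pool.Agent.Work.MP_787500_nt.KR (FSys Sm1 Sm2 IsChar Smooth Z1 Z2 B2 LocH Pair LDual GlobH Mid Sha2
  IsTr zM z1s b1s ParD SDualF perpM selM Betw SubU h1 sh1)

universe u v

section

variable {G Γ : Type*} [Group G] [Group Γ] {Sq : FSys Γ} {χq : Γ → ℤ_[2]} {e : G →* Γ} {c : Γ}
  {κ : G →* G} (X : Two e c κ) {P : Type*} [Group P] {TP : FSys P} {jp : P →* Γ}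
  {iv : (P → P → A0) → A0} {O : Type*} [CommRing O] {M M₁ Mb U : Type*} [AddCommGroup M]
  [Module O M] [AddCommGroup M₁] [Module O M₁] [AddCommGroup Mb] [Module O Mb] [AddCommGroup U]
  [Module O U] {ρ : G → M → M} {ρ₁ : G → M₁ → M₁} {ρb : G → Mb → Mb} {υ : G → U → U}
  {b : M →+ M →+ A0}

include X in
private theorem inf_two {d d' : P} (hP : ∀ d : P, d = 1 ∨ jp d = c) (h : jp d = c)
    (h' : jp d' = c) : d * d' = 1 := by
  rcases hP (d * d') with h1 | h1
  · exact h1
  · exfalso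
    rw [map_mul, h, h', X.cc] at h1
    exact X.nc 1 (by rw [map_one, h1])

include X in
theorem inf_cob (act : IsAct ρ) (hP : ∀ d : P, d = 1 ∨ jp d = c) {y : P → M × M}
    (hy : Z1 TP (fun d => ac2 e c κ ρ (jp d)) y) :
    ∃ v, ∀ d, y d = d0 (fun d => ac2 e c κ ρ (jp d)) v d := by
  have hy1 : y 1 = 0 := by
    have h1 : y (1 * 1) = y 1 + ac2 e c κ ρ (jp 1) (y 1) := hy.2 1 1
    have h2 := ((X.act act).comp jp).one (y 1)
    rw [mul_one, h2] at h1
    exact left_eq_add.1 h1
  by_cases hd : ∃ d : P, jp d = c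
  · obtain ⟨d, hd⟩ := hd
    have h1 : y (d * d) = y d + ac2 e c κ ρ (jp d) (y d) := hy.2 d d
    rw [inf_two X hP hd hd, hy1, hd, X.ac_c act] at h1
    have h2 : (y d).2 = -(y d).1 := by
      have h3 := congrArg Prod.fst h1
      exact (neg_eq_of_add_eq_zero_right h3.symm).symm
    refine ⟨(-(y d).1, 0), fun d' => ?_⟩
    rcases hP d' with h3 | h3
    · rw [h3, hy1]
      show 0 = ac2 e c κ ρ (jp 1) _ - _
      have h4 := ((X.act act).comp jp).one (-(y d).1, (0 : M))
      rw [h4, sub_self]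
    · have h4 : d' = d := by
        have h5 := inf_two X hP hd h3
        have h6 := inf_two X hP hd hd
        exact mul_left_cancel (h5.trans h6.symm)
      rw [h4]
      show y d = ac2 e c κ ρ (jp d) _ - _
      rw [hd, X.ac_c act]
      refine Prod.ext ?_ ?_
      · show (y d).1 = 0 - -(y d).1
        rw [zero_sub, neg_neg]
      · show (y d).2 = -(y d).1 - 0
        rw [h2, sub_zero]
  · refine ⟨0, fun d' => ?_⟩
    rcases hP d' with h3 | h3
    · rw [h3, hy1]
      show 0 = ac2 e c κ ρ (jp 1) _ - _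
      have h4 := ((X.act act).comp jp).one (0 : M × M)
      rw [h4, sub_self]
    · exact absurd ⟨d', h3⟩ hd

theorem lagR_inf (hL : LocH TP (fun d => χq (jp d)) iv) (hP : ∀ d : P, d = 1 ∨ jp d = c)
    (act : IsAct ρ) (lin : ∀ g (a : O) m, ρ g (a • m) = a • ρ g m)
    (h : QM Sq χq O (ac2 e c κ ρ) (be2 b) (la2 e c κ ρ b))
    (hj : ∀ W, Sq.mem W → ∃ W', TP.mem W' ∧ ∀ w ∈ W', jp w ∈ W) :
    LagR X TP jp iv ∅ act lin b := by
  have hc := h.comp hj
  have hcob : ∀ y : P → M × M, Z1 TP (fun d => ac2 e c κ ρ (jp d)) y →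
      ∃ v, y = d0 (fun d => ac2 e c κ ρ (jp d)) v := fun y hy => by
    obtain ⟨v, hv⟩ := inf_cob X act hP hy
    exact ⟨v, funext hv⟩
  refine ⟨fun x hx => hx.1, fun x hx => ⟨fun _ y hy => ?_, fun _ => ⟨hx, fun d hd => hd.elim⟩⟩,
    fun a x hx => ?_⟩
  · obtain ⟨v, rfl⟩ := hcob x hx
    exact iv_cup_d0 hL hc hy.1 v
  · obtain ⟨v, rfl⟩ := hcob x hx.1
    exact iv_Zq_d0 hL hc v a

theorem numR_inf [IsLocalRing O] [Finite (IsLocalRing.ResidueField O)] [Finite M] [Finite Mb]
    [Finite U] (hP : ∀ d : P, d = 1 ∨ jp d = c) {i : M₁ →ₗ[O] M} {π : M₁ →ₗ[O] Mb}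
    (hpi : Function.Surjective π) (hπ : ∀ g m, π (ρ₁ g m) = ρb g (π m))
    (hi : ∀ g m, i (ρ₁ g m) = ρ g (i m)) (act : IsAct ρ)
    (lin : ∀ g (a : O) m, ρ g (a • m) = a • ρ g m) (act₁ : IsAct ρ₁)
    (lin₁ : ∀ g (a : O) m, ρ₁ g (a • m) = a • ρ₁ g m) (actb : IsAct ρb)
    (linb : ∀ g (a : O) m, ρb g (a • m) = a • ρb g m) (actU : IsAct υ)
    (hsm : Smooth TP (fun d => ac2 e c κ ρ (jp d))) :
    NumR X TP jp ∅ (Nat.card (IsLocalRing.ResidueField O)) i π act lin act₁ lin₁ actb linb actU := by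
  classical
  have hfP : Finite P := by
    have h1 : ∀ d d' : P, jp d = c → jp d' = c → d = d' := fun d d' h1 h2 =>
      mul_left_cancel ((inf_two X hP h1 h1).trans (inf_two X hP h1 h2).symm)
    refine Finite.of_injective (fun d : P => decide (d = 1)) fun d d' hdd => ?_
    rcases hP d with h2 | h2
    · have h3 : decide (d' = 1) = true := by
        rw [← show decide (d = 1) = decide (d' = 1) from hdd]
        exact decide_eq_true h2
      rw [h2, of_decide_eq_true h3]
    · rcases hP d' with h3 | h3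
      · have h4 : decide (d = 1) = true := by
          rw [show decide (d = 1) = decide (d' = 1) from hdd]
          exact decide_eq_true h3
        rw [h3, of_decide_eq_true h4]
      · exact h1 d d' h2 h3
  have e1 : urp X TP jp ∅ act lin ⊓ indp X TP jp ∅ i π act lin act₁ lin₁ actb linb =
      urp X TP jp ∅ act lin := by
    refine inf_eq_left.2 fun x hx => ?_
    obtain ⟨v, hv⟩ := inf_cob X act hP hx.1
    refine ⟨0, v, (zM (O := O) TP ((X.act act₁).comp jp) fun d => X.lin lin₁ (jp d)).zero_mem,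
      ?_, fun d => ?_⟩
    · have e2 : (fun d => (π.prodMap π) ((0 : P → M₁ × M₁) d)) = 0 := by
        funext d
        exact map_zero _
      rw [e2]
      exact Submodule.zero_mem _
    · rw [hv]
      show _ = (i.prodMap i) 0 + _
      rw [map_zero, zero_add]
  have e2 : redp X TP jp ∅ i π act lin act₁ lin₁ actb linb ⊓ urp X TP jp ∅ actb linb =
      urp X TP jp ∅ actb linb := by
    refine inf_eq_right.2 fun x hx => ?_
    by_cases h0 : x = 0
    · rw [h0]
      exact Submodule.zero_mem _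
    obtain ⟨v, hv⟩ := inf_cob X actb hP hx.1
    obtain ⟨m, hm⟩ := hpi v.1
    obtain ⟨n, hn⟩ := hpi v.2
    have hp2 : ∀ (σ : Γ) (w : M₁ × M₁), (π.prodMap π) (ac2 e c κ ρ₁ σ w) =
        ac2 e c κ ρb σ ((π.prodMap π) w) := by
      intro σ w
      rcases X.cases σ with ⟨g, rfl⟩ | ⟨g, rfl⟩
      · rw [X.ac_e, X.ac_e]
        exact Prod.ext (hπ _ _) (hπ _ _)
      · rw [X.ac_ec, X.ac_ec]
        exact Prod.ext (hπ _ _) (hπ _ _)
    have hi2 : ∀ (σ : Γ) (w : M₁ × M₁), (i.prodMap i) (ac2 e c κ ρ₁ σ w) =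
        ac2 e c κ ρ σ ((i.prodMap i) w) := by
      intro σ w
      rcases X.cases σ with ⟨g, rfl⟩ | ⟨g, rfl⟩
      · rw [X.ac_e, X.ac_e]
        exact Prod.ext (hi _ _) (hi _ _)
      · rw [X.ac_ec, X.ac_ec]
        exact Prod.ext (hi _ _) (hi _ _)
    have hv' : (π.prodMap π) (m, n) = v := Prod.ext hm hn
    obtain ⟨W, hW, hxW⟩ := hx.1.1
    have hx1 : x 1 = 0 := by
      have h1 : x (1 * 1) = x 1 + ac2 e c κ ρb (jp 1) (x 1) := hx.1.2 1 1
      have h2 := ((X.act actb).comp jp).one (x 1)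
      rw [mul_one, h2] at h1
      exact left_eq_add.1 h1
    have hWt : ∀ w ∈ W, w = 1 := by
      intro w hw
      by_contra hw1
      refine h0 (funext fun d => ?_)
      rcases hP d with h3 | h3
      · rw [h3, hx1]
        rfl
      · have h4 : jp w = c := (hP w).resolve_left hw1
        have h5 : d = w := mul_left_cancel ((inf_two X hP h3 h3).trans (inf_two X hP h3 h4).symm)
        have h6 := hxW 1 w hw
        rw [one_mul, hx1] at h6
        rw [h5, h6]
        rfl
    refine ⟨d0 (fun d => ac2 e c κ ρ₁ (jp d)) (m, n), ⟨⟨W, hW, fun g w hw => ?_⟩, fun a b => ?_⟩,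
      ⟨0, (i.prodMap i) (m, n),
        (zM (O := O) TP ((X.act act₁).comp jp) fun d => X.lin lin₁ (jp d)).zero_mem, ?_,
        fun d => ?_⟩, fun d => ?_⟩
    · rw [hWt w hw, mul_one]
    · show ac2 e c κ ρ₁ (jp (a * b)) (m, n) - (m, n) = ac2 e c κ ρ₁ (jp a) (m, n) - (m, n) +
        ac2 e c κ ρ₁ (jp a) (ac2 e c κ ρ₁ (jp b) (m, n) - (m, n))
      rw [map_mul, (X.act act₁).mul, (X.act act₁).sub]
      abel
    · have e2 : (fun d => (π.prodMap π) ((0 : P → M₁ × M₁) d)) = 0 := by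
        funext d
        exact map_zero _
      rw [e2]
      exact Submodule.zero_mem _
    · show (i.prodMap i) (ac2 e c κ ρ₁ (jp d) (m, n) - (m, n)) = (i.prodMap i) 0 +
        (ac2 e c κ ρ (jp d) ((i.prodMap i) (m, n)) - (i.prodMap i) (m, n))
      rw [map_sub, hi2, map_zero, zero_add]
    · rw [hv]
      show ac2 e c κ ρb (jp d) v - v = (π.prodMap π) (ac2 e c κ ρ₁ (jp d) (m, n) - (m, n))
      rw [map_sub, hp2, hv']
  refine ⟨1, ?_, ⟨0, (pow_zero _).symm⟩, ?_⟩
  · rw [mul_one]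
    refine (AddSubgroup.relIndex_eq_one.2 fun x hx => ?_).symm
    obtain ⟨v, hv⟩ := inf_cob X actU hP hx
    exact ⟨v, funext hv⟩
  · rw [e1, e2]
    have p1 := GP.card_pow (O := O) (urp X TP jp ∅ act lin)
    have p2 := GP.card_pow (O := O) (urp X TP jp ∅ actb linb)
    have p3 := GP.evPow_sq (GP.isPow_mul p1 p2)
    convert p3 using 1
    ring

end

end Pool.Agent.Work.MP_787500_nt.QS
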