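import Mathlib
import Pool.Agent.Work.MP_787500_nt.QS.KQ2
import Pool.Agent.Work.MP_787500_nt.KR.MNSub

/-!
Parity at a level, local numbers at a level: definitions (fixed, do not change).
-/

set_option autoImplicit false
set_option linter.unusedSectionVars false

namespace Pool.Agent.Work.MP_787500_nt.QS

open Pool.Agent.Work.MP_787500_nt.GP (A0 IsAct d0 d1 d2 tw cup11 cup21 cup12 cup01 cup02 EvPow IsPow)
open Pool.Agent.Work.MP_787500_nt.KR (FSys Sm1 Sm2 IsChar Smooth Z1 Z2 B2 LocH Pair LDual GlobH Mid Sha2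
  IsTr zM z1s b1s ParD SDualF perpM selM Betw SubU h1 sh1)

universe u v

section

open Matrix
open Pool.Agent.Work.MP_787500_nt.GP (OE MN actN bN Lat bil)
open Pool.Agent.Work.MP_787500_nt.KR (mnI mnP sdualF_MN LocRep)

variable {F : Type v} [NormedField F] [NormedAlgebra ℚ_[2] F] [FiniteDimensional ℚ_[2] F] {n : ℕ}
  {b : Matrix (Fin n) (Fin n) F} {l : OE F} {t : F →ₗ[ℚ_[2]] ℚ_[2]}
  {T : Submodule (OE F) (Fin n → F)}


variable {G : Type*} [Group G] {S : FSys G} {Φ Ψ : Type*} [Fintype Φ] [Fintype Ψ] {D : Φ → Type u}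
  [∀ w, Group (D w)] {SD : ∀ w, FSys (D w)} {j : ∀ w, D w →* G} {χ : G → ℤ_[2]}
  {inv : ∀ w, (D w → D w → A0) → A0} {κ : G →* G} {Θ : Set (G × G)} {Γ : Type*} [Group Γ]
  {Sq : FSys Γ} {E : Ψ → Type u} [∀ p, Group (E p)] {SE : ∀ p, FSys (E p)} {je : ∀ p, E p →* Γ}
  {χq : Γ → ℤ_[2]} {inve : ∀ p, (E p → E p → A0) → A0} {e : G →* Γ} {c : Γ}
  {In : ∀ p, Set (E p)}
  {tr : ((Γ → Γ → Γ → A0) × (∀ i, gQ D E i → gQ D E i → A0)) →+ A0}  {ρ : G → Matrix (Fin n) (Fin n) F}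

/-- parity at the level `N` -/
def PN (H : ParD.{v} S SD j χ inv κ Θ) (h : Lat b l t T)
    (hr : LocRep S χ T b ρ (fun g => ρ (κ g)))
    (hal : ∀ p ∈ Θ, ∀ x : Fin n → F, bil b x (ρ p.1 *ᵥ x) = 0) [IsLocalRing (OE F)] (N : ℕ) :
    Prop :=
  ∀ Λ : ∀ w, Submodule (OE F) (D w → MN T l N),
    (∀ w, Betw (SD w) (fun d => actN l N ρ hr.st (j w d)) (Λ w)) →
    EvPow (Nat.card (IsLocalRing.ResidueField (OE F)))
      (Nat.card (selM (sdualF_MN h hr hal N) j Λ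
        fun w => perpM H (sdualF_MN h hr hal N) w (Λ w)) * ∏ w, Nat.card (Λ w))

/-- the local number for the levels `N`, `N + 2` -/
def NumN (X : Two e c κ) (H : ParD.{v} S SD j χ inv κ Θ) (h : Lat b l t T)
    (hr : LocRep S χ T b ρ (fun g => ρ (κ g)))
    (hal : ∀ p ∈ Θ, ∀ x : Fin n → F, bil b x (ρ p.1 *ᵥ x) = 0) [IsLocalRing (OE F)] (N : ℕ)
    {P : Type*} [Group P] (TP : FSys P) (jp : P →* Γ) (Ip : Set P) : Prop :=
  NumR X TP jp Ip (Nat.card (IsLocalRing.ResidueField (OE F))) (mnI T l (Nat.le_succ (N + 1)))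
    (mnP T l 1 (le_refl (N + 1))) (sdualF_MN h hr hal (N + 2)).act (sdualF_MN h hr hal (N + 2)).lin
    (sdualF_MN h hr hal (N + 1)).act (sdualF_MN h hr hal (N + 1)).lin
    (sdualF_MN h hr hal N).act (sdualF_MN h hr hal N).lin (sdualF_MN h hr hal 1).act

end

end Pool.Agent.Work.MP_787500_nt.QS
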