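import Mathlib
import Pool.Agent.Work.MP_787500_nt.QS.KQ3
import Pool.Agent.Work.MP_787500_nt.QS.Qm2
import Pool.Agent.Work.MP_787500_nt.QL.Ram

/-!
The local number at a ramified finite place.

`urp` has `|M| ^ 2` elements, `urp ⊓ indp` has `|M₁| ^ 2 * |B1(U × U)|` elements, `redp = urp`, and
`t = |(U × U)^Δ|` satisfies `t ^ 2 = h1`, `t * |B1(U × U)| = |U| ^ 2`.
-/

set_option autoImplicit false
set_option linter.unusedSectionVars false

namespace Pool.Agent.Work.MP_787500_nt.QS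

open Pool.Agent.Work.MP_787500_nt.GP (A0 IsAct d0 d1 d2 tw cup11 cup21 cup12 cup01 cup02 EvPow IsPow)
open Pool.Agent.Work.MP_787500_nt.KR (FSys Sm1 Sm2 IsChar Smooth Z1 Z2 B2 LocH Pair LDual GlobH Mid Sha2
  IsTr zM z1s b1s ParD SDualF perpM selM Betw SubU h1 sh1)
open Pool.Agent.Work.MP_787500_nt.QL (RamF TrivIn fixG)

universe u v

section abs

variable {X : Type*} [Group X] {T : FSys X} {O : Type*} [CommRing O] {V V₁ Vb U Q : Type*}
  [AddCommGroup V] [Module O V] [AddCommGroup V₁] [Module O V₁] [AddCommGroup Vb] [Module O Vb]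
  [AddCommGroup U] [Module O U] [AddCommGroup Q] [Module O Q] {ρ : X → V → V} {ρ₁ : X → V₁ → V₁}
  {ρb : X → Vb → Vb} {υ : X → U → U} {ω : X → Q → Q} {e : U →ₗ[O] V₁} {i : V₁ →ₗ[O] V}
  {π : V₁ →ₗ[O] Vb} {q : V →ₗ[O] Q} {In : Set X}

private theorem rk {A B : Type*} [AddCommGroup A] [AddCommGroup B] (f : A →+ B) :
    Nat.card A = Nat.card f.range * Nat.card f.ker := by
  have h1 : Nat.card A = Nat.card (A ⧸ f.ker) * Nat.card f.ker :=
    AddSubgroup.card_eq_card_quotient_mul_card_addSubgroup _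
  rw [Nat.card_congr (QuotientAddGroup.quotientKerEquivRange f).toEquiv] at h1
  exact h1

/-- the unramified cocycles in the induced condition -/
private theorem ur_ind_card (act : IsAct ρ) (lin : ∀ g (a : O) m, ρ g (a • m) = a • ρ g m)
    (act₁ : IsAct ρ₁) (lin₁ : ∀ g (a : O) m, ρ₁ g (a • m) = a • ρ₁ g m) (actQ : IsAct ω)
    (sm : Smooth T ρ) (iinj : Function.Injective i) (qsurj : Function.Surjective q)
    (qker : ∀ m, q m = 0 ↔ ∃ m₁, i m₁ = m) (eqi : ∀ g m, i (ρ₁ g m) = ρ g (i m))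
    (eqp : ∀ g m, π (ρ₁ g m) = ρb g (π m)) (eqq : ∀ g m, q (ρ g m) = ω g (q m))
    (actb : IsAct ρb) (linb : ∀ g (a : O) m, ρb g (a • m) = a • ρb g m)
    (hIn : ∀ d ∈ In, ∀ v, ρ d v = v) :
    Nat.card (urY T act lin In ⊓ indY T i π act lin act₁ lin₁
        (urY T actb linb In) : Submodule O (X → V)) =
      Nat.card (urY T act₁ lin₁ In) * Nat.card (b1s actQ) := by
  have hd0 : ∀ m, ∀ d ∈ In, d0 ρ m d = 0 := fun m d hd => by
    show ρ d m - m = 0
    rw [hIn d hd, sub_self]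
  let W : Submodule O (X → V) := urY T act lin In ⊓ indY T i π act lin act₁ lin₁
        (urY T actb linb In)
  let f : W →+ (X → Q) := ((q.compLeft X).domRestrict W).toAddMonoidHom
  have hr : f.range = b1s actQ := by
    ext y
    constructor
    · rintro ⟨⟨x, hx, x₁, m, h1, h2, h3⟩, rfl⟩
      refine ⟨q m, ?_⟩
      funext d
      show q (x d) = ω d (q m) - q m
      rw [h3, map_add, (qker _).2 ⟨_, rfl⟩, zero_add]
      show q (ρ d m - m) = _
      rw [map_sub, eqq]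
    · rintro ⟨n, rfl⟩
      obtain ⟨m, rfl⟩ := qsurj n
      refine ⟨⟨d0 ρ m, ⟨KR.d0_Z1 act sm m, hd0 m⟩, 0, m, (zM T act₁ lin₁).zero_mem,
        ?_, fun d => ?_⟩, ?_⟩
      · have e1 : (fun d => π ((0 : X → V₁) d)) = 0 := funext fun d => map_zero π
        rw [e1]
        exact Submodule.zero_mem _
      · show d0 ρ m d = i 0 + d0 ρ m d
        rw [map_zero, zero_add]
      · funext d
        show q (ρ d m - m) = ω d (q m) - q m
        rw [map_sub, eqq]
  have hk : Nat.card f.ker = Nat.card (urY T act₁ lin₁ In) := by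
    refine (Nat.card_congr (Equiv.ofBijective (fun x : urY T act₁ lin₁ In =>
      (⟨⟨fun d => i (x.1 d), ⟨⟨?_, fun s t => ?_⟩, fun d hd => ?_⟩, x.1, 0, x.2.1,
        ⟨⟨?_, fun s t => ?_⟩, fun d hd => ?_⟩, fun d => ?_⟩, funext fun d => ?_⟩ : f.ker))
      ⟨fun x y hxy => ?_, ?_⟩)).symm
    · obtain ⟨W', hW', h1⟩ := x.2.1.1
      exact ⟨W', hW', fun g w hw => congrArg i (h1 g w hw)⟩
    · show i (x.1 (s * t)) = i (x.1 s) + ρ s (i (x.1 t))
      rw [x.2.1.2, map_add, eqi]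
    · show i (x.1 d) = 0
      rw [x.2.2 d hd, map_zero]
    · obtain ⟨W', hW', h1⟩ := x.2.1.1
      exact ⟨W', hW', fun g w hw => congrArg π (h1 g w hw)⟩
    · show π (x.1 (s * t)) = π (x.1 s) + ρb s (π (x.1 t))
      rw [x.2.1.2, map_add, eqp]
    · show π (x.1 d) = 0
      rw [x.2.2 d hd, map_zero]
    · show i (x.1 d) = i (x.1 d) + (ρ d 0 - 0)
      rw [act.zero, sub_zero, add_zero]
    · show q (i (x.1 d)) = 0
      exact (qker _).2 ⟨_, rfl⟩
    · apply Subtype.ext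
      funext d
      apply iinj
      exact congrFun (congrArg (fun z : f.ker => (z.1.1 : X → V)) hxy) d
    · rintro ⟨⟨x, hx, hx'⟩, hx0⟩
      have h1 : ∀ d, ∃ m₁, i m₁ = x d := fun d => (qker _).1 (congrFun hx0 d)
      choose x₁ h2 using h1
      refine ⟨⟨x₁, ⟨?_, fun s t => iinj ?_⟩, fun d hd => iinj ?_⟩, ?_⟩
      · obtain ⟨W', hW', h3⟩ := hx.1.1
        exact ⟨W', hW', fun g w hw => iinj (by rw [h2, h2, h3 g w hw])⟩
      · rw [map_add, eqi, h2, h2, h2]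
        exact hx.1.2 s t
      · rw [h2, map_zero]
        exact hx.2 d hd
      · apply Subtype.ext
        apply Subtype.ext
        exact funext h2
  rw [rk f, hr, hk, mul_comm]

/-- lifting unramified cocycles, by counting -/
private theorem ur_lift [Finite V₁] [Finite Vb] [Finite U] (act₁ : IsAct ρ₁)
    (lin₁ : ∀ g (a : O) m, ρ₁ g (a • m) = a • ρ₁ g m) (actb : IsAct ρb)
    (linb : ∀ g (a : O) m, ρb g (a • m) = a • ρb g m) (actU : IsAct υ)
    (linU : ∀ g (a : O) m, υ g (a • m) = a • υ g m) (einj : Function.Injective e)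
    (psurj : Function.Surjective π) (pker : ∀ m, π m = 0 ↔ ∃ u, e u = m)
    (eqe : ∀ g u, e (υ g u) = ρ₁ g (e u)) (eqp : ∀ g m, π (ρ₁ g m) = ρb g (π m))
    (c₁ : Nat.card (urY T act₁ lin₁ In) = Nat.card V₁)
    (cb : Nat.card (urY T actb linb In) = Nat.card Vb)
    (cU : Nat.card (urY T actU linU In) = Nat.card U) {y : X → Vb}
    (hy : y ∈ urY T actb linb In) : ∃ x ∈ urY T act₁ lin₁ In, ∀ d, π (x d) = y d := by
  let f : urY T act₁ lin₁ In →+ urY T actb linb In :=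
    AddMonoidHom.mk' (fun x => ⟨fun d => π (x.1 d), ⟨by
      obtain ⟨W', hW', h1⟩ := x.2.1.1
      exact ⟨W', hW', fun g w hw => congrArg π (h1 g w hw)⟩, fun s t => by
        show π (x.1 (s * t)) = π (x.1 s) + ρb s (π (x.1 t))
        rw [x.2.1.2, map_add, eqp]⟩, fun d hd => by
        show π (x.1 d) = 0
        rw [x.2.2 d hd, map_zero]⟩) fun x x' => by
      apply Subtype.ext
      funext d
      exact map_add π _ _
  have hk : Nat.card f.ker = Nat.card U := by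
    rw [← cU]
    refine (Nat.card_congr (Equiv.ofBijective (fun x : urY T actU linU In =>
      (⟨⟨fun d => e (x.1 d), ⟨?_, fun s t => ?_⟩, fun d hd => ?_⟩, ?_⟩ : f.ker))
      ⟨fun x y hxy => ?_, ?_⟩)).symm
    · obtain ⟨W', hW', h1⟩ := x.2.1.1
      exact ⟨W', hW', fun g w hw => congrArg e (h1 g w hw)⟩
    · show e (x.1 (s * t)) = e (x.1 s) + ρ₁ s (e (x.1 t))
      rw [x.2.1.2, map_add, eqe]
    · show e (x.1 d) = 0
      rw [x.2.2 d hd, map_zero]
    · apply Subtype.ext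
      funext d
      exact (pker _).2 ⟨_, rfl⟩
    · apply Subtype.ext
      funext d
      apply einj
      exact congrFun (congrArg (fun z : f.ker => (z.1.1 : X → V₁)) hxy) d
    · rintro ⟨⟨x, hx⟩, hx0⟩
      have h1 : ∀ d, ∃ u, e u = x d := fun d =>
        (pker _).1 (congrFun (congrArg (fun z : urY T actb linb In => (z.1 : X → Vb)) hx0) d)
      choose u h2 using h1
      refine ⟨⟨u, ⟨?_, fun s t => einj ?_⟩, fun d hd => einj ?_⟩, ?_⟩
      · obtain ⟨W', hW', h3⟩ := hx.1.1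
        exact ⟨W', hW', fun g w hw => einj (by rw [h2, h2, h3 g w hw])⟩
      · rw [map_add, eqe, h2, h2, h2]
        exact hx.1.2 s t
      · rw [h2, map_zero]
        exact hx.2 d hd
      · apply Subtype.ext
        apply Subtype.ext
        exact funext h2
  have e1 := rk f
  rw [hk, c₁] at e1
  have e2 := rk π.toAddMonoidHom
  have e3 : Nat.card π.toAddMonoidHom.range = Nat.card Vb := by
    rw [AddMonoidHom.range_eq_top.2 psurj]
    exact Nat.card_congr AddSubgroup.topEquiv.toEquiv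
  have e4 : Nat.card π.toAddMonoidHom.ker = Nat.card U := by
    refine (Nat.card_congr (Equiv.ofBijective (fun u : U =>
      (⟨e u, (pker _).2 ⟨u, rfl⟩⟩ : π.toAddMonoidHom.ker)) ⟨fun u u' h => ?_, ?_⟩)).symm
    · exact einj (congrArg Subtype.val h)
    · rintro ⟨m, hm⟩
      obtain ⟨u, hu⟩ := (pker m).1 hm
      exact ⟨u, Subtype.ext hu⟩
  rw [e3, e4] at e2
  have e5 : Nat.card f.range = Nat.card (urY T actb linb In) := by
    rw [cb]
    have hU : 0 < Nat.card U := Nat.card_pos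
    exact Nat.eq_of_mul_eq_mul_right hU (e1.symm.trans e2)
  have hfin : Finite (urY T actb linb In) := by
    refine Nat.finite_of_card_ne_zero ?_
    rw [cb]
    exact Nat.card_pos.ne'
  have e6 : f.range = ⊤ := AddSubgroup.eq_top_of_card_eq _ e5
  obtain ⟨x, hx⟩ := (AddMonoidHom.range_eq_top.1 e6) ⟨y, hy⟩
  exact ⟨x.1, x.2, fun d => congrFun (congrArg Subtype.val hx) d⟩

/-- the reduced condition of the induced condition of the unramified condition -/
private theorem ur_red (act : IsAct ρ) (lin : ∀ g (a : O) m, ρ g (a • m) = a • ρ g m)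
    (act₁ : IsAct ρ₁) (lin₁ : ∀ g (a : O) m, ρ₁ g (a • m) = a • ρ₁ g m)
    (iinj : Function.Injective i) (eqp : ∀ g m, π (ρ₁ g m) = ρb g (π m))
    (actb : IsAct ρb) (linb : ∀ g (a : O) m, ρb g (a • m) = a • ρb g m)
    (hIn : ∀ d ∈ In, ∀ v, ρ d v = v)
    (hl : ∀ y ∈ urY T actb linb In, ∃ x ∈ urY T act₁ lin₁ In, ∀ d, π (x d) = y d) :
    redY T i π act₁ lin₁ (indY T i π act lin act₁ lin₁ (urY T actb linb In)) =
      urY T actb linb In := by
  ext y
  constructor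
  · rintro ⟨x₁, h1, ⟨z₁, m, h2, h3, h4⟩, h5⟩
    refine ⟨⟨?_, fun s t => ?_⟩, fun d hd => ?_⟩
    · obtain ⟨W', hW', h6⟩ := h1.1
      exact ⟨W', hW', fun g w hw => by rw [h5, h5, h6 g w hw]⟩
    · rw [h5, h5, h5, h1.2, map_add, eqp]
    · have h4' : i (x₁ d) = i (z₁ d) + d0 ρ m d := h4 d
      have h6 : i (x₁ d) = i (z₁ d) := by
        rw [h4']
        show i (z₁ d) + (ρ d m - m) = _
        rw [hIn d hd, sub_self, add_zero]
      rw [h5, iinj h6]
      exact h3.2 d hd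
  · intro hy
    obtain ⟨x, hx, hxy⟩ := hl y hy
    have e1 : (fun d => π (x d)) = y := funext hxy
    refine ⟨x, hx.1, ⟨x, 0, hx.1, ?_, fun d => ?_⟩, fun d => (hxy d).symm⟩
    · rw [e1]
      exact hy
    · show i (x d) = i (x d) + (ρ d 0 - 0)
      rw [act.zero, sub_zero, add_zero]

end abs

section two

variable {G Γ : Type*} [Group G] [Group Γ] {e : G →* Γ} {c : Γ} {κ : G →* G} (X₂ : Two e c κ)
  {X : Type*} [Group X] {T : FSys X} {χx : X → ℤ_[2]} {jx : X →* Γ} {iv : (X → X → A0) → A0}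
  {In : Set X} {O : Type*} [CommRing O] {M M₁ Mb U : Type*} [AddCommGroup M] [Module O M]
  [AddCommGroup M₁] [Module O M₁] [AddCommGroup Mb] [Module O Mb] [AddCommGroup U] [Module O U]
  {ρ : G → M → M} {b : M →+ M →+ A0} {ρ₁ : G → M₁ → M₁} {b₁ : M₁ →+ M₁ →+ A0}
  {ρb : G → Mb → Mb} {bb : Mb →+ Mb →+ A0} {υ : G → U → U} {β : U →+ U →+ A0}
  {e₀ : U →ₗ[O] M₁} {i : M₁ →ₗ[O] M} {π : M₁ →ₗ[O] Mb} {q : M →ₗ[O] U} {θ : G} {J : Subgroup X}

include X₂ in
private theorem ac2_map {f : M →ₗ[O] M₁} (hf : ∀ g m, f (ρ g m) = ρ₁ g (f m)) (σ : Γ) (v : M × M) :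
    (f.prodMap f) (ac2 e c κ ρ σ v) = ac2 e c κ ρ₁ σ ((f.prodMap f) v) := by
  rcases X₂.cases σ with ⟨g, rfl⟩ | ⟨g, rfl⟩
  · rw [X₂.ac_e, X₂.ac_e]
    exact Prod.ext (hf _ _) (hf _ _)
  · rw [X₂.ac_ec, X₂.ac_ec]
    exact Prod.ext (hf _ _) (hf _ _)

/-- the number of unramified cocycles -/
theorem card_urp [Finite M] (h : RamF e c T χx jx In θ J) (act : IsAct ρ)
    (lin : ∀ g (a : O) m, ρ g (a • m) = a • ρ g m) (ht : TrivIn e κ jx In ρ)
    (hp : Pair T χx (fun d => ac2 e c κ ρ (jx d)) (fun d => ac2 e c κ ρ (jx d)) (pB (be2 b))) :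
    Nat.card (urY (O := O) T ((X₂.act act).comp jx) (fun d => X₂.lin lin (jx d)) In) =
      Nat.card (M × M) := by
  obtain ⟨a, σ, τ, l, hT⟩ := h.tame
  obtain ⟨k, hk, -⟩ := QL.exists_killed hp
  rw [QL.urY_eq X₂ h act lin ht]
  exact QL.card_zurM hT _ _ hp.sm hk

private theorem sq_ev {q' x : ℕ} (h : IsPow q' x) : EvPow q' (x * x) := by
  obtain ⟨m, rfl⟩ := h
  exact ⟨m, by rw [two_mul, pow_add]⟩

private theorem pow_mul' {q' x y : ℕ} (h : IsPow q' x) (h' : IsPow q' y) : IsPow q' (x * y) := by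
  obtain ⟨m, rfl⟩ := h
  obtain ⟨n, rfl⟩ := h'
  exact ⟨m + n, by rw [pow_add]⟩

/-- THE LOCAL NUMBER AT A RAMIFIED FINITE PLACE. -/
theorem numR_ram [IsLocalRing O] [Finite (IsLocalRing.ResidueField O)] [Finite M] [Finite M₁]
    [Finite Mb] [Finite U] (h : RamF e c T χx jx In θ J) (L : LocH T χx iv)
    (act : IsAct ρ) (lin : ∀ g (a : O) m, ρ g (a • m) = a • ρ g m)
    (act₁ : IsAct ρ₁) (lin₁ : ∀ g (a : O) m, ρ₁ g (a • m) = a • ρ₁ g m) (actb : IsAct ρb)
    (linb : ∀ g (a : O) m, ρb g (a • m) = a • ρb g m) (actU : IsAct υ)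
    (linU : ∀ g (a : O) m, υ g (a • m) = a • υ g m)
    (hs : SubU ρ b ρ₁ ρb bb υ β e₀ i π q) (ht : TrivIn e κ jx In ρ)
    (hp : Pair T χx (fun d => ac2 e c κ ρ (jx d)) (fun d => ac2 e c κ ρ (jx d)) (pB (be2 b)))
    (hp₁ : Pair T χx (fun d => ac2 e c κ ρ₁ (jx d)) (fun d => ac2 e c κ ρ₁ (jx d)) (pB (be2 b₁)))
    (hpb : Pair T χx (fun d => ac2 e c κ ρb (jx d)) (fun d => ac2 e c κ ρb (jx d)) (pB (be2 bb)))
    (hpU : Pair T χx (fun d => ac2 e c κ υ (jx d)) (fun d => ac2 e c κ υ (jx d)) (pB (be2 β)))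
    (hlU : LDual T iv (fun d => ac2 e c κ υ (jx d)) (fun d => ac2 e c κ υ (jx d)) (pB (be2 β))) :
    NumR X₂ T jx In (Nat.card (IsLocalRing.ResidueField O)) i π act lin act₁ lin₁ actb linb
      actU := by
  have ht₁ : TrivIn e κ jx In ρ₁ := fun d hd => by
    obtain ⟨g, h1, h2, h3⟩ := ht d hd
    exact ⟨g, h1, fun m => hs.iinj (by rw [hs.eqi, h2]), fun m => hs.iinj (by rw [hs.eqi, h3])⟩
  have htb : TrivIn e κ jx In ρb := fun d hd => by
    obtain ⟨g, h1, h2, h3⟩ := ht₁ d hd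
    refine ⟨g, h1, fun m => ?_, fun m => ?_⟩
    · obtain ⟨m, rfl⟩ := hs.psurj m
      rw [← hs.eqp, h2]
    · obtain ⟨m, rfl⟩ := hs.psurj m
      rw [← hs.eqp, h3]
  have htU : TrivIn e κ jx In υ := fun d hd => by
    obtain ⟨g, h1, h2, h3⟩ := ht₁ d hd
    exact ⟨g, h1, fun m => hs.einj (by rw [hs.eqe, h2]), fun m => hs.einj (by rw [hs.eqe, h3])⟩
  have c0 := card_urp X₂ h act lin ht hp
  have c1 := card_urp X₂ h act₁ lin₁ ht₁ hp₁
  have cb := card_urp X₂ h actb linb htb hpb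
  have cU := card_urp X₂ h actU linU htU hpU
  have hIn : ∀ d ∈ In, ∀ v : M × M, ac2 e c κ ρ (jx d) v = v := fun d hd v => ht.act X₂ hd v
  have hi : Function.Injective (i.prodMap i) := fun v w h => Prod.ext
    (hs.iinj (congrArg Prod.fst h)) (hs.iinj (congrArg Prod.snd h))
  have he : Function.Injective (e₀.prodMap e₀) := fun v w h => Prod.ext
    (hs.einj (congrArg Prod.fst h)) (hs.einj (congrArg Prod.snd h))
  have hpi : Function.Surjective (π.prodMap π) := fun v => by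
    obtain ⟨m, hm⟩ := hs.psurj v.1
    obtain ⟨m', hm'⟩ := hs.psurj v.2
    exact ⟨(m, m'), Prod.ext hm hm'⟩
  have hq : Function.Surjective (q.prodMap q) := fun v => by
    obtain ⟨m, hm⟩ := hs.qsurj v.1
    obtain ⟨m', hm'⟩ := hs.qsurj v.2
    exact ⟨(m, m'), Prod.ext hm hm'⟩
  have hqk : ∀ v : M × M, (q.prodMap q) v = 0 ↔ ∃ v₁, (i.prodMap i) v₁ = v := fun v => by
    constructor
    · intro h1
      obtain ⟨m, hm⟩ := (hs.qker v.1).1 (congrArg Prod.fst h1)
      obtain ⟨m', hm'⟩ := (hs.qker v.2).1 (congrArg Prod.snd h1)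
      exact ⟨(m, m'), Prod.ext hm hm'⟩
    · rintro ⟨w, rfl⟩
      exact Prod.ext ((hs.qker _).2 ⟨_, rfl⟩) ((hs.qker _).2 ⟨_, rfl⟩)
  have hpk : ∀ v : M₁ × M₁, (π.prodMap π) v = 0 ↔ ∃ u, (e₀.prodMap e₀) u = v := fun v => by
    constructor
    · intro h1
      obtain ⟨m, hm⟩ := (hs.pker v.1).1 (congrArg Prod.fst h1)
      obtain ⟨m', hm'⟩ := (hs.pker v.2).1 (congrArg Prod.snd h1)
      exact ⟨(m, m'), Prod.ext hm hm'⟩
    · rintro ⟨w, rfl⟩
      exact Prod.ext ((hs.pker _).2 ⟨_, rfl⟩) ((hs.pker _).2 ⟨_, rfl⟩)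
  have hli : ∀ y ∈ urY (O := O) T ((X₂.act actb).comp jx) (fun d => X₂.lin linb (jx d)) In,
      ∃ x ∈ urY (O := O) T ((X₂.act act₁).comp jx) (fun d => X₂.lin lin₁ (jx d)) In,
        ∀ d, (π.prodMap π) (x d) = y d := fun y hy =>
    ur_lift _ _ _ _ ((X₂.act actU).comp jx) (fun d => X₂.lin linU (jx d)) he hpi hpk
      (fun d u => ac2_map X₂ hs.eqe (jx d) u) (fun d u => ac2_map X₂ hs.eqp (jx d) u) c1 cb cU hy
  have k1 := ur_ind_card (T := T) (In := In) ((X₂.act act).comp jx) (fun d => X₂.lin lin (jx d))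
    ((X₂.act act₁).comp jx) (fun d => X₂.lin lin₁ (jx d)) hpU.act hp.sm hi hq hqk
    (fun d u => ac2_map X₂ hs.eqi (jx d) u) (fun d u => ac2_map X₂ hs.eqp (jx d) u)
    (fun d u => ac2_map X₂ hs.eqq (jx d) u) ((X₂.act actb).comp jx)
    (fun d => X₂.lin linb (jx d)) hIn
  have k2 := ur_red (T := T) (In := In) ((X₂.act act).comp jx) (fun d => X₂.lin lin (jx d))
    ((X₂.act act₁).comp jx) (fun d => X₂.lin lin₁ (jx d)) hi
    (fun d u => ac2_map X₂ hs.eqp (jx d) u)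
    ((X₂.act actb).comp jx) (fun d => X₂.lin linb (jx d)) hIn hli
  obtain ⟨a, σ, τ, l, hT⟩ := h.tame
  let FU : Submodule O (U × U) :=
    { carrier := {v | ∀ d, ac2 e c κ υ (jx d) v = v}
      add_mem' := fun {v w} hv hw d => by rw [(X₂.act actU).add, hv d, hw d]
      zero_mem' := fun d => (X₂.act actU).zero _
      smul_mem' := fun a v hv d => by rw [X₂.lin linU, hv d] }
  have hFU : Nat.card FU = Nat.card (fixG hpU.act) := rfl
  have e1 := QL.h1_eq hT L hpU hlU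
  have e2 := QL.card_b1s hpU
  refine ⟨Nat.card (fixG hpU.act), e1.symm, ?_, ?_⟩
  · rw [← hFU]
    exact GP.card_pow (O := O) FU
  · have k2' : redp X₂ T jx In i π act lin act₁ lin₁ actb linb = urp X₂ T jx In actb linb := k2
    have k1' : Nat.card ↥(urp X₂ T jx In act lin ⊓ indp X₂ T jx In i π act lin act₁ lin₁ actb linb) =
        Nat.card (M₁ × M₁) * Nat.card (b1s hpU.act) := by
      rw [← c1]
      exact k1
    have c0' : Nat.card (urp X₂ T jx In act lin) = Nat.card (M × M) := c0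
    have cb' : Nat.card (urp X₂ T jx In actb linb) = Nat.card (Mb × Mb) := cb
    rw [k2', inf_idem, k1', c0', cb']
    have e3 : Nat.card (M₁ × M₁) * Nat.card (b1s hpU.act) * Nat.card (M × M) *
        (Nat.card (Mb × Mb) * Nat.card (Mb × Mb)) * Nat.card (fixG hpU.act) =
        (Nat.card M₁ * Nat.card M * (Nat.card Mb * Nat.card Mb) * Nat.card U) *
          (Nat.card M₁ * Nat.card M * (Nat.card Mb * Nat.card Mb) * Nat.card U) := by
      rw [Nat.card_prod] at e2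
      simp only [Nat.card_prod]
      calc _ = Nat.card M₁ * Nat.card M₁ * (Nat.card M * Nat.card M) *
          (Nat.card Mb * Nat.card Mb * (Nat.card Mb * Nat.card Mb)) *
          (Nat.card (fixG hpU.act) * Nat.card (b1s hpU.act)) := by ring
        _ = _ := by
          rw [e2]
          ring
    rw [e3]
    exact sq_ev (pow_mul' (pow_mul' (pow_mul' (GP.card_pow (O := O) M₁) (GP.card_pow (O := O) M))
      (pow_mul' (GP.card_pow (O := O) Mb) (GP.card_pow (O := O) Mb))) (GP.card_pow (O := O) U))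

end two

section fin

open Matrix
open Pool.Agent.Work.MP_787500_nt.GP (OE MN actN bN Lat bil)
open Pool.Agent.Work.MP_787500_nt.KR (mnI mnP sdualF_MN LocRep)

variable {F : Type v} [NormedField F] [NormedAlgebra ℚ_[2] F] [FiniteDimensional ℚ_[2] F] {n : ℕ}
  {b : Matrix (Fin n) (Fin n) F} {l : OE F} {t : F →ₗ[ℚ_[2]] ℚ_[2]}
  {T : Submodule (OE F) (Fin n → F)}

variable {G : Type*} [Group G] {S : FSys G} {Φ Ψ : Type*} [Fintype Φ] [Fintype Ψ] {D : Φ → Type u}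
  [∀ w, Group (D w)] {SD : ∀ w, FSys (D w)} {j : ∀ w, D w →* G} {χ : G → ℤ_[2]}
  {inv : ∀ w, (D w → D w → A0) → A0} {κ : G →* G} {Θ : Set (G × G)} {Γ : Type*} [Group Γ]
  {Sq : FSys Γ} {E : Ψ → Type u} [∀ p, Group (E p)] {SE : ∀ p, FSys (E p)} {je : ∀ p, E p →* Γ}
  {χq : Γ → ℤ_[2]} {inve : ∀ p, (E p → E p → A0) → A0} {e : G →* Γ} {c : Γ}
  {In : ∀ p, Set (E p)}
  {tr : ((Γ → Γ → Γ → A0) × (∀ i, gQ D E i → gQ D E i → A0)) →+ A0}  {ρ : G → Matrix (Fin n) (Fin n) F}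

/-- `In p` acts trivially on smooth modules -/
theorem trivIn_K (K : KQ.{u, v} S SD j χ inv κ Sq SE je χq inve e c In tr)
    (H : ParD.{v} S SD j χ inv κ Θ) {M : Type*} [AddCommGroup M] {σ : G → M → M}
    (hs : Smooth S σ) (p : Ψ) : TrivIn e κ (je p) (In p) σ := by
  intro d hd
  obtain ⟨g, hg, h1⟩ := K.inz p d hd
  obtain ⟨W, hW, h2⟩ := hs
  obtain ⟨W', hW', h3⟩ := H.ksys W hW
  exact ⟨g, hg, h2 g (h1 W hW), h2 _ (h3 g (h1 W' hW'))⟩

/-- the pairing of `M × M` at the places in `Ψ` -/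
theorem pair_K (K : KQ.{u, v} S SD j χ inv κ Sq SE je χq inve e c In tr)
    (H : ParD.{v} S SD j χ inv κ Θ) {O : Type*} [CommRing O] {M : Type*} [AddCommGroup M]
    [Module O M] {σ : G → M → M} {b : M →+ M →+ A0} (h : SDualF S χ κ Θ O σ b) :
    QM Sq χq O (ac2 e c κ σ) (be2 b) (la2 e c κ σ b) :=
  qm_two K.two K.chi K.chic K.glob.glob.char.mul K.up H.ksys h

/-- THE LOCAL NUMBER AT THE LEVELS `N`, `N + 2` AT A RAMIFIED FINITE PLACE. -/
theorem numN_ram [IsLocalRing (OE F)] (K : KQ.{u, v} S SD j χ inv κ Sq SE je χq inve e c In tr)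
    (H : ParD.{v} S SD j χ inv κ Θ) (h : Lat b l t T)
    (hr : LocRep S χ T b ρ (fun g => ρ (κ g)))
    (hal : ∀ p ∈ Θ, ∀ x : Fin n → F, bil b x (ρ p.1 *ᵥ x) = 0) (N : ℕ) (p : Ψ) {θ : G}
    {J : Subgroup (E p)} (hR : RamF e c (SE p) (fun d => χq (je p d)) (je p) (In p) θ J) :
    NumN K.two H h hr hal N (SE p) (je p) (In p) := by
  have hres : Finite (IsLocalRing.ResidueField (OE F)) := GP.res_finite
  have hf : ∀ N, Finite (MN T l N) := fun N => GP.MN_finite h N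
  have hq : ∀ k, Pair (SE p) (fun d => χq (je p d))
      (fun d => ac2 e c κ (actN l k ρ hr.st) (je p d))
      (fun d => ac2 e c κ (actN l k ρ hr.st) (je p d)) (pB (be2 (bN h k))) := fun k =>
    (QM.comp (pair_K K H (sdualF_MN h hr hal k)) (K.glob.glob.jsm (Sum.inr p))).pair
  exact numR_ram K.two hR (K.glob.glob.loc (Sum.inr p)) (sdualF_MN h hr hal (N + 2)).act
    (sdualF_MN h hr hal (N + 2)).lin (sdualF_MN h hr hal (N + 1)).act
    (sdualF_MN h hr hal (N + 1)).lin (sdualF_MN h hr hal N).act (sdualF_MN h hr hal N).lin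
    (sdualF_MN h hr hal 1).act (sdualF_MN h hr hal 1).lin (KR.subU_MN h hr.st N)
    (trivIn_K K H (sdualF_MN h hr hal (N + 2)).sm p) (hq (N + 2)) (hq (N + 1)) (hq N) (hq 1)
    (K.glob.ld (Sum.inr p) (pair_K K H (sdualF_MN h hr hal 1)).pair)

end fin

end Pool.Agent.Work.MP_787500_nt.QS
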