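import Mathlib
import Pool.Agent.Work.MP_787500_nt.QS.KQ
import Pool.Agent.Work.MP_787500_nt.QS.Th

/-!
# Module Flag2 (size M): the flag `M_1 ⊆ M_(N+1) ⊆ M_(N+2)` of the modules `M × M`

`MN T l k = l^(-k) T / T`, see KR/MNSub (`mnI` inclusions, `mnP k` multiplication by `l ^ k`; `subU_MN`, `mnI_of`, `mnP_surj`, `actN_mnI`, `actN_mnP`, `bN_mnI`, `bN_mnP`).
All maps are products of these maps; equivariance by `X.cases` and `X.ac_e`, `X.ac_ec`. `R = M_(N+1)`, `r` = multiplication by `l`, `ι` the inclusion `M_N → M_(N+1)`,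
`qb` = multiplication by `l ^ N`. `pairU`: `bN_mnP` and the symmetry of `bN`; `pairR`: `bN (N + 2) (mnI x) y = bN (N + 1) x (mnP 1 y)`, prove it as `bN_mnP`. `bet`: `bN_mnI`.
`lam`: `la2` is `0` on the image of `e`; outside `bN_mnI` (with `a •`) and the equivariance.
-/

set_option autoImplicit false
set_option linter.unusedSectionVars false

namespace Pool.Agent.Work.MP_787500_nt.QS

open Pool.Agent.Work.MP_787500_nt.GP (A0 IsAct d0 d1 d2 tw cup11 cup21 cup12 cup01 cup02 EvPow IsPow)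
open Pool.Agent.Work.MP_787500_nt.KR (FSys Sm1 Sm2 IsChar Smooth Z1 Z2 B2 LocH Pair LDual GlobH Mid Sha2
  IsTr zM z1s b1s ParD SDualF perpM selM Betw SubU h1 sh1)

universe u v

section

open Matrix
open Pool.Agent.Work.MP_787500_nt.GP (OE MN actN bN Lat)
open Pool.Agent.Work.MP_787500_nt.KR (mnI mnP)

variable {E : Type v} [NormedField E] [NormedAlgebra ℚ_[2] E] [FiniteDimensional ℚ_[2] E] {n : ℕ}
  {b : Matrix (Fin n) (Fin n) E} {l : OE E} {t : E →ₗ[ℚ_[2]] ℚ_[2]}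
  {T : Submodule (OE E) (Fin n → E)} {G Γ : Type*} [Group G] [Group Γ] {κ : G →* G} {e : G →* Γ}
  {c : Γ} {ρ : G → Matrix (Fin n) (Fin n) E}

private theorem ac2_map (X : Two e c κ) {A B : Type*} [AddCommGroup A] [AddCommGroup B]
    {ρA : G → A → A} {ρB : G → B → B} (f : A → B) (hf : ∀ g x, f (ρA g x) = ρB g (f x)) (σ : Γ)
    (v : A × A) :
    (f (ac2 e c κ ρA σ v).1, f (ac2 e c κ ρA σ v).2) = ac2 e c κ ρB σ (f v.1, f v.2) := by
  rcases X.cases σ with ⟨g, rfl⟩ | ⟨g, rfl⟩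
  · rw [X.ac_e, X.ac_e, hf, hf]
  · rw [X.ac_ec, X.ac_ec, hf, hf]

private theorem bN_mnR (h : Lat b l t T) (N : ℕ) (x : MN T l (N + 1)) (y : MN T l (N + 2)) :
    bN h (N + 2) (mnI T l (Nat.le_succ (N + 1)) x) y =
      bN h (N + 1) x (mnP T l 1 (le_refl (N + 2)) y) := by
  rw [GP.bN_val h (N + 2) _ _ (x' := GP.lft (x : GP.Wq T)) (y' := GP.lft (y : GP.Wq T)),
    GP.bN_val h (N + 1) _ _ (x' := GP.lft (x : GP.Wq T)) (y' := (l : E) • GP.lft (y : GP.Wq T)),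
    GP.bil_smul_right]
  · congr 2
    ring
  · rw [GP.mq_lft]
  · rw [GP.mq_smul, GP.mq_lft, KR.coe_mnP, pow_one]
  · rw [GP.mq_lft, KR.coe_mnI]
  · rw [GP.mq_lft]

theorem flag_MN (X : Two e c κ) (h : Lat b l t T) (hst : ∀ d, ∀ x ∈ T, ρ d *ᵥ x ∈ T) (N : ℕ) :
    Flag (O := OE E) (ac2 e c κ (actN l (N + 2) ρ hst)) (be2 (bN h (N + 2)))
      (la2 e c κ (actN l (N + 2) ρ hst) (bN h (N + 2))) (ac2 e c κ (actN l (N + 1) ρ hst))
      (ac2 e c κ (actN l N ρ hst)) (be2 (bN h N)) (la2 e c κ (actN l N ρ hst) (bN h N))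
      (ac2 e c κ (actN l 1 ρ hst)) (ac2 e c κ (actN l 1 ρ hst)) (pB (be2 (bN h 1)))
      (ac2 e c κ (actN l (N + 1) ρ hst)) (pB (be2 (bN h (N + 1))))
      ((mnI T l (Nat.le_add_left 1 N)).prodMap (mnI T l (Nat.le_add_left 1 N)))
      ((mnI T l (Nat.le_succ (N + 1))).prodMap (mnI T l (Nat.le_succ (N + 1))))
      ((mnP T l 1 (le_refl (N + 1))).prodMap (mnP T l 1 (le_refl (N + 1))))
      ((mnP T l (N + 1) (show N + 2 ≤ 1 + (N + 1) by omega)).prodMap
        (mnP T l (N + 1) (show N + 2 ≤ 1 + (N + 1) by omega)))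
      ((mnP T l 1 (le_refl (N + 2))).prodMap (mnP T l 1 (le_refl (N + 2))))
      ((mnI T l (Nat.le_succ N)).prodMap (mnI T l (Nat.le_succ N)))
      ((mnP T l N (show N + 1 ≤ 1 + N by omega)).prodMap
        (mnP T l N (show N + 1 ≤ 1 + N by omega))) where
  einj := Function.Injective.prodMap (KR.mnI_inj (Nat.le_add_left 1 N))
    (KR.mnI_inj (Nat.le_add_left 1 N))
  iinj := Function.Injective.prodMap (KR.mnI_inj (Nat.le_succ (N + 1)))
    (KR.mnI_inj (Nat.le_succ (N + 1)))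
  psurj := fun y => by
    obtain ⟨x1, h1⟩ := (KR.subU_MN h hst N).psurj y.1
    obtain ⟨x2, h2⟩ := (KR.subU_MN h hst N).psurj y.2
    exact ⟨(x1, x2), Prod.ext h1 h2⟩
  qsurj := fun y => by
    obtain ⟨x1, h1⟩ := (KR.subU_MN h hst N).qsurj y.1
    obtain ⟨x2, h2⟩ := (KR.subU_MN h hst N).qsurj y.2
    exact ⟨(x1, x2), Prod.ext h1 h2⟩
  rsurj := fun y => by
    obtain ⟨x1, h1⟩ := KR.mnP_surj (T := T) h.lne 1 (rfl : N + 2 = (N + 1) + 1) y.1
    obtain ⟨x2, h2⟩ := KR.mnP_surj (T := T) h.lne 1 (rfl : N + 2 = (N + 1) + 1) y.2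
    exact ⟨(x1, x2), Prod.ext h1 h2⟩
  iotainj := Function.Injective.prodMap (KR.mnI_inj (Nat.le_succ N)) (KR.mnI_inj (Nat.le_succ N))
  pker m := by
    constructor
    · intro hm
      obtain ⟨u1, h1⟩ := ((KR.subU_MN h hst N).pker m.1).1 (congrArg Prod.fst hm)
      obtain ⟨u2, h2⟩ := ((KR.subU_MN h hst N).pker m.2).1 (congrArg Prod.snd hm)
      exact ⟨(u1, u2), Prod.ext h1 h2⟩
    · rintro ⟨u, rfl⟩
      exact Prod.ext (((KR.subU_MN h hst N).pker _).2 ⟨u.1, rfl⟩)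
        (((KR.subU_MN h hst N).pker _).2 ⟨u.2, rfl⟩)
  qker m := by
    constructor
    · intro hm
      obtain ⟨u1, h1⟩ := ((KR.subU_MN h hst N).qker m.1).1 (congrArg Prod.fst hm)
      obtain ⟨u2, h2⟩ := ((KR.subU_MN h hst N).qker m.2).1 (congrArg Prod.snd hm)
      exact ⟨(u1, u2), Prod.ext h1 h2⟩
    · rintro ⟨u, rfl⟩
      exact Prod.ext (((KR.subU_MN h hst N).qker _).2 ⟨u.1, rfl⟩)
        (((KR.subU_MN h hst N).qker _).2 ⟨u.2, rfl⟩)
  rker m := by
    have key : ∀ x : MN T l (N + 2), mnP T l 1 (le_refl (N + 2)) x = 0 ↔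
        ∃ u : MN T l 1, mnI T l (Nat.le_succ (N + 1)) (mnI T l (Nat.le_add_left 1 N) u) = x := by
      intro x
      constructor
      · intro hx
        have hx' : l ^ 1 • (x : GP.Wq T) = 0 :=
          congrArg (fun x : MN T l (N + 1) => (x : GP.Wq T)) hx
        obtain ⟨y, hy⟩ := KR.mnI_of (show 1 ≤ N + 2 by omega) hx'
        exact ⟨y, by rw [← hy]; exact Subtype.ext rfl⟩
      · rintro ⟨u, rfl⟩
        apply Subtype.ext
        rw [KR.coe_mnP, KR.coe_mnI, KR.coe_mnI]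
        exact u.mem
    constructor
    · intro hm
      obtain ⟨u1, h1⟩ := (key m.1).1 (congrArg Prod.fst hm)
      obtain ⟨u2, h2⟩ := (key m.2).1 (congrArg Prod.snd hm)
      exact ⟨(u1, u2), Prod.ext h1 h2⟩
    · rintro ⟨u, rfl⟩
      exact Prod.ext ((key _).2 ⟨u.1, rfl⟩) ((key _).2 ⟨u.2, rfl⟩)
  ip m := Prod.ext (Subtype.ext rfl) (Subtype.ext rfl)
  qr m := by
    have key : ∀ x : MN T l (N + 2),
        mnP T l N (show N + 1 ≤ 1 + N by omega) (mnP T l 1 (le_refl (N + 2)) x) =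
          mnP T l (N + 1) (show N + 2 ≤ 1 + (N + 1) by omega) x := by
      intro x
      apply Subtype.ext
      rw [KR.coe_mnP, KR.coe_mnP, KR.coe_mnP, smul_smul, ← pow_add]
    exact Prod.ext (key m.1) (key m.2)
  eqe g u := ac2_map X (mnI T l (Nat.le_add_left 1 N))
    (fun g x => KR.actN_mnI hst (Nat.le_add_left 1 N) g x) g u
  eqi g u := ac2_map X (mnI T l (Nat.le_succ (N + 1)))
    (fun g x => KR.actN_mnI hst (Nat.le_succ (N + 1)) g x) g u
  eqp g u := ac2_map X (mnP T l 1 (le_refl (N + 1)))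
    (fun g x => KR.actN_mnP hst 1 (le_refl (N + 1)) g x) g u
  eqq g u := ac2_map X (mnP T l (N + 1) (show N + 2 ≤ 1 + (N + 1) by omega))
    (fun g x => KR.actN_mnP hst (N + 1) (show N + 2 ≤ 1 + (N + 1) by omega) g x) g u
  eqr g u := ac2_map X (mnP T l 1 (le_refl (N + 2)))
    (fun g x => KR.actN_mnP hst 1 (le_refl (N + 2)) g x) g u
  bet m m' := KR.bN_mnI h N m.1 m'.2
  lam a σ m := by
    rcases X.cases σ with ⟨g, rfl⟩ | ⟨g, rfl⟩
    · rw [X.la_e, X.la_e]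
    · rw [X.la_ec, X.la_ec]
      show bN h N (a • actN l N ρ hst g (mnP T l 1 (le_refl (N + 1)) m.2))
          (actN l N ρ hst (κ g) (mnP T l 1 (le_refl (N + 1)) m.1)) =
        bN h (N + 2) (a • actN l (N + 2) ρ hst g (mnI T l (Nat.le_succ (N + 1)) m.2))
          (actN l (N + 2) ρ hst (κ g) (mnI T l (Nat.le_succ (N + 1)) m.1))
      rw [← KR.actN_mnP hst 1 (le_refl (N + 1)), ← KR.actN_mnP hst 1 (le_refl (N + 1)),
        ← KR.actN_mnI hst (Nat.le_succ (N + 1)), ← KR.actN_mnI hst (Nat.le_succ (N + 1)),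
        ← map_smul, ← map_smul]
      exact KR.bN_mnI h N _ _
  pairU u m := by
    have key : ∀ (u : MN T l 1) (x : MN T l (N + 2)),
        bN h (N + 2) (mnI T l (Nat.le_succ (N + 1)) (mnI T l (Nat.le_add_left 1 N) u)) x =
          bN h 1 u (mnP T l (N + 1) (show N + 2 ≤ 1 + (N + 1) by omega) x) := fun u x =>
      KR.bN_mnP h N (by omega) u x _
    rw [pB_apply, pB_apply, be2_apply, be2_apply, be2_apply, be2_apply]
    refine congrArg₂ (· - ·) (key u.1 m.2) ?_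
    rw [GP.bN_symm h (N + 2), GP.bN_symm h 1]
    exact key u.2 m.1
  pairR u m := by
    rw [pB_apply, pB_apply, be2_apply, be2_apply, be2_apply, be2_apply]
    refine congrArg₂ (· - ·) (bN_mnR h N u.1 m.2) ?_
    rw [GP.bN_symm h (N + 2), GP.bN_symm h (N + 1)]
    exact bN_mnR h N u.2 m.1

end

end Pool.Agent.Work.MP_787500_nt.QS
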