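import Mathlib
import Pool.Agent.Work.MP_787500_nt.QS.KQ
import Pool.Agent.Work.MP_787500_nt.QS.Th
import Pool.Agent.Work.MP_787500_nt.QS.Qm2

/-!
# Module LagSp (size M): the condition `(A, A^⊥)` at a split place is Lagrangian

`D w` acts on `M × M` by `ρ (j w d)`, `ρ (κ (j w d))` (`X.ac_e`), `la2 = 0` (`X.la_e`). `cup11 σ (pB (be2 b)) (x, x') (y, y') s t = b (x s) (ρ (κ s) (y' t)) - b (ρ s (y t)) (x' s)`.
* `coc`: componentwise.
* the second term: `(s, t) ↦ b (ρ s (y t)) (x' s)` is the product in the other order; `cup11 ρκ b y x'` and it differ by minus ... : use KR `cup11_anti` (T04, T04b; as in `iv_symm`,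
  QS/Th, apply it to the pair `(y, x')`), so `inv (x ∪ y) = inv (cup11 b x y') + inv (cup11 b y x')`.
* `self`: `→`: `x ∈ A`, `y' ∈ perpM`: 0; `y ∈ A`, `x' ∈ perpM`: 0. `←`: take `y = (y, 0)`, `y ∈ A`: `x' ∈ perpM`; take `(0, y')`: `x` is orthogonal to `perpM A`, so `x ∈ A` by
  double annihilator (`A` contains the coboundaries, `H.loc w`.ld; see KR/FS1_Perp, FU1_Perp `perp_perp` for the exact lemma).
* `iso`: `Zq a (x, x') s t = b (a • x s) (ρ (κ s) (x' t))` (`la2 = 0`), `a • x ∈ A`.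
-/

set_option autoImplicit false
set_option linter.unusedSectionVars false

namespace Pool.Agent.Work.MP_787500_nt.QS

open Pool.Agent.Work.MP_787500_nt.GP (A0 IsAct d0 d1 d2 tw cup11 cup21 cup12 cup01 cup02 EvPow IsPow)
open Pool.Agent.Work.MP_787500_nt.KR (FSys Sm1 Sm2 IsChar Smooth Z1 Z2 B2 LocH Pair LDual GlobH Mid Sha2
  IsTr zM z1s b1s ParD SDualF perpM selM Betw SubU h1 sh1)

universe u v

section

variable {G : Type*} [Group G] {S : FSys G} {Φ Ψ : Type*} [Fintype Φ] [Fintype Ψ] {D : Φ → Type u}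
  [∀ w, Group (D w)] {SD : ∀ w, FSys (D w)} {j : ∀ w, D w →* G} {χ : G → ℤ_[2]}
  {inv : ∀ w, (D w → D w → A0) → A0} {κ : G →* G} {Θ : Set (G × G)} {Γ : Type*} [Group Γ]
  {Sq : FSys Γ} {E : Ψ → Type u} [∀ p, Group (E p)] {SE : ∀ p, FSys (E p)} {je : ∀ p, E p →* Γ}
  {χq : Γ → ℤ_[2]} {inve : ∀ p, (E p → E p → A0) → A0} {e : G →* Γ} {c : Γ}
 {O : Type*} [CommRing O]
  {M : Type v} [AddCommGroup M] [Module O M] [Finite M] {ρ : G → M → M} {b : M →+ M →+ A0}

private theorem iv0 {Y : Type*} [Group Y] {T : FSys Y} {χ' : Y → ℤ_[2]} {iv : (Y → Y → A0) → A0}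
    (L : LocH T χ' iv) : iv (fun _ _ => 0) = 0 := by
  have e1 : (fun _ _ => (0 : A0)) = d1 (tw χ') (fun _ : Y => (0 : A0)) := by
    funext s t
    simp [d1, tw]
  rw [e1]
  refine L.cob _ ?_
  obtain ⟨W, hW⟩ := T.ex
  exact ⟨W, hW, fun _ _ _ => rfl⟩

private theorem ivneg {Y : Type*} [Group Y] {T : FSys Y} {χ' : Y → ℤ_[2]} {iv : (Y → Y → A0) → A0}
    (L : LocH T χ' iv) {f : Y → Y → A0} (hf : Z2 T (tw χ') f) (hf' : Z2 T (tw χ') fun s t => -f s t) :
    iv (fun s t => -f s t) = -iv f := by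
  have h1 := L.add f _ hf hf'
  have e1 : (fun a b => f a b + -f a b) = fun _ _ => (0 : A0) := by
    funext a b
    exact add_neg_cancel _
  rw [e1, iv0 L] at h1
  exact (neg_eq_of_add_eq_zero_right h1.symm).symm

private theorem z1_prod {Y : Type*} [Group Y] {T : FSys Y} {σ σ' : Y → M → M} {x : Y → M × M} :
    Z1 T (fun d v => (σ d v.1, σ' d v.2) : Y → M × M → M × M) x ↔
      Z1 T σ (fun d => (x d).1) ∧ Z1 T σ' (fun d => (x d).2) := by
  constructor
  · rintro ⟨⟨W, hW, h1⟩, h2⟩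
    exact ⟨⟨⟨W, hW, fun g w hw => by simp only [h1 g w hw]⟩, fun a b => by simp only [h2 a b, Prod.fst_add]⟩,
      ⟨⟨W, hW, fun g w hw => by simp only [h1 g w hw]⟩, fun a b => by simp only [h2 a b, Prod.snd_add]⟩⟩
  · rintro ⟨⟨⟨W, hW, h1⟩, h2⟩, ⟨⟨W', hW', h1'⟩, h2'⟩⟩
    exact ⟨⟨W ⊓ W', T.inf hW hW', fun g w hw => Prod.ext (h1 g w hw.1) (h1' g w hw.2)⟩,
      fun a b => Prod.ext (h2 a b) (h2' a b)⟩

theorem lag_split (X : Two e c κ) (H : ParD.{v} S SD j χ inv κ Θ) (h : SDualF S χ κ Θ O ρ b) (w : Φ)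
    {A : Submodule O (D w → M)} (hA : Betw (SD w) (fun d => ρ (j w d)) A) :
    Lag (SD w) (inv w) (fun d => ac2 e c κ ρ (e (j w d))) (be2 b)
      (fun a d => la2 e c κ ρ b a (e (j w d))) (prY A (perpM H h w A)) := by
  have e1 : (fun d => ac2 e c κ ρ (e (j w d))) = fun (d : D w) (v : M × M) =>
      (ρ (j w d) v.1, ρ (κ (j w d)) v.2) := by
    funext d v
    exact X.ac_e (j w d) v
  have e2 : (fun (a : O) (d : D w) => la2 e c κ ρ b a (e (j w d))) = fun _ _ _ => 0 := by
    funext a d v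
    exact X.la_e b a (j w d) v
  rw [e1, e2]
  have hp := h.locPair H w
  have L : LocH (SD w) (fun d => χ (j w d)) (inv w) := (H.loc w).toLocH
  set σ : D w → M → M := fun d => ρ (j w d) with hσ
  set σ' : D w → M → M := fun d => ρ (κ (j w d)) with hσ'
  have key : ∀ x y : D w → M × M, Z1 (SD w) σ (fun d => (x d).1) → Z1 (SD w) σ' (fun d => (x d).2) →
      Z1 (SD w) σ (fun d => (y d).1) → Z1 (SD w) σ' (fun d => (y d).2) →
      inv w (cup11 (fun (d : D w) (v : M × M) => (σ d v.1, σ' d v.2)) (pB (be2 b)) x y) =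
        inv w (cup11 σ' b (fun d => (x d).1) (fun d => (y d).2)) +
          inv w (cup11 σ' b (fun d => (y d).1) (fun d => (x d).2)) := by
    intro x y hx1 hx2 hy1 hy2
    have z1 := KR.cup11_Z2 hp hx1 hy2
    have z2 := KR.cup11_Z2 hp.flip hx2 hy1
    have z2' : Z2 (SD w) (tw fun d => χ (j w d))
        (fun s t => -cup11 σ b.flip (fun d => (x d).2) (fun d => (y d).1) s t) := by
      have z3 := KR.cup11_Z2 hp.flip (Z1.neg hp.act' hx2) hy1
      have e3 : cup11 σ b.flip (fun d => -(x d).2) (fun d => (y d).1) =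
          fun s t => -cup11 σ b.flip (fun d => (x d).2) (fun d => (y d).1) s t := by
        funext s t
        simp only [cup11, map_neg, AddMonoidHom.neg_apply]
      rw [e3] at z3
      exact z3
    have e4 : cup11 (fun (d : D w) (v : M × M) => (σ d v.1, σ' d v.2)) (pB (be2 b)) x y =
        fun s t => cup11 σ' b (fun d => (x d).1) (fun d => (y d).2) s t +
          -cup11 σ b.flip (fun d => (x d).2) (fun d => (y d).1) s t := by
      funext s t
      simp only [cup11, pB_apply, be2_apply, AddMonoidHom.flip_apply, sub_eq_add_neg]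
    rw [e4, L.add _ _ z1 z2', ivneg L z2 z2', KR.inv_anti L hp hy1 hx2]
  have e0 : ∀ x : D w → M, inv w (cup11 σ' b x (fun _ => 0)) = 0 := by
    intro x
    have e5 : cup11 σ' b x (fun _ => (0 : M)) = fun _ _ => 0 := by
      funext s t
      simp only [cup11, hp.act'.zero, map_zero]
    rw [e5, iv0 L]
  have e0' : ∀ x : D w → M, inv w (cup11 σ' b (fun _ => 0) x) = 0 := by
    intro x
    have e5 : cup11 σ' b (fun _ => (0 : M)) x = fun _ _ => 0 := by
      funext s t
      simp only [cup11, map_zero, AddMonoidHom.zero_apply]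
    rw [e5, iv0 L]
  refine ⟨?_, ?_, ?_⟩
  · intro x hx
    exact z1_prod.2 ⟨hA.coc _ hx.1, hx.2.1⟩
  · intro x hx
    obtain ⟨hx1, hx2⟩ := z1_prod.1 hx
    constructor
    · intro hxY y hyY
      rw [key x y hx1 hx2 (hA.coc _ hyY.1) hyY.2.1]
      rw [hyY.2.2 _ hxY.1 hx1, hxY.2.2 _ hyY.1 (hA.coc _ hyY.1), add_zero]
    · intro hall
      refine ⟨?_, ?_⟩
      · refine KR.perp_double H h w hA hx1 fun y2 hy2 => ?_
        have h1 := hall (fun d => (0, y2 d)) ⟨A.zero_mem, hy2⟩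
        rw [key x _ hx1 hx2 (hA.coc _ A.zero_mem) hy2.1] at h1
        have h2 := e0' (fun d => (x d).2)
        simp only [] at h1
        rw [h2, add_zero] at h1
        exact h1
      · refine ⟨hx2, fun y1 hy1 hy1z => ?_⟩
        have h1 := hall (fun d => (y1 d, 0)) ⟨hy1, (perpM H h w A).zero_mem⟩
        rw [key x _ hx1 hx2 hy1z (perpM H h w A).zero_mem.1] at h1
        have h2 := e0 (fun d => (x d).1)
        simp only [] at h1
        rw [h2, zero_add] at h1
        exact h1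
  · intro a x hx
    have e6 : Zq (fun (d : D w) (v : M × M) => (σ d v.1, σ' d v.2)) (be2 b)
        (fun (_ : O) (_ : D w) (_ : M × M) => (0 : A0)) a x =
        cup11 σ' b (a • fun d => (x d).1) (fun d => (x d).2) := by
      funext s t
      simp only [Zq, cup11, be2_apply, add_zero, Pi.smul_apply, Prod.smul_fst]
    rw [e6]
    have h1 : (a • fun d => (x d).1) ∈ A := A.smul_mem a hx.1
    exact hx.2.2 _ h1 (hA.coc _ h1)

end

end Pool.Agent.Work.MP_787500_nt.QS
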