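import Mathlib
import Pool.Agent.Work.MP_787500_nt.QS.KQ
import Pool.Agent.Work.MP_787500_nt.QS.Th
import Pool.Agent.Work.MP_787500_nt.QS.Qm2
import Pool.Agent.Work.MP_787500_nt.KR.FU2_Loc
import Pool.Agent.Work.MP_787500_nt.KR.FU1_Perp

/-!
# Module NumSp (size M-L): the local number at a split place

`Y = (all, perp)` for `M`, `Yb` for `Mb`, `J = indY Yb`, `R = redY J`. Everything is a product of the two components: `J = J₁ × J₂`, `J₁ = {i x₁ + d0 m : x₁ ∈ Z1(M₁)}` (`= lam0` of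
KR/FUDefs), `J₂` contains the coboundaries; `perpM (all)` = the coboundaries of the twist `M^κ` (`H.loc w`.ld). So
`card (Y ⊓ J) = card (lam0) * card B1(M^κ)`, `card Y = card Z1(M) * card B1(M^κ)`, `R ⊓ Yb = lam1 × B1(Mb^κ)` (`lam1 = {π x₁}`; `π x₁` with `i x₁ = i x₁' + d0 m`, `x₁' ∈ Z1` is `π (x₁ - x₁')
+ π x₁'`, all of `R₁` is `lam1`; `R₂` contains the coboundaries), `card Yb = card Z1(Mb) * card B1(Mb^κ)`.
`card_lam` (KR/FU2_Loc): `card lam0 = card lam1 * (card Z1(U) * card B1(U))`; `card Z1(U) = h1(U) * card B1(U)` (`AddSubgroup.relIndex` times card). The product in the statement is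
`(card lam1 * card Z1(U) * card Z1(M) * card Z1(Mb) * card B1(M^κ) * card B1(Mb^κ)) ^ 2`. `IsPow` of each factor from `GP.card_pow` (finite `O`-modules; for the coboundaries
and for `z1s` use the `O`-module structures `zM` etc.), so it is an even power.
`h1_two`: `ac2` on `U × U` over `D w` is the product of `U` and its twist: `h1 = h1(U) * h1(U^κ)`, and `h1(U^κ) = h1(U)` (KR `h1_flip`, used at the end of KR/FU4_Par or FS4_Par).
`h1_pow`: `h1(U)` is a power of `q` (`card Z1 = h1 * card B1`, all finite `O`-modules: `h1` is the cardinality of a quotient `O`-module; `GP.card_pow`).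
-/

set_option autoImplicit false
set_option linter.unusedSectionVars false

namespace Pool.Agent.Work.MP_787500_nt.QS

open Pool.Agent.Work.MP_787500_nt.GP (A0 IsAct d0 d1 d2 tw cup11 cup21 cup12 cup01 cup02 EvPow IsPow)
open Pool.Agent.Work.MP_787500_nt.KR (FSys Sm1 Sm2 IsChar Smooth Z1 Z2 B2 LocH Pair LDual GlobH Mid Sha2
  IsTr zM z1s b1s ParD SDualF perpM selM Betw SubU h1 sh1)

universe u v

section

variable {G : Type*} [Group G] {S : FSys G} {Φ Ψ : Type*} [Fintype Φ] [Fintype Ψ] {D : Φ → Type u}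
  [∀ w, Group (D w)] {SD : ∀ w, FSys (D w)} {j : ∀ w, D w →* G} {χ : G → ℤ_[2]}
  {inv : ∀ w, (D w → D w → A0) → A0} {κ : G →* G} {Θ : Set (G × G)} {Γ : Type*} [Group Γ]
  {Sq : FSys Γ} {E : Ψ → Type u} [∀ p, Group (E p)] {SE : ∀ p, FSys (E p)} {je : ∀ p, E p →* Γ}
  {χq : Γ → ℤ_[2]} {inve : ∀ p, (E p → E p → A0) → A0} {e : G →* Γ} {c : Γ}
 {O : Type*} [CommRing O]
  {M M₁ Mb U : Type v} [AddCommGroup M] [Module O M] [Finite M] [AddCommGroup M₁] [Module O M₁]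
  [Finite M₁] [AddCommGroup Mb] [Module O Mb] [Finite Mb] [AddCommGroup U] [Module O U] [Finite U]
  {ρ : G → M → M} {b : M →+ M →+ A0} {ρ₁ : G → M₁ → M₁}
  {ρb : G → Mb → Mb} {bb : Mb →+ Mb →+ A0} {υ : G → U → U} {β : U →+ U →+ A0}
  {e₀ : U →ₗ[O] M₁} {i : M₁ →ₗ[O] M} {π : M₁ →ₗ[O] Mb} {q : M →ₗ[O] U}

/-! ## Products -/

private theorem card_two {Y A B : Type*} (P : (Y → A × B) → Prop) (Q : (Y → A) → Prop)
    (R : (Y → B) → Prop) (h : ∀ y, P y ↔ Q (fun d => (y d).1) ∧ R (fun d => (y d).2)) :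
    Nat.card {y // P y} = Nat.card {x // Q x} * Nat.card {x // R x} := by
  rw [← Nat.card_prod]
  exact Nat.card_congr
    ⟨fun y => (⟨_, ((h y.1).1 y.2).1⟩, ⟨_, ((h y.1).1 y.2).2⟩),
      fun p => ⟨fun d => (p.1.1 d, p.2.1 d), (h _).2 ⟨p.1.2, p.2.2⟩⟩, fun y => rfl, fun p => rfl⟩

private theorem sm_two {Y : Type*} [Group Y] {T : FSys Y} {A B : Type*} (x : Y → A × B) :
    Sm1 T x ↔ Sm1 T (fun d => (x d).1) ∧ Sm1 T (fun d => (x d).2) := by
  constructor
  · rintro ⟨W, hW, h⟩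
    exact ⟨⟨W, hW, fun g w hw => congrArg Prod.fst (h g w hw)⟩,
      ⟨W, hW, fun g w hw => congrArg Prod.snd (h g w hw)⟩⟩
  · rintro ⟨⟨W, hW, h⟩, ⟨W', hW', h'⟩⟩
    exact ⟨W ⊓ W', T.inf hW hW', fun g w hw => Prod.ext (h g w hw.1) (h' g w hw.2)⟩

private theorem z_two {Y : Type*} [Group Y] {T : FSys Y} {G' Γ' : Type*} [Group G'] [Group Γ']
    {e' : G' →* Γ'} {c' : Γ'} {κ' : G' →* G'} {N : Type*} [AddCommGroup N] {σ : G' → N → N}
    (X : Two e' c' κ') (k : Y →* G') (x : Y → N × N) :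
    Z1 T (fun d => ac2 e' c' κ' σ ((e'.comp k) d)) x ↔
      Z1 T (fun d => σ (k d)) (fun d => (x d).1) ∧ Z1 T (fun d => σ (κ' (k d))) (fun d => (x d).2) := by
  unfold Z1
  rw [sm_two]
  have h1 : ∀ d v, ac2 e' c' κ' σ ((e'.comp k) d) v = (σ (k d) v.1, σ (κ' (k d)) v.2) :=
    fun d v => X.ac_e (k d) v
  simp only [h1]
  constructor
  · rintro ⟨⟨h2, h3⟩, h4⟩
    exact ⟨⟨h2, fun a b => by rw [h4 a b]; rfl⟩, ⟨h3, fun a b => by rw [h4 a b]; rfl⟩⟩
  · rintro ⟨⟨h2, h3⟩, ⟨h4, h5⟩⟩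
    exact ⟨⟨h2, h4⟩, fun a b => Prod.ext (h3 a b) (h5 a b)⟩

private theorem d0_two {Y : Type*} [Group Y] {G' Γ' : Type*} [Group G'] [Group Γ']
    {e' : G' →* Γ'} {c' : Γ'} {κ' : G' →* G'} {N : Type*} [AddCommGroup N] {σ : G' → N → N}
    (X : Two e' c' κ') (k : Y →* G') (m : N × N) (d : Y) :
    d0 (fun d => ac2 e' c' κ' σ ((e'.comp k) d)) m d =
      (d0 (fun d => σ (k d)) m.1 d, d0 (fun d => σ (κ' (k d))) m.2 d) := by
  have h1 : ac2 e' c' κ' σ ((e'.comp k) d) m = (σ (k d) m.1, σ (κ' (k d)) m.2) := X.ac_e (k d) m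
  show ac2 e' c' κ' σ ((e'.comp k) d) m - m = _
  rw [h1]
  rfl

private theorem ud_of (hU : SDualF S χ κ Θ O υ β) : KR.UU.UD S χ κ O υ β :=
  ⟨hU.act, hU.lin, hU.sm, hU.eqv, hU.nd, fun u' h => hU.nd u' fun u => by
    rw [hU.symm]
    exact h u⟩

private theorem mem_perp_all (H : ParD.{v} S SD j χ inv κ Θ) (h : SDualF S χ κ Θ O ρ b) (w : Φ)
    (y : D w → M) :
    y ∈ perpM H h w (zM (SD w) (h.act.comp (j w)) (fun d => h.lin (j w d))) ↔
      ∃ m, y = d0 (fun d => ρ (κ (j w d))) m := by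
  have hp := h.locPair H w
  constructor
  · rintro ⟨h2, h3⟩
    exact ((H.loc w).ld hp).one' y h2 fun x hx => h3 x hx hx
  · rintro ⟨m, rfl⟩
    exact ⟨KR.d0_Z1 hp.act' hp.sm' m, fun x _ hx => KR.f06_right (H.loc w).toLocH hp m hx⟩

private theorem lift_q {Y : Type*} [Group Y] {T : FSys Y} {k : Y →* G}
    (hs : SubU ρ b ρ₁ ρb bb υ β e₀ i π q) {x : Y → M}
    (hx : Z1 T (fun d => ρ (k d)) x) (h0 : ∀ d, q (x d) = 0) :
    ∃ x₁, Z1 T (fun d => ρ₁ (k d)) x₁ ∧ ∀ d, i (x₁ d) = x d := by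
  choose x₁ hx₁ using fun d => (hs.qker (x d)).1 (h0 d)
  obtain ⟨⟨W, hW, h1⟩, h2⟩ := hx
  refine ⟨x₁, ⟨⟨W, hW, fun g w hw => hs.iinj ?_⟩, fun s t => hs.iinj ?_⟩, hx₁⟩
  · rw [hx₁, hx₁, h1 g w hw]
  · rw [hx₁, h2, map_add, hs.eqi, hx₁, hx₁]

private theorem proj_p {Y : Type*} [Group Y] {T : FSys Y} {k : Y →* G}
    (hs : SubU ρ b ρ₁ ρb bb υ β e₀ i π q) {x : Y → M₁}
    (hx : Z1 T (fun d => ρ₁ (k d)) x) : Z1 T (fun d => ρb (k d)) (fun d => π (x d)) := by
  obtain ⟨⟨W, hW, h1⟩, h2⟩ := hx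
  refine ⟨⟨W, hW, fun g w hw => ?_⟩, fun s t => ?_⟩
  · simp only [h1 g w hw]
  · simp only [h2 s t, map_add, hs.eqp]

private theorem zero_Z1 {Y : Type*} [Group Y] (T : FSys Y) {N : Type*} [AddCommGroup N]
    {σ : Y → N → N} (hσ : IsAct σ) : Z1 T σ (fun _ => 0) := (z1s T hσ).zero_mem

private theorem fin_b1s {Y : Type*} [Group Y] {N : Type*} [AddCommGroup N] [Finite N]
    {σ : Y → N → N} (hσ : IsAct σ) : 0 < Nat.card (b1s hσ) := by
  have : Finite (b1s hσ) := by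
    refine Finite.of_surjective (fun m : N => (⟨d0 σ m, m, rfl⟩ : b1s hσ)) ?_
    rintro ⟨x, m, hm⟩
    exact ⟨m, Subtype.ext hm.symm⟩
  exact Nat.card_pos

private theorem card_zb {Y : Type*} [Group Y] (T : FSys Y) {N : Type*} [AddCommGroup N]
    {σ : Y → N → N} (hσ : IsAct σ) (hs : ∀ m, Z1 T σ (d0 σ m)) :
    Nat.card (b1s hσ) * h1 T hσ = Nat.card (z1s T hσ) := by
  have hle : b1s hσ ≤ z1s T hσ := by
    rintro x ⟨m, rfl⟩
    exact hs m
  have e := AddSubgroup.relIndex_mul_relIndex (⊥ : AddSubgroup (Y → N)) (b1s hσ) (z1s T hσ)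
    bot_le hle
  rw [AddSubgroup.relIndex_bot_left, AddSubgroup.relIndex_bot_left] at e
  exact e

theorem h1_two (X : Two e c κ) (H : ParD.{v} S SD j χ inv κ Θ) (hU : SDualF S χ κ Θ O υ β) (w : Φ) :
    h1 (SD w) ((X.act hU.act).comp (e.comp (j w))) = h1 (SD w) (hU.act.comp (j w)) *
      h1 (SD w) (hU.act.comp (j w)) := by
  have hp := hU.locPair H w
  have hl := (H.loc w).ld hp
  have hflip : h1 (SD w) hp.act = h1 (SD w) hp.act' := KR.h1_flip (H.loc w).toLocH hp hl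
  have hz : Nat.card (z1s (SD w) ((X.act hU.act).comp (e.comp (j w)))) =
      Nat.card (z1s (SD w) hp.act) * Nat.card (z1s (SD w) hp.act') :=
    card_two _ _ _ fun y => z_two X (j w) y
  have hb : Nat.card (b1s ((X.act hU.act).comp (e.comp (j w)))) =
      Nat.card (b1s hp.act) * Nat.card (b1s hp.act') := by
    refine card_two _ _ _ fun y => ?_
    constructor
    · rintro ⟨m, rfl⟩
      exact ⟨⟨m.1, funext fun d => congrArg Prod.fst (d0_two X (j w) m d)⟩,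
        ⟨m.2, funext fun d => congrArg Prod.snd (d0_two X (j w) m d)⟩⟩
    · rintro ⟨⟨m, hm⟩, ⟨m', hm'⟩⟩
      refine ⟨(m, m'), funext fun d => ?_⟩
      rw [d0_two X (j w)]
      exact Prod.ext (congrFun hm d) (congrFun hm' d)
  have e1 : Nat.card (b1s ((X.act hU.act).comp (e.comp (j w)))) *
      h1 (SD w) ((X.act hU.act).comp (e.comp (j w))) =
      Nat.card (z1s (SD w) ((X.act hU.act).comp (e.comp (j w)))) := by
    refine card_zb (SD w) _ fun m => ?_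
    rw [z_two X (j w)]
    have h1 : (fun d => (d0 (fun d => ac2 e c κ υ ((e.comp (j w)) d)) m d).1) =
        d0 (fun d => υ (j w d)) m.1 := funext fun d => congrArg Prod.fst (d0_two X (j w) m d)
    have h2 : (fun d => (d0 (fun d => ac2 e c κ υ ((e.comp (j w)) d)) m d).2) =
        d0 (fun d => υ (κ (j w d))) m.2 := funext fun d => congrArg Prod.snd (d0_two X (j w) m d)
    rw [h1, h2]
    exact ⟨KR.d0_Z1 hp.act hp.sm _, KR.d0_Z1 hp.act' hp.sm' _⟩
  have e2 := card_zb (SD w) hp.act fun m => KR.d0_Z1 hp.act hp.sm m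
  have e3 := card_zb (SD w) hp.act' fun m => KR.d0_Z1 hp.act' hp.sm' m
  rw [hz, hb, ← e2, ← e3] at e1
  have p1 := fin_b1s hp.act
  have p2 := fin_b1s hp.act'
  have e4 : Nat.card (b1s hp.act) * Nat.card (b1s hp.act') *
      h1 (SD w) ((X.act hU.act).comp (e.comp (j w))) =
      Nat.card (b1s hp.act) * Nat.card (b1s hp.act') * (h1 (SD w) hp.act * h1 (SD w) hp.act') := by
    rw [e1]
    ring
  have e5 := Nat.eq_of_mul_eq_mul_left (Nat.mul_pos p1 p2) e4
  rw [e5, ← hflip]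

theorem h1_pow [IsLocalRing O] [Finite (IsLocalRing.ResidueField O)]
    (H : ParD.{v} S SD j χ inv κ Θ) (hU : SDualF S χ κ Θ O υ β) (w : Φ) :
    IsPow (Nat.card (IsLocalRing.ResidueField O)) (h1 (SD w) (hU.act.comp (j w))) := by
  have hp := hU.locPair H w
  have hl := (H.loc w).ld hp
  obtain ⟨⟨a, ha⟩, ⟨b', hb⟩⟩ := KR.card_pow_z1s (O := O) (T := SD w) (hU.act.comp (j w))
    (fun d => hU.lin (j w d)) hl.fin
  have e1 := card_zb (SD w) (hU.act.comp (j w)) fun m => KR.d0_Z1 hp.act hp.sm m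
  rw [ha, hb] at e1
  have hq : 1 < Nat.card (IsLocalRing.ResidueField O) := Finite.one_lt_card
  have hle : b' ≤ a := by
    have h2 : Nat.card (IsLocalRing.ResidueField O) ^ b' ∣
        Nat.card (IsLocalRing.ResidueField O) ^ a := ⟨_, e1.symm⟩
    exact (Nat.pow_dvd_pow_iff_le_right hq).1 h2
  refine ⟨a - b', ?_⟩
  have h3 : Nat.card (IsLocalRing.ResidueField O) ^ a =
      Nat.card (IsLocalRing.ResidueField O) ^ b' *
        Nat.card (IsLocalRing.ResidueField O) ^ (a - b') := by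
    rw [← pow_add]
    congr 1
    omega
  rw [h3] at e1
  exact Nat.eq_of_mul_eq_mul_left (pow_pos (by omega) b') e1

/-- the full condition at `w` -/
abbrev fullY (H : ParD.{v} S SD j χ inv κ Θ) (h : SDualF S χ κ Θ O ρ b) (w : Φ) :
    Submodule O (D w → M × M) :=
  prY (zM (SD w) (h.act.comp (j w)) (fun d => h.lin (j w d)))
    (perpM H h w (zM (SD w) (h.act.comp (j w)) (fun d => h.lin (j w d))))

theorem num_split [IsLocalRing O] [Finite (IsLocalRing.ResidueField O)]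
    (X : Two e c κ) (H : ParD.{v} S SD j χ inv κ Θ) (h : SDualF S χ κ Θ O ρ b)
    (hb : SDualF S χ κ Θ O ρb bb) (hU : SDualF S χ κ Θ O υ β)
    (hs : SubU ρ b ρ₁ ρb bb υ β e₀ i π q) (w : Φ) :
    EvPow (Nat.card (IsLocalRing.ResidueField O))
      (Nat.card ↥(fullY H h w ⊓ indY (SD w) (i.prodMap i) (π.prodMap π)
          ((X.act h.act).comp (e.comp (j w))) (fun d => X.lin h.lin (e (j w d)))
          ((X.act (hs.act₁ h.act)).comp (e.comp (j w)))
          (fun d => X.lin (hs.lin₁ h.lin) (e (j w d))) (fullY H hb w)) *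
        Nat.card (fullY H h w) *
        (Nat.card ↥(redY (SD w) (i.prodMap i) (π.prodMap π)
            ((X.act (hs.act₁ h.act)).comp (e.comp (j w)))
            (fun d => X.lin (hs.lin₁ h.lin) (e (j w d)))
            (indY (SD w) (i.prodMap i) (π.prodMap π)
              ((X.act h.act).comp (e.comp (j w))) (fun d => X.lin h.lin (e (j w d)))
              ((X.act (hs.act₁ h.act)).comp (e.comp (j w)))
              (fun d => X.lin (hs.lin₁ h.lin) (e (j w d))) (fullY H hb w)) ⊓ fullY H hb w) *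
          Nat.card (fullY H hb w)) *
        h1 (SD w) (hU.act.comp (j w)) *
        (Nat.card (z1s (SD w) (h.act.comp (j w))) * Nat.card (z1s (SD w) (hb.act.comp (j w))))) := by
  have hpM := h.locPair H w
  have hpB := hb.locPair H w
  have hpU := hU.locPair H w
  have hlM := (H.loc w).ld hpM
  have hlB := (H.loc w).ld hpB
  have hlU := (H.loc w).ld hpU
  have hsm₁ : Smooth S ρ₁ := KR.UU.subU_sm₁ hs h.sm
  have act₁ : IsAct ρ₁ := hs.act₁ h.act
  -- membership in the first condition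
  have hzero : ∀ {x₁ : D w → M₁}, Z1 (SD w) (fun d => ρ₁ (j w d)) x₁ → ∀ {y : D w → M × M},
      (∃ m, ∀ d, (y d).1 = i (x₁ d) + d0 (fun d => ρ (j w d)) m d) →
      (∃ m, ∀ d, (y d).2 = d0 (fun d => ρ (κ (j w d))) m d) →
      y ∈ indY (SD w) (i.prodMap i) (π.prodMap π)
          ((X.act h.act).comp (e.comp (j w))) (fun d => X.lin h.lin (e (j w d)))
          ((X.act (hs.act₁ h.act)).comp (e.comp (j w)))
          (fun d => X.lin (hs.lin₁ h.lin) (e (j w d))) (fullY H hb w) := by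
    rintro x₁ hx₁ y ⟨m, hm⟩ ⟨m', hm'⟩
    refine ⟨fun d => (x₁ d, 0), (m, m'), ?_, ?_, fun d => ?_⟩
    · rw [z_two X (j w)]
      exact ⟨hx₁, zero_Z1 (SD w) ((act₁.comp κ).comp (j w))⟩
    · refine ⟨proj_p hs hx₁, ?_⟩
      have e1 : (fun d => ((π.prodMap π) ((fun d => (x₁ d, (0 : M₁))) d)).2) =
          (0 : D w → Mb) := funext fun d => map_zero π
      rw [e1]
      exact Submodule.zero_mem _
    · rw [d0_two X (j w)]
      refine Prod.ext (hm d) ?_
      show (y d).2 = i 0 + d0 (fun d => ρ (κ (j w d))) m' d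
      rw [map_zero, zero_add]
      exact hm' d
  have hA : Nat.card ↥(fullY H h w ⊓ indY (SD w) (i.prodMap i) (π.prodMap π)
          ((X.act h.act).comp (e.comp (j w))) (fun d => X.lin h.lin (e (j w d)))
          ((X.act (hs.act₁ h.act)).comp (e.comp (j w)))
          (fun d => X.lin (hs.lin₁ h.lin) (e (j w d))) (fullY H hb w)) =
      Nat.card (KR.UU.lam0 h (ud_of hU) SD j q w) * Nat.card (b1s hpM.act') := by
    refine card_two _ _ _ fun y => ?_
    constructor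
    · rintro ⟨⟨hy1, hy2⟩, ⟨x₁, m, hx₁, -, hy⟩⟩
      refine ⟨⟨hy1, q m.1, fun d => ?_⟩, (mem_perp_all H h w _).1 hy2⟩
      have h2 : (y d).1 = i (x₁ d).1 + d0 (fun d => ρ (j w d)) m.1 d := by
        rw [hy d, d0_two X (j w)]
        rfl
      show q (y d).1 = υ (j w d) (q m.1) - q m.1
      rw [h2, map_add, (hs.qker _).2 ⟨_, rfl⟩, zero_add]
      show q (ρ (j w d) m.1 - m.1) = _
      rw [map_sub, hs.eqq]
    · rintro ⟨⟨hy1, u, hu⟩, ⟨m', hm'⟩⟩
      obtain ⟨m₀, rfl⟩ := hs.qsurj u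
      have hZ1 : Z1 (SD w) (fun d => ρ (j w d))
          (fun d => (y d).1 + -d0 (fun d => ρ (j w d)) m₀ d) :=
        KR.Z1.add hpM.act hy1 (KR.Z1.neg hpM.act (KR.d0_Z1 hpM.act hpM.sm m₀))
      obtain ⟨x₁, hx₁, hx₁'⟩ := lift_q (k := j w) hs hZ1 fun d => by
        have h2 : q (y d).1 = υ (j w d) (q m₀) - q m₀ := hu d
        rw [map_add, map_neg, h2]
        show υ (j w d) (q m₀) - q m₀ + -q (ρ (j w d) m₀ - m₀) = 0
        rw [map_sub, hs.eqq, add_neg_cancel]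
      refine ⟨⟨hy1, (mem_perp_all H h w _).2 ⟨m', hm'⟩⟩, hzero hx₁ ⟨m₀, fun d => ?_⟩
        ⟨m', fun d => congrFun hm' d⟩⟩
      rw [hx₁' d, neg_add_cancel_right]
  have hB : Nat.card (fullY H h w) =
      Nat.card (z1s (SD w) (h.act.comp (j w))) * Nat.card (b1s hpM.act') := by
    refine card_two _ _ _ fun y => ?_
    constructor
    · rintro ⟨hy1, hy2⟩
      exact ⟨hy1, (mem_perp_all H h w _).1 hy2⟩
    · rintro ⟨hy1, hy2⟩
      exact ⟨hy1, (mem_perp_all H h w _).2 hy2⟩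
  have hC : Nat.card ↥(redY (SD w) (i.prodMap i) (π.prodMap π)
            ((X.act (hs.act₁ h.act)).comp (e.comp (j w)))
            (fun d => X.lin (hs.lin₁ h.lin) (e (j w d)))
            (indY (SD w) (i.prodMap i) (π.prodMap π)
              ((X.act h.act).comp (e.comp (j w))) (fun d => X.lin h.lin (e (j w d)))
              ((X.act (hs.act₁ h.act)).comp (e.comp (j w)))
              (fun d => X.lin (hs.lin₁ h.lin) (e (j w d))) (fullY H hb w)) ⊓ fullY H hb w) =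
      Nat.card (KR.lam1 SD j (hs.act₁ h.act) (hs.lin₁ h.lin) π w) * Nat.card (b1s hpB.act') := by
    refine card_two _ _ _ fun y => ?_
    constructor
    · rintro ⟨⟨x₁, hx₁, -, hy⟩, ⟨-, hy2⟩⟩
      refine ⟨⟨fun d => (x₁ d).1, ((z_two X (j w) _).1 hx₁).1, funext fun d => ?_⟩,
        (mem_perp_all H hb w _).1 hy2⟩
      show π (x₁ d).1 = (y d).1
      rw [hy d]
      rfl
    · rintro ⟨⟨x₁, hx₁, hx₁'⟩, ⟨mb, hmb⟩⟩
      obtain ⟨m₁, rfl⟩ := hs.psurj mb
      have hx₁'' : Z1 (SD w) (fun d => ρ₁ (j w d)) x₁ := hx₁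
      have h3 : ∀ d, π (x₁ d) = (y d).1 := fun d => congrFun hx₁' d
      have h4 : ∀ d, (y d).2 = ρb (κ (j w d)) (π m₁) - π m₁ := fun d => congrFun hmb d
      have hZ2 : Z1 (SD w) (fun d => ρ₁ (κ (j w d))) (d0 (fun d => ρ₁ (κ (j w d))) m₁) := by
        have hsmκ : Smooth (SD w) (fun d => ρ₁ (κ (j w d))) := by
          obtain ⟨W, hW, h5⟩ := hsm₁
          obtain ⟨W', hW', h6⟩ := H.ksys W hW
          obtain ⟨W'', hW'', h7⟩ := H.jsm w W' hW'
          exact ⟨W'', hW'', fun v hv m => h5 _ (h6 _ (h7 v hv)) m⟩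
        exact KR.d0_Z1 ((act₁.comp κ).comp (j w)) hsmκ m₁
      refine ⟨⟨fun d => (x₁ d, d0 (fun d => ρ₁ (κ (j w d))) m₁ d), ?_, ?_, fun d => ?_⟩,
        ⟨?_, ?_⟩⟩
      · rw [z_two X (j w)]
        exact ⟨hx₁'', hZ2⟩
      · refine hzero hx₁'' ⟨0, fun d => ?_⟩ ⟨i m₁, fun d => ?_⟩
        · show i (x₁ d) = i (x₁ d) + (ρ (j w d) 0 - 0)
          rw [h.act.zero, sub_zero, add_zero]
        · show i (ρ₁ (κ (j w d)) m₁ - m₁) = ρ (κ (j w d)) (i m₁) - i m₁
          rw [map_sub, hs.eqi]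
      · refine Prod.ext (h3 d).symm ?_
        show (y d).2 = π (ρ₁ (κ (j w d)) m₁ - m₁)
        rw [map_sub, hs.eqp, h4]
      · show Z1 (SD w) (fun d => ρb (j w d)) (fun d => (y d).1)
        have h5 : (fun d => (y d).1) = fun d => π (x₁ d) := funext fun d => (h3 d).symm
        rw [h5]
        exact proj_p hs hx₁''
      · exact (mem_perp_all H hb w _).2 ⟨π m₁, hmb⟩
  have hD : Nat.card (fullY H hb w) =
      Nat.card (z1s (SD w) (hb.act.comp (j w))) * Nat.card (b1s hpB.act') := by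
    refine card_two _ _ _ fun y => ?_
    constructor
    · rintro ⟨hy1, hy2⟩
      exact ⟨hy1, (mem_perp_all H hb w _).1 hy2⟩
    · rintro ⟨hy1, hy2⟩
      exact ⟨hy1, (mem_perp_all H hb w _).2 hy2⟩
  have hL := KR.UU.card_lam H h hb (ud_of hU) hs w
  have hzU := card_zb (SD w) (hU.act.comp (j w)) fun m => KR.d0_Z1 hpU.act hpU.sm m
  have hL' : Nat.card (KR.UU.lam0 h (ud_of hU) SD j q w) =
      Nat.card (KR.lam1 SD j (hs.act₁ h.act) (hs.lin₁ h.lin) π w) *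
        (Nat.card (z1s (SD w) (hU.act.comp (j w))) * Nat.card (b1s (hU.act.comp (j w)))) := hL
  have hfin1 : Finite (KR.lam1 SD j (hs.act₁ h.act) (hs.lin₁ h.lin) π w) := by
    have h5 : Finite (zM (O := O) (SD w) (hb.act.comp (j w)) (fun d => hb.lin (j w d))) := hlB.fin
    refine Finite.of_injective (fun x => (⟨x.1, ?_⟩ :
      zM (O := O) (SD w) (hb.act.comp (j w)) (fun d => hb.lin (j w d)))) fun x y hxy =>
        Subtype.ext (congrArg (fun z => z.1) hxy)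
    obtain ⟨x, ⟨x₁, hx₁, rfl⟩⟩ := x
    exact proj_p hs hx₁
  obtain ⟨a1, ha1⟩ := GP.card_pow (O := O)
    (KR.lam1 SD j (hs.act₁ h.act) (hs.lin₁ h.lin) π w)
  obtain ⟨⟨a2, ha2⟩, -⟩ := KR.card_pow_z1s (O := O) (T := SD w) (hU.act.comp (j w))
    (fun d => hU.lin (j w d)) hlU.fin
  obtain ⟨-, ⟨a3, ha3⟩⟩ := KR.card_pow_z1s (O := O) (T := SD w) hpM.act'
    (fun d => h.lin (κ (j w d))) hlM.fin'
  obtain ⟨-, ⟨a4, ha4⟩⟩ := KR.card_pow_z1s (O := O) (T := SD w) hpB.act'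
    (fun d => hb.lin (κ (j w d))) hlB.fin'
  obtain ⟨⟨a5, ha5⟩, -⟩ := KR.card_pow_z1s (O := O) (T := SD w) (h.act.comp (j w))
    (fun d => h.lin (j w d)) hlM.fin
  obtain ⟨⟨a6, ha6⟩, -⟩ := KR.card_pow_z1s (O := O) (T := SD w) (hb.act.comp (j w))
    (fun d => hb.lin (j w d)) hlB.fin
  refine ⟨a1 + a2 + a3 + a4 + a5 + a6, ?_⟩
  rw [hA, hB, hC, hD, hL']
  rw [pow_mul', pow_add, pow_add, pow_add, pow_add, pow_add, ← ha1, ← ha2, ← ha3, ← ha4, ← ha5,
    ← ha6]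
  have e6 : Nat.card (KR.lam1 SD j (hs.act₁ h.act) (hs.lin₁ h.lin) π w) *
        (Nat.card (z1s (SD w) (hU.act.comp (j w))) * Nat.card (b1s (hU.act.comp (j w)))) *
          h1 (SD w) (hU.act.comp (j w)) =
      Nat.card (KR.lam1 SD j (hs.act₁ h.act) (hs.lin₁ h.lin) π w) *
        (Nat.card (z1s (SD w) (hU.act.comp (j w))) * Nat.card (z1s (SD w) (hU.act.comp (j w)))) := by
    rw [← hzU]
    ring
  linear_combination (Nat.card (b1s hpM.act') * (Nat.card (z1s (SD w) (h.act.comp (j w))) *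
    Nat.card (b1s hpM.act')) *
    (Nat.card (KR.lam1 SD j (hs.act₁ h.act) (hs.lin₁ h.lin) π w) * Nat.card (b1s hpB.act') *
      (Nat.card (z1s (SD w) (hb.act.comp (j w))) * Nat.card (b1s hpB.act'))) *
    (Nat.card (z1s (SD w) (h.act.comp (j w))) * Nat.card (z1s (SD w) (hb.act.comp (j w))))) * e6

end

end Pool.Agent.Work.MP_787500_nt.QS
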