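import Mathlib
import Pool.Agent.Work.MP_787500_nt.QS.Defs
import Pool.Agent.Work.MP_787500_nt.KR.ADefs
import Pool.Agent.Work.MP_787500_nt.KR.M2_Mid
import Pool.Agent.Work.MP_787500_nt.GP.F01_Card

/-!
# Module H1Q (size M): the number of global classes

For a finite pair `(M, M')`: `g1(M) g1(M') = ∏ h1(D w, M)`, where `g1` is the number of global classes modulo those that are locally zero.
Model: KR/A6_Base `perm_le` and `h1_id` in KR/FU4_Par.
Proof: `mid_of_PP` (KR/M2_Mid) gives `Mid` for the pair. Finite groups `Z = ∏ Z1(D w, M)`, `Z' = ∏ Z1(D w, M')` with the pairing `∑ inv w (c w ∪ c' w)`; its left and right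
kernels are the products of the coboundaries (`H.ld`). `X` = image of `Z1(G, M)` + coboundaries, `X'` likewise: `X` is the annihilator of `X'` (`Mid` and
reciprocity `H.glob.recip`). `GP.card_perp`: `card X * card X' = ...`; `card X / card B = card (z1s) / card (sh1) = g1`.
-/

set_option autoImplicit false
set_option linter.unusedSectionVars false

namespace Pool.Agent.Work.MP_787500_nt.QS

open Pool.Agent.Work.MP_787500_nt.GP (A0 IsAct d0 d1 d2 tw cup11 cup21 cup12 cup01 cup02 EvPow IsPow)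
open Pool.Agent.Work.MP_787500_nt.KR (FSys Sm1 Sm2 IsChar Smooth Z1 Z2 B2 LocH Pair LDual GlobH Mid Sha2
  IsTr zM z1s b1s h1 sh1)

universe v

variable {G : Type*} [Group G] {S : FSys G} {I : Type*} [Fintype I] {D : I → Type*}
  [∀ w, Group (D w)] {SD : ∀ w, FSys (D w)} {j : ∀ w, D w →* G} {χ : G → ℤ_[2]}
  {inv : ∀ w, (D w → D w → A0) → A0} {tr : ((G → G → G → A0) × (∀ w, D w → D w → A0)) →+ A0}

theorem g1_mul (H : HQ.{v} S SD j χ inv tr) {M M' : Type v} [AddCommGroup M] [AddCommGroup M']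
    [Finite M] [Finite M'] {ρ : G → M → M} {ρ' : G → M' → M'} {B : M →+ M' →+ A0}
    (hp : Pair S χ ρ ρ' B) :
    KR.g1 S j hp.act * KR.g1 S j hp.act' = ∏ w, h1 (SD w) (hp.act.comp (j w)) :=
  KR.cnt_of_mid H.glob hp (fun _ => H.ld _ hp) (H.fin hp) (H.fin hp.flip)
    (KR.mid_of_PP H.glob H.istr hp (H.pp hp))

end Pool.Agent.Work.MP_787500_nt.QS
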