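import Mathlib
import Pool.Agent.Work.MP_787500_nt.QS.Th

/-!
# Module Perp (size M): local annihilators (one place)

Symbols of `Defs` (structure `Flag`), `X` the local group.
* `perp_one`: `x` a cocycle in `V` orthogonal to all cocycles with values in `U`. For a cocycle `u` with values in `U`,
  `cup11 ρ (pB β) (i e u) x = cup11 ω γ u (q x)` (`pairU`, `eqq`); `q ∘ x` is a cocycle for `ω`. By `iv_symm` and `hU.one'`
  (pair `(U, Q)`), `q ∘ x = d0 ω n`; `n = q m`; then `q (x d - d0 ρ m d) = 0`, so `x d - d0 ρ m d = i (x₁ d)` (`qker`), `x₁` is a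
  smooth cocycle (`iinj`, `eqi`; model: `fs3_lift` in KR/FU3_Sel).
* `perp_two`: `y` a cocycle in `Vb` orthogonal to all `π ∘ x₁`. `ι ∘ y` is a cocycle for `ρR` (`ι (ρb g (π m₁)) = ι (π (ρ₁ g m₁)) =
  r (i (ρ₁ g m₁)) = r (ρ g (i m₁)) = ρR g (ι (π m₁))`, `psurj`). For `x₁` in `Z1 T ρ₁`:
  `cup11 ρR γR x₁ (ι y) s t = γR (x₁ s) (ρR s (ι (y t))) = pB βb (π (x₁ s)) (ρb s (y t))` (write `y t = π n₁`; `pairR`, `ip`, `bet`).
  By `iv_symm` (for `Vb`) and `hR.one'`: `ι ∘ y = d0 ρR n`, `n = r m`. `r (d0 ρ m d) = ι (y d) = r (i n₁)`, so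
  `d0 ρ m d = i (n₁ + e u) ` (`rker`). Choose `x₁` with `i (x₁ d) = d0 ρ m d`; it is a smooth cocycle (`iinj`), and
  `ι (π (x₁ d)) = r (i (x₁ d)) = ι (y d)` gives `π (x₁ d) = y d` (`iotainj`).
-/

set_option autoImplicit false
set_option linter.unusedSectionVars false

namespace Pool.Agent.Work.MP_787500_nt.QS

open Pool.Agent.Work.MP_787500_nt.GP (A0 IsAct d0 d1 d2 tw cup11 cup21 cup12 cup01 cup02 EvPow IsPow)
open Pool.Agent.Work.MP_787500_nt.KR (FSys Sm1 Sm2 IsChar Smooth Z1 Z2 B2 LocH Pair LDual GlobH Mid Sha2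
  IsTr zM z1s b1s h1 sh1)

universe v

variable {X : Type*} [Group X] {T : FSys X} {χ : X → ℤ_[2]} {iv : (X → X → A0) → A0}
  {O : Type*} [CommRing O] {V V₁ Vb U Q R : Type v} [AddCommGroup V] [Module O V] [Finite V]
  [AddCommGroup V₁] [Module O V₁] [Finite V₁] [AddCommGroup Vb] [Module O Vb] [Finite Vb]
  [AddCommGroup U] [Module O U] [Finite U] [AddCommGroup Q] [Module O Q] [Finite Q]
  [AddCommGroup R] [Module O R] [Finite R] {ρ : X → V → V} {β : V →+ V →+ A0}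
  {l : O → X → V → A0} {ρ₁ : X → V₁ → V₁} {ρb : X → Vb → Vb} {βb : Vb →+ Vb →+ A0}
  {lb : O → X → Vb → A0} {υ : X → U → U} {ω : X → Q → Q} {γ : U →+ Q →+ A0} {ρR : X → R → R}
  {γR : V₁ →+ R →+ A0} {e : U →ₗ[O] V₁} {i : V₁ →ₗ[O] V} {π : V₁ →ₗ[O] Vb} {q : V →ₗ[O] Q}
  {r : V →ₗ[O] R} {ι : Vb →ₗ[O] R} {qb : R →ₗ[O] Q}

private theorem pp_map {A B : Type*} [AddCommGroup A] [AddCommGroup B] {α : X → A → A}
    {α' : X → B → B} (f : A →+ B) (hf : ∀ g a, f (α g a) = α' g (f a)) {x : X → A}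
    (hx : Z1 T α x) : Z1 T α' (fun g => f (x g)) := by
  refine ⟨?_, fun a b => ?_⟩
  · obtain ⟨W, hW, h1⟩ := hx.1
    exact ⟨W, hW, fun g w hw => congrArg f (h1 g w hw)⟩
  · show f (x (a * b)) = f (x a) + α' a (f (x b))
    rw [hx.2, map_add, hf]

private theorem pp_lift {A B : Type*} [AddCommGroup A] [AddCommGroup B] {α : X → A → A}
    {α' : X → B → B} (f : A →+ B) (hinj : Function.Injective f)
    (hf : ∀ g a, f (α g a) = α' g (f a)) {x : X → A} {y : X → B} (hy : Z1 T α' y)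
    (hxy : ∀ g, f (x g) = y g) : Z1 T α x := by
  refine ⟨?_, fun a b => ?_⟩
  · obtain ⟨W, hW, h1⟩ := hy.1
    exact ⟨W, hW, fun g w hw => hinj (by rw [hxy, hxy, h1 g w hw])⟩
  · apply hinj
    rw [map_add, hf, hxy, hxy, hxy]
    exact hy.2 a b

private theorem pp_sub {A : Type*} [AddCommGroup A] {α : X → A → A} (ha : IsAct α) {x y : X → A}
    (hx : Z1 T α x) (hy : Z1 T α y) : Z1 T α (fun g => x g - y g) := by
  refine ⟨?_, fun a b => ?_⟩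
  · obtain ⟨W, hW, h1⟩ := hx.1
    obtain ⟨W', hW', h2⟩ := hy.1
    refine ⟨W ⊓ W', T.inf hW hW', fun g w hw => ?_⟩
    show x (g * w) - y (g * w) = x g - y g
    rw [h1 g w hw.1, h2 g w hw.2]
  · show x (a * b) - y (a * b) = x a - y a + α a (x b - y b)
    rw [hx.2, hy.2, ha.sub]
    abel

theorem perp_one (hL : LocH T χ iv) (h : QM T χ O ρ β l) (fl : Flag ρ β l ρ₁ ρb βb lb υ ω γ ρR γR e i π q r ι qb)
    (hU : LDual T iv υ ω γ) {x : X → V} (hx : Z1 T ρ x)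
    (h0 : ∀ u, Z1 T υ u → iv (cup11 ρ (pB β) x (fun d => i (e (u d)))) = 0) :
    ∃ (x₁ : X → V₁) (m : V), Z1 T ρ₁ x₁ ∧ ∀ d, x d = i (x₁ d) + d0 ρ m d := by
  have hq : Z1 T ω (fun d => q (x d)) := pp_map q.toAddMonoidHom fl.eqq hx
  obtain ⟨n, hn⟩ := hU.one' _ hq (fun u hu => by
    have hu1 : Z1 T ρ₁ (fun d => e (u d)) := pp_map e.toAddMonoidHom fl.eqe hu
    have hu2 : Z1 T ρ (fun d => i (e (u d))) := pp_map i.toAddMonoidHom fl.eqi hu1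
    have e1 : cup11 ω γ u (fun d => q (x d)) = cup11 ρ (pB β) (fun d => i (e (u d))) x := by
      funext s t
      simp only [cup11]
      rw [fl.pairU, fl.eqq]
    rw [e1, ← iv_symm hL h hx hu2]
    exact h0 u hu)
  obtain ⟨m, rfl⟩ := fl.qsurj n
  have h1 : ∀ d, ∃ m₁, i m₁ = x d - d0 ρ m d := by
    intro d
    rw [← fl.qker]
    have h2 : q (x d) = ω d (q m) - q m := congrFun hn d
    show q (x d - (ρ d m - m)) = 0
    rw [map_sub, map_sub, fl.eqq, h2, sub_self]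
  choose x₁ hx₁ using h1
  refine ⟨x₁, m, pp_lift i.toAddMonoidHom fl.iinj fl.eqi
    (pp_sub h.act hx (KR.d0_Z1 h.act h.sm m)) hx₁, fun d => ?_⟩
  rw [hx₁, sub_add_cancel]

theorem perp_two (hL : LocH T χ iv) (h : QM T χ O ρ β l) (hb : QM T χ O ρb βb lb)
    (fl : Flag ρ β l ρ₁ ρb βb lb υ ω γ ρR γR e i π q r ι qb) (hR : LDual T iv ρ₁ ρR γR)
    {y : X → Vb} (hy : Z1 T ρb y)
    (h0 : ∀ x₁, Z1 T ρ₁ x₁ → iv (cup11 ρb (pB βb) y (fun d => π (x₁ d))) = 0) :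
    ∃ (x₁ : X → V₁) (m : V), Z1 T ρ₁ x₁ ∧ (∀ d, i (x₁ d) = d0 ρ m d) ∧ ∀ d, y d = π (x₁ d) := by
  have hιe : ∀ g v, ι (ρb g v) = ρR g (ι v) := by
    intro g v
    obtain ⟨m₁, rfl⟩ := fl.psurj v
    rw [← fl.eqp, fl.ip, fl.eqi, fl.eqr, ← fl.ip]
  have hq : Z1 T ρR (fun d => ι (y d)) := pp_map ι.toAddMonoidHom hιe hy
  obtain ⟨n, hn⟩ := hR.one' _ hq (fun x₁ hx₁ => by
    have hx2 : Z1 T ρb (fun d => π (x₁ d)) := pp_map π.toAddMonoidHom fl.eqp hx₁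
    have e1 : cup11 ρR γR x₁ (fun d => ι (y d)) = cup11 ρb (pB βb) (fun d => π (x₁ d)) y := by
      funext s t
      simp only [cup11]
      obtain ⟨n₁, hn₁⟩ := fl.psurj (y t)
      rw [← hn₁, fl.ip, ← fl.eqr, ← fl.pairR, ← fl.eqp, pB_apply, pB_apply, fl.bet, fl.bet,
        fl.eqi]
    rw [e1, ← iv_symm hL hb hy hx2]
    exact h0 x₁ hx₁)
  obtain ⟨m, rfl⟩ := fl.rsurj n
  have h1 : ∀ d, ∃ m₁, i m₁ = d0 ρ m d := by
    intro d
    obtain ⟨n₁, hn₁⟩ := fl.psurj (y d)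
    have h2 : ι (y d) = ρR d (r m) - r m := congrFun hn d
    have h3 : r (ρ d m - m - i n₁) = 0 := by
      rw [map_sub, map_sub, fl.eqr, ← h2, ← fl.ip, hn₁, sub_self]
    obtain ⟨u, hu⟩ := (fl.rker _).1 h3
    refine ⟨n₁ + e u, ?_⟩
    rw [map_add, hu]
    show i n₁ + (ρ d m - m - i n₁) = ρ d m - m
    abel
  choose x₁ hx₁ using h1
  refine ⟨x₁, m, pp_lift i.toAddMonoidHom fl.iinj fl.eqi (KR.d0_Z1 h.act h.sm m) hx₁, hx₁,
    fun d => fl.iotainj ?_⟩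
  have h2 : ι (y d) = ρR d (r m) - r m := congrFun hn d
  rw [fl.ip, hx₁, h2]
  show _ = r (ρ d m - m)
  rw [map_sub, fl.eqr]

end Pool.Agent.Work.MP_787500_nt.QS
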