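import Mathlib
import Pool.Agent.Work.MP_787500_nt.QS.Perp
import Pool.Agent.Work.MP_787500_nt.GP.F01_Card
import Pool.Agent.Work.MP_787500_nt.KR.E1_Lag

/-!
# Module IndLag (size M-L): induced Lagrangian conditions (one place)

`Yb` Lagrangian for `Vb`. `Y = indY Yb = {i x₁ + d0 m : π x₁ ∈ Yb}`, `Yr = redY Y = {π x₁ : i x₁ ∈ Y}`.
* `ind_lag`. `coc` clear. Isotropy: for `x = i x₁ + d0 m`, `y = i y₁ + d0 n`: `iv (x ∪ y) = iv (i x₁ ∪ i y₁)` (`iv_cup_d0`, `iv_symm`,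
  additivity) `= iv (π x₁ ∪ π y₁) = 0` (`cup11 ρ (pB β) (i x₁) (i y₁) = cup11 ρb (pB βb) (π x₁) (π y₁)` by `bet`, `eqi`, `eqp`).
  `Zq ρ β l a (i x₁) = Zq ρb βb lb a (π x₁)` (`bet`, `lam`, `eqi`, `eqp`), so `iso` from `iv_Zq_cob`.
  Maximality: `x` orthogonal to `Y`. `Y` contains `i e u` for `u ∈ Z1 T υ` (`π (e u) = 0`), so `perp_one`: `x = i x₁ + d0 m`.
  For all `y₁` with `π y₁ ∈ Yb`: `0 = iv (x ∪ i y₁) = iv (π x₁ ∪ π y₁)`. So `π x₁` is orthogonal to `Yb ∩ A`, `A = {π y₁ : y₁ ∈ Z1 T ρ₁}`.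
  In the finite group `Z = {y | Z1 T ρb y}` with the symmetric pairing `iv (y ∪ y')` with radical the coboundaries (`hB`):
  `(Yb ∩ A)^⊥ = Yb^⊥ + A^⊥ = Yb + A^⊥` (both contain the radical; `GP.perp_perp`, `GP.card_perp`, or KR/E1_Lag `perpS_inf`,
  `perpS_sup`; `A` contains the coboundaries of `Vb` since `psurj`). `A^⊥` is given by `perp_two`: `π x₁ = y + π x₂`, `y ∈ Yb`, `i x₂ = d0 n`. Then
  `x = i (x₁ - x₂) + d0 (m + n)` and `π (x₁ - x₂) = y ∈ Yb`.
* `red_lag`. Isotropy and `iso` from `Y` by the same identities. Maximality: `y` orthogonal to `Yr`. `Yr` contains `A^⊥`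
  (`i x₂ = d0 n ∈ Y`) so `y ∈ A^⊥⊥ = A`: `y = π x₁`, and `i x₁` is orthogonal to `Y`: for `z = i z₁ + d0 n ∈ Y`, `iv (i x₁ ∪ z) =
  iv (π x₁ ∪ π z₁) = 0` as `π z₁ ∈ Yr` (`i z₁ ∈ Y`: take `m = 0`). So `i x₁ ∈ Y` by `ind_lag`.
-/

set_option autoImplicit false
set_option linter.unusedSectionVars false

namespace Pool.Agent.Work.MP_787500_nt.QS

open Pool.Agent.Work.MP_787500_nt.GP (A0 IsAct d0 d1 d2 tw cup11 cup21 cup12 cup01 cup02 EvPow IsPow)
open Pool.Agent.Work.MP_787500_nt.KR (FSys Sm1 Sm2 IsChar Smooth Z1 Z2 B2 LocH Pair LDual GlobH Mid Sha2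
  IsTr zM z1s b1s h1 sh1)

universe v

section aux

variable {X : Type*} [Group X] {T : FSys X} {χ : X → ℤ_[2]} {iv : (X → X → A0) → A0}
  {O : Type*} [CommRing O] {V : Type*} [AddCommGroup V] [Module O V] {ρ : X → V → V}
  {β : V →+ V →+ A0} {l : O → X → V → A0}

private theorem il_map {A B : Type*} [AddCommGroup A] [AddCommGroup B] {α : X → A → A}
    {α' : X → B → B} (f : A →+ B) (hf : ∀ g a, f (α g a) = α' g (f a)) {x : X → A}
    (hx : Z1 T α x) : Z1 T α' (fun g => f (x g)) := by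
  refine ⟨?_, fun a b => ?_⟩
  · obtain ⟨W, hW, h1⟩ := hx.1
    exact ⟨W, hW, fun g w hw => congrArg f (h1 g w hw)⟩
  · show f (x (a * b)) = f (x a) + α' a (f (x b))
    rw [hx.2, map_add, hf]

private theorem il_sub {A : Type*} [AddCommGroup A] {α : X → A → A} (ha : IsAct α) {x y : X → A}
    (hx : Z1 T α x) (hy : Z1 T α y) : Z1 T α (fun g => x g - y g) := by
  refine ⟨?_, fun a b => ?_⟩
  · obtain ⟨W, hW, h1⟩ := hx.1
    obtain ⟨W', hW', h2⟩ := hy.1
    refine ⟨W ⊓ W', T.inf hW hW', fun g w hw => ?_⟩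
    show x (g * w) - y (g * w) = x g - y g
    rw [h1 g w hw.1, h2 g w hw.2]
  · show x (a * b) - y (a * b) = x a - y a + α a (x b - y b)
    rw [hx.2, hy.2, ha.sub]
    abel

private theorem il_add {A : Type*} [AddCommGroup A] {α : X → A → A} (ha : IsAct α) {x y : X → A}
    (hx : Z1 T α x) (hy : Z1 T α y) : Z1 T α (x + y) := by
  refine ⟨?_, fun a b => ?_⟩
  · obtain ⟨W, hW, h1⟩ := hx.1
    obtain ⟨W', hW', h2⟩ := hy.1
    refine ⟨W ⊓ W', T.inf hW hW', fun g w hw => ?_⟩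
    show x (g * w) + y (g * w) = x g + y g
    rw [h1 g w hw.1, h2 g w hw.2]
  · show x (a * b) + y (a * b) = x a + y a + α a (x b + y b)
    rw [hx.2, hy.2, ha.add]
    abel

private theorem il_cup_add (hL : LocH T χ iv) (h : QM T χ O ρ β l) {x x' y : X → V}
    (hx : Z1 T ρ x) (hx' : Z1 T ρ x') (hy : Z1 T ρ y) :
    iv (cup11 ρ (pB β) (x + x') y) =
      iv (cup11 ρ (pB β) x y) + iv (cup11 ρ (pB β) x' y) := by
  have e : cup11 ρ (pB β) (x + x') y = fun s t =>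
      cup11 ρ (pB β) x y s t + cup11 ρ (pB β) x' y s t := by
    funext s t
    show pB β (x s + x' s) (ρ s (y t)) = _
    rw [map_add]
    rfl
  rw [e, hL.add _ _ (KR.cup11_Z2 h.pair hx hy) (KR.cup11_Z2 h.pair hx' hy)]

private theorem il_cup_add' (hL : LocH T χ iv) (h : QM T χ O ρ β l) {x y y' : X → V}
    (hx : Z1 T ρ x) (hy : Z1 T ρ y) (hy' : Z1 T ρ y') :
    iv (cup11 ρ (pB β) x (y + y')) =
      iv (cup11 ρ (pB β) x y) + iv (cup11 ρ (pB β) x y') := by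
  rw [iv_symm hL h hx (il_add h.act hy hy'), il_cup_add hL h hy hy' hx, iv_symm hL h hy hx,
    iv_symm hL h hy' hx]

private theorem il_cup_cob (hL : LocH T χ iv) (h : QM T χ O ρ β l) {x y : X → V}
    (hx : Z1 T ρ x) (hy : Z1 T ρ y) (m n : V) :
    iv (cup11 ρ (pB β) (x + d0 ρ m) (y + d0 ρ n)) = iv (cup11 ρ (pB β) x y) := by
  have hm := KR.d0_Z1 h.act h.sm m (S := T)
  have hn := KR.d0_Z1 h.act h.sm n (S := T)
  rw [il_cup_add hL h hx hm (il_add h.act hy hn), iv_cup_d0 hL h (il_add h.act hy hn), add_zero,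
    il_cup_add' hL h hx hy hn, iv_symm hL h hx hn, iv_cup_d0 hL h hx, add_zero]

/-- the pairing on the module of cocycles -/
private noncomputable def il_B (hL : LocH T χ iv) (h : QM T χ O ρ β l) :
    (zM T h.act h.lin : Submodule O (X → V)) →+ (zM T h.act h.lin : Submodule O (X → V)) →+ A0 :=
  AddMonoidHom.mk' (fun x => AddMonoidHom.mk'
    (fun y => iv (cup11 ρ (pB β) (x : X → V) (y : X → V)))
    (fun y y' => il_cup_add' hL h x.2 y.2 y'.2))
    (fun x x' => by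
      ext y
      exact il_cup_add hL h x.2 x'.2 y.2)

private theorem il_B_apply (hL : LocH T χ iv) (h : QM T χ O ρ β l)
    (x y : (zM T h.act h.lin : Submodule O (X → V))) :
    il_B hL h x y = iv (cup11 ρ (pB β) (x : X → V) (y : X → V)) := rfl

private theorem il_B_symm (hL : LocH T χ iv) (h : QM T χ O ρ β l)
    (x y : (zM T h.act h.lin : Submodule O (X → V))) : il_B hL h x y = il_B hL h y x := by
  rw [il_B_apply, il_B_apply, iv_symm hL h x.2 y.2]

private theorem il_B_bal (hL : LocH T χ iv) (h : QM T χ O ρ β l) (a : O)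
    (x y : (zM T h.act h.lin : Submodule O (X → V))) :
    il_B hL h (a • x) y = il_B hL h x (a • y) := by
  rw [il_B_apply, il_B_apply]
  congr 1
  funext s t
  show pB β (a • (x : X → V) s) (ρ s ((y : X → V) t)) =
    pB β ((x : X → V) s) (ρ s (a • (y : X → V) t))
  rw [pB_bal h, h.lin]

end aux

variable {X : Type*} [Group X] {T : FSys X} {χ : X → ℤ_[2]} {iv : (X → X → A0) → A0}
  {O : Type*} [CommRing O] {V V₁ Vb U Q R : Type v} [AddCommGroup V] [Module O V] [Finite V]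
  [AddCommGroup V₁] [Module O V₁] [Finite V₁] [AddCommGroup Vb] [Module O Vb] [Finite Vb]
  [AddCommGroup U] [Module O U] [Finite U] [AddCommGroup Q] [Module O Q] [Finite Q]
  [AddCommGroup R] [Module O R] [Finite R] {ρ : X → V → V} {β : V →+ V →+ A0}
  {l : O → X → V → A0} {ρ₁ : X → V₁ → V₁} {ρb : X → Vb → Vb} {βb : Vb →+ Vb →+ A0}
  {lb : O → X → Vb → A0} {υ : X → U → U} {ω : X → Q → Q} {γ : U →+ Q →+ A0} {ρR : X → R → R}
  {γR : V₁ →+ R →+ A0} {e : U →ₗ[O] V₁} {i : V₁ →ₗ[O] V} {π : V₁ →ₗ[O] Vb} {q : V →ₗ[O] Q}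
  {r : V →ₗ[O] R} {ι : Vb →ₗ[O] R} {qb : R →ₗ[O] Q}

theorem cup_ip (h : QM T χ O ρ β l) (fl : Flag ρ β l ρ₁ ρb βb lb υ ω γ ρR γR e i π q r ι qb)
    (x y : X → V₁) : cup11 ρ (pB β) (fun d => i (x d)) (fun d => i (y d)) =
      cup11 ρb (pB βb) (fun d => π (x d)) (fun d => π (y d)) := by
  funext s t
  show pB β (i (x s)) (ρ s (i (y t))) = pB βb (π (x s)) (ρb s (π (y t)))
  rw [← fl.eqi, ← fl.eqp, pB_apply, pB_apply, fl.bet, fl.bet]

theorem Zq_ip (h : QM T χ O ρ β l) (fl : Flag ρ β l ρ₁ ρb βb lb υ ω γ ρR γR e i π q r ι qb) (a : O)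
    (x : X → V₁) : Zq ρ β l a (fun d => i (x d)) = Zq ρb βb lb a (fun d => π (x d)) := by
  funext s t
  show β (a • i (x s)) (ρ s (i (x t))) + l a s (i (x t)) =
    βb (a • π (x s)) (ρb s (π (x t))) + lb a s (π (x t))
  rw [← fl.eqi, ← fl.eqp, ← map_smul, ← map_smul, fl.bet, fl.lam]

/-- the cocycles that lift -/
private def il_A (hb : QM T χ O ρb βb lb) (h : QM T χ O ρ β l)
    (fl : Flag ρ β l ρ₁ ρb βb lb υ ω γ ρR γR e i π q r ι qb) :
    Submodule O (zM T hb.act hb.lin : Submodule O (X → Vb)) where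
  carrier := {z | ∃ x₁ : X → V₁, Z1 T ρ₁ x₁ ∧ ∀ d, (z : X → Vb) d = π (x₁ d)}
  add_mem' := by
    rintro z z' ⟨x, hx, h1⟩ ⟨x', hx', h1'⟩
    refine ⟨x + x', (zM T (fl.act₁ h.act) (fl.lin₁ h.lin)).add_mem hx hx', fun d => ?_⟩
    show (z : X → Vb) d + (z' : X → Vb) d = π (x d + x' d)
    rw [map_add, h1, h1']
  zero_mem' := ⟨0, (zM T (fl.act₁ h.act) (fl.lin₁ h.lin)).zero_mem, fun d => by
    show (0 : Vb) = π 0
    rw [map_zero]⟩
  smul_mem' := by
    rintro a z ⟨x, hx, h1⟩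
    refine ⟨a • x, (zM T (fl.act₁ h.act) (fl.lin₁ h.lin)).smul_mem a hx, fun d => ?_⟩
    show a • (z : X → Vb) d = π (a • x d)
    rw [map_smul, h1]

private theorem il_sm1 (h : QM T χ O ρ β l)
    (fl : Flag ρ β l ρ₁ ρb βb lb υ ω γ ρR γR e i π q r ι qb) : Smooth T ρ₁ := by
  obtain ⟨W, hW, h1⟩ := h.sm
  exact ⟨W, hW, fun w hw m => fl.iinj (by rw [fl.eqi, h1 w hw])⟩

/-- the radical of the pairing consists of liftable cocycles -/
private theorem il_rad (hL : LocH T χ iv) (h : QM T χ O ρ β l) (hb : QM T χ O ρb βb lb)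
    (fl : Flag ρ β l ρ₁ ρb βb lb υ ω γ ρR γR e i π q r ι qb) (hB : LDual T iv ρb ρb (pB βb)) :
    KR.perpS (il_B hL hb) (il_B_bal hL hb) ⊤ ≤ il_A hb h fl := by
  intro z hz
  obtain ⟨m, hm⟩ := hB.one' (z : X → Vb) z.2 fun x hx => hz ⟨x, hx⟩ trivial
  obtain ⟨m₁, rfl⟩ := fl.psurj m
  refine ⟨d0 ρ₁ m₁, KR.d0_Z1 (fl.act₁ h.act) (il_sm1 h fl) m₁, fun d => ?_⟩
  rw [hm]
  show ρb d (π m₁) - π m₁ = π (ρ₁ d m₁ - m₁)
  rw [map_sub, fl.eqp]

/-- the annihilator of the liftable cocycles -/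
private theorem il_perpA (hL : LocH T χ iv) (h : QM T χ O ρ β l) (hb : QM T χ O ρb βb lb)
    (fl : Flag ρ β l ρ₁ ρb βb lb υ ω γ ρR γR e i π q r ι qb) (hR : LDual T iv ρ₁ ρR γR)
    {z : (zM T hb.act hb.lin : Submodule O (X → Vb))}
    (hz : z ∈ KR.perpS (il_B hL hb) (il_B_bal hL hb) (il_A hb h fl)) :
    ∃ (x₁ : X → V₁) (m : V), Z1 T ρ₁ x₁ ∧ (∀ d, i (x₁ d) = d0 ρ m d) ∧
      ∀ d, (z : X → Vb) d = π (x₁ d) := by
  refine perp_two hL h hb fl hR z.2 fun x₁ hx₁ => ?_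
  have h1 : Z1 T ρb (fun d => π (x₁ d)) := il_map π.toAddMonoidHom fl.eqp hx₁
  have h2 := hz ⟨_, h1⟩ ⟨x₁, hx₁, fun d => rfl⟩
  rw [il_B_symm] at h2
  exact h2

/-- a Lagrangian condition as a submodule of the cocycles -/
private theorem il_self (hL : LocH T χ iv) (hb : QM T χ O ρb βb lb) {Yb : Submodule O (X → Vb)}
    (hY : Lag T iv ρb βb lb Yb) :
    KR.perpS (il_B hL hb) (il_B_bal hL hb)
      (Yb.comap (zM T hb.act hb.lin : Submodule O (X → Vb)).subtype) =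
      Yb.comap (zM T hb.act hb.lin : Submodule O (X → Vb)).subtype := by
  ext z
  constructor
  · intro hz
    show (z : X → Vb) ∈ Yb
    rw [hY.self _ z.2]
    intro y hy
    have h1 := hz ⟨y, hY.coc y hy⟩ hy
    rw [il_B_symm] at h1
    exact h1
  · intro hz x hx
    exact (hY.self _ x.2).1 hx _ hz

theorem ind_lag (hL : LocH T χ iv) (h : QM T χ O ρ β l) (hb : QM T χ O ρb βb lb)
    (fl : Flag ρ β l ρ₁ ρb βb lb υ ω γ ρR γR e i π q r ι qb) (hU : LDual T iv υ ω γ)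
    (hR : LDual T iv ρ₁ ρR γR) (hB : LDual T iv ρb ρb (pB βb)) {Yb : Submodule O (X → Vb)}
    (hY : Lag T iv ρb βb lb Yb) :
    Lag T iv ρ β l (indY T i π h.act h.lin (fl.act₁ h.act) (fl.lin₁ h.lin) Yb) := by
  have hi : ∀ x₁ : X → V₁, Z1 T ρ₁ x₁ → Z1 T ρ (fun d => i (x₁ d)) := fun x₁ hx₁ =>
    il_map i.toAddMonoidHom fl.eqi hx₁
  have hfun : ∀ (x : X → V) (x₁ : X → V₁) (m : V), (∀ d, x d = i (x₁ d) + d0 ρ m d) →
      x = (fun d => i (x₁ d)) + d0 ρ m := fun x x₁ m h3 => funext h3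
  refine ⟨?_, ?_, ?_⟩
  · rintro x ⟨x₁, m, h1, h2, h3⟩
    rw [hfun x x₁ m h3]
    exact il_add h.act (hi x₁ h1) (KR.d0_Z1 h.act h.sm m)
  · intro x hx
    constructor
    · rintro ⟨x₁, m, h1, h2, h3⟩ y ⟨y₁, n, k1, k2, k3⟩
      rw [hfun x x₁ m h3, hfun y y₁ n k3, il_cup_cob hL h (hi x₁ h1) (hi y₁ k1), cup_ip h fl]
      exact (hY.self _ (hY.coc _ h2)).1 h2 _ k2
    · intro hx0
      obtain ⟨x₁, m, h1, h3⟩ := perp_one hL h fl hU hx fun u hu => by
        refine hx0 _ ⟨fun d => e (u d), 0, il_map e.toAddMonoidHom fl.eqe hu, ?_, fun d => ?_⟩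
        · have : (fun d => π (e (u d))) = 0 := by
            funext d
            exact (fl.pker _).2 ⟨u d, rfl⟩
          rw [this]
          exact Yb.zero_mem
        · show i (e (u d)) = i (e (u d)) + (ρ d 0 - 0)
          rw [h.act.zero, sub_zero, add_zero]
      have hπ : Z1 T ρb (fun d => π (x₁ d)) := il_map π.toAddMonoidHom fl.eqp h1
      have hmem : (⟨_, hπ⟩ : (zM T hb.act hb.lin : Submodule O (X → Vb))) ∈
          KR.perpS (il_B hL hb) (il_B_bal hL hb)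
            (Yb.comap (zM T hb.act hb.lin : Submodule O (X → Vb)).subtype ⊓ il_A hb h fl) := by
        rintro z ⟨hz1, y₁, hy₁, hz2⟩
        rw [il_B_symm]
        have hz3 : (z : X → Vb) = fun d => π (y₁ d) := funext hz2
        have hz4 : (fun d => π (y₁ d)) ∈ Yb := by
          rw [← hz3]
          exact hz1
        have h4 := hx0 (fun d => i (y₁ d)) ⟨y₁, 0, hy₁, hz4, fun d => by
          show i (y₁ d) = i (y₁ d) + (ρ d 0 - 0)
          rw [h.act.zero, sub_zero, add_zero]⟩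
        have h5 : (fun d => i (y₁ d)) = (fun d => i (y₁ d)) + d0 ρ (0 : V) := by
          funext d
          show i (y₁ d) = i (y₁ d) + (ρ d 0 - 0)
          rw [h.act.zero, sub_zero, add_zero]
        rw [h5, hfun x x₁ m h3, il_cup_cob hL h (hi x₁ h1) (hi y₁ hy₁), cup_ip h fl] at h4
        rw [il_B_apply, hz3]
        exact h4
      have hfin : Finite (zM T hb.act hb.lin : Submodule O (X → Vb)) := hB.fin
      have hself := il_self hL hb hY
      have hradY : KR.perpS (il_B hL hb) (il_B_bal hL hb) ⊤ ≤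
          Yb.comap (zM T hb.act hb.lin : Submodule O (X → Vb)).subtype := by
        rw [← hself]
        exact KR.perpS_top_le _ _ _
      rw [KR.perpS_inf (il_B hL hb) (il_B_bal hL hb) (il_B_symm hL hb) _ _
        (by rw [sup_eq_left.2 hradY]; exact hself) (il_rad hL h hb fl hB)] at hmem
      obtain ⟨y, hy, w, hw, hyw⟩ := Submodule.mem_sup.1 hmem
      obtain ⟨x₂, n, g1, g2, g3⟩ := il_perpA hL h hb fl hR hw
      have hyw' : ∀ d, (y : X → Vb) d + (w : X → Vb) d = π (x₁ d) := fun d =>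
        congrFun (congrArg Subtype.val hyw) d
      refine ⟨fun d => x₁ d - x₂ d, m + n, il_sub (fl.act₁ h.act) h1 g1, ?_, fun d => ?_⟩
      · have : (fun d => π (x₁ d - x₂ d)) = (y : X → Vb) := by
          funext d
          rw [map_sub, ← hyw', g3]
          abel
        rw [this]
        exact hy
      · rw [h3, map_sub, g2]
        simp only [d0, h.act.add]
        abel
  · rintro a x ⟨x₁, m, h1, h2, h3⟩
    rw [hfun x x₁ m h3, iv_Zq_cob hL h (hi x₁ h1), Zq_ip h fl]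
    exact hY.iso a _ h2

theorem red_lag (hL : LocH T χ iv) (h : QM T χ O ρ β l) (hb : QM T χ O ρb βb lb)
    (fl : Flag ρ β l ρ₁ ρb βb lb υ ω γ ρR γR e i π q r ι qb) (hU : LDual T iv υ ω γ)
    (hR : LDual T iv ρ₁ ρR γR) (hB : LDual T iv ρb ρb (pB βb)) {Yb : Submodule O (X → Vb)}
    (hY : Lag T iv ρb βb lb Yb) :
    Lag T iv ρb βb lb (redY T i π (fl.act₁ h.act) (fl.lin₁ h.lin)
      (indY T i π h.act h.lin (fl.act₁ h.act) (fl.lin₁ h.lin) Yb)) := by
  have hI := ind_lag hL h hb fl hU hR hB hY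
  have hi : ∀ x₁ : X → V₁, Z1 T ρ₁ x₁ → Z1 T ρ (fun d => i (x₁ d)) := fun x₁ hx₁ =>
    il_map i.toAddMonoidHom fl.eqi hx₁
  have hz0 : ∀ x : X → V, x = x + d0 ρ (0 : V) := by
    intro x
    funext d
    show x d = x d + (ρ d 0 - 0)
    rw [h.act.zero, sub_zero, add_zero]
  refine ⟨?_, ?_, ?_⟩
  · rintro y ⟨x₁, h1, h2, h3⟩
    rw [show y = fun d => π (x₁ d) from funext h3]
    exact il_map π.toAddMonoidHom fl.eqp h1
  · intro y hy
    constructor
    · rintro ⟨x₁, h1, h2, h3⟩ z ⟨z₁, k1, k2, k3⟩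
      rw [show y = fun d => π (x₁ d) from funext h3, show z = fun d => π (z₁ d) from funext k3,
        ← cup_ip h fl]
      exact (hI.self _ (hi x₁ h1)).1 h2 _ k2
    · intro hy0
      have hfin : Finite (zM T hb.act hb.lin : Submodule O (X → Vb)) := hB.fin
      have hmem : (⟨y, hy⟩ : (zM T hb.act hb.lin : Submodule O (X → Vb))) ∈ il_A hb h fl := by
        have h4 := GP.perp_perp (il_B hL hb) (il_A hb h fl).toAddSubgroup fun a ha =>
          il_rad hL h hb fl hB fun x _ => by rw [il_B_symm]; exact ha x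
        have h5 : (⟨y, hy⟩ : (zM T hb.act hb.lin : Submodule O (X → Vb))) ∈
            (il_A hb h fl).toAddSubgroup := by
          rw [← h4]
          intro w hw
          have hw' : w ∈ KR.perpS (il_B hL hb) (il_B_bal hL hb) (il_A hb h fl) := hw
          obtain ⟨x₂, n, g1, g2, g3⟩ := il_perpA hL h hb fl hR hw'
          show il_B hL hb ⟨y, hy⟩ w = 0
          rw [il_B_apply]
          refine hy0 _ ⟨x₂, g1, ?_, g3⟩
          rw [show (fun d => i (x₂ d)) = d0 ρ n from funext g2]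
          exact hI.cob hL h n
        exact h5
      obtain ⟨x₁, h1, h3⟩ := hmem
      refine ⟨x₁, h1, ?_, h3⟩
      rw [hI.self _ (hi x₁ h1)]
      rintro z ⟨z₁, n, k1, k2, k3⟩
      rw [show z = (fun d => i (z₁ d)) + d0 ρ n from funext k3, hz0 (fun d => i (x₁ d)),
        il_cup_cob hL h (hi x₁ h1) (hi z₁ k1), cup_ip h fl,
        ← show y = fun d => π (x₁ d) from funext h3]
      refine hy0 _ ⟨z₁, k1, ⟨z₁, 0, k1, k2, fun d => ?_⟩, fun d => rfl⟩
      show i (z₁ d) = i (z₁ d) + (ρ d 0 - 0)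
      rw [h.act.zero, sub_zero, add_zero]
  · rintro a y ⟨x₁, h1, h2, h3⟩
    rw [show y = fun d => π (x₁ d) from funext h3, ← Zq_ip h fl]
    exact hI.iso a _ h2

end Pool.Agent.Work.MP_787500_nt.QS
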