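import Mathlib
import Pool.Agent.Work.MP_787500_nt.QS.Th
import Pool.Agent.Work.MP_787500_nt.QS.IndLag
import Pool.Agent.Work.MP_787500_nt.GP.F01_Card

/-!
# Module Cnt1 (size M): the Selmer group of `V` and of the subquotient `Vb`

Symbols of `Defs`; model: `sel_step` in KR/FU3_Sel.lean (the proofs of `e1` to `e6` there can be copied).
`A = selQ Yind`, `Yind = indQ Yb`, `A' = selQ Yred`, `Yred = redQ Yind`, `A'_l = lftQ`.
* `sel_q`: for `x ∈ A`, `q ∘ x` is a cocycle, and at each place `x = i x₁ + d0 m`, so `q x = d0 ω (q m)`.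
* `sel_i`: for a cocycle `x₁` with values in `V₁`: `i ∘ x₁ ∈ A` iff `π ∘ x₁ ∈ A'`: (forward) by definition of `redY`; (backward)
  at each place `π x₁ = π y₁` with `y₁` a cocycle and `i y₁ ∈ Yind`; `x₁ - y₁ = e u`, `u` a cocycle (`einj`), `i (e u) ∈ Yind` (take `x₁ := e u`,
  `m = 0`, `π (e u) = 0 ∈ Yb`), so `i x₁ ∈ Yind`.
* `card_A`: the kernel of `x ↦ q ∘ x` on `A` is `≃ {x₁ | Z1 S ρ₁ x₁ ∧ π ∘ x₁ ∈ A'}` (`qker`, `iinj`), which maps by `π` onto `A'_l` with
  kernel `≃ z1s υ` (`pker`, `einj`). Finiteness is not needed: `Nat.card` is multiplicative for a homomorphism of groups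
  (`fs3_card` in KR/FU3_Sel).
-/

set_option autoImplicit false
set_option linter.unusedSectionVars false

namespace Pool.Agent.Work.MP_787500_nt.QS

open Pool.Agent.Work.MP_787500_nt.GP (A0 IsAct d0 d1 d2 tw cup11 cup21 cup12 cup01 cup02 EvPow IsPow)
open Pool.Agent.Work.MP_787500_nt.KR (FSys Sm1 Sm2 IsChar Smooth Z1 Z2 B2 LocH Pair LDual GlobH Mid Sha2
  IsTr zM z1s b1s h1 sh1)

universe v

variable {G : Type*} [Group G] {S : FSys G} {I : Type*} [Fintype I] {D : I → Type*}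
  [∀ w, Group (D w)] {SD : ∀ w, FSys (D w)} {j : ∀ w, D w →* G} {χ : G → ℤ_[2]}
  {inv : ∀ w, (D w → D w → A0) → A0} {tr : ((G → G → G → A0) × (∀ w, D w → D w → A0)) →+ A0}
  {O : Type*} [CommRing O] {V V₁ Vb U Q R : Type v} [AddCommGroup V] [Module O V] [Finite V]
  [AddCommGroup V₁] [Module O V₁] [Finite V₁] [AddCommGroup Vb] [Module O Vb] [Finite Vb]
  [AddCommGroup U] [Module O U] [Finite U] [AddCommGroup Q] [Module O Q] [Finite Q]
  [AddCommGroup R] [Module O R] [Finite R] {ρ : G → V → V} {β : V →+ V →+ A0}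
  {l : O → G → V → A0} {ρ₁ : G → V₁ → V₁} {ρb : G → Vb → Vb} {βb : Vb →+ Vb →+ A0}
  {lb : O → G → Vb → A0} {υ : G → U → U} {ω : G → Q → Q} {γ : U →+ Q →+ A0} {ρR : G → R → R}
  {γR : V₁ →+ R →+ A0} {e : U →ₗ[O] V₁} {i : V₁ →ₗ[O] V} {π : V₁ →ₗ[O] Vb} {q : V →ₗ[O] Q}
  {r : V →ₗ[O] R} {ι : Vb →ₗ[O] R} {qb : R →ₗ[O] Q}

private theorem c1_map {X : Type*} [Group X] {T : FSys X} {A B : Type*} [AddCommGroup A]
    [AddCommGroup B] {α : X → A → A} {δ : X → B → B} (f : A →+ B)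
    (hf : ∀ g a, f (α g a) = δ g (f a)) {x : X → A} (hx : Z1 T α x) :
    Z1 T δ (fun g => f (x g)) := by
  refine ⟨?_, fun a b => ?_⟩
  · obtain ⟨W, hW, h1⟩ := hx.1
    exact ⟨W, hW, fun g w hw => congrArg f (h1 g w hw)⟩
  · show f (x (a * b)) = f (x a) + δ a (f (x b))
    rw [hx.2, map_add, hf]

private theorem c1_lift {X : Type*} [Group X] {T : FSys X} {A B : Type*} [AddCommGroup A]
    [AddCommGroup B] {α : X → A → A} {δ : X → B → B} (f : A →+ B) (hinj : Function.Injective f)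
    (hf : ∀ g a, f (α g a) = δ g (f a)) {x : X → A} (hx : Z1 T δ (fun g => f (x g))) :
    Z1 T α x := by
  refine ⟨?_, fun a b => ?_⟩
  · obtain ⟨W, hW, h1⟩ := hx.1
    exact ⟨W, hW, fun g w hw => hinj (h1 g w hw)⟩
  · apply hinj
    rw [map_add, hf]
    exact hx.2 a b

private theorem c1_card {A B : Type*} [AddCommGroup A] [AddCommGroup B] (f : A →+ B) :
    Nat.card A = Nat.card f.range * Nat.card f.ker := by
  have h1 : Nat.card A = Nat.card (A ⧸ f.ker) * Nat.card f.ker :=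
    AddSubgroup.card_eq_card_quotient_mul_card_addSubgroup _
  rw [Nat.card_congr (QuotientAddGroup.quotientKerEquivRange f).toEquiv] at h1
  exact h1

private theorem c1_qi (fl : Flag ρ β l ρ₁ ρb βb lb υ ω γ ρR γR e i π q r ι qb) (m : V₁) :
    q (i m) = 0 := (fl.qker _).2 ⟨m, rfl⟩

private theorem c1_pe (fl : Flag ρ β l ρ₁ ρb βb lb υ ω γ ρR γR e i π q r ι qb) (u : U) :
    π (e u) = 0 := (fl.pker _).2 ⟨u, rfl⟩

theorem sel_q (H : HQ.{v} S SD j χ inv tr) (h : QM S χ O ρ β l) (fl : Flag ρ β l ρ₁ ρb βb lb υ ω γ ρR γR e i π q r ι qb)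
    {Yb : ∀ w, Submodule O (D w → Vb)} {x : G → V}
    (hx : x ∈ selQ S j h.act h.lin (indQ SD j h fl Yb)) :
    (fun g => q (x g)) ∈ shQ S j (fl.actQ h.act) (fl.linQ h.lin) := by
  refine ⟨c1_map q.toAddMonoidHom fl.eqq hx.1, fun w => ?_⟩
  obtain ⟨x₁, m, -, -, h3⟩ := hx.2 w
  refine ⟨q m, fun d => ?_⟩
  have h4 := congrArg q (h3 d)
  simp only [map_sub, map_add, c1_qi fl, d0, fl.eqq, zero_add] at h4
  exact h4

theorem sel_i (H : HQ.{v} S SD j χ inv tr) (h : QM S χ O ρ β l) (hb : QM S χ O ρb βb lb)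
    (fl : Flag ρ β l ρ₁ ρb βb lb υ ω γ ρR γR e i π q r ι qb) {Yb : ∀ w, Submodule O (D w → Vb)}
    {x₁ : G → V₁} (hx : Z1 S ρ₁ x₁) :
    (fun g => i (x₁ g)) ∈ selQ S j h.act h.lin (indQ SD j h fl Yb) ↔
      (fun g => π (x₁ g)) ∈ selQ S j hb.act hb.lin (redQ SD j h fl (indQ SD j h fl Yb)) := by
  have hxj : ∀ w, Z1 (SD w) (fun d => ρ₁ (j w d)) (fun d => x₁ (j w d)) := fun w =>
    KR.Z1.comp (H.glob.jsm w) hx
  constructor
  · intro h1
    exact ⟨c1_map π.toAddMonoidHom fl.eqp hx, fun w =>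
      ⟨fun d => x₁ (j w d), hxj w, h1.2 w, fun d => rfl⟩⟩
  · intro h1
    refine ⟨c1_map i.toAddMonoidHom fl.eqi hx, fun w => ?_⟩
    obtain ⟨y₁, hy1, hy2, hy3⟩ := h1.2 w
    -- the difference is in `U`
    have hdiff : (fun d => i (x₁ (j w d) - y₁ d)) ∈ indQ SD j h fl Yb w := by
      refine ⟨fun d => x₁ (j w d) - y₁ d, 0, (zM (SD w) ((fl.act₁ h.act).comp (j w))
        (fun g => fl.lin₁ h.lin (j w g))).sub_mem (hxj w) hy1, ?_, fun d => ?_⟩
      · have h2 : (fun d => π (x₁ (j w d) - y₁ d)) = 0 := by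
          funext d
          have h3 := hy3 d
          beta_reduce at h3
          rw [map_sub, h3, sub_self]
          rfl
        rw [h2]
        exact (Yb w).zero_mem
      · simp only [d0, h.act.zero, sub_zero, add_zero]
    have h4 := (indQ SD j h fl Yb w).add_mem hdiff hy2
    have h5 : ((fun d => i (x₁ (j w d) - y₁ d)) + fun d => i (y₁ d)) =
        fun d => i (x₁ (j w d)) := by
      funext d
      simp only [Pi.add_apply, map_sub, sub_add_cancel]
    rw [h5] at h4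
    exact h4

theorem card_A (H : HQ.{v} S SD j χ inv tr) (h : QM S χ O ρ β l) (hb : QM S χ O ρb βb lb)
    (fl : Flag ρ β l ρ₁ ρb βb lb υ ω γ ρR γR e i π q r ι qb) (Yb : ∀ w, Submodule O (D w → Vb)) :
    Nat.card (selQ S j h.act h.lin (indQ SD j h fl Yb)) =
      Nat.card ((selQ S j h.act h.lin (indQ SD j h fl Yb)).map (q.compLeft G)) *
        (Nat.card (z1s S (fl.actU h.act)) *
          Nat.card (lftQ j h hb fl (redQ SD j h fl (indQ SD j h fl Yb)))) := by
  let A := selQ S j h.act h.lin (indQ SD j h fl Yb)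
  let A' := selQ S j hb.act hb.lin (redQ SD j h fl (indQ SD j h fl Yb))
  let Z := zM (O := O) S (fl.act₁ h.act) (fl.lin₁ h.lin)
  let K : Submodule O (G → V₁) := Z ⊓ A'.comap (π.compLeft G)
  let Qh : A →+ (G → Q) := ((q.compLeft G).domRestrict A).toAddMonoidHom
  have e1 : Nat.card A = Nat.card Qh.range * Nat.card Qh.ker := c1_card Qh
  have e2 : Nat.card Qh.range = Nat.card (A.map (q.compLeft G)) := by
    have h3 : Qh.range = (A.map (q.compLeft G)).toAddSubgroup := by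
      ext y
      constructor
      · rintro ⟨x, rfl⟩
        exact ⟨x.1, x.2, rfl⟩
      · rintro ⟨x, hx, rfl⟩
        exact ⟨⟨x, hx⟩, rfl⟩
    rw [h3]
    rfl
  have e3 : Nat.card Qh.ker = Nat.card K := by
    refine (Nat.card_congr (Equiv.ofBijective (fun x : K => (⟨⟨fun s => i (x.1 s),
      (sel_i H h hb fl x.2.1).2 x.2.2⟩, funext fun s => c1_qi fl _⟩ : Qh.ker))
      ⟨?_, ?_⟩)).symm
    · intro x y hxy
      apply Subtype.ext
      funext s
      apply fl.iinj
      exact congrFun (congrArg (fun z : Qh.ker => (z.1 : G → V)) hxy) s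
    · rintro ⟨⟨x, hx⟩, hx0⟩
      have h3 : ∀ g, ∃ m₁, i m₁ = x g := fun g => (fl.qker _).1 (congrFun hx0 g)
      choose x₁ hx1 using h3
      have h4 : (fun g => i (x₁ g)) = x := funext hx1
      have h5 : Z1 S ρ₁ x₁ := by
        refine c1_lift i.toAddMonoidHom fl.iinj fl.eqi ?_
        have h6 : (fun g => i.toAddMonoidHom (x₁ g)) = x := h4
        rw [h6]
        exact hx.1
      refine ⟨⟨x₁, h5, (sel_i H h hb fl h5).1 ?_⟩, ?_⟩
      · rw [h4]
        exact hx
      · apply Subtype.ext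
        apply Subtype.ext
        exact h4
  let P : K →+ (G → Vb) := ((π.compLeft G).domRestrict K).toAddMonoidHom
  have e4 : Nat.card K = Nat.card P.range * Nat.card P.ker := c1_card P
  have e5 : Nat.card P.range = Nat.card (lftQ j h hb fl (redQ SD j h fl (indQ SD j h fl Yb))) := by
    have h3 : P.range = (lftQ j h hb fl (redQ SD j h fl (indQ SD j h fl Yb))).toAddSubgroup := by
      ext y
      constructor
      · rintro ⟨x, rfl⟩
        exact ⟨x.2.2, x.1, x.2.1, fun g => rfl⟩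
      · rintro ⟨hy, x₁, h4, h5⟩
        have h6 : (π.compLeft G) x₁ = y := funext fun g => (h5 g).symm
        exact ⟨⟨x₁, h4, by show (π.compLeft G) x₁ ∈ A'; rw [h6]; exact hy⟩, h6⟩
    rw [h3]
    rfl
  have e6 : Nat.card P.ker = Nat.card (z1s S (fl.actU h.act)) := by
    refine (Nat.card_congr (Equiv.ofBijective (fun x : z1s S (fl.actU h.act) =>
      (⟨⟨fun s => e (x.1 s), c1_map e.toAddMonoidHom fl.eqe x.2, ?_⟩,
        funext fun s => c1_pe fl _⟩ : P.ker)) ⟨?_, ?_⟩)).symm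
    · show (π.compLeft G) (fun s => e (x.1 s)) ∈ A'
      have h3 : (π.compLeft G) (fun s => e (x.1 s)) = 0 := funext fun s => c1_pe fl _
      rw [h3]
      exact A'.zero_mem
    · intro x y hxy
      apply Subtype.ext
      funext s
      apply fl.einj
      exact congrFun (congrArg (fun z : P.ker => (z.1 : G → V₁)) hxy) s
    · rintro ⟨⟨x, hx⟩, hx0⟩
      have h3 : ∀ g, ∃ u, e u = x g := fun g => (fl.pker _).1 (congrFun hx0 g)
      choose x₁ hx1 using h3
      have h4 : (fun g => e (x₁ g)) = x := funext hx1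
      have h5 : Z1 S υ x₁ := by
        refine c1_lift e.toAddMonoidHom fl.einj (fun g u => fl.eqe g u) ?_
        have h6 : (fun g => e.toAddMonoidHom (x₁ g)) = x := h4
        rw [h6]
        exact hx.1
      refine ⟨⟨x₁, h5⟩, ?_⟩
      apply Subtype.ext
      apply Subtype.ext
      exact h4
  calc Nat.card A = Nat.card Qh.range * Nat.card Qh.ker := e1
    _ = _ := by rw [e2, e3, e4, e5, e6, mul_comm (Nat.card (lftQ _ _ _ _ _))]

end Pool.Agent.Work.MP_787500_nt.QS
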