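import Mathlib
import Pool.Agent.Work.MP_787500_nt.QS.Th
import Pool.Agent.Work.MP_787500_nt.QS.IndLag

/-!
# Module PsiW (size M): the Cassels-Tate value is well defined and additive

Symbols of `Defs` (`XD`, `psi`). `Y` is a family of Lagrangian conditions for `V` (only that its elements are cocycles is used).
* `XD.add`, `XD.smul`: clear. `XD.F_Z2`: `F` is a smooth 2-cocycle for `υ` (`i ∘ e` is injective and equivariant, `d1 ρ x` is a smooth
  2-cocycle by `d1_Z2`). `XD.F_loc`: `F (j a) (j b) = d1 (u w) a b`: `x| - i e u` is a cocycle, so `d1 ρ x| = d1 (i e u)`.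
* `XD.q_sh` for `Y = indQ Yb`: `q ∘ x` is a cocycle (`q (i (e F)) = 0`), locally `q x = q (i x₁ + d0 m) + q (i e u) = d0 (q m)`.
* `psi_eq`: same `x` (or `x' - x = i e w`, `w` smooth): `psi_w`. `F' - F = d1 υ w`; `u' - u - w|` is a local cocycle in `U` (difference of two elements of
  `Y`, `i e` injective), whose cup product with the local coboundary `s|` has invariant 0 (`GP`/KR `leib`: `cup11 c (d0 n)` is a coboundary:
  use `cup_anti`, `leib01` or KR/T04b); `tr (cup21 (d1 w) s, cup11 (w|) s|) = tr (d2 (cup11 w s), (cup11 w s)|) = 0` by `H.istr`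
  (`leib11` with `d1 s = 0`).
* `psi_add_x`, `psi_add_s`, `psi_bal`: `tr` is additive, `cup21`, `cup11` are biadditive (`fl.balU`).
-/

set_option autoImplicit false
set_option linter.unusedSectionVars false

namespace Pool.Agent.Work.MP_787500_nt.QS

open Pool.Agent.Work.MP_787500_nt.GP (A0 IsAct d0 d1 d2 tw cup11 cup21 cup12 cup01 cup02 EvPow IsPow)
open Pool.Agent.Work.MP_787500_nt.KR (FSys Sm1 Sm2 IsChar Smooth Z1 Z2 B2 LocH Pair LDual GlobH Mid Sha2
  IsTr zM z1s b1s h1 sh1)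

universe v

variable {G : Type*} [Group G] {S : FSys G} {I : Type*} [Fintype I] {D : I → Type*}
  [∀ w, Group (D w)] {SD : ∀ w, FSys (D w)} {j : ∀ w, D w →* G} {χ : G → ℤ_[2]}
  {inv : ∀ w, (D w → D w → A0) → A0} {tr : ((G → G → G → A0) × (∀ w, D w → D w → A0)) →+ A0}
  {O : Type*} [CommRing O] {V V₁ Vb U Q R : Type v} [AddCommGroup V] [Module O V] [Finite V]
  [AddCommGroup V₁] [Module O V₁] [Finite V₁] [AddCommGroup Vb] [Module O Vb] [Finite Vb]
  [AddCommGroup U] [Module O U] [Finite U] [AddCommGroup Q] [Module O Q] [Finite Q]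
  [AddCommGroup R] [Module O R] [Finite R] {ρ : G → V → V} {β : V →+ V →+ A0}
  {l : O → G → V → A0} {ρ₁ : G → V₁ → V₁} {ρb : G → Vb → Vb} {βb : Vb →+ Vb →+ A0}
  {lb : O → G → Vb → A0} {υ : G → U → U} {ω : G → Q → Q} {γ : U →+ Q →+ A0} {ρR : G → R → R}
  {γR : V₁ →+ R →+ A0} {e : U →ₗ[O] V₁} {i : V₁ →ₗ[O] V} {π : V₁ →ₗ[O] Vb} {q : V →ₗ[O] Q}
  {r : V →ₗ[O] R} {ι : Vb →ₗ[O] R} {qb : R →ₗ[O] Q}

theorem XD.add {Y : ∀ w, Submodule O (D w → V)} {x x' : G → V} {F F' : G → G → U}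
    {u u' : ∀ w, D w → U} (hact : IsAct ρ) (hd : XD S SD j ρ e i Y x F u)
    (hd' : XD S SD j ρ e i Y x' F' u') : XD S SD j ρ e i Y (x + x') (F + F') (u + u') := by
  refine ⟨?_, fun s t => ?_, fun w => ?_, fun w => ?_⟩
  · obtain ⟨W, hW, h1⟩ := hd.sm
    obtain ⟨W', hW', h2⟩ := hd'.sm
    exact ⟨W ⊓ W', S.inf hW hW', fun g w hw => by
      simp only [Pi.add_apply, h1 g w hw.1, h2 g w hw.2]⟩
  · simp only [Pi.add_apply, map_add, hd.dF, hd'.dF, d1, hact.add]
    abel
  · obtain ⟨W, hW, h1⟩ := hd.usm w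
    obtain ⟨W', hW', h2⟩ := hd'.usm w
    exact ⟨W ⊓ W', (SD w).inf hW hW', fun g v hv => by
      simp only [Pi.add_apply, h1 g v hv.1, h2 g v hv.2]⟩
  · have e1 : (fun d => (x + x') (j w d) - i (e ((u + u') w d))) =
        (fun d => x (j w d) - i (e (u w d))) + fun d => x' (j w d) - i (e (u' w d)) := by
      funext d
      simp only [Pi.add_apply, map_add]
      abel
    rw [e1]
    exact (Y w).add_mem (hd.loc w) (hd'.loc w)

theorem XD.smul {Y : ∀ w, Submodule O (D w → V)} {x : G → V} {F : G → G → U}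
    {u : ∀ w, D w → U} (hlin : ∀ g (a : O) m, ρ g (a • m) = a • ρ g m)
    (hd : XD S SD j ρ e i Y x F u) (a : O) : XD S SD j ρ e i Y (a • x) (a • F) (a • u) := by
  refine ⟨?_, fun s t => ?_, fun w => ?_, fun w => ?_⟩
  · obtain ⟨W, hW, h1⟩ := hd.sm
    exact ⟨W, hW, fun g w hw => by simp only [Pi.smul_apply, h1 g w hw]⟩
  · simp only [Pi.smul_apply, map_smul, hd.dF, d1, hlin, smul_add, smul_sub]
  · obtain ⟨W, hW, h1⟩ := hd.usm w
    exact ⟨W, hW, fun g v hv => by simp only [Pi.smul_apply, h1 g v hv]⟩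
  · have e1 : (fun d => (a • x) (j w d) - i (e ((a • u) w d))) =
        a • fun d => x (j w d) - i (e (u w d)) := by
      funext d
      simp only [Pi.smul_apply, map_smul, smul_sub]
    rw [e1]
    exact (Y w).smul_mem a (hd.loc w)

private theorem pw_inj (fl : Flag ρ β l ρ₁ ρb βb lb υ ω γ ρR γR e i π q r ι qb) {u v : U}
    (huv : i (e u) = i (e v)) : u = v := fl.einj (fl.iinj huv)

private theorem pw_eqv (fl : Flag ρ β l ρ₁ ρb βb lb υ ω γ ρR γR e i π q r ι qb) (g : G) (u : U) :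
    i (e (υ g u)) = ρ g (i (e u)) := by
  rw [fl.eqe, fl.eqi]

theorem XD.F_Z2 (h : QM S χ O ρ β l) (fl : Flag ρ β l ρ₁ ρb βb lb υ ω γ ρR γR e i π q r ι qb)
    {Y : ∀ w, Submodule O (D w → V)} {x : G → V} {F : G → G → U} {u : ∀ w, D w → U}
    (hd : XD S SD j ρ e i Y x F u) : Z2 S υ F := by
  have h5 : Z2 S ρ (d1 ρ x) := KR.d1_Z2 h.act h.sm hd.sm
  refine ⟨?_, fun s t r => ?_⟩
  · obtain ⟨W, hW, h6⟩ := h5.1
    refine ⟨W, hW, fun g k w hw w' hw' => pw_inj fl ?_⟩
    rw [hd.dF, hd.dF, h6 g k w hw w' hw']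
  · apply pw_inj fl
    have h7 := h5.2 s t r
    unfold d2 at h7 ⊢
    rw [map_sub, map_add, map_sub, map_sub, map_add, map_sub, pw_eqv fl, hd.dF, hd.dF, hd.dF, hd.dF,
      map_zero, map_zero]
    exact h7

theorem XD.F_loc (H : HQ.{v} S SD j χ inv tr) (h : QM S χ O ρ β l)
    (fl : Flag ρ β l ρ₁ ρb βb lb υ ω γ ρR γR e i π q r ι qb) {Y : ∀ w, Submodule O (D w → V)}
    (hY : ∀ w, ∀ z ∈ Y w, Z1 (SD w) (fun d => ρ (j w d)) z) {x : G → V} {F : G → G → U}
    {u : ∀ w, D w → U} (hd : XD S SD j ρ e i Y x F u) (w : I) (a b : D w) :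
    d1 (fun d => υ (j w d)) (u w) a b = F (j w a) (j w b) := by
  apply pw_inj fl
  have h1 := (hY w _ (hd.loc w)).2 a b
  beta_reduce at h1
  rw [hd.dF]
  simp only [d1, map_add, map_sub, pw_eqv fl]
  rw [h.act.sub, map_mul] at h1
  have h2 : x (j w a * j w b) = x (j w a) - i (e (u w a)) + (ρ (j w a) (x (j w b)) -
      ρ (j w a) (i (e (u w b)))) + i (e (u w (a * b))) := by
    rw [← h1]
    abel
  rw [h2]
  abel

theorem XD.q_sh (H : HQ.{v} S SD j χ inv tr) (h : QM S χ O ρ β l)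
    (fl : Flag ρ β l ρ₁ ρb βb lb υ ω γ ρR γR e i π q r ι qb) {Yb : ∀ w, Submodule O (D w → Vb)}
    {x : G → V} {F : G → G → U} {u : ∀ w, D w → U}
    (hd : XD S SD j ρ e i (indQ SD j h fl Yb) x F u) :
    (fun g => q (x g)) ∈ shQ S j (fl.actQ h.act) (fl.linQ h.lin) := by
  have hqi : ∀ m, q (i m) = 0 := fun m => (fl.qker _).2 ⟨m, rfl⟩
  refine ⟨⟨?_, fun s t => ?_⟩, fun w => ?_⟩
  · obtain ⟨W, hW, h1⟩ := hd.sm
    exact ⟨W, hW, fun g w hw => congrArg q (h1 g w hw)⟩
  · have h1 : q (d1 ρ x s t) = 0 := by rw [← hd.dF, hqi]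
    simp only [d1, map_sub, map_add, fl.eqq] at h1
    exact (sub_eq_zero.1 h1).symm
  · obtain ⟨x₁, m, -, -, h3⟩ := hd.loc w
    refine ⟨q m, fun d => ?_⟩
    have h4 := congrArg q (h3 d)
    simp only [map_sub, map_add, hqi, d0, fl.eqq, sub_zero, zero_add] at h4
    exact h4

theorem psi_w (H : HQ.{v} S SD j χ inv tr) (h : QM S χ O ρ β l)
    (fl : Flag ρ β l ρ₁ ρb βb lb υ ω γ ρR γR e i π q r ι qb) (hUQ : Pair S χ υ ω γ)
    {Y : ∀ w, Submodule O (D w → V)} (hY : ∀ w, ∀ z ∈ Y w, Z1 (SD w) (fun d => ρ (j w d)) z)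
    {x x' : G → V} {F F' : G → G → U} {u u' : ∀ w, D w → U} {c : G → U}
    (hd : XD S SD j ρ e i Y x F u) (hd' : XD S SD j ρ e i Y x' F' u') (hc : Sm1 S c)
    (hxx : ∀ g, x' g = x g + i (e (c g))) {s : G → Q}
    (hs : s ∈ shQ S j (fl.actQ h.act) (fl.linQ h.lin)) :
    psi j ω γ tr F' u' s = psi j ω γ tr F u s := by
  have hss : Z1 S ω s := hs.1
  -- the difference of the 2-cocycles
  have hF : ∀ a b, F' a b = F a b + d1 υ c a b := by
    intro a b
    apply pw_inj fl
    rw [map_add, map_add, hd'.dF, hd.dF]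
    simp only [d1, map_add, map_sub, pw_eqv fl, hxx, h.act.add]
    abel
  -- the difference of the local cochains
  have hv : ∀ w, Z1 (SD w) (fun d => υ (j w d)) (fun d => u' w d - u w d - c (j w d)) := by
    intro w
    have h1 := hY w _ ((Y w).sub_mem (hd.loc w) (hd'.loc w))
    have h2 : ∀ d, i (e (u' w d - u w d - c (j w d))) =
        ((fun d => x (j w d) - i (e (u w d))) - fun d => x' (j w d) - i (e (u' w d))) d := by
      intro d
      simp only [Pi.sub_apply, map_sub, hxx]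
      abel
    refine ⟨?_, fun a b => ?_⟩
    · obtain ⟨W, hW, h3⟩ := h1.1
      refine ⟨W, hW, fun g v hv => pw_inj fl ?_⟩
      rw [h2, h2, h3 g v hv]
    · apply pw_inj fl
      rw [map_add, map_add, pw_eqv fl, h2, h2, h2]
      exact h1.2 a b
  -- the cup product of the difference with a coboundary is a coboundary
  have hcob : ∀ w, ∃ t : D w → A0, Sm1 (SD w) t ∧ ∀ a b,
      cup11 (fun d => ω (j w d)) γ (fun d => u' w d - u w d - c (j w d)) (fun d => s (j w d)) a b =
        -d1 (tw fun d => χ (j w d)) t a b := by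
    intro w
    obtain ⟨n, hn⟩ := hs.2 w
    have hp := hUQ.comp (H.glob.jsm w)
    have hsw : Z1 (SD w) (fun d => ω (j w d)) (fun d => s (j w d)) := Z1.comp (H.glob.jsm w) hss
    have h1 := KR.cup_anti hp (hv w) hsw
    refine ⟨fun d => γ (u' w d - u w d - c (j w d)) (s (j w d)) +
      cup01 γ.flip n (fun d => u' w d - u w d - c (j w d)) d, ?_, fun a b => ?_⟩
    · obtain ⟨W, hW, h3⟩ := (hv w).1
      obtain ⟨W', hW', h4⟩ := hsw.1
      refine ⟨W ⊓ W', (SD w).inf hW hW', fun g v hv => ?_⟩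
      have h3' := h3 g v hv.1
      have h4' := h4 g v hv.2
      beta_reduce at h3' h4'
      simp only [cup01, h3', h4']
    · have h5 := h1 a b
      have h6 := KR.leib01 (B := γ.flip) hp.flip.eqv n
        (fun d => u' w d - u w d - c (j w d)) a b
      have h7 : (fun d => s (j w d)) = d0 (fun d => ω (j w d)) n := funext hn
      have h8 : cup02 γ.flip n (d1 (fun d => υ (j w d)) (fun d => u' w d - u w d - c (j w d))) a b
          = 0 := by
        have h9 := (hv w).2 a b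
        beta_reduce at h9
        simp only [cup02, d1]
        rw [h9, sub_self, map_zero]
      rw [h8, add_zero, ← h7] at h6
      rw [← h6] at h5
      simp only [d1, tw, smul_add] at h5 ⊢
      rw [eq_sub_of_add_eq h5]
      abel
  choose t ht1 ht2 using hcob
  have key := KR.tr_cob H.glob H.istr (b := cup11 ω γ c s)
    (KR.cup11_sm hUQ.sm' hUQ.act' hc hss.1) (t := t) ht1
  have e1 : ((cup21 ω γ F' s, fun w => cup11 (fun d => ω (j w d)) γ (u' w) (fun d => s (j w d))) :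
      (G → G → G → A0) × (∀ w, D w → D w → A0)) =
      (cup21 ω γ F s, fun w => cup11 (fun d => ω (j w d)) γ (u w) (fun d => s (j w d))) +
      (d2 (tw χ) (cup11 ω γ c s), fun w a b => cup11 ω γ c s (j w a) (j w b) -
        d1 (tw fun d => χ (j w d)) (t w) a b) := by
    refine Prod.ext ?_ ?_
    · funext a b k
      show _ = cup21 ω γ F s a b k + d2 (tw χ) (cup11 ω γ c s) a b k
      rw [KR.leib11 hUQ.act' hUQ.eqv]
      have h2 : d1 ω s b k = 0 := by simp only [d1, hss.2 b k, sub_self]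
      simp only [cup21, cup12, h2, hF, map_add, AddMonoidHom.add_apply, hUQ.act'.zero, map_zero,
        sub_zero]
    · funext w a b
      show _ = cup11 (fun d => ω (j w d)) γ (u w) (fun d => s (j w d)) a b +
        (cup11 ω γ c s (j w a) (j w b) - d1 (tw fun d => χ (j w d)) (t w) a b)
      rw [sub_eq_add_neg, ← ht2 w a b]
      simp only [cup11, map_sub, AddMonoidHom.sub_apply]
      abel
  unfold psi
  rw [e1, map_add, key, add_zero]

theorem psi_add_x (F F' : G → G → U) (u u' : ∀ w, D w → U) (s : G → Q) :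
    psi j ω γ tr (F + F') (u + u') s = psi j ω γ tr F u s + psi j ω γ tr F' u' s := by
  unfold psi
  rw [← map_add]
  congr 1
  refine Prod.ext ?_ ?_
  · funext a b k
    show cup21 ω γ (F + F') s a b k = cup21 ω γ F s a b k + cup21 ω γ F' s a b k
    simp only [cup21, Pi.add_apply, map_add, AddMonoidHom.add_apply]
  · funext w a b
    show cup11 (fun d => ω (j w d)) γ ((u + u') w) (fun d => s (j w d)) a b =
      cup11 (fun d => ω (j w d)) γ (u w) (fun d => s (j w d)) a b +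
      cup11 (fun d => ω (j w d)) γ (u' w) (fun d => s (j w d)) a b
    simp only [cup11, Pi.add_apply, map_add, AddMonoidHom.add_apply]

theorem psi_add_s (hω : IsAct ω) (F : G → G → U) (u : ∀ w, D w → U) (s s' : G → Q) :
    psi j ω γ tr F u (s + s') = psi j ω γ tr F u s + psi j ω γ tr F u s' := by
  unfold psi
  rw [← map_add]
  congr 1
  refine Prod.ext ?_ ?_
  · funext a b k
    show cup21 ω γ F (s + s') a b k = cup21 ω γ F s a b k + cup21 ω γ F s' a b k
    simp only [cup21, Pi.add_apply, hω.add, map_add]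
  · funext w a b
    show cup11 (fun d => ω (j w d)) γ (u w) (fun d => (s + s') (j w d)) a b =
      cup11 (fun d => ω (j w d)) γ (u w) (fun d => s (j w d)) a b +
      cup11 (fun d => ω (j w d)) γ (u w) (fun d => s' (j w d)) a b
    simp only [cup11, Pi.add_apply, hω.add, map_add]

theorem psi_bal (h : QM S χ O ρ β l) (fl : Flag ρ β l ρ₁ ρb βb lb υ ω γ ρR γR e i π q r ι qb)
    (a : O) (F : G → G → U) (u : ∀ w, D w → U) (s : G → Q) :
    psi j ω γ tr (a • F) (a • u) s = psi j ω γ tr F u (a • s) := by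
  unfold psi
  congr 1
  refine Prod.ext ?_ ?_
  · funext b c k
    simp only [cup21, Pi.smul_apply, fl.balU h.bal, fl.linQ h.lin]
  · funext w b c
    simp only [cup11, Pi.smul_apply, fl.balU h.bal, fl.linQ h.lin]

end Pool.Agent.Work.MP_787500_nt.QS
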