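import Mathlib
import Pool.Agent.Work.MP_787500_nt.QS.Th

/-!
# Module ThC (size M-L): the quadratic cochain of a cochain with coboundary in `U`

`W` is the isotropic submodule: `β (a u) v = 0`, `l a g u = 0` for `u, v ∈ W`; `W` is stable. Write `D s t = d1 ρ x s t`.
* `d2_Zf`. `x (st) = x s + s x t - D s t`. Let `v = x t`, `w = t x r`, `δ = D t r`, all `β` means `β (a •) `. By `coc`:
  `χ s l_t (x r) - l_(st) (x r) = - l_s w`. `l_s (x (t r)) = l_s (v + w - δ)`; with `quad` twice and `l_s (-δ) = 0`: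
  `= l_s v + l_s w + β(s v, s w) - χ s β(v, w) - β(s(v+w), s δ) + χ s β(v+w, δ)`. Inserting, `d2 (Zq a x) (s,t,r) =`
  `β(D s t, s w) - β(x s, s δ) - β(s (v + w), s δ) + χ s β(v + w, δ)`. As `x s + s (v + w) = x (s t r) + D (s, t r) + s δ` and
  `β` vanishes on `W × W`: `= β(D s t, s w) - β(x (str), s δ) + χ s β(x (tr), δ)`. For `w' s t = β(a x(st), D s t)`:
  `d2 w' (s,t,r) = χ s β(x(tr), δ) - β(x(str), D (st) r) + β(x(str), D s (tr)) - β(x(st), D s t)` and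
  `s δ - D (st) r + D s (tr) - D s t = 0` (`d2_d1`), so `d2 w' = χ s β(x(tr), δ) + β(x(str), D s t) - β(x(str), s δ) - β(x(st), D s t)`.
  Difference: `β(D s t, s w) - β(x(str) - x(st), D s t)`, and `x(str) - x(st) = s w - D (st) r`, so it is
  `β(a D s t, s w) - β(a s w, D s t) = pB β (a D s t) (s w)`; `s w = (s t) x r`.
* `loc_Zf`. `x = z + u`, `z` a cocycle, `u` a cochain in `W`; `D = d1 ρ u`. Expand: `l_s (z t + u t) = l_s (z t) + β(a s z t, s u t) - χ s β(a z t, u t)`,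
  `β(x s, s x t) = β(z s, s z t) + β(u s, s z t) + β(z s, s u t)`, `β(a x(st), D s t) = β(a z(st), u s + s u t - u(st))`, `z(st) = z s + s z t`. So
  `Zf = Zq a z + β(a u s, s z t) - χ s β(a z t, u t) - β(a z(st), u s) + β(a z(st), u(st))`, and with `c s = β(a z s, u s)`:
  `Zf + d1 c = Zq a z + pB β (a u s) (s z t)`; finally `pB β (u s) (s (a x t)) = pB β (a u s) (s z t)` since `pB β` vanishes on `W × W`.
-/

set_option autoImplicit false
set_option linter.unusedSectionVars false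

namespace Pool.Agent.Work.MP_787500_nt.QS

open Pool.Agent.Work.MP_787500_nt.GP (A0 IsAct d0 d1 d2 tw cup11 cup21 cup12 cup01 cup02 EvPow IsPow)
open Pool.Agent.Work.MP_787500_nt.KR (FSys Sm1 Sm2 IsChar Smooth Z1 Z2 B2 LocH Pair LDual GlobH Mid Sha2
  IsTr zM z1s b1s h1 sh1)

variable {X : Type*} [Group X] {T : FSys X} {χ : X → ℤ_[2]} {iv : (X → X → A0) → A0}
  {O : Type*} [CommRing O] {V : Type*} [AddCommGroup V] [Module O V] {ρ : X → V → V}
  {β : V →+ V →+ A0} {l : O → X → V → A0}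

/-- `Zq` corrected so that its coboundary is a cup product -/
noncomputable def Zf (ρ : X → V → V) (β : V →+ V →+ A0) (l : O → X → V → A0) (a : O) (x : X → V) :
    X → X → A0 := fun s t => Zq ρ β l a x s t - β (a • x (s * t)) (d1 ρ x s t)

/-- isotropic submodule -/
structure Iso (ρ : X → V → V) (β : V →+ V →+ A0) (l : O → X → V → A0) (W : Submodule O V) :
    Prop where
  st : ∀ g, ∀ u ∈ W, ρ g u ∈ W
  bb : ∀ u ∈ W, ∀ v ∈ W, β u v = 0
  ll : ∀ (a : O) g, ∀ u ∈ W, l a g u = 0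

theorem d2_Zf (h : QM T χ O ρ β l) {W : Submodule O V} (hW : Iso ρ β l W) {x : X → V}
    (hx : ∀ s t, d1 ρ x s t ∈ W) (a : O) (s t k : X) :
    d2 (tw χ) (Zf ρ β l a x) s t k = pB β (a • d1 ρ x s t) (ρ (s * t) (x k)) := by
  have hE := hx s t
  have hδ := hx t k
  have hP := hx (s * t) k
  obtain ⟨E, eE⟩ : ∃ E, d1 ρ x s t = E := ⟨_, rfl⟩
  obtain ⟨δ, eδ⟩ : ∃ δ, d1 ρ x t k = δ := ⟨_, rfl⟩
  obtain ⟨P, eP⟩ : ∃ P, d1 ρ x (s * t) k = P := ⟨_, rfl⟩
  rw [eE] at hE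
  rw [eδ] at hδ
  rw [eP] at hP
  have hsδ := hW.st s δ hδ
  have e1 : x (s * t) = x s + ρ s (x t) - E := by
    rw [← eE, d1]
    abel
  have e2 : x (t * k) = x t + ρ t (x k) - δ := by
    rw [← eδ, d1]
    abel
  have e3 : x (s * t * k) = x (s * t) + ρ s (ρ t (x k)) - P := by
    rw [← eP, d1, h.act.mul]
    abel
  have e4 : d1 ρ x s (t * k) = E + P - ρ s δ := by
    rw [d1, ← mul_assoc, e3, e1, e2, h.act.sub, h.act.add]
    abel
  have l1 : l a s (x (t * k)) = l a s (x t) + l a s (ρ t (x k)) +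
      (β (a • ρ s (x t)) (ρ s (ρ t (x k))) - χ s • β (a • x t) (ρ t (x k))) -
      (β (a • ρ s (x (t * k))) (ρ s δ) - χ s • β (a • x (t * k)) δ) := by
    have q1 := h.quad a s (x (t * k)) δ
    have q2 := h.quad a s (x t) (ρ t (x k))
    have q3 : x (t * k) + δ = x t + ρ t (x k) := by
      rw [e2]
      abel
    rw [hW.ll a s δ hδ, add_zero, q3, q2] at q1
    rw [eq_sub_iff_add_eq]
    exact q1.symm
  rw [e2] at l1
  have l2 : l a (s * t) (x k) = χ s • l a t (x k) + l a s (ρ t (x k)) := h.coc a s t (x k)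
  have sm : ∀ u ∈ W, a • u ∈ W := fun u hu => W.smul_mem a hu
  have z1 : β (a • E) P = 0 := hW.bb _ (sm _ hE) _ hP
  have z2 : β (a • E) E = 0 := hW.bb _ (sm _ hE) _ hE
  have z3 : β (a • E) (ρ s δ) = 0 := hW.bb _ (sm _ hE) _ hsδ
  have z4 : β (a • P) P = 0 := hW.bb _ (sm _ hP) _ hP
  have z5 : β (a • P) E = 0 := hW.bb _ (sm _ hP) _ hE
  have z6 : β (a • P) (ρ s δ) = 0 := hW.bb _ (sm _ hP) _ hsδ
  have z7 : β (a • ρ s δ) (ρ s δ) = 0 := hW.bb _ (sm _ hsδ) _ hsδ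
  have z8 : β (a • δ) δ = 0 := hW.bb _ (sm _ hδ) _ hδ
  have z9 : β (ρ s (ρ t (x k))) (a • E) = β (a • ρ s (ρ t (x k))) E := (h.bal a _ _).symm
  simp only [d2, tw, Zf, Zq, eE, eδ, eP, e4, ← mul_assoc, l1, l2, h.act.mul, e3, e1, e2, pB_apply,
    z9]
  simp only [map_add, map_sub, smul_add, smul_sub, AddMonoidHom.add_apply, AddMonoidHom.sub_apply,
    h.act.add, h.act.sub, z1, z2, z3, z4, z5, z6, z7, z8, smul_zero]
  abel

theorem loc_Zf (h : QM T χ O ρ β l) {W : Submodule O V} (hW : Iso ρ β l W) {z u : X → V}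
    (hz : ∀ s t, z (s * t) = z s + ρ s (z t)) (hu : ∀ s, u s ∈ W) (a : O) (s t : X) :
    cup11 ρ (pB β) u (a • (z + u)) s t - Zf ρ β l a (z + u) s t =
      d1 (tw χ) (fun s => β (a • z s) (u s)) s t - Zq ρ β l a z s t := by
  have sm : ∀ u ∈ W, a • u ∈ W := fun u hu => W.smul_mem a hu
  have hsu := hW.st s _ (hu t)
  have q1 := h.quad a s (z t) (u t)
  rw [hW.ll a s _ (hu t), add_zero] at q1
  have z1 : β (a • u s) (ρ s (u t)) = 0 := hW.bb _ (sm _ (hu s)) _ hsu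
  have z2 : β (a • u (s * t)) (u s) = 0 := hW.bb _ (sm _ (hu _)) _ (hu s)
  have z3 : β (a • u (s * t)) (ρ s (u t)) = 0 := hW.bb _ (sm _ (hu _)) _ hsu
  have z4 : β (a • u (s * t)) (u (s * t)) = 0 := hW.bb _ (sm _ (hu _)) _ (hu _)
  have z5 : β (a • ρ s (u t)) (u s) = 0 := hW.bb _ (sm _ hsu) _ (hu s)
  have b1 : β (u s) (a • ρ s (z t)) = β (a • u s) (ρ s (z t)) := (h.bal a _ _).symm
  have b2 : β (u s) (a • ρ s (u t)) = β (a • u s) (ρ s (u t)) := (h.bal a _ _).symm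
  simp only [cup11, Zf, Zq, d1, tw, Pi.add_apply, Pi.smul_apply, q1, h.lin, pB_apply]
  simp only [hz, h.act.add, smul_add, map_add, map_sub, AddMonoidHom.add_apply, b1, b2, z1, z2, z3,
    z4, z5]
  abel

theorem Zf_sm (hχ : IsChar T χ) (h : QM T χ O ρ β l) {x : X → V} (hx : Sm1 T x) (a : O) :
    Sm2 T (Zf ρ β l a x) := by
  obtain ⟨W, hW, h1⟩ := Zq_sm hχ h hx a
  obtain ⟨W', hW', h2⟩ := hx
  obtain ⟨W'', hW'', h3⟩ := h.sm
  refine ⟨W ⊓ (W' ⊓ W''), T.inf hW (T.inf hW' hW''), fun g k w hw w' hw' => ?_⟩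
  have hn := T.normal hW'
  have e1 : x (g * w * (k * w')) = x (g * k) := by
    have e2 : g * w * (k * w') = g * k * (k⁻¹ * w * k⁻¹⁻¹ * w') := by group
    rw [e2]
    exact h2 _ _ (W'.mul_mem (hn.conj_mem w hw.2.1 k⁻¹) hw'.2.1)
  simp only [Zf, d1]
  rw [h1 g k w hw.1 w' hw'.1, e1, h2 g w hw.2.1, h2 k w' hw'.2.1, h.act.mul, h3 w hw.2.2]

end Pool.Agent.Work.MP_787500_nt.QS
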