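import Mathlib
import Pool.Agent.Work.MP_787500_nt.QS.ThC
import Pool.Agent.Work.MP_787500_nt.QS.PsiW

/-!
# Module PsiAlt (size M): the Cassels-Tate form is alternating

`x` with data `F`, `u`, conditions `Y` Lagrangian. `W = range (i ∘ e)` is isotropic (`Iso`): `st` by `eqe`, `eqi`; `β (i e u) (i e v) =
βb (π e u) (π e v) = 0` (`bet`, `pker`); `l a g (i e u) = lb a g (π (e u)) = lb a g 0 = 0` (`lam`, `l_zero` for `Vb`).
By `d2_Zf` and `pairU`, `eqq`: `d2 (tw χ) (Zf a x) = cup21 ω γ F (a • q x)` (`d1 ρ x s t = i e F`; `cup21 ω γ F y s t r = γ (F s t) (ω (st) (y r))`: check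
the definition in GP/Defs). So `psi F u (a • q x) = tr (d2 (Zf a x), cup11 (u) (a • q x|))`, and by `H.istr` (smooth: `Zf_sm`) this is
`∑ w, inv w (cup11 (u w) (a • q x|) - (Zf a x)|)` once the difference is a 2-cocycle. At `w`: `x| = z + i e u`, `z ∈ Y w`; `cup11 ω γ (u) (a • q x|) =
cup11 ρ (pB β) (i e u) (a • x|)` (`pairU`), and by `loc_Zf` the difference is `d1 c - Zq a z`: a cocycle (`Zq_Z2`, `d1_tw_Z2`) with
invariant `0 - inv (Zq a z) = 0` (`Lag.iso`).
-/

set_option autoImplicit false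
set_option linter.unusedSectionVars false

namespace Pool.Agent.Work.MP_787500_nt.QS

open Pool.Agent.Work.MP_787500_nt.GP (A0 IsAct d0 d1 d2 tw cup11 cup21 cup12 cup01 cup02 EvPow IsPow)
open Pool.Agent.Work.MP_787500_nt.KR (FSys Sm1 Sm2 IsChar Smooth Z1 Z2 B2 LocH Pair LDual GlobH Mid Sha2
  IsTr zM z1s b1s h1 sh1)

universe v

variable {G : Type*} [Group G] {S : FSys G} {I : Type*} [Fintype I] {D : I → Type*}
  [∀ w, Group (D w)] {SD : ∀ w, FSys (D w)} {j : ∀ w, D w →* G} {χ : G → ℤ_[2]}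
  {inv : ∀ w, (D w → D w → A0) → A0} {tr : ((G → G → G → A0) × (∀ w, D w → D w → A0)) →+ A0}
  {O : Type*} [CommRing O] {V V₁ Vb U Q R : Type v} [AddCommGroup V] [Module O V] [Finite V]
  [AddCommGroup V₁] [Module O V₁] [Finite V₁] [AddCommGroup Vb] [Module O Vb] [Finite Vb]
  [AddCommGroup U] [Module O U] [Finite U] [AddCommGroup Q] [Module O Q] [Finite Q]
  [AddCommGroup R] [Module O R] [Finite R] {ρ : G → V → V} {β : V →+ V →+ A0}
  {l : O → G → V → A0} {ρ₁ : G → V₁ → V₁} {ρb : G → Vb → Vb} {βb : Vb →+ Vb →+ A0}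
  {lb : O → G → Vb → A0} {υ : G → U → U} {ω : G → Q → Q} {γ : U →+ Q →+ A0} {ρR : G → R → R}
  {γR : V₁ →+ R →+ A0} {e : U →ₗ[O] V₁} {i : V₁ →ₗ[O] V} {π : V₁ →ₗ[O] Vb} {q : V →ₗ[O] Q}
  {r : V →ₗ[O] R} {ι : Vb →ₗ[O] R} {qb : R →ₗ[O] Q}

private theorem pa_iso (hb : QM S χ O ρb βb lb)
    (fl : Flag ρ β l ρ₁ ρb βb lb υ ω γ ρR γR e i π q r ι qb) :
    Iso ρ β l (LinearMap.range (i.comp e)) where
  st := by
    rintro g _ ⟨u, rfl⟩
    exact ⟨υ g u, by rw [LinearMap.comp_apply, LinearMap.comp_apply, fl.eqe, fl.eqi]⟩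
  bb := by
    rintro _ ⟨u, rfl⟩ _ ⟨v, rfl⟩
    rw [LinearMap.comp_apply, LinearMap.comp_apply, ← fl.bet, (fl.pker _).2 ⟨u, rfl⟩, map_zero,
      AddMonoidHom.zero_apply]
  ll := by
    rintro a g _ ⟨u, rfl⟩
    rw [LinearMap.comp_apply, ← fl.lam, (fl.pker _).2 ⟨u, rfl⟩, l_zero hb]

theorem psi_alt (H : HQ.{v} S SD j χ inv tr) (h : QM S χ O ρ β l) (hb : QM S χ O ρb βb lb)
    (fl : Flag ρ β l ρ₁ ρb βb lb υ ω γ ρR γR e i π q r ι qb) {Y : ∀ w, Submodule O (D w → V)}
    (hY : ∀ w, Lag (SD w) (inv w) (fun d => ρ (j w d)) β (fun a d => l a (j w d)) (Y w))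
    {x : G → V} {F : G → G → U} {u : ∀ w, D w → U} (hd : XD S SD j ρ e i Y x F u) (a : O) :
    psi j ω γ tr F u (a • fun g => q (x g)) = 0 := by
  have hiso := pa_iso hb fl
  have e1 : cup21 ω γ F (a • fun g => q (x g)) = d2 (tw χ) (Zf ρ β l a x) := by
    funext s t k
    rw [d2_Zf h hiso (fun s t => ⟨F s t, hd.dF s t⟩) a s t k, ← hd.dF, ← map_smul, ← map_smul,
      fl.pairU, fl.balU h.bal, fl.eqq]
    simp only [cup21, Pi.smul_apply, fl.linQ h.lin]
  have hpc : ∀ w, QM (SD w) (fun d => χ (j w d)) O (fun d => ρ (j w d)) β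
      (fun a d => l a (j w d)) := fun w => h.comp (H.glob.jsm w)
  have e2 : ∀ w, (fun s t => cup11 (fun d => ω (j w d)) γ (u w)
      (fun d => (a • fun g => q (x g)) (j w d)) s t - Zf ρ β l a x (j w s) (j w t)) =
      fun s t => d1 (tw fun d => χ (j w d)) (fun s => β (a • (x (j w s) - i (e (u w s))))
        (i (e (u w s)))) s t - Zq (fun d => ρ (j w d)) β (fun a d => l a (j w d)) a
          (fun d => x (j w d) - i (e (u w d))) s t := by
    intro w
    funext s t
    have hisow : Iso (fun d => ρ (j w d)) β (fun a d => l a (j w d))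
        (LinearMap.range (i.comp e)) :=
      ⟨fun g => hiso.st (j w g), hiso.bb, fun a g => hiso.ll a (j w g)⟩
    have h1 := loc_Zf (hpc w) hisow (z := fun d => x (j w d) - i (e (u w d)))
      (u := fun d => i (e (u w d))) ((hY w).coc _ (hd.loc w)).2 (fun s => ⟨u w s, rfl⟩) a s t
    have h2 : ((fun d => x (j w d) - i (e (u w d))) + fun d => i (e (u w d))) =
        fun d => x (j w d) := by
      funext d
      simp only [Pi.add_apply, sub_add_cancel]
    rw [h2] at h1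
    rw [← h1]
    have h3 : Zf (fun d => ρ (j w d)) β (fun a d => l a (j w d)) a (fun d => x (j w d)) s t =
        Zf ρ β l a x (j w s) (j w t) := by
      simp only [Zf, Zq, d1, map_mul]
    rw [h3]
    congr 1
    simp only [cup11, Pi.smul_apply]
    rw [fl.pairU, fl.eqq, map_smul]
  have hs1 : ∀ w, Sm1 (SD w) (fun s => β (a • (x (j w s) - i (e (u w s)))) (i (e (u w s)))) := by
    intro w
    obtain ⟨W, hW, h1⟩ := ((hY w).coc _ (hd.loc w)).1
    obtain ⟨W', hW', h2⟩ := hd.usm w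
    refine ⟨W ⊓ W', (SD w).inf hW hW', fun g v hv => ?_⟩
    have h3 : x (j w (g * v)) - i (e (u w (g * v))) = x (j w g) - i (e (u w g)) := h1 g v hv.1
    have h4 := h2 g v hv.2
    show β (a • (x (j w (g * v)) - i (e (u w (g * v))))) (i (e (u w (g * v)))) =
      β (a • (x (j w g) - i (e (u w g)))) (i (e (u w g)))
    rw [h3, h4]
  have hZd : ∀ w, Z2 (SD w) (tw fun d => χ (j w d)) (d1 (tw fun d => χ (j w d))
      (fun s => β (a • (x (j w s) - i (e (u w s)))) (i (e (u w s))))) := fun w =>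
    KR.d1_tw_Z2 (H.glob.loc w).char (hs1 w)
  have hZq : ∀ w, Z2 (SD w) (tw fun d => χ (j w d)) (Zq (fun d => ρ (j w d)) β
      (fun a d => l a (j w d)) a (fun d => x (j w d) - i (e (u w d)))) := fun w =>
    Zq_Z2 (H.glob.loc w).char (hpc w) ((hY w).coc _ (hd.loc w)) a
  have hact : ∀ w, IsAct (tw fun d => χ (j w d)) := fun w => KR.isAct_tw (H.glob.loc w).char
  have hZ : ∀ w, Z2 (SD w) (tw fun d => χ (j w d)) (fun s t => d1 (tw fun d => χ (j w d))
      (fun s => β (a • (x (j w s) - i (e (u w s)))) (i (e (u w s)))) s t -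
        Zq (fun d => ρ (j w d)) β (fun a d => l a (j w d)) a
          (fun d => x (j w d) - i (e (u w d))) s t) := by
    intro w
    have h1 := KR.Z2.add (hact w) (hZd w) (KR.Z2.neg (hact w) (hZq w))
    simpa only [sub_eq_add_neg] using h1
  unfold psi
  rw [e1, H.istr (Zf ρ β l a x) _ (Zf_sm H.glob.char h hd.sm a) (fun w => by
    rw [e2 w]
    exact hZ w)]
  refine Finset.sum_eq_zero fun w _ => ?_
  rw [e2 w]
  have h1 := (H.glob.loc w).add _ _ (hZ w) (hZq w)
  have h2 : (fun s t => (d1 (tw fun d => χ (j w d))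
      (fun s => β (a • (x (j w s) - i (e (u w s)))) (i (e (u w s)))) s t -
        Zq (fun d => ρ (j w d)) β (fun a d => l a (j w d)) a
          (fun d => x (j w d) - i (e (u w d))) s t) +
        Zq (fun d => ρ (j w d)) β (fun a d => l a (j w d)) a
          (fun d => x (j w d) - i (e (u w d))) s t) = d1 (tw fun d => χ (j w d))
      (fun s => β (a • (x (j w s) - i (e (u w s)))) (i (e (u w s)))) := by
    funext s t
    rw [sub_add_cancel]
  rw [h2, (H.glob.loc w).cob _ (hs1 w), (hY w).iso a _ (hd.loc w), add_zero] at h1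
  exact h1.symm

end Pool.Agent.Work.MP_787500_nt.QS
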