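import Mathlib
import Pool.Agent.Work.MP_787500_nt.QS.Defs
import Pool.Agent.Work.MP_787500_nt.GP.F01_Card

/-!
# Module Dbl (size S-M): double annihilators in the dual of a finite abelian group

`A` finite, `C` a group of homomorphisms `A → A0`. A homomorphism that vanishes on the annihilator of `C` is in `C`.
Proof: `N = {a | ∀ ψ ∈ C, ψ a = 0}`. `A / N` embeds into `C →+ A0` (evaluation), so `card (A / N) ≤ card (C →+ A0) ≤ card C`
(`GP.card_hom_le`). The homomorphisms that vanish on `N` are a group `C'`, `C ≤ C'`, `C' ≃ ((A ⧸ N) →+ A0)` has at most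
`card (A / N) ≤ card C` elements (`card_hom_le`). So `C = C'`. (Or use `GP.exists_rep`, `GP.perp_perp` with the evaluation
pairing `C →+ A →+ A0`.)
-/

set_option autoImplicit false
set_option linter.unusedSectionVars false

namespace Pool.Agent.Work.MP_787500_nt.QS

open Pool.Agent.Work.MP_787500_nt.GP (A0 IsAct d0 d1 d2 tw cup11 cup21 cup12 cup01 cup02 EvPow IsPow)
open Pool.Agent.Work.MP_787500_nt.KR (FSys Sm1 Sm2 IsChar Smooth Z1 Z2 B2 LocH Pair LDual GlobH Mid Sha2
  IsTr zM z1s b1s h1 sh1)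

theorem mem_of_perp {A : Type*} [AddCommGroup A] [Finite A] (C : AddSubgroup (A →+ A0))
    (φ : A →+ A0) (h : ∀ a, (∀ ψ ∈ C, ψ a = 0) → φ a = 0) : φ ∈ C := by
  have hfin : Finite (A →+ A0) := (GP.card_hom_le A).1
  obtain ⟨c, hc⟩ := GP.exists_rep (C.subtype.flip) φ
    (fun a ha => h a fun ψ hψ => ha ⟨ψ, hψ⟩)
  have hcφ : (c : A →+ A0) = φ := AddMonoidHom.ext hc
  rw [← hcφ]
  exact c.2

end Pool.Agent.Work.MP_787500_nt.QS
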