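import Mathlib
import Pool.Agent.Work.MP_787500_nt.QS.Dbl
import Pool.Agent.Work.MP_787500_nt.QS.Defs
import Pool.Agent.Work.MP_787500_nt.KR.T04
import Pool.Agent.Work.MP_787500_nt.KR.T04b

/-!
# Module SelPP (size M): duality with local conditions

Let `(F, g)` be a 2-cocycle with local cochains `d (g w) = F|D w`, and `L w` groups of local cocycles. If `(F, g)` is orthogonal
to all global cocycles `x` with values in `M'` that are locally orthogonal to `L w`, then `F = d X` and `g w - X|D w` is in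
`L w` up to coboundaries.
Proof: `A =` the group of `x : G → M'` with `Z1 S ρ' x` (finite: `H.fin` for the flipped pair, or the finiteness of
`Z1 S ρ'`); `φ x = tr (cup21 F x, cup11 (g w) (x|))` is additive. `C =` the group of the homomorphisms
`x ↦ ∑ w, inv w (cup11 (c w) (x|))`, `c w ∈ L w` (`inv w` is additive on the cup products, `LocH.add`, `cup11_Z2`; for a member
`c` and `x` in `Z1`, additivity in both arguments: GA/ShaExt `iv_add_left`, `iv_add_right` or direct). An `x` killed by `C` is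
locally orthogonal to all `L w` (take `c` supported at one place), so `φ x = 0` by `h0`. `mem_of_perp`: `φ x = ∑ inv w (c w ∪ x|)`.
Then `(F, g - c)` is orthogonal to all `x`: `tr (cup21 F x, cup11 (g - c) x) = φ x - tr (0, cup11 c x)` (tr is additive) and
`tr (0, cup11 c x) = ∑ inv w (cup11 (c w) x|)` by `H.istr` with `b = 0`. Apply `H.pp`.
-/

set_option autoImplicit false
set_option linter.unusedSectionVars false

namespace Pool.Agent.Work.MP_787500_nt.QS

open Pool.Agent.Work.MP_787500_nt.GP (A0 IsAct d0 d1 d2 tw cup11 cup21 cup12 cup01 cup02 EvPow IsPow)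
open Pool.Agent.Work.MP_787500_nt.KR (FSys Sm1 Sm2 IsChar Smooth Z1 Z2 B2 LocH Pair LDual GlobH Mid Sha2
  IsTr zM z1s b1s h1 sh1)

universe v

variable {G : Type*} [Group G] {S : FSys G} {I : Type*} [Fintype I] {D : I → Type*}
  [∀ w, Group (D w)] {SD : ∀ w, FSys (D w)} {j : ∀ w, D w →* G} {χ : G → ℤ_[2]}
  {inv : ∀ w, (D w → D w → A0) → A0} {tr : ((G → G → G → A0) × (∀ w, D w → D w → A0)) →+ A0}

section local_add

variable {X : Type*} [Group X] {T : FSys X} {χ' : X → ℤ_[2]} {iv : (X → X → A0) → A0}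
  {M M' : Type*} [AddCommGroup M] [AddCommGroup M'] {ρ : X → M → M} {ρ' : X → M' → M'}
  {B : M →+ M' →+ A0}

private theorem cup_add_left (hL : LocH T χ' iv) (hp : Pair T χ' ρ ρ' B) {c c' : X → M}
    {x : X → M'} (hc : Z1 T ρ c) (hc' : Z1 T ρ c') (hx : Z1 T ρ' x) :
    iv (cup11 ρ' B (c + c') x) = iv (cup11 ρ' B c x) + iv (cup11 ρ' B c' x) := by
  rw [← hL.add _ _ (KR.cup11_Z2 hp hc hx) (KR.cup11_Z2 hp hc' hx)]
  congr 1
  funext a b
  simp only [cup11, Pi.add_apply, map_add, AddMonoidHom.add_apply]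

private theorem cup_add_right (hL : LocH T χ' iv) (hp : Pair T χ' ρ ρ' B) {c : X → M}
    {x x' : X → M'} (hc : Z1 T ρ c) (hx : Z1 T ρ' x) (hx' : Z1 T ρ' x') :
    iv (cup11 ρ' B c (x + x')) = iv (cup11 ρ' B c x) + iv (cup11 ρ' B c x') := by
  rw [← hL.add _ _ (KR.cup11_Z2 hp hc hx) (KR.cup11_Z2 hp hc hx')]
  congr 1
  funext a b
  simp only [cup11, Pi.add_apply, map_add, hp.act'.add]

end local_add

theorem sel_pp (H : HQ.{v} S SD j χ inv tr) {M M' : Type v} [AddCommGroup M] [AddCommGroup M']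
    [Finite M] [Finite M'] {ρ : G → M → M} {ρ' : G → M' → M'} {B : M →+ M' →+ A0}
    (hp : Pair S χ ρ ρ' B) (L : ∀ w, AddSubgroup (D w → M))
    (hL : ∀ w, ∀ c ∈ L w, Z1 (SD w) (fun d => ρ (j w d)) c) {F : G → G → M} {g : ∀ w, D w → M}
    (hF : Z2 S ρ F) (hg : ∀ w, Sm1 (SD w) (g w))
    (hd : ∀ w a b, d1 (fun d => ρ (j w d)) (g w) a b = F (j w a) (j w b))
    (h0 : ∀ x, Z1 S ρ' x → (∀ w, ∀ c ∈ L w,
      inv w (cup11 (fun d => ρ' (j w d)) B c (fun d => x (j w d))) = 0) →
      tr (cup21 ρ' B F x,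
        fun w => cup11 (fun d => ρ' (j w d)) B (g w) (fun d => x (j w d))) = 0) :
    ∃ (X : G → M) (Z : I → M) (c : ∀ w, D w → M), Sm1 S X ∧ F = d1 ρ X ∧ (∀ w, c w ∈ L w) ∧
      ∀ w d, g w d = X (j w d) - d0 (fun d => ρ (j w d)) (Z w) d + c w d := by
  classical
  have hjsm := H.glob.jsm
  have hpl : ∀ w, Pair (SD w) (fun d => χ (j w d)) (fun d => ρ (j w d)) (fun d => ρ' (j w d)) B :=
    fun w => hp.comp (hjsm w)
  haveI hfinA : Finite (z1s S hp.act') := H.fin hp.flip
  have hxl : ∀ w (x : z1s S hp.act'), Z1 (SD w) (fun d => ρ' (j w d)) (fun d => x.1 (j w d)) :=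
    fun w x => KR.Z1.comp (hjsm w) x.2
  let θ : ∀ w, L w →+ (z1s S hp.act' →+ A0) := fun w => AddMonoidHom.mk'
    (fun c => AddMonoidHom.mk'
      (fun x => inv w (cup11 (fun d => ρ' (j w d)) B c.1 (fun d => x.1 (j w d))))
      (fun x x' => cup_add_right (H.glob.loc w) (hpl w) (hL w c.1 c.2) (hxl w x) (hxl w x')))
    (fun c c' => by
      ext x
      exact cup_add_left (H.glob.loc w) (hpl w) (hL w c.1 c.2) (hL w c'.1 c'.2) (hxl w x))
  have hθ : ∀ w (c : L w) (x : z1s S hp.act'),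
      θ w c x = inv w (cup11 (fun d => ρ' (j w d)) B c.1 (fun d => x.1 (j w d))) :=
    fun w c x => rfl
  let Ψ : (∀ w, L w) →+ (z1s S hp.act' →+ A0) :=
    ∑ w, (θ w).comp (Pi.evalAddMonoidHom (fun w => L w) w)
  have hΨ : ∀ (c : ∀ w, L w) (x : z1s S hp.act'), Ψ c x = ∑ w, θ w (c w) x := by
    intro c x
    simp only [Ψ, AddMonoidHom.finsetSum_apply, AddMonoidHom.comp_apply, Pi.evalAddMonoidHom_apply]
  let φ : z1s S hp.act' →+ A0 := AddMonoidHom.mk'
    (fun x => tr (cup21 ρ' B F x.1,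
      fun w => cup11 (fun d => ρ' (j w d)) B (g w) (fun d => x.1 (j w d))))
    (fun x x' => by
      rw [← map_add]
      congr 1
      refine Prod.ext ?_ ?_
      · funext a b c
        simp only [cup21, Prod.fst_add, Pi.add_apply, AddSubgroup.coe_add, map_add, hp.act'.add]
      · funext w a b
        simp only [cup11, Prod.snd_add, Pi.add_apply, AddSubgroup.coe_add, map_add, hp.act'.add])
  have hφ : ∀ x : z1s S hp.act', φ x = tr (cup21 ρ' B F x.1,
      fun w => cup11 (fun d => ρ' (j w d)) B (g w) (fun d => x.1 (j w d))) := fun x => rfl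
  have hmem : φ ∈ Ψ.range := by
    refine mem_of_perp _ φ fun x hx => ?_
    rw [hφ]
    refine h0 x.1 x.2 fun w c hc => ?_
    have h1 := hx (Ψ (Pi.single w ⟨c, hc⟩)) ⟨_, rfl⟩
    rw [hΨ, Finset.sum_eq_single w] at h1
    · rw [Pi.single_eq_same, hθ] at h1
      exact h1
    · intro w' _ hw'
      rw [Pi.single_eq_of_ne hw', map_zero]
      rfl
    · intro hw
      exact absurd (Finset.mem_univ w) hw
  obtain ⟨c, hc⟩ := hmem
  have hcZ : ∀ w, Z1 (SD w) (fun d => ρ (j w d)) (c w).1 := fun w => hL w _ (c w).2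
  have htr0 : ∀ x : z1s S hp.act', tr ((0 : G → G → G → A0),
      fun w => cup11 (fun d => ρ' (j w d)) B (c w).1 (fun d => x.1 (j w d))) =
        ∑ w, inv w (cup11 (fun d => ρ' (j w d)) B (c w).1 (fun d => x.1 (j w d))) := by
    intro x
    have h1 := H.istr (fun _ _ => 0)
      (fun w => cup11 (fun d => ρ' (j w d)) B (c w).1 (fun d => x.1 (j w d)))
      (by
        obtain ⟨W, hW⟩ := S.ex
        exact ⟨W, hW, fun _ _ _ _ _ _ => rfl⟩)
      (fun w => by
        simp only [sub_zero]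
        exact KR.cup11_Z2 (hpl w) (hcZ w) (hxl w x))
    simp only [sub_zero] at h1
    rw [← h1]
    congr 2
    funext a b c'
    simp only [d2, tw, smul_zero, sub_zero, add_zero, Pi.zero_apply]
  obtain ⟨X, Z, hX, hFX, hgX⟩ := H.pp hp F (fun w d => g w d - (c w).1 d) hF
    (fun w => by
      obtain ⟨W1, hW1, h1⟩ := hg w
      obtain ⟨W2, hW2, h2⟩ := (hcZ w).1
      exact ⟨W1 ⊓ W2, (SD w).inf hW1 hW2, fun a w' hw' => by
        simp only [h1 a w' hw'.1, h2 a w' hw'.2]⟩)
    (fun w a b => by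
      rw [← hd w a b]
      have h1 := (hcZ w).2 a b
      simp only [d1, h1, hp.act.sub]
      abel)
    (fun x hx => by
      have h1 := hφ ⟨x, hx⟩
      rw [← hc, hΨ] at h1
      have h2 := htr0 ⟨x, hx⟩
      have h3 : (cup21 ρ' B F x, fun w => cup11 (fun d => ρ' (j w d)) B
          (fun d => g w d - (c w).1 d) (fun d => x (j w d))) =
          (cup21 ρ' B F x,
            fun w => cup11 (fun d => ρ' (j w d)) B (g w) (fun d => x (j w d))) -
          ((0 : G → G → G → A0), fun w => cup11 (fun d => ρ' (j w d)) B (c w).1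
            (fun d => x (j w d))) := by
        refine Prod.ext ?_ ?_
        · simp only [Prod.fst_sub, sub_zero]
        · funext w a b
          simp only [cup11, Prod.snd_sub, Pi.sub_apply, map_sub, AddMonoidHom.sub_apply]
      rw [h3, map_sub, sub_eq_zero, h2, ← h1]
      exact Finset.sum_congr rfl fun w _ => hθ w (c w) ⟨x, hx⟩)
  refine ⟨X, Z, fun w => (c w).1, hX, hFX, fun w => (c w).2, fun w d => ?_⟩
  rw [← hgX w d, sub_add_cancel]

end Pool.Agent.Work.MP_787500_nt.QS
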