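import Mathlib
import Pool.Agent.Work.MP_787500_nt.QS.PsiW
import Pool.Agent.Work.MP_787500_nt.QS.SelPP

/-!
# Module PsiKer (size M): a datum orthogonal to all of `shQ` comes from the Selmer group

`(x, F, u)` a datum with conditions `Y`, `psi F u s = 0` for all `s ∈ shQ`. `sel_pp` for the pair `(U, Q)`, the 2-cocycle `F` (`XD.F_Z2`, `XD.F_loc`),
`g = u`, `L w =` all local cocycles with values in `U`: an `s'` locally orthogonal to all of them is locally a coboundary (`H.ld w hUQ`, field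
`one'`), so it is in `shQ` and the hypothesis applies. Result: `F = d1 c`, `u w = c| - d0 (Z w) + c' w`, `c' w` a local cocycle. Then
`x' = x - i e c` is a cocycle, and at `w`: `x'| = z + i e (u w - c|) = z + i e (c' w - d0 (Z w))`, `z ∈ Y w`; `i e` of a cocycle with values in `U` is in `Y w`
(hypothesis `hU`). So `x' ∈ selQ Y`.
* `indQ_U`: for `Y = indQ Yb`: `i e c ∈ indQ Yb w` for a local cocycle `c` (`x₁ = e c`, `m = 0`).
-/

set_option autoImplicit false
set_option linter.unusedSectionVars false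

namespace Pool.Agent.Work.MP_787500_nt.QS

open Pool.Agent.Work.MP_787500_nt.GP (A0 IsAct d0 d1 d2 tw cup11 cup21 cup12 cup01 cup02 EvPow IsPow)
open Pool.Agent.Work.MP_787500_nt.KR (FSys Sm1 Sm2 IsChar Smooth Z1 Z2 B2 LocH Pair LDual GlobH Mid Sha2
  IsTr zM z1s b1s h1 sh1 d0_Z1)

universe v

variable {G : Type*} [Group G] {S : FSys G} {I : Type*} [Fintype I] {D : I → Type*}
  [∀ w, Group (D w)] {SD : ∀ w, FSys (D w)} {j : ∀ w, D w →* G} {χ : G → ℤ_[2]}
  {inv : ∀ w, (D w → D w → A0) → A0} {tr : ((G → G → G → A0) × (∀ w, D w → D w → A0)) →+ A0}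
  {O : Type*} [CommRing O] {V V₁ Vb U Q R : Type v} [AddCommGroup V] [Module O V] [Finite V]
  [AddCommGroup V₁] [Module O V₁] [Finite V₁] [AddCommGroup Vb] [Module O Vb] [Finite Vb]
  [AddCommGroup U] [Module O U] [Finite U] [AddCommGroup Q] [Module O Q] [Finite Q]
  [AddCommGroup R] [Module O R] [Finite R] {ρ : G → V → V} {β : V →+ V →+ A0}
  {l : O → G → V → A0} {ρ₁ : G → V₁ → V₁} {ρb : G → Vb → Vb} {βb : Vb →+ Vb →+ A0}
  {lb : O → G → Vb → A0} {υ : G → U → U} {ω : G → Q → Q} {γ : U →+ Q →+ A0} {ρR : G → R → R}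
  {γR : V₁ →+ R →+ A0} {e : U →ₗ[O] V₁} {i : V₁ →ₗ[O] V} {π : V₁ →ₗ[O] Vb} {q : V →ₗ[O] Q}
  {r : V →ₗ[O] R} {ι : Vb →ₗ[O] R} {qb : R →ₗ[O] Q}

theorem indQ_U (H : HQ.{v} S SD j χ inv tr) (h : QM S χ O ρ β l)
    (fl : Flag ρ β l ρ₁ ρb βb lb υ ω γ ρR γR e i π q r ι qb) {Yb : ∀ w, Submodule O (D w → Vb)}
    (w : I) {c : D w → U} (hc : Z1 (SD w) (fun d => υ (j w d)) c) :
    (fun d => i (e (c d))) ∈ indQ SD j h fl Yb w := by
  refine ⟨fun d => e (c d), 0, ⟨?_, fun a b => ?_⟩, ?_, fun d => ?_⟩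
  · obtain ⟨W, hW, h1⟩ := hc.1
    exact ⟨W, hW, fun g w' hw' => by
      show e (c (g * w')) = e (c g)
      rw [h1 g w' hw']⟩
  · show e (c (a * b)) = e (c a) + ρ₁ (j w a) (e (c b))
    rw [hc.2 a b, map_add, fl.eqe]
  · have e0 : (fun d => π (e (c d))) = (0 : D w → Vb) := by
      funext d
      exact (fl.pker _).2 ⟨_, rfl⟩
    show (fun d => π (e (c d))) ∈ Yb w
    rw [e0]
    exact (Yb w).zero_mem
  · show i (e (c d)) = i (e (c d)) + (ρ (j w d) 0 - 0)
    rw [h.act.zero, sub_zero, add_zero]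

theorem psi_ker (H : HQ.{v} S SD j χ inv tr) (h : QM S χ O ρ β l)
    (fl : Flag ρ β l ρ₁ ρb βb lb υ ω γ ρR γR e i π q r ι qb) (hUQ : Pair S χ υ ω γ)
    {Y : ∀ w, Submodule O (D w → V)} (hY : ∀ w, ∀ z ∈ Y w, Z1 (SD w) (fun d => ρ (j w d)) z)
    (hU : ∀ w, ∀ c, Z1 (SD w) (fun d => υ (j w d)) c → (fun d => i (e (c d))) ∈ Y w)
    {x : G → V} {F : G → G → U} {u : ∀ w, D w → U} (hd : XD S SD j ρ e i Y x F u)
    (h0 : ∀ s ∈ shQ S j (fl.actQ h.act) (fl.linQ h.lin), psi j ω γ tr F u s = 0) :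
    ∃ c : G → U, Sm1 S c ∧ (fun g => x g - i (e (c g))) ∈ selQ S j h.act h.lin Y := by
  have hactw : ∀ w, IsAct (fun d => υ (j w d)) := fun w => hUQ.act.comp (j w)
  obtain ⟨X, Z, c, hX, hFX, hc, hu⟩ := sel_pp H hUQ (fun w => z1s (SD w) (hactw w))
    (fun w c hc => hc) (XD.F_Z2 h fl hd) hd.usm (fun w a b => XD.F_loc H h fl hY hd w a b)
    (fun s hs hperp => by
      refine h0 s ⟨hs, fun w => ?_⟩
      obtain ⟨m, hm⟩ := (H.ld w hUQ).one' (fun d => s (j w d)) (Z1.comp (H.glob.jsm w) hs)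
        (fun c hc => hperp w c hc)
      exact ⟨m, fun d => congrFun hm d⟩)
  refine ⟨X, hX, ⟨⟨?_, fun a b => ?_⟩, fun w => ?_⟩⟩
  · obtain ⟨W, hW, h1⟩ := hd.sm
    obtain ⟨W', hW', h2⟩ := hX
    refine ⟨W ⊓ W', S.inf hW hW', fun g w hw => ?_⟩
    show x (g * w) - i (e (X (g * w))) = x g - i (e (X g))
    rw [h1 g w hw.1, h2 g w hw.2]
  · show x (a * b) - i (e (X (a * b))) = x a - i (e (X a)) + ρ a (x b - i (e (X b)))
    have h1 := hd.dF a b
    rw [hFX] at h1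
    unfold d1 at h1
    rw [map_sub, map_add, map_sub, map_add, fl.eqe, fl.eqi] at h1
    rw [h.act.sub]
    have h2 : i (e (X (a * b))) =
        i (e (X a)) + ρ a (i (e (X b))) - (x a + ρ a (x b) - x (a * b)) := by
      rw [← h1]
      abel
    rw [h2]
    abel
  · have hsU : Smooth (SD w) (fun d => υ (j w d)) := Smooth.comp (H.glob.jsm w) hUQ.sm
    have hc' : Z1 (SD w) (fun d => υ (j w d))
        (c w - d0 (fun d => υ (j w d)) (Z w)) :=
      (z1s (SD w) (hactw w)).sub_mem (hc w) (d0_Z1 (hactw w) hsU (Z w))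
    have h1 := (Y w).add_mem (hd.loc w) (hU w _ hc')
    have h2 : (fun d => x (j w d) - i (e (X (j w d)))) =
        (fun d => x (j w d) - i (e (u w d))) +
          fun d => i (e ((c w - d0 (fun d => υ (j w d)) (Z w)) d)) := by
      funext d
      simp only [Pi.add_apply, Pi.sub_apply]
      rw [hu w d, map_sub, map_sub, map_add, map_add, map_sub, map_sub]
      abel
    show (fun d => x (j w d) - i (e (X (j w d)))) ∈ Y w
    rw [h2]
    exact h1

end Pool.Agent.Work.MP_787500_nt.QS
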