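import Mathlib
import Pool.Agent.Work.MP_787500_nt.QS.Defs
import Pool.Agent.Work.MP_787500_nt.KR.T04
import Pool.Agent.Work.MP_787500_nt.KR.T04b

/-!
# Module Com (size M): graded commutativity of the product of a 2-cocycle and a 1-cocycle

`B : M × M' → A0` equivariant. For `F` a 2-cocycle with values in `M`, `x` a 1-cocycle with values in `M'`, the products `cup21 ρ' B F x`
(`(a,b,c) ↦ B (F a b) (ab x c)`) and `cup12 ρ B.flip x F` (`(a,b,c) ↦ B (a F b c) (x a)` : `cup12 ρ B.flip x F a b c = B.flip (x a) (ρ a (F b c))`) differ by the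
coboundary of an explicit 2-cochain: find `h` (for the bar resolution: `h (a, b)` is, up to sign, `B (F a b) (x (ab)) - B (ρ a ..)`.. e.g.
`h a b = B (F a b) (x (a * b))`: compute `d2 (tw χ) h a b c = χ a B (F b c) (x (bc)) - B (F (ab) c) (x (abc)) + B (F a (bc)) (x (abc)) -
B (F a b) (x (ab))`; with `x (abc) = x a + a x (bc)`, `= x (ab) + ab x c`, and `a F b c - F (ab) c + F a (bc) - F a b = 0`:
`- B (F (ab) c) (x (abc)) + B (F a (bc)) (x (abc)) = B (F a b - a F b c) (x (abc)) = B (F a b) (x (ab) + ab x c) - B (a F b c) (x a + a x (bc))`; total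
`= B (F a b) (ab x c) - B (a F b c) (x a)`. So `cup21 ρ' B F x - cup12 ρ B.flip x F = d2 h` exactly, `h a b = B (F a b) (x (ab))`.)
* `cup21_cup12`: this identity.
* `cup11_com`: for a local cochain `g` and a cocycle `x`: `cup11 ρ' B g x a b = B (g a) (a x b)`, `cup11 ρ B.flip x g a b = B (a g b) (x a)`. With
  `t a = B (g a) (x a)`: `d1 t a b = B (g a) (x a) + χ a B (g b) (x b) - B (g (ab)) (x (ab))`, `g (ab) = g a + a g b - (d1 g) a b`: so `cup11 ρ' B g x + cup11 ρ B.flip x g =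
  B ((d1 g) a b) (x (ab)) - d1 t`.
* `tr_com`: for `dg w = F|`: `tr (cup21 F x, cup11 (g) x|) = - tr'`.. precisely: `tr (cup21 ρ' B F x, fun w => cup11 B (g w) (x|)) =
  tr (cup12 ρ B.flip x F, fun w => - cup11 B.flip (x|) (g w))`: the difference is `tr (d2 h, h| - d1 t)` and `H.istr` gives `∑ inv (- d1 t) = 0`.
-/

set_option autoImplicit false
set_option linter.unusedSectionVars false

namespace Pool.Agent.Work.MP_787500_nt.QS

open Pool.Agent.Work.MP_787500_nt.GP (A0 IsAct d0 d1 d2 tw cup11 cup21 cup12 cup01 cup02 EvPow IsPow)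
open Pool.Agent.Work.MP_787500_nt.KR (FSys Sm1 Sm2 IsChar Smooth Z1 Z2 B2 LocH Pair LDual GlobH Mid Sha2
  IsTr zM z1s b1s h1 sh1)

universe v

variable {G : Type*} [Group G] {S : FSys G} {I : Type*} [Fintype I] {D : I → Type*}
  [∀ w, Group (D w)] {SD : ∀ w, FSys (D w)} {j : ∀ w, D w →* G} {χ : G → ℤ_[2]}
  {inv : ∀ w, (D w → D w → A0) → A0} {tr : ((G → G → G → A0) × (∀ w, D w → D w → A0)) →+ A0}
  {M M' : Type*} [AddCommGroup M] [AddCommGroup M'] {ρ : G → M → M} {ρ' : G → M' → M'}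
  {B : M →+ M' →+ A0}

theorem cup21_cup12 (heqv : ∀ g m m', B (ρ g m) (ρ' g m') = χ g • B m m') (h' : IsAct ρ')
    {F : G → G → M} (hF : ∀ a b c, d2 ρ F a b c = 0) {x : G → M'}
    (hx : ∀ a b, x (a * b) = x a + ρ' a (x b)) (a b c : G) :
    cup21 ρ' B F x a b c - cup12 ρ B.flip x F a b c =
      d2 (tw χ) (fun a b => B (F a b) (x (a * b))) a b c := by
  have e0 : F (a * b) c = ρ a (F b c) + F a (b * c) - F a b := by
    have h1 := hF a b c
    simp only [d2] at h1
    have h2 : ρ a (F b c) + F a (b * c) - F a b =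
        (ρ a (F b c) - F (a * b) c + F a (b * c) - F a b) + F (a * b) c := by abel
    rw [h2, h1, zero_add]
  have e1 : x (a * b * c) = x a + ρ' a (x (b * c)) := by rw [mul_assoc, hx]
  have e2 : x (a * b * c) = x (a * b) + ρ' (a * b) (x c) := hx _ _
  have e3 : B (F (a * b) c) (x (a * b * c)) =
      B (ρ a (F b c)) (x (a * b * c)) + B (F a (b * c)) (x (a * b * c)) -
        B (F a b) (x (a * b * c)) := by
    rw [e0]
    simp only [map_add, map_sub, AddMonoidHom.add_apply, AddMonoidHom.sub_apply]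
  have e4 : B (ρ a (F b c)) (x (a * b * c)) = B (ρ a (F b c)) (x a) + χ a • B (F b c) (x (b * c)) := by
    rw [e1, map_add, heqv]
  have e5 : B (F a b) (x (a * b * c)) = B (F a b) (x (a * b)) + B (F a b) (ρ' (a * b) (x c)) := by
    rw [e2, map_add]
  simp only [d2, tw, cup21, cup12, AddMonoidHom.flip_apply, ← mul_assoc a b c]
  rw [e3, e4, e5]
  abel

theorem cup11_com (heqv : ∀ g m m', B (ρ g m) (ρ' g m') = χ g • B m m') (g : G → M) {x : G → M'}
    (hx : ∀ a b, x (a * b) = x a + ρ' a (x b)) (a b : G) :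
    cup11 ρ' B g x a b + cup11 ρ B.flip x g a b =
      B (d1 ρ g a b) (x (a * b)) - d1 (tw χ) (fun a => B (g a) (x a)) a b := by
  simp only [cup11, d1, tw, AddMonoidHom.flip_apply, map_add, map_sub, AddMonoidHom.add_apply,
    AddMonoidHom.sub_apply, hx, ← heqv a]
  abel

theorem tr_com (H : GlobH S SD j χ inv) (ht : IsTr S SD j χ inv tr) (hp : Pair S χ ρ ρ' B)
    {F : G → G → M} (hF : Z2 S ρ F) {g : ∀ w, D w → M} (hg : ∀ w, Sm1 (SD w) (g w))
    (hd : ∀ w a b, d1 (fun d => ρ (j w d)) (g w) a b = F (j w a) (j w b)) {x : G → M'}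
    (hx : Z1 S ρ' x) :
    tr (cup21 ρ' B F x, fun w => cup11 (fun d => ρ' (j w d)) B (g w) (fun d => x (j w d))) =
      tr (cup12 ρ B.flip x F,
        fun w => -cup11 (fun d => ρ (j w d)) B.flip (fun d => x (j w d)) (g w)) := by
  set b : G → G → A0 := fun a a' => B (F a a') (x (a * a')) with hb
  set c : ∀ w, D w → D w → A0 := fun w a a' =>
    cup11 (fun d => ρ' (j w d)) B (g w) (fun d => x (j w d)) a a' +
      cup11 (fun d => ρ (j w d)) B.flip (fun d => x (j w d)) (g w) a a' with hc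
  have hbs : Sm2 S b := by
    obtain ⟨W1, hW1, h1⟩ := hF.1
    obtain ⟨W2, hW2, h2⟩ := hx.1
    refine ⟨W1 ⊓ W2, S.inf hW1 hW2, fun u v w hw w' hw' => ?_⟩
    have h3 : x (u * w * (v * w')) = x (u * v) := by
      have hn := S.normal hW2
      have h4 : u * w * (v * w') = u * v * (v⁻¹ * w * v * w') := by group
      have h5 : v⁻¹ * w * v ∈ W2 := by
        have := hn.conj_mem w hw.2 v⁻¹
        simpa using this
      rw [h4, h2 _ _ (W2.mul_mem h5 hw'.2)]
    simp only [hb]
    rw [h1 u v w hw.1 w' hw'.1, h3]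
  have hxl : ∀ w (a a' : D w), x (j w (a * a')) = x (j w a) + ρ' (j w a) (x (j w a')) := by
    intro w a a'
    rw [map_mul, hx.2]
  have key : ∀ w (u v : D w), c w u v - b (j w u) (j w v) =
      d1 (tw fun d => χ (j w d)) (fun a => -B (g w a) (x (j w a))) u v := by
    intro w u v
    have h1 := cup11_com (G := D w) (χ := fun d => χ (j w d)) (ρ := fun d => ρ (j w d))
      (ρ' := fun d => ρ' (j w d)) (B := B) (fun d m m' => hp.eqv (j w d) m m') (g w)
      (x := fun d => x (j w d)) (hxl w) u v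
    simp only [hc, hb]
    rw [h1, hd w u v, map_mul]
    simp only [d1, tw, smul_neg]
    abel
  have hsm : ∀ w, Sm1 (SD w) (fun a => -B (g w a) (x (j w a))) := by
    intro w
    obtain ⟨W1, hW1, h1⟩ := hg w
    obtain ⟨W2, hW2, h2⟩ := hx.1
    obtain ⟨W3, hW3, h3⟩ := H.jsm w W2 hW2
    refine ⟨W1 ⊓ W3, (SD w).inf hW1 hW3, fun a w' hw' => ?_⟩
    simp only [map_mul]
    rw [h1 a w' hw'.1, h2 _ _ (h3 w' hw'.2)]
  have hfun : ∀ w, (fun u v => c w u v - b (j w u) (j w v)) =
      d1 (tw fun d => χ (j w d)) (fun a => -B (g w a) (x (j w a))) :=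
    fun w => funext fun u => funext fun v => key w u v
  have h1 := ht b c hbs (fun w => by
    rw [hfun w]
    exact KR.d1_tw_Z2 (H.loc w).char (hsm w))
  have h2 : ∑ w, inv w (fun u v => c w u v - b (j w u) (j w v)) = 0 := by
    refine Finset.sum_eq_zero fun w _ => ?_
    rw [hfun w]
    exact (H.loc w).cob _ (hsm w)
  rw [h2] at h1
  rw [← sub_eq_zero, ← map_sub, ← h1]
  congr 1
  refine Prod.ext ?_ ?_
  · funext a a' a''
    exact cup21_cup12 hp.eqv hp.act' hF.2 hx.2 a a' a''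
  · funext w a a'
    simp only [Prod.snd_sub, Pi.sub_apply, Pi.neg_apply, hc, sub_neg_eq_add]

end Pool.Agent.Work.MP_787500_nt.QS
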