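import Mathlib
import Pool.Agent.Work.MP_787500_nt.QS.PsiW
import Pool.Agent.Work.MP_787500_nt.QS.SelPP
import Pool.Agent.Work.MP_787500_nt.QS.Com

/-!
# Module PsiSurj (size L): every class orthogonal to the obstructions comes from a cochain

Let `s ∈ shQ` (values in `Q`) be orthogonal (`psi`) to all data `(x₀, F₀, u₀)` with `q ∘ x₀ = 0`. Then there are `x, F, u` with `q ∘ x = s`.
Proof. `Yb` Lagrangian for `Vb`, `Yr = redQ (indQ Yb)` Lagrangian (hypothesis `hr`).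
1. Choose `y₀ : G → R` smooth with `qb ∘ y₀ = s` (`qb` is onto: `qb (r m) = q m`), `y₀ = f ∘ s`. `d1 ρR y₀` is killed by `qb`, so `= ι ∘ Fb`
   (`qb n = 0`, `n = r m`, `q m = 0`, `m = i m₁`, `n = ι (π m₁)`), `Fb ∈ Z2 S ρb`. Locally `s| = d0 ω n_w`, choose `a_w : R` with `qb a_w = n_w`:
   `y₀| - d0 ρR a_w = ι ∘ g_w`, `g_w` smooth, `d1 g_w = Fb|`.
2. Claim: `tr (cup21 Fb y, cup11 g y|) = 0` for all `y ∈ selQ Yr`. Let `y₁ : G → V₁` be smooth, `π ∘ y₁ = y`; then `x₀ = i ∘ y₁` is a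
   datum: `d1 ρ₁ y₁ = e F₀` (`pker`), locally `y| = π z₁` with `i z₁ ∈ indQ` (def. of `redQ`), `y₁| - z₁ = e u₀`. `q ∘ x₀ = 0`. The
   cochain `b s t = γR^flip`-cup of `y₀` and `y₁`: `b = cup11 ρ₁ γR.flip y₀ y₁` has `d2 b = cup21 (ι Fb) y₁ - cup12 y₀ (e F₀)` (`leib11` for the pair
   `(R, V₁)`: check that `leib11` only needs the equivariance of the form), and `γR.flip (ι (π m)) n₁ = - pB βb`..: `γR n₁ (r (i m)) = pB β (i n₁) (i m) =
   pB βb (π n₁) (π m)`, so `cup21 (ι Fb) y₁ = - cup21 Fb y` (for `pB βb`, which is antisymmetric), `γR (e u) n = γ u (qb n)` so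
   `cup12 y₀ (e F₀)` is the product of `s` and `F₀`, which is related to `cup21 ω γ F₀ s` by graded commutativity: use the cochain
   identity of KR/T04 (`cup_anti` type) in degree (2,1); see (commutativity) below. Compare also locally and apply `H.istr`: the claim
   becomes `psi F₀ u₀ s = 0` up to sign.
   COMMUTATIVITY (to avoid it): use instead the cochain `b' = cup11 ρR γR y₁ y₀` (first `y₁`): `d2 b' = cup21 ρR γR (e F₀) y₀ - cup12 ρR γR y₁ (ι Fb)`,
   `cup21 ρR γR (e F₀) y₀ = cup21 ω γ F₀ s`, and `cup12 ρR γR y₁ (ι Fb) = cup12 ρb (pB βb) y Fb`. So one gets: `tr (cup12 y Fb, ..)`. Then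
   prove the version of `sel_pp` with the product in the other order, or show `tr (cup12 y Fb, cup11 y| g) = tr (cup21 Fb y, cup11 g y|)` up to sign
   by the explicit homotopy (see module Com: `cup12_cup21`).
3. `sel_pp` for the pair `(Vb, Vb)`, `L w = Yr w`: `Fb = d1 X`, `g_w = X| - d0 Z_w + c_w`, `c_w ∈ Yr w` (an `x` locally orthogonal to `Yr w` is in
   `Yr w`, by `self` and symmetry, so in `selQ Yr`). Put `y' = y₀ - ι ∘ X`: a cocycle with values in `R`, `qb ∘ y' = s`, locally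
   `y' = d0 ρR (a_w - ι Z_w) + ι c_w`. `c_w = π z₁`, `i z₁ ∈ indQ`: `ι c_w = r (i z₁)`; `a_w - ι Z_w = r m_w`. So `y'| = r (i z₁ + d0 m_w)`, and
   `z_w = i z₁ + d0 m_w ∈ indQ`. Choose `x : G → V` smooth with `r ∘ x = y'`: `d1 ρ x = i e F` (`rker`), `x| - z_w = i e u_w`. `q ∘ x = s`.
-/

set_option autoImplicit false
set_option linter.unusedSectionVars false

namespace Pool.Agent.Work.MP_787500_nt.QS

open Pool.Agent.Work.MP_787500_nt.GP (A0 IsAct d0 d1 d2 tw cup11 cup21 cup12 cup01 cup02 EvPow IsPow)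
open Pool.Agent.Work.MP_787500_nt.KR (FSys Sm1 Sm2 IsChar Smooth Z1 Z2 B2 LocH Pair LDual GlobH Mid Sha2
  IsTr zM z1s b1s h1 sh1)

universe v

variable {G : Type*} [Group G] {S : FSys G} {I : Type*} [Fintype I] {D : I → Type*}
  [∀ w, Group (D w)] {SD : ∀ w, FSys (D w)} {j : ∀ w, D w →* G} {χ : G → ℤ_[2]}
  {inv : ∀ w, (D w → D w → A0) → A0} {tr : ((G → G → G → A0) × (∀ w, D w → D w → A0)) →+ A0}
  {O : Type*} [CommRing O] {V V₁ Vb U Q R : Type v} [AddCommGroup V] [Module O V] [Finite V]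
  [AddCommGroup V₁] [Module O V₁] [Finite V₁] [AddCommGroup Vb] [Module O Vb] [Finite Vb]
  [AddCommGroup U] [Module O U] [Finite U] [AddCommGroup Q] [Module O Q] [Finite Q]
  [AddCommGroup R] [Module O R] [Finite R] {ρ : G → V → V} {β : V →+ V →+ A0}
  {l : O → G → V → A0} {ρ₁ : G → V₁ → V₁} {ρb : G → Vb → Vb} {βb : Vb →+ Vb →+ A0}
  {lb : O → G → Vb → A0} {υ : G → U → U} {ω : G → Q → Q} {γ : U →+ Q →+ A0} {ρR : G → R → R}
  {γR : V₁ →+ R →+ A0} {e : U →ₗ[O] V₁} {i : V₁ →ₗ[O] V} {π : V₁ →ₗ[O] Vb} {q : V →ₗ[O] Q}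
  {r : V →ₗ[O] R} {ι : Vb →ₗ[O] R} {qb : R →ₗ[O] Q}

private theorem ps_op {X A B C : Type*} [Group X] {T : FSys X} {x : X → A} {y : X → B}
    (hx : Sm1 T x) (hy : Sm1 T y) (F : A → B → C) : Sm1 T (fun g => F (x g) (y g)) := by
  obtain ⟨W, hW, hx⟩ := hx
  obtain ⟨W', hW', hy⟩ := hy
  refine ⟨W ⊓ W', T.inf hW hW', fun g w hw => ?_⟩
  show F (x (g * w)) (y (g * w)) = F (x g) (y g)
  rw [hx g w hw.1, hy g w hw.2]

private theorem ps_map {X A B : Type*} [Group X] {T : FSys X} {x : X → A} (hx : Sm1 T x)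
    (F : A → B) : Sm1 T (fun g => F (x g)) := ps_op hx hx fun a _ => F a

private theorem ps_inj1 {X A B : Type*} [Group X] {T : FSys X} {x : X → A} {φ : A → B}
    (hφ : Function.Injective φ) (hx : Sm1 T fun g => φ (x g)) : Sm1 T x := by
  obtain ⟨W, hW, hx⟩ := hx
  exact ⟨W, hW, fun g w hw => hφ (hx g w hw)⟩

private theorem ps_inj2 {X A B : Type*} [Group X] {T : FSys X} {x : X → X → A} {φ : A → B}
    (hφ : Function.Injective φ) (hx : Sm2 T fun g g' => φ (x g g')) : Sm2 T x := by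
  obtain ⟨W, hW, hx⟩ := hx
  exact ⟨W, hW, fun g g' w hw w' hw' => hφ (hx g g' w hw w' hw')⟩

section flag

variable {G : Type*} [Group G] {O : Type*} [CommRing O] {V V₁ Vb U Q R : Type*}
  [AddCommGroup V] [Module O V] [AddCommGroup V₁] [Module O V₁] [AddCommGroup Vb] [Module O Vb]
  [AddCommGroup U] [Module O U] [AddCommGroup Q] [Module O Q] [AddCommGroup R] [Module O R]
  {ρ : G → V → V} {β : V →+ V →+ A0} {l : O → G → V → A0} {ρ₁ : G → V₁ → V₁}
  {ρb : G → Vb → Vb} {βb : Vb →+ Vb →+ A0} {lb : O → G → Vb → A0} {υ : G → U → U}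
  {ω : G → Q → Q} {γ : U →+ Q →+ A0} {ρR : G → R → R} {γR : V₁ →+ R →+ A0}
  {e : U →ₗ[O] V₁} {i : V₁ →ₗ[O] V} {π : V₁ →ₗ[O] Vb} {q : V →ₗ[O] Q} {r : V →ₗ[O] R}
  {ι : Vb →ₗ[O] R} {qb : R →ₗ[O] Q}
  (fl : Flag ρ β l ρ₁ ρb βb lb υ ω γ ρR γR e i π q r ι qb)

include fl

private theorem ps_qbeqv (g : G) (n : R) : qb (ρR g n) = ω g (qb n) := by
  obtain ⟨m, rfl⟩ := fl.rsurj n
  rw [← fl.eqr, fl.qr, fl.qr, fl.eqq]

private theorem ps_ioeqv (g : G) (n : Vb) : ι (ρb g n) = ρR g (ι n) := by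
  obtain ⟨m, rfl⟩ := fl.psurj n
  rw [← fl.eqp, fl.ip, fl.ip, fl.eqi, fl.eqr]

private theorem ps_qbker (n : R) (h : qb n = 0) : ∃ b, ι b = n := by
  obtain ⟨m, rfl⟩ := fl.rsurj n
  rw [fl.qr] at h
  obtain ⟨m₁, rfl⟩ := (fl.qker m).1 h
  exact ⟨π m₁, fl.ip m₁⟩

private theorem ps_qbio (b : Vb) : qb (ι b) = 0 := by
  obtain ⟨m, rfl⟩ := fl.psurj b
  rw [fl.ip, fl.qr]
  exact (fl.qker _).2 ⟨m, rfl⟩

private theorem ps_g1 (u : U) (n : R) : γR (e u) n = γ u (qb n) := by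
  obtain ⟨m, rfl⟩ := fl.rsurj n
  rw [← fl.pairR, fl.pairU, fl.qr]

private theorem ps_g2 (n₁ : V₁) (b : Vb) : γR n₁ (ι b) = pB βb (π n₁) b := by
  obtain ⟨m, rfl⟩ := fl.psurj b
  rw [fl.ip, ← fl.pairR, pB_apply, pB_apply, fl.bet, fl.bet]

private theorem ps_qbsurj : Function.Surjective qb := fun n => by
  obtain ⟨m, rfl⟩ := fl.qsurj n
  exact ⟨r m, fl.qr m⟩

end flag

private theorem ps_d0 {G M M' : Type*} [Group G] [AddCommGroup M] [AddCommGroup M']
    {ρ : G → M → M} {ρ' : G → M' → M'} {F : Type*} [FunLike F M M'] [AddMonoidHomClass F M M']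
    (f : F) (hf : ∀ g m, f (ρ g m) = ρ' g (f m)) (m : M) (g : G) :
    f (d0 ρ m g) = d0 ρ' (f m) g := by
  show f (ρ g m - m) = ρ' g (f m) - f m
  rw [map_sub, hf]

private theorem ps_d1 {G M M' : Type*} [Group G] [AddCommGroup M] [AddCommGroup M']
    {ρ : G → M → M} {ρ' : G → M' → M'} {F : Type*} [FunLike F M M'] [AddMonoidHomClass F M M']
    (f : F) (hf : ∀ g m, f (ρ g m) = ρ' g (f m)) (x : G → M) (g g' : G) :
    f (d1 ρ x g g') = d1 ρ' (fun g => f (x g)) g g' := by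
  show f (x g + ρ g (x g') - x (g * g')) = f (x g) + ρ' g (f (x g')) - f (x (g * g'))
  rw [map_sub, map_add, hf]

private theorem ps_d2 {G M M' : Type*} [Group G] [AddCommGroup M] [AddCommGroup M']
    {ρ : G → M → M} {ρ' : G → M' → M'} {F : Type*} [FunLike F M M'] [AddMonoidHomClass F M M']
    (f : F) (hf : ∀ g m, f (ρ g m) = ρ' g (f m)) (x : G → G → M) (g g' g'' : G) :
    f (d2 ρ x g g' g'') = d2 ρ' (fun g g' => f (x g g')) g g' g'' := by
  show f (ρ g (x g' g'') - x (g * g') g'' + x g (g' * g'') - x g g') = _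
  rw [map_sub, map_add, map_sub, hf]
  rfl

theorem psi_surj (H : HQ.{v} S SD j χ inv tr) (h : QM S χ O ρ β l) (hb : QM S χ O ρb βb lb)
    (fl : Flag ρ β l ρ₁ ρb βb lb υ ω γ ρR γR e i π q r ι qb) (hUQ : Pair S χ υ ω γ)
    (hVR : Pair S χ ρ₁ ρR γR) {Yb : ∀ w, Submodule O (D w → Vb)}
    (hr : ∀ w, Lag (SD w) (inv w) (fun d => ρb (j w d)) βb (fun a d => lb a (j w d))
      (redQ SD j h fl (indQ SD j h fl Yb) w))
    (hi : ∀ w, ∀ z ∈ indQ SD j h fl Yb w, Z1 (SD w) (fun d => ρ (j w d)) z)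
    {s : G → Q} (hs : s ∈ shQ S j (fl.actQ h.act) (fl.linQ h.lin))
    (h0 : ∀ x F u, XD S SD j ρ e i (indQ SD j h fl Yb) x F u → (∀ g, q (x g) = 0) →
      psi j ω γ tr F u s = 0) :
    ∃ x F u, XD S SD j ρ e i (indQ SD j h fl Yb) x F u ∧ ∀ g, q (x g) = s g := by
  classical
  -- step 1: the cochain `y₀` with values in `R`
  have hactR := fl.actR h.act
  have hactQ := fl.actQ h.act
  obtain ⟨hs1, hs2⟩ := hs
  let f : Q → R := Function.surjInv (ps_qbsurj fl)
  have hf : ∀ n, qb (f n) = n := Function.surjInv_eq (ps_qbsurj fl)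
  let y₀ : G → R := fun g => f (s g)
  have hy₀ : ∀ g, qb (y₀ g) = s g := fun g => hf _
  have hy₀s : Sm1 S y₀ := ps_map hs1.1 f
  have hk : ∀ a b, ∃ c, ι c = d1 ρR y₀ a b := fun a b => ps_qbker fl _ (by
    rw [ps_d1 qb (ps_qbeqv fl)]
    show qb (y₀ a) + ω a (qb (y₀ b)) - qb (y₀ (a * b)) = 0
    rw [hy₀, hy₀, hy₀, hs1.2, sub_self])
  choose Fb hFb using hk
  have hFbZ : Z2 S ρb Fb := by
    refine ⟨ps_inj2 (φ := ι) fl.iotainj ?_, fun a b c => fl.iotainj ?_⟩
    · have e1 : (fun g g' => ι (Fb g g')) = d1 ρR y₀ := by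
        funext a b
        exact hFb a b
      rw [e1]
      exact KR.d1_sm hactR hVR.sm' hy₀s
    · rw [ps_d2 ι (ps_ioeqv fl), map_zero]
      have e1 : (fun g g' => ι (Fb g g')) = d1 ρR y₀ := by
        funext a b
        exact hFb a b
      rw [e1]
      exact KR.d2_d1 hactR _ a b c
  have hloc : ∀ w, ∃ a : R, ∀ d, qb (y₀ (j w d) - d0 (fun d => ρR (j w d)) a d) = 0 := by
    intro w
    obtain ⟨n, hn⟩ := hs2 w
    obtain ⟨a, rfl⟩ := ps_qbsurj fl n
    refine ⟨a, fun d => ?_⟩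
    rw [map_sub, hy₀, hn d, ps_d0 (ρ := fun d => ρR (j w d)) (ρ' := fun d => ω (j w d)) qb
      (fun g m => ps_qbeqv fl (j w g) m), sub_self]
  choose A hA using hloc
  have hloc2 : ∀ w d, ∃ c, ι c = y₀ (j w d) - d0 (fun d => ρR (j w d)) (A w) d :=
    fun w d => ps_qbker fl _ (hA w d)
  choose g hg using hloc2
  have hjsm := H.glob.jsm
  have hd0s : ∀ w (m : R), Sm1 (SD w) (d0 (fun d => ρR (j w d)) m) := fun w m =>
    (KR.d0_Z1 (hactR.comp (j w)) (hVR.sm'.comp (hjsm w)) m).1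
  have hgs : ∀ w, Sm1 (SD w) (g w) := by
    intro w
    refine ps_inj1 (φ := ι) fl.iotainj ?_
    have e1 : (fun d => ι (g w d)) = fun d => y₀ (j w d) - d0 (fun d => ρR (j w d)) (A w) d := by
      funext d
      exact hg w d
    rw [e1]
    exact ps_op (hy₀s.comp (hjsm w)) (hd0s w (A w)) fun a b => a - b
  have hgd : ∀ w a b, d1 (fun d => ρb (j w d)) (g w) a b = Fb (j w a) (j w b) := by
    intro w a b
    apply fl.iotainj
    rw [ps_d1 (ρ := fun d => ρb (j w d)) (ρ' := fun d => ρR (j w d)) ι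
      (fun g m => ps_ioeqv fl (j w g) m), hFb]
    simp only [d1, hg, d0, map_mul]
    rw [hactR.sub, hactR.sub, hactR.mul]
    abel
  -- step 2
  have key : ∀ y, Z1 S ρb y → (∀ w, ∀ c ∈ (redQ SD j h fl (indQ SD j h fl Yb) w).toAddSubgroup,
      inv w (cup11 (fun d => ρb (j w d)) (pB βb) c (fun d => y (j w d))) = 0) →
      tr (cup21 ρb (pB βb) Fb y,
        fun w => cup11 (fun d => ρb (j w d)) (pB βb) (g w) (fun d => y (j w d))) = 0 := by
    intro y hy hy0
    have hbw : ∀ w, QM (SD w) (fun d => χ (j w d)) O (fun d => ρb (j w d)) βb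
        (fun a d => lb a (j w d)) := fun w => hb.comp (hjsm w)
    have hyl : ∀ w, (fun d => y (j w d)) ∈ redQ SD j h fl (indQ SD j h fl Yb) w := by
      intro w
      have hyw : Z1 (SD w) (fun d => ρb (j w d)) (fun d => y (j w d)) := hy.comp (hjsm w)
      refine ((hr w).self _ hyw).2 fun c hc => ?_
      rw [iv_symm (H.glob.loc w) (hbw w) hyw ((hr w).coc c hc)]
      exact hy0 w c hc
    let sec : Vb → V₁ := Function.surjInv fl.psurj
    have hsec : ∀ n, π (sec n) = n := Function.surjInv_eq fl.psurj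
    let y₁ : G → V₁ := fun g => sec (y g)
    have hy₁ : ∀ g, π (y₁ g) = y g := fun g => hsec _
    have hy₁s : Sm1 S y₁ := ps_map hy.1 sec
    have hk : ∀ a b, ∃ c, e c = d1 ρ₁ y₁ a b := fun a b => (fl.pker _).1 (by
      rw [ps_d1 π fl.eqp]
      show π (y₁ a) + ρb a (π (y₁ b)) - π (y₁ (a * b)) = 0
      rw [hy₁, hy₁, hy₁, hy.2, sub_self])
    choose F₀ hF₀ using hk
    have hl : ∀ w, ∃ z₁ : D w → V₁, Z1 (SD w) (fun d => ρ₁ (j w d)) z₁ ∧
        (fun d => i (z₁ d)) ∈ indQ SD j h fl Yb w ∧ ∀ d, y (j w d) = π (z₁ d) := hyl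
    choose z₁ hz₁ hz₁i hz₁y using hl
    have hk2 : ∀ w d, ∃ c, e c = y₁ (j w d) - z₁ w d := fun w d => (fl.pker _).1 (by
      rw [map_sub, hy₁, hz₁y, sub_self])
    choose u₀ hu₀ using hk2
    have hu₀s : ∀ w, Sm1 (SD w) (u₀ w) := by
      intro w
      refine ps_inj1 (φ := e) fl.einj ?_
      have e1 : (fun d => e (u₀ w d)) = fun d => y₁ (j w d) - z₁ w d := by
        funext d
        exact hu₀ w d
      rw [e1]
      exact ps_op (hy₁s.comp (hjsm w)) (hz₁ w).1 fun a b => a - b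
    have hxd : XD S SD j ρ e i (indQ SD j h fl Yb) (fun g => i (y₁ g)) F₀ u₀ := by
      refine ⟨ps_map hy₁s i, fun a b => ?_, hu₀s, fun w => ?_⟩
      · rw [hF₀, ps_d1 i fl.eqi]
      · have e1 : (fun d => i (y₁ (j w d)) - i (e (u₀ w d))) = fun d => i (z₁ w d) := by
          funext d
          rw [hu₀, map_sub, sub_sub_cancel]
        rw [e1]
        exact hz₁i w
    have h1 : psi j ω γ tr F₀ u₀ s = 0 := h0 _ _ _ hxd fun g => (fl.qker _).2 ⟨_, rfl⟩
    -- the comparison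
    have hb1 : d2 (tw χ) (cup11 ρR γR y₁ y₀) =
        cup21 ω γ F₀ s - cup12 ρb (pB βb) y Fb := by
      funext a b c
      rw [KR.leib11 hVR.act' hVR.eqv]
      simp only [Pi.sub_apply, cup21, cup12]
      rw [← hF₀, ← hFb, ps_g1 fl, ps_qbeqv fl, hy₀, ← ps_ioeqv fl, ps_g2 fl, hy₁]
    have hb2 : ∀ w, (fun u v => cup11 ρR γR y₁ y₀ (j w u) (j w v)) =
        cup11 (fun d => ω (j w d)) γ (u₀ w) (fun d => s (j w d)) -
          d1 (tw fun d => χ (j w d)) (fun a => γR (z₁ w a) (ρR (j w a) (A w))) +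
          cup11 (fun d => ρb (j w d)) (pB βb) (fun d => y (j w d)) (g w) := by
      intro w
      funext a b
      have e1 : y₁ (j w a) = z₁ w a + e (u₀ w a) := by
        rw [hu₀]
        abel
      have e2 : y₀ (j w b) = d0 (fun d => ρR (j w d)) (A w) b + ι (g w b) := by
        rw [hg]
        abel
      have e3 : γR (e (u₀ w a)) (ρR (j w a) (y₀ (j w b))) =
          γ (u₀ w a) (ω (j w a) (s (j w b))) := by
        rw [ps_g1 fl, ps_qbeqv fl, hy₀]
      have e4 : γR (z₁ w a) (ρR (j w a) (ι (g w b))) =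
          pB βb (y (j w a)) (ρb (j w a) (g w b)) := by
        rw [← ps_ioeqv fl, ps_g2 fl, hz₁y]
      have e5 : γR (z₁ w a) (ρR (j w a) (d0 (fun d => ρR (j w d)) (A w) b)) =
          -d1 (tw fun d => χ (j w d)) (fun a => γR (z₁ w a) (ρR (j w a) (A w))) a b := by
        simp only [d1, tw, d0]
        rw [← hVR.eqv, (hz₁ w).2 a b, map_mul, hVR.act'.mul, hVR.act'.sub, map_sub, map_add,
          AddMonoidHom.add_apply]
        abel
      have e6 : cup11 ρR γR y₁ y₀ (j w a) (j w b) =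
          γR (z₁ w a) (ρR (j w a) (y₀ (j w b))) +
            γR (e (u₀ w a)) (ρR (j w a) (y₀ (j w b))) := by
        show γR (y₁ (j w a)) (ρR (j w a) (y₀ (j w b))) = _
        rw [e1, map_add, AddMonoidHom.add_apply]
      rw [e6, e3, e2, hVR.act'.add, map_add, e4, e5]
      simp only [Pi.add_apply, Pi.sub_apply, cup11]
      abel
    have hbs : Sm2 S (cup11 ρR γR y₁ y₀) := KR.cup11_sm hVR.sm' hVR.act' hy₁s hy₀s
    have hts : ∀ w, Sm1 (SD w) (fun d => -γR (z₁ w d) (ρR (j w d) (A w))) := by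
      intro w
      have h2 : Sm1 (SD w) (fun d => ρR (j w d) (A w)) := by
        have h3 := ps_map (hd0s w (A w)) fun x => x + A w
        have e1 : (fun g => d0 (fun d => ρR (j w d)) (A w) g + A w) =
            fun d => ρR (j w d) (A w) := by
          funext d
          show ρR (j w d) (A w) - A w + A w = _
          rw [sub_add_cancel]
        rwa [e1] at h3
      exact ps_op (hz₁ w).1 h2 fun a b => -γR a b
    have h3 := KR.tr_cob H.glob H.istr hbs hts
    have h4 : psi j ω γ tr F₀ u₀ s = tr (d2 (tw χ) (cup11 ρR γR y₁ y₀), fun w u v =>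
          cup11 ρR γR y₁ y₀ (j w u) (j w v) -
            d1 (tw fun d => χ (j w d)) (fun d => -γR (z₁ w d) (ρR (j w d) (A w))) u v) +
        tr (cup12 ρb (pB βb) y Fb,
          fun w => -cup11 (fun d => ρb (j w d)) (pB βb) (fun d => y (j w d)) (g w)) := by
      unfold psi
      rw [← map_add]
      congr 1
      apply Prod.ext
      · show cup21 ω γ F₀ s = d2 (tw χ) (cup11 ρR γR y₁ y₀) + cup12 ρb (pB βb) y Fb
        rw [hb1, sub_add_cancel]
      · funext w u v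
        show cup11 (fun d => ω (j w d)) γ (u₀ w) (fun d => s (j w d)) u v =
          cup11 ρR γR y₁ y₀ (j w u) (j w v) -
            d1 (tw fun d => χ (j w d)) (fun d => -γR (z₁ w d) (ρR (j w d) (A w))) u v +
            -cup11 (fun d => ρb (j w d)) (pB βb) (fun d => y (j w d)) (g w) u v
        have h5 := congrFun (congrFun (hb2 w) u) v
        simp only [Pi.add_apply, Pi.sub_apply] at h5
        have h6 : d1 (tw fun d => χ (j w d)) (fun d => -γR (z₁ w d) (ρR (j w d) (A w))) u v =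
            -d1 (tw fun d => χ (j w d)) (fun d => γR (z₁ w d) (ρR (j w d) (A w))) u v := by
          simp only [d1, tw, smul_neg]
          abel
        rw [h5, h6]
        abel
    rw [h1, h3, zero_add] at h4
    rw [tr_com H.glob H.istr hb.pair hFbZ hgs hgd hy, pB_flip]
    have e7 : ((cup12 ρb (-pB βb) y Fb, fun w =>
        -cup11 (fun d => ρb (j w d)) (-pB βb) (fun d => y (j w d)) (g w)) :
          (G → G → G → A0) × (∀ w, D w → D w → A0)) =
        -(cup12 ρb (pB βb) y Fb,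
          fun w => -cup11 (fun d => ρb (j w d)) (pB βb) (fun d => y (j w d)) (g w)) := by
      apply Prod.ext
      · funext a b c
        simp only [cup12, Prod.fst_neg, Pi.neg_apply, AddMonoidHom.neg_apply]
      · funext w a b
        simp only [cup11, Prod.snd_neg, Pi.neg_apply, AddMonoidHom.neg_apply]
    rw [e7, map_neg, ← h4, neg_zero]
  -- step 3
  obtain ⟨X, Z, c, hX, hFX, hc, hgX⟩ := sel_pp H hb.pair
    (fun w => (redQ SD j h fl (indQ SD j h fl Yb) w).toAddSubgroup)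
    (fun w c hc => (hr w).coc c hc) hFbZ hgs hgd key
  have hcl : ∀ w, ∃ z₁ : D w → V₁, Z1 (SD w) (fun d => ρ₁ (j w d)) z₁ ∧
      (fun d => i (z₁ d)) ∈ indQ SD j h fl Yb w ∧ ∀ d, c w d = π (z₁ d) := hc
  choose z₁ hz₁ hz₁i hz₁c using hcl
  let m : I → V := fun w => Function.surjInv fl.rsurj (A w - ι (Z w))
  have hm : ∀ w, r (m w) = A w - ι (Z w) := fun w => Function.surjInv_eq fl.rsurj _
  let y' : G → R := fun g => y₀ g - ι (X g)
  have hy's : Sm1 S y' := ps_op hy₀s hX fun a b => a - ι b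
  have hy'c : ∀ a b, d1 ρR y' a b = 0 := by
    intro a b
    have e1 : d1 ρR y' a b = d1 ρR y₀ a b - d1 ρR (fun g => ι (X g)) a b := by
      simp only [d1, y']
      rw [hactR.sub]
      abel
    rw [e1, ← hFb, hFX, ps_d1 ι (ps_ioeqv fl), sub_self]
  let z : ∀ w, D w → V := fun w d => i (z₁ w d) + d0 (fun d => ρ (j w d)) (m w) d
  have hzi : ∀ w, z w ∈ indQ SD j h fl Yb w := by
    intro w
    obtain ⟨x₁, n, h1, h2, h3⟩ := hz₁i w
    refine ⟨x₁, n + m w, h1, h2, fun d => ?_⟩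
    show i (z₁ w d) + d0 (fun d => ρ (j w d)) (m w) d = _
    rw [show i (z₁ w d) = i (x₁ d) + d0 (fun d => ρ (j w d)) n d from h3 d]
    simp only [d0, h.act.add]
    abel
  have hzy : ∀ w d, r (z w d) = y' (j w d) := by
    intro w d
    show r (i (z₁ w d) + d0 (fun d => ρ (j w d)) (m w) d) = y₀ (j w d) - ι (X (j w d))
    rw [map_add, ps_d0 (ρ := fun d => ρ (j w d)) (ρ' := fun d => ρR (j w d)) r
      (fun g m => fl.eqr (j w g) m), hm, ← fl.ip, ← hz₁c]
    have e1 : y₀ (j w d) = d0 (fun d => ρR (j w d)) (A w) d + ι (g w d) := by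
      rw [hg]
      abel
    rw [e1, hgX, map_add, map_sub, ps_d0 (ρ := fun d => ρb (j w d)) (ρ' := fun d => ρR (j w d)) ι
      (fun g m => ps_ioeqv fl (j w g) m)]
    simp only [d0]
    rw [hactR.sub]
    abel
  let sr : R → V := Function.surjInv fl.rsurj
  have hsr : ∀ n, r (sr n) = n := Function.surjInv_eq fl.rsurj
  let x : G → V := fun g => sr (y' g)
  have hx : ∀ g, r (x g) = y' g := fun g => hsr _
  have hk : ∀ a b, ∃ u, i (e u) = d1 ρ x a b := fun a b => (fl.rker _).1 (by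
    rw [ps_d1 r fl.eqr]
    show r (x a) + ρR a (r (x b)) - r (x (a * b)) = 0
    rw [hx, hx, hx]
    exact hy'c a b)
  choose F hF using hk
  have hk2 : ∀ w d, ∃ u, i (e u) = x (j w d) - z w d := fun w d => (fl.rker _).1 (by
    rw [map_sub, hx, hzy, sub_self])
  choose u hu using hk2
  have hzs : ∀ w, Sm1 (SD w) (z w) := by
    intro w
    exact ps_op (hz₁ w).1 (KR.d0_Z1 (h.act.comp (j w)) (h.sm.comp (hjsm w)) (m w)).1
      fun a b => i a + b
  refine ⟨x, F, u, ⟨ps_map hy's sr, hF, fun w => ?_, fun w => ?_⟩, fun g => ?_⟩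
  · refine ps_inj1 (φ := fun u => i (e u)) (fun a b hab => fl.einj (fl.iinj hab)) ?_
    have e1 : (fun d => i (e (u w d))) = fun d => x (j w d) - z w d := by
      funext d
      exact hu w d
    rw [e1]
    exact ps_op ((ps_map hy's sr).comp (hjsm w)) (hzs w) fun a b => a - b
  · have e1 : (fun d => x (j w d) - i (e (u w d))) = z w := by
      funext d
      rw [hu, sub_sub_cancel]
    rw [e1]
    exact hzi w
  · rw [← fl.qr, hx]
    show qb (y₀ g - ι (X g)) = s g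
    rw [map_sub, hy₀, ps_qbio fl, sub_zero]

end Pool.Agent.Work.MP_787500_nt.QS
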