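import Mathlib
import Pool.Agent.Work.MP_787500_nt.QS.Cnt1
import Pool.Agent.Work.MP_787500_nt.QS.PsiAlt
import Pool.Agent.Work.MP_787500_nt.QS.PsiSurj
import Pool.Agent.Work.MP_787500_nt.QS.PsiKer
import Pool.Agent.Work.MP_787500_nt.GP.F04_Alt
import Pool.Agent.Work.MP_787500_nt.GP.F03_Pow
import Pool.Agent.Work.MP_787500_nt.GP.F01_Card

/-!
# Module StepQ (size L): the step over the rational numbers

`A = selQ Yind`, `A' = selQ Yred`, `A'_l = lftQ`, `J = A.map (q ∘)` (a submodule of `Sh = shQ`, by `sel_q`), all finite.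
`E = {(x, F, u) | XD}`; for `x` with data write `psi x s` (`psi_w`: independent of the data for `s ∈ Sh`).
1. `P = {s ∈ Sh | psi x₀ s = 0 for all data with q ∘ x₀ = 0}` (a submodule: `psi_add_s`, `psi_bal`).
2. `P = {q ∘ x | x datum}`: `⊆` by `psi_surj`. `⊇`: `psi (x + x₀) (q (x + x₀)) = 0`, `psi x (q x) = 0`, `psi x₀ (q x₀) = 0` (`psi_alt`, `a = 1`) and additivity give
   `psi x (q x₀) + psi x₀ (q x) = 0`, and `q x₀ = 0`.
3. Form on `P`: `β (q x) s = psi x s`. Well defined: if `q x = q x'`, `x - x'` is a datum with `q = 0`, so `psi (x - x') s = 0` for `s ∈ P`. It is biadditive, balanced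
   (`psi_bal`, `XD.smul`), `β (a • s) s = psi (a x) s = psi x (a • s) = 0` (`psi_alt`). Its radical is `J`: `q x ∈ J` iff `x - x''` ..: if `q x = q x''` with `x'' ∈ A` (data `F = 0`, `u = 0`),
   `psi x'' s = 0`. Conversely if `psi x s = 0` for all `s ∈ P`: the homomorphism `psi x : Sh → A0` vanishes on `P`, which is the annihilator of the group
   `C = {psi x₀ | q x₀ = 0}`, so (`mem_of_perp`) `psi x = psi x₀` on `Sh`; `psi_ker` for `x - x₀`: `x - x₀ - i e c ∈ A`, and `q` of it is `q x`.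
   `GP.alt_card`: `card P = q ^ (2 m) * card J`.
4. `card A' * card P = card A'_l * card Sh`: pairing `A' × Sh → A0`, `(y, s) ↦ psi x₀ s`, `x₀ = i ∘ y₁`, `π ∘ y₁ = y` (a datum with `q x₀ = 0`: see PsiSurj, step 2; every datum with
   `q x₀ = 0` is of this form for `y = π ∘ y₁ ∈ A'`). Left kernel `A'_l` (if `y = π x₁`, `x₁` a cocycle: data of `i ∘ x₁` with `F = 0`, `u` a local cocycle: `psi = 0`; conversely `psi_ker`:
   `i y₁ - i e c` is a cocycle, so `y₁ - e c` is a cocycle with values in `V₁` that lifts `y`), right kernel `P`. Use `GP.card_perp` or `card_eq_of_nondeg` for the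
   quotients.
5. `card_A` and the numbers: `card A * card A' * card Z1(U) * card Sh = card J * card Z1(U) * card A'_l * card A' * card Z1(U) * card Sh`,
   `card A'_l * card Sh = card A' * card P = card A' * q ^ (2m) * card J`, so it is `(card J * card Z1(U) * card A')^2 * q ^ (2m)`. `IsPow` of every factor: `GP.card_pow`
   (finite `O`-modules).
-/

set_option autoImplicit false
set_option linter.unusedSectionVars false

namespace Pool.Agent.Work.MP_787500_nt.QS

open Pool.Agent.Work.MP_787500_nt.GP (A0 IsAct d0 d1 d2 tw cup11 cup21 cup12 cup01 cup02 EvPow IsPow)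
open Pool.Agent.Work.MP_787500_nt.KR (FSys Sm1 Sm2 IsChar Smooth Z1 Z2 B2 LocH Pair LDual GlobH Mid Sha2
  IsTr zM z1s b1s h1 sh1)

/-- the abstract form of the step -/
private theorem ct_abs {O : Type*} [CommRing O] [IsLocalRing O]
    [Finite (IsLocalRing.ResidueField O)] {E Sh A' : Type*} [AddCommGroup E] [Module O E]
    [AddCommGroup Sh] [Module O Sh] [Finite Sh] [AddCommGroup A'] [Finite A']
    (Ψ : E →+ Sh →+ A0) (qE : E →ₗ[O] Sh)
    (hbal : ∀ (a : O) x s, Ψ (a • x) s = Ψ x (a • s)) (halt : ∀ (a : O) x, Ψ x (a • qE x) = 0)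
    (hsurj : ∀ s, (∀ x, qE x = 0 → Ψ x s = 0) → ∃ x, qE x = s) (J : Submodule O Sh)
    (hJ : ∀ x, qE x ∈ J ↔ ∃ x', qE x' = qE x ∧ ∀ s, Ψ x' s = 0) (hJr : ∀ p ∈ J, ∃ x, qE x = p)
    (Θ : A' →+ Sh →+ A0) (hΘ1 : ∀ y, ∃ x, qE x = 0 ∧ Ψ x = Θ y)
    (hΘ2 : ∀ x, qE x = 0 → ∃ y, Θ y = Ψ x) :
    ∃ m : ℕ, Nat.card Θ.ker * Nat.card Sh =
      Nat.card A' * (Nat.card (IsLocalRing.ResidueField O) ^ (2 * m) * Nat.card J) := by
  classical
  let P : Submodule O Sh :=
    { carrier := {s | ∀ x, qE x = 0 → Ψ x s = 0}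
      add_mem' := fun h h' x hx => by rw [map_add, h x hx, h' x hx, add_zero]
      zero_mem' := fun x _ => map_zero _
      smul_mem' := fun a s h x hx => by
        rw [← hbal]
        exact h _ (by rw [map_smul, hx, smul_zero]) }
  have halt1 : ∀ x, Ψ x (qE x) = 0 := fun x => by
    have := halt 1 x
    rwa [one_smul] at this
  have hqP : ∀ x, qE x ∈ P := by
    intro x x₀ hx₀
    have h1 := halt1 (x + x₀)
    rw [map_add qE, hx₀, add_zero, map_add Ψ, AddMonoidHom.add_apply, halt1, zero_add] at h1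
    exact h1
  have hJP : J ≤ P := by
    intro p hp
    obtain ⟨x, rfl⟩ := hJr p hp
    exact hqP x
  choose xp hxp using fun p : P => hsurj p.1 p.2
  have hdiff : ∀ x x' : E, qE x = qE x' → ∀ s : P, Ψ x s.1 = Ψ x' s.1 := by
    intro x x' hx s
    have h1 := s.2 (x - x') (by rw [map_sub, hx, sub_self])
    rw [map_sub, AddMonoidHom.sub_apply, sub_eq_zero] at h1
    exact h1
  let B : P →+ P →+ A0 := AddMonoidHom.mk'
    (fun p => (Ψ (xp p)).comp P.subtype.toAddMonoidHom) (fun p p' => by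
      ext s
      show Ψ (xp (p + p')) s.1 = Ψ (xp p) s.1 + Ψ (xp p') s.1
      rw [← AddMonoidHom.add_apply, ← map_add]
      refine hdiff _ _ ?_ s
      rw [map_add, hxp, hxp, hxp]
      rfl)
  have hB : ∀ p s : P, B p s = Ψ (xp p) s.1 := fun _ _ => rfl
  obtain ⟨m, hm⟩ := GP.alt_card (O := O) B
    (fun a p s => by
      rw [hB, hB]
      show _ = Ψ (xp p) (a • s.1)
      rw [← hbal]
      refine hdiff _ _ ?_ s
      rw [hxp, map_smul, hxp]
      rfl)
    (fun a p => by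
      rw [hB]
      have h1 := hdiff (xp (a • p)) (a • xp p) (by rw [hxp, map_smul, hxp]; rfl) p
      rw [h1, hbal]
      have h2 := halt a (xp p)
      rwa [hxp] at h2)
    (J.comap P.subtype) (fun p => by
      show p.1 ∈ J ↔ _
      constructor
      · intro hp s
        rw [← hxp p] at hp
        obtain ⟨x', hx', hx0⟩ := (hJ _).1 hp
        rw [hB, hdiff _ _ hx'.symm s, hx0]
      · intro hp
        have h1 : Ψ (xp p) ∈ (qE.toAddMonoidHom.ker).map Ψ := by
          refine mem_of_perp _ _ fun s hs => ?_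
          refine hp ⟨s, fun x hx => hs _ ⟨x, hx, rfl⟩⟩
        obtain ⟨x₀, hx₀, hx1⟩ := h1
        have hx₀' : qE x₀ = 0 := hx₀
        rw [← hxp p]
        refine (hJ _).2 ⟨xp p - x₀, by rw [map_sub, hx₀', sub_zero], fun s => ?_⟩
        rw [map_sub, hx1, sub_self]
        rfl)
  have hJc : Nat.card (J.comap P.subtype) = Nat.card J :=
    Nat.card_congr (Submodule.comapSubtypeEquivOfLe hJP).toEquiv
  have hA : Nat.card A' = Nat.card Θ.range * Nat.card Θ.ker := by
    have h1 : Nat.card A' = Nat.card (A' ⧸ Θ.ker) * Nat.card Θ.ker :=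
      AddSubgroup.card_eq_card_quotient_mul_card_addSubgroup _
    rw [Nat.card_congr (QuotientAddGroup.quotientKerEquivRange Θ).toEquiv] at h1
    exact h1
  have hfin : Finite Θ.range := Finite.of_surjective Θ.rangeRestrict Θ.rangeRestrict_surjective
  have hperp := GP.card_perp (A := Θ.range) (A' := Sh) Θ.range.subtype ⊤ fun _ _ => trivial
  have e1 : GP.perpL (Θ.range.subtype : Θ.range →+ Sh →+ A0) ⊤ = P.toAddSubgroup := by
    ext s
    constructor
    · intro hs x hx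
      obtain ⟨y, hy⟩ := hΘ2 x hx
      rw [← hy]
      exact hs ⟨Θ y, y, rfl⟩ trivial
    · rintro hs ⟨ψ, y, rfl⟩ _
      obtain ⟨x, hx, hy⟩ := hΘ1 y
      show Θ y s = 0
      rw [← hy]
      exact hs x hx
  have e2 : GP.perpL (Θ.range.subtype : Θ.range →+ Sh →+ A0).flip ⊤ = ⊥ := by
    rw [eq_bot_iff]
    intro ψ hψ
    rw [AddSubgroup.mem_bot]
    apply Subtype.ext
    ext s
    exact hψ s trivial
  rw [e1, e2, AddSubgroup.card_bot, mul_one] at hperp
  have e3 : Nat.card (⊤ : AddSubgroup Θ.range) = Nat.card Θ.range :=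
    Nat.card_congr AddSubgroup.topEquiv.toEquiv
  have e4 : Nat.card P.toAddSubgroup = Nat.card P := rfl
  rw [e3, e4] at hperp
  refine ⟨m, ?_⟩
  rw [← hperp, hm, hJc, hA]
  ring

universe v

variable {G : Type*} [Group G] {S : FSys G} {I : Type*} [Fintype I] {D : I → Type*}
  [∀ w, Group (D w)] {SD : ∀ w, FSys (D w)} {j : ∀ w, D w →* G} {χ : G → ℤ_[2]}
  {inv : ∀ w, (D w → D w → A0) → A0} {tr : ((G → G → G → A0) × (∀ w, D w → D w → A0)) →+ A0}
  {O : Type*} [CommRing O] {V V₁ Vb U Q R : Type v} [AddCommGroup V] [Module O V] [Finite V]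
  [AddCommGroup V₁] [Module O V₁] [Finite V₁] [AddCommGroup Vb] [Module O Vb] [Finite Vb]
  [AddCommGroup U] [Module O U] [Finite U] [AddCommGroup Q] [Module O Q] [Finite Q]
  [AddCommGroup R] [Module O R] [Finite R] {ρ : G → V → V} {β : V →+ V →+ A0}
  {l : O → G → V → A0} {ρ₁ : G → V₁ → V₁} {ρb : G → Vb → Vb} {βb : Vb →+ Vb →+ A0}
  {lb : O → G → Vb → A0} {υ : G → U → U} {ω : G → Q → Q} {γ : U →+ Q →+ A0} {ρR : G → R → R}
  {γR : V₁ →+ R →+ A0} {e : U →ₗ[O] V₁} {i : V₁ →ₗ[O] V} {π : V₁ →ₗ[O] Vb} {q : V →ₗ[O] Q}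
  {r : V →ₗ[O] R} {ι : Vb →ₗ[O] R} {qb : R →ₗ[O] Q}

/-- an element of the Selmer group is a datum -/
private theorem xd_sel {Y : ∀ w, Submodule O (D w → V)} {act : IsAct ρ}
    {lin : ∀ g (a : O) m, ρ g (a • m) = a • ρ g m} {x : G → V}
    (hx : x ∈ selQ S j act lin Y) : XD S SD j ρ e i Y x (0 : G → G → U) 0 := by
  refine ⟨hx.1.1, fun s t => ?_, fun w => ?_, fun w => ?_⟩
  · show i (e 0) = x s + ρ s (x t) - x (s * t)
    rw [map_zero, map_zero, hx.1.2, sub_self]
  · obtain ⟨W, hW⟩ := (SD w).ex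
    exact ⟨W, hW, fun _ _ _ => rfl⟩
  · have h1 := hx.2 w
    have e1 : (fun d => x (j w d) - i (e ((0 : ∀ w, D w → U) w d))) = fun d => x (j w d) := by
      funext d
      show x (j w d) - i (e 0) = _
      rw [map_zero, map_zero, sub_zero]
    rw [e1]
    exact h1

/-- the submodule of the cochains with data -/
private def datS (Y : ∀ w, Submodule O (D w → V)) (act : IsAct ρ)
    (lin : ∀ g (a : O) m, ρ g (a • m) = a • ρ g m) (e : U →ₗ[O] V₁) (i : V₁ →ₗ[O] V) :
    Submodule O (G → V) where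
  carrier := {x | ∃ F u, XD S SD j ρ e i Y x F u}
  add_mem' := by
    rintro x x' ⟨F, u, hd⟩ ⟨F', u', hd'⟩
    exact ⟨_, _, hd.add act hd'⟩
  zero_mem' := ⟨_, _, xd_sel (act := act) (lin := lin) (Submodule.zero_mem _)⟩
  smul_mem' := by
    rintro a x ⟨F, u, hd⟩
    exact ⟨_, _, hd.smul lin a⟩

private theorem sm1_const {X : Type*} [Group X] {T : FSys X} {A : Type*} (a : A) :
    Sm1 T (fun _ : X => a) := by
  obtain ⟨W, hW⟩ := T.ex
  exact ⟨W, hW, fun _ _ _ => rfl⟩

theorem step_Q [IsLocalRing O] [Finite (IsLocalRing.ResidueField O)]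
    (H : HQ.{v} S SD j χ inv tr) (h : QM S χ O ρ β l) (hb : QM S χ O ρb βb lb)
    (fl : Flag ρ β l ρ₁ ρb βb lb υ ω γ ρR γR e i π q r ι qb) (hUQ : Pair S χ υ ω γ)
    (hVR : Pair S χ ρ₁ ρR γR) {Yb : ∀ w, Submodule O (D w → Vb)}
    (hYb : ∀ w, Lag (SD w) (inv w) (fun d => ρb (j w d)) βb (fun a d => lb a (j w d)) (Yb w)) :
    EvPow (Nat.card (IsLocalRing.ResidueField O))
      (Nat.card (selQ S j h.act h.lin (indQ SD j h fl Yb)) *
        Nat.card (selQ S j hb.act hb.lin (redQ SD j h fl (indQ SD j h fl Yb))) *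
        (Nat.card (z1s S (fl.actU h.act)) *
          Nat.card (shQ S j (fl.actQ h.act) (fl.linQ h.lin)))) := by
  classical
  have hYL : ∀ w, Lag (SD w) (inv w) (fun d => ρ (j w d)) β (fun a d => l a (j w d))
      (indQ SD j h fl Yb w) := fun w =>
    ind_lag (H.glob.loc w) (h.comp (H.glob.jsm w)) (hb.comp (H.glob.jsm w)) (fl.comp (j w))
      (H.ld w hUQ) (H.ld w hVR) (H.ld w hb.pair) (hYb w)
  have hrL : ∀ w, Lag (SD w) (inv w) (fun d => ρb (j w d)) βb (fun a d => lb a (j w d))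
      (redQ SD j h fl (indQ SD j h fl Yb) w) := fun w =>
    red_lag (H.glob.loc w) (h.comp (H.glob.jsm w)) (hb.comp (H.glob.jsm w)) (fl.comp (j w))
      (H.ld w hUQ) (H.ld w hVR) (H.ld w hb.pair) (hYb w)
  have hYc : ∀ w, ∀ z ∈ indQ SD j h fl Yb w, Z1 (SD w) (fun d => ρ (j w d)) z :=
    fun w => (hYL w).coc
  have hYU : ∀ w, ∀ c, Z1 (SD w) (fun d => υ (j w d)) c →
      (fun d => i (e (c d))) ∈ indQ SD j h fl Yb w := fun w c hc => indQ_U H h fl w hc
  have act₁ := fl.act₁ h.act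
  -- finiteness
  have hfA : Finite (selQ S j h.act h.lin (indQ SD j h fl Yb)) := by
    have := H.fin h.pair
    exact Finite.of_injective (fun x : selQ S j h.act h.lin (indQ SD j h fl Yb) =>
      (⟨x.1, x.2.1⟩ : {x : G → V // Z1 S ρ x})) fun x y hxy =>
        Subtype.ext (congrArg (fun z : {x : G → V // Z1 S ρ x} => z.1) hxy)
  have hfA' : Finite (selQ S j hb.act hb.lin (redQ SD j h fl (indQ SD j h fl Yb))) := by
    have := H.fin hb.pair
    exact Finite.of_injective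
      (fun x : selQ S j hb.act hb.lin (redQ SD j h fl (indQ SD j h fl Yb)) =>
      (⟨x.1, x.2.1⟩ : {x : G → Vb // Z1 S ρb x})) fun x y hxy =>
        Subtype.ext (congrArg (fun z : {x : G → Vb // Z1 S ρb x} => z.1) hxy)
  have hfS : Finite (shQ S j (fl.actQ h.act) (fl.linQ h.lin)) := by
    have := H.fin hUQ.flip
    exact Finite.of_injective (fun x : shQ S j (fl.actQ h.act) (fl.linQ h.lin) =>
      (⟨x.1, x.2.1⟩ : {x : G → Q // Z1 S ω x})) fun x y hxy =>
        Subtype.ext (congrArg (fun z : {x : G → Q // Z1 S ω x} => z.1) hxy)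
  have hfU : Finite (zM (O := O) S (fl.actU h.act) (fl.linU h.lin)) := H.fin hUQ
  -- the data
  let E : Submodule O (G → V) := datS (S := S) (SD := SD) (j := j) (indQ SD j h fl Yb) h.act h.lin e i
  choose FF uu hdd using fun x : E => x.2
  have hval : ∀ (x : E) (x' : G → V) (F' : G → G → U) (u' : ∀ w, D w → U) (c : G → U),
      XD S SD j ρ e i (indQ SD j h fl Yb) x' F' u' → Sm1 S c → (∀ g, x' g = x.1 g + i (e (c g))) →
      ∀ s : shQ S j (fl.actQ h.act) (fl.linQ h.lin),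
        psi j ω γ tr F' u' s.1 = psi j ω γ tr (FF x) (uu x) s.1 := by
    intro x x' F' u' c hd' hc hxx s
    exact psi_w H h fl hUQ hYc (hdd x) hd' hc hxx s.2
  have hsm0 : Sm1 S (fun _ : G => (0 : U)) := sm1_const 0
  let Ψ : E →+ shQ S j (fl.actQ h.act) (fl.linQ h.lin) →+ A0 :=
    AddMonoidHom.mk' (fun x => AddMonoidHom.mk' (fun s => psi j ω γ tr (FF x) (uu x) s.1)
      (fun s s' => psi_add_s (fl.actQ h.act) _ _ _ _)) (fun x x' => by
        ext s
        show psi j ω γ tr (FF (x + x')) (uu (x + x')) s.1 =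
          psi j ω γ tr (FF x) (uu x) s.1 + psi j ω γ tr (FF x') (uu x') s.1
        rw [← psi_add_x]
        exact (hval (x + x') _ _ _ (fun _ => 0) ((hdd x).add h.act (hdd x')) hsm0
          (fun g => by rw [map_zero, map_zero, add_zero]; rfl) s).symm)
  have hΨ : ∀ (x : E) (F' : G → G → U) (u' : ∀ w, D w → U) (x' : G → V) (c : G → U),
      XD S SD j ρ e i (indQ SD j h fl Yb) x' F' u' → Sm1 S c → (∀ g, x' g = x.1 g + i (e (c g))) →
      ∀ s, Ψ x s = psi j ω γ tr F' u' s.1 := by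
    intro x F' u' x' c hd' hc hxx s
    exact (hval x x' F' u' c hd' hc hxx s).symm
  have hpsi0 : ∀ s : shQ S j (fl.actQ h.act) (fl.linQ h.lin),
      psi j ω γ tr (0 : G → G → U) (0 : ∀ w, D w → U) s.1 = 0 := by
    intro s
    have h1 := psi_add_x (j := j) (ω := ω) (γ := γ) (tr := tr) (0 : G → G → U) 0
      (0 : ∀ w, D w → U) 0 s.1
    rw [add_zero, add_zero] at h1
    exact left_eq_add.1 h1
  let qE : E →ₗ[O] shQ S j (fl.actQ h.act) (fl.linQ h.lin) :=
    { toFun := fun x => ⟨fun g => q (x.1 g), (hdd x).q_sh H h fl⟩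
      map_add' := fun x x' => Subtype.ext (funext fun g => map_add q _ _)
      map_smul' := fun a x => Subtype.ext (funext fun g => map_smul q _ _) }
  have hqE : ∀ (x : E) g, (qE x).1 g = q (x.1 g) := fun _ _ => rfl
  -- lifts of the elements of the second Selmer group
  have hlift : ∀ y : selQ S j hb.act hb.lin (redQ SD j h fl (indQ SD j h fl Yb)),
      ∀ y₁ : G → V₁, Sm1 S y₁ → (∀ g, π (y₁ g) = y.1 g) → (fun g => i (y₁ g)) ∈ E := by
    intro y y₁ hs hy₁
    have h1 : ∀ s t, ∃ u, e u = d1 ρ₁ y₁ s t := by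
      intro s t
      rw [← fl.pker]
      show π (y₁ s + ρ₁ s (y₁ t) - y₁ (s * t)) = 0
      rw [map_sub, map_add, fl.eqp, hy₁, hy₁, hy₁, y.2.1.2 s t, sub_self]
    choose F hF using h1
    choose z hz1 hz2 hz3 using fun w => y.2.2 w
    have h2 : ∀ w d, ∃ u, e u = y₁ (j w d) - z w d := by
      intro w d
      rw [← fl.pker, map_sub, hy₁, ← hz3, sub_self]
    choose u hu using h2
    refine ⟨F, u, ?_, fun s t => ?_, fun w => ?_, fun w => ?_⟩
    · obtain ⟨W, hW, h3⟩ := hs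
      exact ⟨W, hW, fun g v hv => congrArg i (h3 g v hv)⟩
    · rw [hF]
      show i (y₁ s + ρ₁ s (y₁ t) - y₁ (s * t)) = i (y₁ s) + ρ s (i (y₁ t)) - i (y₁ (s * t))
      rw [map_sub, map_add, fl.eqi]
    · obtain ⟨W, hW, h3⟩ := hs
      obtain ⟨W', hW', h4⟩ := H.glob.jsm w W hW
      obtain ⟨W'', hW'', h5⟩ := (hz1 w).1
      refine ⟨W' ⊓ W'', (SD w).inf hW' hW'', fun g v hv => fl.einj ?_⟩
      rw [hu, hu, map_mul, h3 _ _ (h4 v hv.1), h5 g v hv.2]
    · have e1 : (fun d => i (y₁ (j w d)) - i (e (u w d))) = fun d => i (z w d) := by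
        funext d
        rw [hu, map_sub, sub_sub_cancel]
      rw [e1]
      exact hz2 w
  let f : Vb → V₁ := Function.surjInv fl.psurj
  have hf : ∀ m, π (f m) = m := Function.surjInv_eq fl.psurj
  have hfs : ∀ y : selQ S j hb.act hb.lin (redQ SD j h fl (indQ SD j h fl Yb)),
      Sm1 S (fun g => f (y.1 g)) := by
    intro y
    obtain ⟨W, hW, h3⟩ := y.2.1.1
    exact ⟨W, hW, fun g v hv => congrArg f (h3 g v hv)⟩
  let xl : selQ S j hb.act hb.lin (redQ SD j h fl (indQ SD j h fl Yb)) → E := fun y =>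
    ⟨fun g => i (f (y.1 g)), hlift y _ (hfs y) fun g => hf _⟩
  have hxl : ∀ y g, (xl y).1 g = i (f (y.1 g)) := fun _ _ => rfl
  -- comparison of two lifts
  have hcmp : ∀ (x x' : E) (y₁ y₁' : G → V₁), Sm1 S y₁ → Sm1 S y₁' → (∀ g, x.1 g = i (y₁ g)) →
      (∀ g, x'.1 g = i (y₁' g)) → (∀ g, π (y₁ g) = π (y₁' g)) → Ψ x = Ψ x' := by
    intro x x' y₁ y₁' hs hs' hx hx' hπ
    have h1 : ∀ g, ∃ c, e c = y₁' g - y₁ g := by
      intro g
      rw [← fl.pker, map_sub, hπ, sub_self]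
    choose c hc using h1
    ext s
    refine hΨ x _ _ x'.1 c (hdd x') ?_ (fun g => ?_) s
    · obtain ⟨W, hW, h3⟩ := hs
      obtain ⟨W', hW', h4⟩ := hs'
      refine ⟨W ⊓ W', S.inf hW hW', fun g v hv => fl.einj ?_⟩
      rw [hc, hc, h3 g v hv.1, h4 g v hv.2]
    · rw [hc, hx, hx', map_sub, add_sub_cancel]
  let Θ : selQ S j hb.act hb.lin (redQ SD j h fl (indQ SD j h fl Yb)) →+
      shQ S j (fl.actQ h.act) (fl.linQ h.lin) →+ A0 :=
    AddMonoidHom.mk' (fun y => Ψ (xl y)) fun y y' => by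
      rw [← map_add]
      refine hcmp _ _ (fun g => f ((y + y').1 g)) (fun g => f (y.1 g) + f (y'.1 g)) (hfs _) ?_
        (fun g => rfl) (fun g => ?_) fun g => ?_
      · obtain ⟨W, hW, h3⟩ := hfs y
        obtain ⟨W', hW', h4⟩ := hfs y'
        refine ⟨W ⊓ W', S.inf hW hW', fun g v hv => ?_⟩
        have h3' : f (y.1 (g * v)) = f (y.1 g) := h3 g v hv.1
        have h4' : f (y'.1 (g * v)) = f (y'.1 g) := h4 g v hv.2
        show f (y.1 (g * v)) + f (y'.1 (g * v)) = f (y.1 g) + f (y'.1 g)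
        rw [h3', h4']
      · show i (f (y.1 g)) + i (f (y'.1 g)) = _
        rw [map_add]
      · rw [hf, map_add, hf, hf]
        rfl
  have hΘ : ∀ y, Θ y = Ψ (xl y) := fun _ => rfl
  -- the kernel of Θ
  have hker : Nat.card Θ.ker = Nat.card (lftQ j h hb fl (redQ SD j h fl (indQ SD j h fl Yb))) := by
    refine Nat.card_congr (Equiv.ofBijective (fun y : Θ.ker => (⟨y.1.1, y.1.2, ?_⟩ :
      lftQ j h hb fl (redQ SD j h fl (indQ SD j h fl Yb)))) ⟨?_, ?_⟩)
    · have h1 : Ψ (xl y.1) = 0 := y.2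
      obtain ⟨c, hc, hx⟩ := psi_ker H h fl hUQ hYc hYU (hdd (xl y.1)) (fun s hs => by
        exact DFunLike.congr_fun h1 (⟨s, hs⟩ : shQ S j (fl.actQ h.act) (fl.linQ h.lin)))
      refine ⟨fun g => f (y.1.1 g) - e (c g), ⟨?_, fun s t => ?_⟩, fun g => ?_⟩
      · obtain ⟨W, hW, h3⟩ := hfs y.1
        obtain ⟨W', hW', h4⟩ := hc
        refine ⟨W ⊓ W', S.inf hW hW', fun g v hv => ?_⟩
        have h3' : f (y.1.1 (g * v)) = f (y.1.1 g) := h3 g v hv.1
        show f (y.1.1 (g * v)) - e (c (g * v)) = f (y.1.1 g) - e (c g)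
        rw [h3', h4 g v hv.2]
      · apply fl.iinj
        have h2 := hx.1.2 s t
        rw [map_sub, map_add, fl.eqi, map_sub, map_sub]
        exact h2
      · rw [map_sub, hf, (fl.pker _).2 ⟨c g, rfl⟩, sub_zero]
    · intro y y' hyy
      exact Subtype.ext (Subtype.ext (congrArg (fun z : lftQ j h hb fl
        (redQ SD j h fl (indQ SD j h fl Yb)) => z.1) hyy))
    · rintro ⟨y, hy, x₁, hx₁, hyx⟩
      refine ⟨⟨⟨y, hy⟩, ?_⟩, rfl⟩
      show Ψ (xl ⟨y, hy⟩) = 0
      have h1 : (fun g => i (x₁ g)) ∈ selQ S j h.act h.lin (indQ SD j h fl Yb) := by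
        rw [sel_i H h hb fl hx₁]
        have e1 : (fun g => π (x₁ g)) = y := funext fun g => (hyx g).symm
        rw [e1]
        exact hy
      have h2 : XD S SD j ρ e i (indQ SD j h fl Yb) (fun g => i (x₁ g)) (0 : G → G → U) 0 :=
        xd_sel h1
      rw [hcmp (xl ⟨y, hy⟩) ⟨_, _, _, h2⟩ (fun g => f (y g)) x₁ (hfs ⟨y, hy⟩) hx₁.1 (fun _ => rfl)
        (fun _ => rfl) fun g => by rw [hf, hyx]]
      ext s
      rw [hΨ _ _ _ _ (fun _ => 0) h2 hsm0 (fun g => by rw [map_zero, map_zero, add_zero]) s, hpsi0]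
      rfl
  have hAE : ∀ x : G → V, ∀ hx : x ∈ selQ S j h.act h.lin (indQ SD j h fl Yb), x ∈ E :=
    fun x hx => ⟨_, _, xd_sel hx⟩
  have hA0 : ∀ (x : G → V) (hx : x ∈ selQ S j h.act h.lin (indQ SD j h fl Yb)) s,
      Ψ ⟨x, hAE x hx⟩ s = 0 := by
    intro x hx s
    rw [hΨ _ _ _ x (fun _ => 0) (xd_sel hx) hsm0 (fun g => by rw [map_zero, map_zero, add_zero]) s,
      hpsi0]
  have key : ∃ m : ℕ, Nat.card Θ.ker *
      Nat.card (shQ S j (fl.actQ h.act) (fl.linQ h.lin)) =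
      Nat.card (selQ S j hb.act hb.lin (redQ SD j h fl (indQ SD j h fl Yb))) *
        (Nat.card (IsLocalRing.ResidueField O) ^ (2 * m) *
          Nat.card (((selQ S j h.act h.lin (indQ SD j h fl Yb)).map (q.compLeft G)).comap
            (shQ S j (fl.actQ h.act) (fl.linQ h.lin)).subtype)) := by
    refine ct_abs Ψ qE (fun a x s => ?_) (fun a x => ?_) (fun s hs => ?_) _ (fun x => ?_)
      (fun p hp => ?_) Θ (fun y => ?_) (fun x hx => ?_)
    · rw [hΨ (a • x) _ _ (a • x.1) (fun _ => 0) ((hdd x).smul h.lin a) hsm0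
        (fun g => by rw [map_zero, map_zero, add_zero]; rfl) s]
      exact psi_bal h fl a (FF x) (uu x) s.1
    · exact psi_alt H h hb fl hYL (hdd x) a
    · obtain ⟨x, F, u, hd, hx⟩ := psi_surj H h hb fl hUQ hVR hrL hYc s.2 fun x F u hd hx => by
        have h1 := hs ⟨x, F, u, hd⟩ (Subtype.ext (funext hx))
        rw [hΨ _ F u x (fun _ => 0) hd hsm0 (fun g => by rw [map_zero, map_zero, add_zero]) s] at h1
        exact h1
      exact ⟨⟨x, F, u, hd⟩, Subtype.ext (funext hx)⟩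
    · constructor
      · rintro ⟨x', hx', hxx⟩
        refine ⟨⟨x', hAE x' hx'⟩, Subtype.ext ?_, hA0 x' hx'⟩
        funext g
        exact congrFun hxx g
      · rintro ⟨x', hx', hx0⟩
        obtain ⟨c, hc, hx⟩ := psi_ker H h fl hUQ hYc hYU (hdd x') (fun s hs => hx0 ⟨s, hs⟩)
        refine ⟨_, hx, ?_⟩
        funext g
        show q (x'.1 g - i (e (c g))) = (qE x).1 g
        rw [← hx', map_sub, (fl.qker _).2 ⟨_, rfl⟩, sub_zero]
        rfl
    · obtain ⟨x, hx, hxp⟩ := hp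
      exact ⟨⟨x, hAE x hx⟩, Subtype.ext hxp⟩
    · refine ⟨xl y, Subtype.ext (funext fun g => ?_), rfl⟩
      show q (i (f (y.1 g))) = 0
      exact (fl.qker _).2 ⟨_, rfl⟩
    · have h1 : ∀ g, ∃ m₁, i m₁ = x.1 g := fun g =>
        (fl.qker _).1 (congrFun (congrArg Subtype.val hx) g)
      choose y₁ hy₁ using h1
      have hd := hdd x
      have hys : Sm1 S y₁ := by
        obtain ⟨W, hW, h3⟩ := hd.sm
        exact ⟨W, hW, fun g v hv => fl.iinj (by rw [hy₁, hy₁, h3 g v hv])⟩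
      have hy : (fun g => π (y₁ g)) ∈ selQ S j hb.act hb.lin (redQ SD j h fl (indQ SD j h fl Yb)) := by
        refine ⟨⟨?_, fun s t => ?_⟩, fun w => ?_⟩
        · obtain ⟨W, hW, h3⟩ := hys
          exact ⟨W, hW, fun g v hv => congrArg π (h3 g v hv)⟩
        · have h2 : e (FF x s t) = d1 ρ₁ y₁ s t := by
            apply fl.iinj
            rw [hd.dF]
            show x.1 s + ρ s (x.1 t) - x.1 (s * t) = i (y₁ s + ρ₁ s (y₁ t) - y₁ (s * t))
            rw [map_sub, map_add, fl.eqi, hy₁, hy₁, hy₁]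
          have h3 : π (d1 ρ₁ y₁ s t) = 0 := by rw [← h2]; exact (fl.pker _).2 ⟨_, rfl⟩
          have h4 : π (y₁ s + ρ₁ s (y₁ t) - y₁ (s * t)) = 0 := h3
          rw [map_sub, map_add, fl.eqp, sub_eq_zero] at h4
          exact h4.symm
        · have h2 : (fun d => i (y₁ (j w d) - e (uu x w d))) ∈ indQ SD j h fl Yb w := by
            have h3 := hd.loc w
            have e1 : (fun d => i (y₁ (j w d) - e (uu x w d))) =
                fun d => x.1 (j w d) - i (e (uu x w d)) := by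
              funext d
              rw [map_sub, hy₁]
            rw [e1]
            exact h3
          have h3 := hYc w _ h2
          refine ⟨fun d => y₁ (j w d) - e (uu x w d), ⟨?_, fun s t => ?_⟩, h2, fun d => ?_⟩
          · obtain ⟨W, hW, h4⟩ := h3.1
            exact ⟨W, hW, fun g v hv => fl.iinj (h4 g v hv)⟩
          · apply fl.iinj
            rw [map_add, fl.eqi]
            exact h3.2 s t
          · rw [map_sub, (fl.pker _).2 ⟨_, rfl⟩, sub_zero]
      refine ⟨⟨_, hy⟩, ?_⟩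
      rw [hΘ]
      exact hcmp _ _ (fun g => f (π (y₁ g))) y₁ (hfs ⟨_, hy⟩) hys (fun g => rfl)
        (fun g => (hy₁ g).symm) fun g => hf _
  obtain ⟨m, hm⟩ := key
  have hJ1 : Nat.card (((selQ S j h.act h.lin (indQ SD j h fl Yb)).map (q.compLeft G)).comap
      (shQ S j (fl.actQ h.act) (fl.linQ h.lin)).subtype) =
      Nat.card ((selQ S j h.act h.lin (indQ SD j h fl Yb)).map (q.compLeft G)) := by
    refine Nat.card_congr (Submodule.comapSubtypeEquivOfLe ?_).toEquiv
    rintro _ ⟨x, hx, rfl⟩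
    exact sel_q H h fl hx
  have hfJ : Finite ((selQ S j h.act h.lin (indQ SD j h fl Yb)).map (q.compLeft G)) :=
    Finite.of_surjective (fun x : selQ S j h.act h.lin (indQ SD j h fl Yb) =>
      (⟨q.compLeft G x.1, x.1, x.2, rfl⟩ :
        (selQ S j h.act h.lin (indQ SD j h fl Yb)).map (q.compLeft G))) (by
      rintro ⟨_, x, hx, rfl⟩
      exact ⟨⟨x, hx⟩, rfl⟩)
  have hzc : Nat.card (z1s S (fl.actU h.act)) =
      Nat.card (zM (O := O) S (fl.actU h.act) (fl.linU h.lin)) := rfl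
  have p1 := GP.card_pow (O := O) ((selQ S j h.act h.lin (indQ SD j h fl Yb)).map (q.compLeft G))
  have p2 := GP.card_pow (O := O) (zM (O := O) S (fl.actU h.act) (fl.linU h.lin))
  have p3 := GP.card_pow (O := O) (selQ S j hb.act hb.lin (redQ SD j h fl (indQ SD j h fl Yb)))
  rw [← hzc] at p2
  rw [hker, hJ1] at hm
  rw [card_A H h hb fl Yb]
  have h1 := GP.evPow_sq (GP.isPow_mul (GP.isPow_mul p1 p2) p3)
  have h2 : EvPow (Nat.card (IsLocalRing.ResidueField O))
      (Nat.card (IsLocalRing.ResidueField O) ^ (2 * m)) := ⟨m, rfl⟩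
  have h3 := GP.evPow_mul h1 h2
  convert h3 using 1
  linear_combination (Nat.card ((selQ S j h.act h.lin (indQ SD j h fl Yb)).map (q.compLeft G)) *
    Nat.card (z1s S (fl.actU h.act)) ^ 2 *
    Nat.card (selQ S j hb.act hb.lin (redQ SD j h fl (indQ SD j h fl Yb)))) * hm

end Pool.Agent.Work.MP_787500_nt.QS
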