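import Mathlib
import Pool.Agent.Work.MP_787500_nt.QS.StepQ
import Pool.Agent.Work.MP_787500_nt.QS.H1Q
import Pool.Agent.Work.MP_787500_nt.QS.Change
import Pool.Agent.Work.MP_787500_nt.QS.IndLag

/-!
# Module Par (size M): the step for arbitrary Lagrangian conditions

`q` = number of elements of the residue field. Write `a ~ 1` for `EvPow q a`. All cardinalities in the statement are powers of `q` (`GP.card_pow`: finite `O`-modules; the Selmer groups
are finite by `H.fin`, the local conditions because the local cocycle groups are finite, `H.ld`).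
* `J w = indQ .. w` and `R w = redQ .. w` are Lagrangian (`ind_lag`, `red_lag` at each place, with `fl.comp`, `h.comp`, `H.ld`).
* `change_Q` for `Y`, `J` on `V` and for `Yb`, `R` on `Vb`:
  `|Sel(V; Y)| |Sel(V; J)| ∏ |Y ⊓ J| |Y| ~ 1`, `|Sel(Vb; R)| |Sel(Vb; Yb)| ∏ |R ⊓ Yb| |R| ~ 1`; `|R w| |R w| = |Yb w| |Yb w|` (both are Lagrangian: `|Y|² = |Z1| |B1|`;
  or apply `change_Q` in the other order to get `|Yb|` directly: it is symmetric: use it with `Yb` first and `R` second).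
* `step_Q`: `|Sel(V; J)| |Sel(Vb; R)| (|Z1(U)| |sh(U)|) ~ 1`.
* `g1_mul` for the pair `(U, U)`: `g1(U)² = ∏ h1(U) = (∏ t)²`, so `g1(U) = ∏ t`, `|Z1(U)| = g1(U) |sh1(U)|` (`AddSubgroup.relIndex_mul_card`, `sh1 ≤ z1s`) and
  `|sh1(U)| = |shQ|` (same carrier): `|Z1(U)| |sh(U)| = ∏ t * |sh|²`.
* Multiply everything with the product of the `hn w`; remove squares of powers of `q` (`GP/F03_Pow`: `EvPow` and `IsPow` rules).
-/

set_option autoImplicit false
set_option linter.unusedSectionVars false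

namespace Pool.Agent.Work.MP_787500_nt.QS

open Pool.Agent.Work.MP_787500_nt.GP (A0 IsAct d0 d1 d2 tw cup11 cup21 cup12 cup01 cup02 EvPow IsPow)
open Pool.Agent.Work.MP_787500_nt.KR (FSys Sm1 Sm2 IsChar Smooth Z1 Z2 B2 LocH Pair LDual GlobH Mid Sha2
  IsTr zM z1s b1s h1 sh1)

universe u v

section

variable {G : Type*} [Group G] {S : FSys G} {I : Type*} [Fintype I] {D : I → Type*}
  [∀ w, Group (D w)] {SD : ∀ w, FSys (D w)} {j : ∀ w, D w →* G} {χ : G → ℤ_[2]}
  {inv : ∀ w, (D w → D w → A0) → A0} {tr : ((G → G → G → A0) × (∀ w, D w → D w → A0)) →+ A0}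
  {O : Type*} [CommRing O] {V V₁ Vb U R : Type v} [AddCommGroup V] [Module O V] [Finite V]
  [AddCommGroup V₁] [Module O V₁] [Finite V₁] [AddCommGroup Vb] [Module O Vb] [Finite Vb]
  [AddCommGroup U] [Module O U] [Finite U] [AddCommGroup R] [Module O R] [Finite R]
  {ρ : G → V → V} {β : V →+ V →+ A0}
  {l : O → G → V → A0} {ρ₁ : G → V₁ → V₁} {ρb : G → Vb → Vb} {βb : Vb →+ Vb →+ A0}
  {lb : O → G → Vb → A0} {υ : G → U → U} {γ : U →+ U →+ A0} {ρR : G → R → R}
  {γR : V₁ →+ R →+ A0} {e : U →ₗ[O] V₁} {i : V₁ →ₗ[O] V} {π : V₁ →ₗ[O] Vb} {q : V →ₗ[O] U}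
  {r : V →ₗ[O] R} {ι : Vb →ₗ[O] R} {qb : R →ₗ[O] U}

theorem par_step [IsLocalRing O] [Finite (IsLocalRing.ResidueField O)]
    (H : HQ.{v} S SD j χ inv tr) (h : QM S χ O ρ β l) (hb : QM S χ O ρb βb lb)
    (fl : Flag ρ β l ρ₁ ρb βb lb υ υ γ ρR γR e i π q r ι qb) (hUQ : Pair S χ υ υ γ)
    (hVR : Pair S χ ρ₁ ρR γR) {Y : ∀ w, Submodule O (D w → V)} {Yb : ∀ w, Submodule O (D w → Vb)}
    (hY : ∀ w, Lag (SD w) (inv w) (fun d => ρ (j w d)) β (fun a d => l a (j w d)) (Y w))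
    (hYb : ∀ w, Lag (SD w) (inv w) (fun d => ρb (j w d)) βb (fun a d => lb a (j w d)) (Yb w))
    (t s : I → ℕ) (ht : ∀ w, t w * t w = h1 (SD w) ((fl.actU h.act).comp (j w)))
    (htp : ∀ w, IsPow (Nat.card (IsLocalRing.ResidueField O)) (t w))
    (hsp : ∀ w, IsPow (Nat.card (IsLocalRing.ResidueField O)) (s w))
    (hn : ∀ w, EvPow (Nat.card (IsLocalRing.ResidueField O))
      (Nat.card ↥(Y w ⊓ indQ SD j h fl Yb w) * Nat.card (Y w) *
        (Nat.card ↥(redQ SD j h fl (indQ SD j h fl Yb) w ⊓ Yb w) * Nat.card (Yb w)) *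
        t w * s w)) :
    EvPow (Nat.card (IsLocalRing.ResidueField O))
      (Nat.card (selQ S j h.act h.lin Y) * Nat.card (selQ S j hb.act hb.lin Yb) *
        ∏ w, s w) := by
  classical
  have hjsm := H.glob.jsm
  have hJ : ∀ w, Lag (SD w) (inv w) (fun d => ρ (j w d)) β (fun a d => l a (j w d))
      (indQ SD j h fl Yb w) := fun w =>
    ind_lag (H.glob.loc w) (h.comp (hjsm w)) (hb.comp (hjsm w)) (fl.comp (j w))
      (H.ld w hUQ) (H.ld w hVR) (H.ld w hb.pair) (hYb w)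
  have hR : ∀ w, Lag (SD w) (inv w) (fun d => ρb (j w d)) βb (fun a d => lb a (j w d))
      (redQ SD j h fl (indQ SD j h fl Yb) w) := fun w =>
    red_lag (H.glob.loc w) (h.comp (hjsm w)) (hb.comp (hjsm w)) (fl.comp (j w))
      (H.ld w hUQ) (H.ld w hVR) (H.ld w hb.pair) (hYb w)
  have kA := change_Q H h hY hJ
  have kB := change_Q H hb hYb hR
  have kC := step_Q H h hb fl hUQ hVR hYb
  have kD := g1_mul H hUQ
  -- finiteness
  have hfV : ∀ Y' : ∀ w, Submodule O (D w → V), Finite (selQ S j h.act h.lin Y') := by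
    intro Y'
    have := H.fin h.pair
    exact Finite.of_injective (fun x : selQ S j h.act h.lin Y' =>
      (⟨x.1, x.2.1⟩ : {x : G → V // Z1 S ρ x})) fun x y hxy =>
        Subtype.ext (congrArg (fun z : {x : G → V // Z1 S ρ x} => z.1) hxy)
  have hfb : ∀ Y' : ∀ w, Submodule O (D w → Vb), Finite (selQ S j hb.act hb.lin Y') := by
    intro Y'
    have := H.fin hb.pair
    exact Finite.of_injective (fun x : selQ S j hb.act hb.lin Y' =>
      (⟨x.1, x.2.1⟩ : {x : G → Vb // Z1 S ρb x})) fun x y hxy =>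
        Subtype.ext (congrArg (fun z : {x : G → Vb // Z1 S ρb x} => z.1) hxy)
  have hfS : Finite (shQ S j (fl.actQ h.act) (fl.linQ h.lin)) := by
    have := H.fin hUQ.flip
    exact Finite.of_injective (fun x : shQ S j (fl.actQ h.act) (fl.linQ h.lin) =>
      (⟨x.1, x.2.1⟩ : {x : G → U // Z1 S υ x})) fun x y hxy =>
        Subtype.ext (congrArg (fun z : {x : G → U // Z1 S υ x} => z.1) hxy)
  have hfl : ∀ w (Y' : Submodule O (D w → V)), (∀ x ∈ Y', Z1 (SD w) (fun d => ρ (j w d)) x) →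
      Finite Y' := by
    intro w Y' hc
    have := (H.ld w h.pair).fin
    exact Finite.of_injective (fun x : Y' =>
      (⟨x.1, hc _ x.2⟩ : {x : D w → V // Z1 (SD w) (fun d => ρ (j w d)) x})) fun x y hxy =>
        Subtype.ext (congrArg (fun z : {x : D w → V // Z1 (SD w) (fun d => ρ (j w d)) x} => z.1) hxy)
  have hflb : ∀ w (Y' : Submodule O (D w → Vb)), (∀ x ∈ Y', Z1 (SD w) (fun d => ρb (j w d)) x) →
      Finite Y' := by
    intro w Y' hc
    have := (H.ld w hb.pair).fin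
    exact Finite.of_injective (fun x : Y' =>
      (⟨x.1, hc _ x.2⟩ : {x : D w → Vb // Z1 (SD w) (fun d => ρb (j w d)) x})) fun x y hxy =>
        Subtype.ext (congrArg (fun z : {x : D w → Vb // Z1 (SD w) (fun d => ρb (j w d)) x} => z.1) hxy)
  -- products of powers
  have q0 : IsPow (Nat.card (IsLocalRing.ResidueField O)) 1 := ⟨0, (pow_zero _).symm⟩
  have hpp : ∀ f : I → ℕ, (∀ w, IsPow (Nat.card (IsLocalRing.ResidueField O)) (f w)) →
      IsPow (Nat.card (IsLocalRing.ResidueField O)) (∏ w, f w) := fun f hf =>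
    Finset.prod_induction f (IsPow (Nat.card (IsLocalRing.ResidueField O)))
      (fun _ _ => GP.isPow_mul) q0 fun w _ => hf w
  have hep : ∀ f : I → ℕ, (∀ w, EvPow (Nat.card (IsLocalRing.ResidueField O)) (f w)) →
      EvPow (Nat.card (IsLocalRing.ResidueField O)) (∏ w, f w) := fun f hf =>
    Finset.prod_induction f (EvPow (Nat.card (IsLocalRing.ResidueField O)))
      (fun _ _ => GP.evPow_mul) ⟨0, (pow_zero _).symm⟩ fun w _ => hf w
  have kE := hep _ hn
  have hq : 2 ≤ Nat.card (IsLocalRing.ResidueField O) := Finite.one_lt_card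
  -- the number of classes of U
  have hg : KR.g1 S j hUQ.act = ∏ w, t w := by
    have h1 : KR.g1 S j hUQ.act * KR.g1 S j hUQ.act = (∏ w, t w) * ∏ w, t w := by
      rw [← Finset.prod_mul_distrib]
      calc KR.g1 S j hUQ.act * KR.g1 S j hUQ.act = KR.g1 S j hUQ.act * KR.g1 S j hUQ.act' := rfl
        _ = ∏ w, h1 (SD w) (hUQ.act.comp (j w)) := kD
        _ = ∏ w, t w * t w := Finset.prod_congr rfl fun w _ => (ht w).symm
    exact Nat.mul_self_inj.1 h1
  have hz : Nat.card (z1s S (fl.actU h.act)) =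
      (∏ w, t w) * Nat.card (shQ S j (fl.actQ h.act) (fl.linQ h.lin)) := by
    have h1 := AddSubgroup.relIndex_mul_relIndex ⊥ (sh1 S j hUQ.act) (z1s S hUQ.act) bot_le
      (fun x hx => hx.1)
    rw [AddSubgroup.relIndex_bot_left, AddSubgroup.relIndex_bot_left] at h1
    have h2 : Nat.card (z1s S (fl.actU h.act)) = Nat.card (z1s S hUQ.act) := rfl
    have h3 : Nat.card (shQ S j (fl.actQ h.act) (fl.linQ h.lin)) = Nat.card (sh1 S j hUQ.act) := rfl
    rw [h2, h3, ← h1, ← hg, mul_comm]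
    rfl
  -- powers
  have p1 := GP.card_pow (O := O) (selQ S j h.act h.lin (indQ SD j h fl Yb))
  have p2 := GP.card_pow (O := O) (selQ S j hb.act hb.lin (redQ SD j h fl (indQ SD j h fl Yb)))
  have p3 := GP.card_pow (O := O) (shQ S j (fl.actQ h.act) (fl.linQ h.lin))
  have p4 := hpp t htp
  have p5 := hpp s hsp
  have p6 := GP.card_pow (O := O) (selQ S j h.act h.lin Y)
  have p7 := GP.card_pow (O := O) (selQ S j hb.act hb.lin Yb)
  have p8 : IsPow (Nat.card (IsLocalRing.ResidueField O))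
      (∏ w, (Nat.card ↥(Y w ⊓ indQ SD j h fl Yb w) * Nat.card (Y w))) := by
    refine hpp _ fun w => ?_
    have f1 := hfl w (Y w) (hY w).coc
    have f2 := hfl w (Y w ⊓ indQ SD j h fl Yb w) fun x hx => (hY w).coc x hx.1
    exact GP.isPow_mul (GP.card_pow (O := O) _) (GP.card_pow (O := O) _)
  have p9 : IsPow (Nat.card (IsLocalRing.ResidueField O))
      (∏ w, (Nat.card ↥(Yb w ⊓ redQ SD j h fl (indQ SD j h fl Yb) w) * Nat.card (Yb w))) := by
    refine hpp _ fun w => ?_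
    have f1 := hflb w (Yb w) (hYb w).coc
    have f2 := hflb w (Yb w ⊓ redQ SD j h fl (indQ SD j h fl Yb) w) fun x hx => (hYb w).coc x hx.1
    exact GP.isPow_mul (GP.card_pow (O := O) _) (GP.card_pow (O := O) _)
  have hE : ∏ w, (Nat.card ↥(Y w ⊓ indQ SD j h fl Yb w) * Nat.card (Y w) *
        (Nat.card ↥(redQ SD j h fl (indQ SD j h fl Yb) w ⊓ Yb w) * Nat.card (Yb w)) *
        t w * s w) =
      (∏ w, (Nat.card ↥(Y w ⊓ indQ SD j h fl Yb w) * Nat.card (Y w))) *
      (∏ w, (Nat.card ↥(Yb w ⊓ redQ SD j h fl (indQ SD j h fl Yb) w) * Nat.card (Yb w))) *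
      (∏ w, t w) * ∏ w, s w := by
    rw [← Finset.prod_mul_distrib, ← Finset.prod_mul_distrib, ← Finset.prod_mul_distrib]
    refine Finset.prod_congr rfl fun w _ => ?_
    rw [inf_comm (redQ SD j h fl (indQ SD j h fl Yb) w)]
  rw [hE] at kE
  rw [hz] at kC
  refine GP.evPow_cancel hq (GP.isPow_mul (GP.isPow_mul p6 p7) p5)
    (GP.evPow_sq (GP.isPow_mul (GP.isPow_mul (GP.isPow_mul p1 p2) (GP.isPow_mul p3 p4))
      (GP.isPow_mul p8 p9))) ?_
  have k1 := GP.evPow_mul (GP.evPow_mul kA kB) (GP.evPow_mul kC kE)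
  convert k1 using 1
  ring

end

end Pool.Agent.Work.MP_787500_nt.QS
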