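import Mathlib
import Pool.Agent.Work.MP_787500_nt.QS.KQ
import Pool.Agent.Work.MP_787500_nt.QS.Th

/-!
# Module Trans (size M-L): Selmer groups over the rational numbers and over the quadratic field

`X ∈ Z1 Sq (ac2 ..)` corresponds to `(x, m)`, `x g = (X (e g)).1`, `m = (X c).1`. Relations: `c c = 1` gives `X c + c X c = 0`, `(X c).2 = -m`; `e (κ g) = c * e g * c` gives
`(X (e g)).2 = x (κ g) - m + ρ (κ g) m`, and `X (e g * c) = X (e g) + (ρ g (X c).1.., ..)`. Conversely these formulas define `X` from a cocycle `x` and `m` (well defined: `Two`).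
* smooth: `X` smooth implies `x g = 0` for `e g` in a member of `Sq`; `x` vanishes on the `g` with `e g = je p d`, `d ∈ In p`, by the condition at `p` (`urY`); `K.smo` gives
  `Sm1 S x`. Conversely `K.up` (and `H.ksys` for `κ`).
* at `p`: `K.inz`: `d ∈ In p` is `e g` with `g` (and `κ g`, `H.ksys`) in all members of `S`, so `x g = 0`, `ρ g = 1`, `x (κ g) = 0`, and `X (je p d) = 0`.
* at split `w`: first component `x (j w d)`, second `x (κ (j w d)) + ρ (κ (j w d)) m - m`, and the coboundaries are in `B w` (`hB`).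
The map `X ↦ (x, m)` is a bijection of `selQ` onto `selM × M`: `Nat.card_congr`, `Nat.card_prod`.
-/

set_option autoImplicit false
set_option linter.unusedSectionVars false

namespace Pool.Agent.Work.MP_787500_nt.QS

open Pool.Agent.Work.MP_787500_nt.GP (A0 IsAct d0 d1 d2 tw cup11 cup21 cup12 cup01 cup02 EvPow IsPow)
open Pool.Agent.Work.MP_787500_nt.KR (FSys Sm1 Sm2 IsChar Smooth Z1 Z2 B2 LocH Pair LDual GlobH Mid Sha2
  IsTr zM z1s b1s ParD SDualF perpM selM Betw SubU h1 sh1)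

universe u v

private theorem tr_zero {X : Type*} [Group X] {T : FSys X} {V : Type*} [AddCommGroup V] {σ : X → V → V}
    (act : IsAct σ) {x : X → V} (hx : ∀ a b, x (a * b) = x a + σ a (x b))
    (h : ∃ W, T.mem W ∧ ∀ w ∈ W, x w = 0) : Z1 T σ x := by
  obtain ⟨W, hW, h1⟩ := h
  exact ⟨⟨W, hW, fun g w hw => by rw [hx, h1 w hw, act.zero, add_zero]⟩, hx⟩

private theorem tr_one {X : Type*} [Group X] {V : Type*} [AddCommGroup V] {σ : X → V → V}
    (act : IsAct σ) {x : X → V} (hx : ∀ a b, x (a * b) = x a + σ a (x b)) : x 1 = 0 := by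
  have h3 := hx 1 1
  rw [mul_one, act.one] at h3
  exact left_eq_add.1 h3

private theorem tr_van {X : Type*} [Group X] {T : FSys X} {V : Type*} [AddCommGroup V] {σ : X → V → V}
    (act : IsAct σ) {x : X → V} (hx : Z1 T σ x) : ∃ W, T.mem W ∧ ∀ w ∈ W, x w = 0 := by
  obtain ⟨⟨W, hW, h1⟩, h2⟩ := hx
  exact ⟨W, hW, fun w hw => by rw [← one_mul w, h1 1 w hw, tr_one act h2]⟩

section dbl

variable {G Γ : Type*} [Group G] [Group Γ] (e : G →* Γ) (c : Γ) (κ : G →* G) {M : Type*}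
  [AddCommGroup M] {ρ : G → M → M}

open scoped Classical in
private noncomputable def tr_dbx (x : G → M) (σ : Γ) : M × M :=
  if h : ∃ g, e g = σ then (x h.choose, x (κ h.choose))
  else if h : ∃ g, e g * c = σ then (x h.choose, x (κ h.choose)) else 0

variable {e c κ}

private theorem tr_dbx_e (X : Two e c κ) (x : G → M) (g : G) :
    tr_dbx e c κ x (e g) = (x g, x (κ g)) := by
  have h : ∃ g', e g' = e g := ⟨g, rfl⟩
  have h1 : h.choose = g := X.inj h.choose_spec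
  rw [tr_dbx, dif_pos h, h1]

private theorem tr_dbx_ec (X : Two e c κ) (x : G → M) (g : G) :
    tr_dbx e c κ x (e g * c) = (x g, x (κ g)) := by
  have h0 : ¬∃ g', e g' = e g * c := fun ⟨g', h⟩ => X.out g g' h
  have h : ∃ g', e g' * c = e g * c := ⟨g, rfl⟩
  have h1 : h.choose = g := X.inj (mul_right_cancel h.choose_spec)
  rw [tr_dbx, dif_neg h0, dif_pos h, h1]

private theorem tr_mul (X : Two e c κ) (g k : G) : e g * c * e k = e (g * κ k) * c := by
  rw [map_mul, X.kap]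
  calc e g * c * e k = e g * c * e k * (c * c) := by rw [X.cc, mul_one]
    _ = e g * (c * e k * c) * c := by group

private theorem tr_dbx_coc (X : Two e c κ) {x : G → M}
    (hx : ∀ a b, x (a * b) = x a + ρ a (x b)) (σ τ : Γ) :
    tr_dbx e c κ x (σ * τ) = tr_dbx e c κ x σ + ac2 e c κ ρ σ (tr_dbx e c κ x τ) := by
  rcases X.cases σ with ⟨g, rfl⟩ | ⟨g, rfl⟩ <;> rcases X.cases τ with ⟨k, rfl⟩ | ⟨k, rfl⟩
  · rw [← map_mul, tr_dbx_e X, tr_dbx_e X, tr_dbx_e X, X.ac_e, map_mul, hx, hx]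
    rfl
  · rw [← mul_assoc, ← map_mul, tr_dbx_ec X, tr_dbx_e X, tr_dbx_ec X, X.ac_e, map_mul, hx, hx]
    rfl
  · rw [tr_mul X, tr_dbx_ec X, tr_dbx_ec X, tr_dbx_e X, X.ac_ec, map_mul, X.kk, hx, hx]
    rfl
  · rw [← mul_assoc, tr_mul X, mul_assoc, X.cc, mul_one, tr_dbx_e X, tr_dbx_ec X, tr_dbx_ec X,
      X.ac_ec, map_mul, X.kk, hx, hx]
    rfl

/-- the cocycle of `(x, m)` -/
private noncomputable def tr_fun (e : G →* Γ) (c : Γ) (κ : G →* G) (ρ : G → M → M) (x : G → M)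
    (m : M) : Γ → M × M := fun σ => tr_dbx e c κ x σ + d0 (ac2 e c κ ρ) (0, m) σ

private theorem tr_fun_e (X : Two e c κ) (act : IsAct ρ) (x : G → M) (m : M) (g : G) :
    tr_fun e c κ ρ x m (e g) = (x g, x (κ g) + (ρ (κ g) m - m)) := by
  show tr_dbx e c κ x (e g) + (ac2 e c κ ρ (e g) (0, m) - (0, m)) = _
  rw [tr_dbx_e X, X.ac_e]
  refine Prod.ext ?_ rfl
  show x g + (ρ g 0 - 0) = x g
  rw [act.zero, sub_zero, add_zero]

private theorem tr_fun_ec (X : Two e c κ) (act : IsAct ρ) (x : G → M) (m : M) (g : G) :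
    tr_fun e c κ ρ x m (e g * c) = (x g + ρ g m, x (κ g) - m) := by
  show tr_dbx e c κ x (e g * c) + (ac2 e c κ ρ (e g * c) (0, m) - (0, m)) = _
  rw [tr_dbx_ec X, X.ac_ec]
  refine Prod.ext ?_ ?_
  · show x g + (ρ g m - 0) = _
    rw [sub_zero]
  · show x (κ g) + (ρ (κ g) 0 - m) = _
    rw [act.zero, zero_sub, sub_eq_add_neg]

private theorem tr_fun_coc (X : Two e c κ) (act : IsAct ρ) {x : G → M}
    (hx : ∀ a b, x (a * b) = x a + ρ a (x b)) (m : M) (σ τ : Γ) :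
    tr_fun e c κ ρ x m (σ * τ) = tr_fun e c κ ρ x m σ + ac2 e c κ ρ σ (tr_fun e c κ ρ x m τ) := by
  have h2 := X.act act
  show tr_dbx e c κ x (σ * τ) + (ac2 e c κ ρ (σ * τ) (0, m) - (0, m)) =
    tr_dbx e c κ x σ + (ac2 e c κ ρ σ (0, m) - (0, m)) +
      ac2 e c κ ρ σ (tr_dbx e c κ x τ + (ac2 e c κ ρ τ (0, m) - (0, m)))
  rw [tr_dbx_coc X hx, h2.mul, h2.add, h2.sub]
  abel

/-- every cocycle comes from a pair -/
private theorem tr_eq (X : Two e c κ) (act : IsAct ρ) {Z : Γ → M × M}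
    (hZ : ∀ σ τ, Z (σ * τ) = Z σ + ac2 e c κ ρ σ (Z τ)) :
    Z = tr_fun e c κ ρ (fun g => (Z (e g)).1) (Z c).1 := by
  have h1 : Z 1 = 0 := tr_one (X.act act) hZ
  have hc : (Z c).2 = -(Z c).1 := by
    have h2 := hZ c c
    rw [X.cc, h1, X.ac_c act] at h2
    have h3 := congrArg Prod.snd h2
    simp only [Prod.snd_zero, Prod.snd_add] at h3
    exact eq_neg_of_add_eq_zero_left h3.symm
  have he : ∀ g, Z (e g) = ((Z (e g)).1, (Z (e (κ g))).1 + (ρ (κ g) (Z c).1 - (Z c).1)) := by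
    intro g
    refine Prod.ext rfl ?_
    have h2 : e (κ g) * c = c * e g := by
      rw [X.kap, mul_assoc, X.cc, mul_one]
    have h3 := hZ c (e g)
    rw [← h2, hZ, X.ac_c act, X.ac_e] at h3
    have h4 := congrArg Prod.fst h3
    simp only [Prod.fst_add] at h4
    -- `(Z (e (κ g))).1 + ρ (κ g) (Z c).1 = (Z c).1 + (Z (e g)).2`
    show (Z (e g)).2 = _
    rw [add_sub, h4, add_sub_cancel_left]
  funext σ
  rcases X.cases σ with ⟨g, rfl⟩ | ⟨g, rfl⟩
  · rw [tr_fun_e X act]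
    exact he g
  · rw [tr_fun_ec X act, hZ, X.ac_e]
    refine Prod.ext rfl ?_
    show (Z (e g)).2 + ρ (κ g) (Z c).2 = _
    have h5 := congrArg Prod.snd (he g)
    rw [h5, hc, act.neg]
    show (Z (e (κ g))).1 + (ρ (κ g) (Z c).1 - (Z c).1) + -ρ (κ g) (Z c).1 = _
    abel

end dbl

section

variable {G : Type*} [Group G] {S : FSys G} {Φ Ψ : Type*} [Fintype Φ] [Fintype Ψ] {D : Φ → Type u}
  [∀ w, Group (D w)] {SD : ∀ w, FSys (D w)} {j : ∀ w, D w →* G} {χ : G → ℤ_[2]}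
  {inv : ∀ w, (D w → D w → A0) → A0} {κ : G →* G} {Θ : Set (G × G)} {Γ : Type*} [Group Γ]
  {Sq : FSys Γ} {E : Ψ → Type u} [∀ p, Group (E p)] {SE : ∀ p, FSys (E p)} {je : ∀ p, E p →* Γ}
  {χq : Γ → ℤ_[2]} {inve : ∀ p, (E p → E p → A0) → A0} {e : G →* Γ} {c : Γ}
  {In : ∀ p, Set (E p)}
  {tr : ((Γ → Γ → Γ → A0) × (∀ i, gQ D E i → gQ D E i → A0)) →+ A0} {O : Type*} [CommRing O]
  {M : Type v} [AddCommGroup M] [Module O M] [Finite M] {ρ : G → M → M} {b : M →+ M →+ A0}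

theorem card_trans (K : KQ.{u, v} S SD j χ inv κ Sq SE je χq inve e c In tr)
    (H : ParD.{v} S SD j χ inv κ Θ) (h : SDualF S χ κ Θ O ρ b)
    {A B : ∀ w, Submodule O (D w → M)}
    (hB : ∀ w m, d0 (fun d => ρ (κ (j w d))) m ∈ B w) :
    Nat.card (selQ Sq (jQ e j je) (K.two.act h.act) (K.two.lin h.lin)
      (condQ κ SE je e c In K.two h.act h.lin A B)) =
    Nat.card (selM h j A B) * Nat.card M := by
  have act := h.act
  have lin := h.lin
  have X := K.two
  have hact2 := X.act act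
  -- members of all subgroups
  have hin : ∀ p, ∀ d ∈ In p, ∃ g, e g = je p d ∧ (∀ W, S.mem W → g ∈ W) ∧
      ∀ W, S.mem W → κ g ∈ W := by
    intro p d hd
    obtain ⟨g, hg, h1⟩ := K.inz p d hd
    refine ⟨g, hg, h1, fun W hW => ?_⟩
    obtain ⟨W', hW', h2⟩ := H.ksys W hW
    exact h2 g (h1 W' hW')
  obtain ⟨Wρ, hWρ, hρ⟩ := h.sm
  -- smooth
  have hsm : ∀ x : G → M, Z1 S ρ x → ∀ m, Z1 Sq (ac2 e c κ ρ) (tr_fun e c κ ρ x m) := by
    intro x hx m
    refine tr_zero hact2 (tr_fun_coc X act hx.2 m) ?_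
    obtain ⟨W, hW, h1⟩ := tr_van act hx
    obtain ⟨W', hW', h2⟩ := H.ksys _ (S.inf hW hWρ)
    obtain ⟨W'', hW'', h3⟩ := K.up _ (S.inf hW hW')
    refine ⟨W'', hW'', fun σ hσ => ?_⟩
    obtain ⟨g, hg, rfl⟩ := h3 σ hσ
    rw [tr_fun_e X act, h1 g hg.1, h1 _ (h2 g hg.2).1, hρ _ (h2 g hg.2).2, sub_self, add_zero]
    rfl
  have hmem : ∀ (y : selM h j A B) (m : M), tr_fun e c κ ρ y.1 m ∈
      selQ Sq (jQ e j je) (K.two.act h.act) (K.two.lin h.lin)
        (condQ κ SE je e c In K.two h.act h.lin A B) := by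
    rintro ⟨x, hx, hA, hBx⟩ m
    refine ⟨hsm x hx m, fun i => ?_⟩
    match i with
    | .inl w =>
      refine ⟨?_, ?_⟩
      · have e1 : (fun d : D w => (tr_fun e c κ ρ x m (e (j w d))).1) = fun d => x (j w d) := by
          funext d
          rw [tr_fun_e X act]
        exact e1 ▸ hA w
      · have e1 : (fun d : D w => (tr_fun e c κ ρ x m (e (j w d))).2) =
            (fun d => x (κ (j w d))) + d0 (fun d => ρ (κ (j w d))) m := by
          funext d
          rw [tr_fun_e X act]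
          rfl
        exact e1 ▸ (B w).add_mem (hBx w) (hB w m)
    | .inr p =>
      refine ⟨(hsm x hx m).comp (j := je p) (K.glob.glob.jsm (.inr p)), fun d hd => ?_⟩
      obtain ⟨g, hg, h1, h2⟩ := hin p d hd
      obtain ⟨W, hW, h3⟩ := tr_van act hx
      show tr_fun e c κ ρ x m (je p d) = 0
      rw [← hg, tr_fun_e X act, h3 g (h1 W hW), h3 _ (h2 W hW), hρ _ (h2 Wρ hWρ), sub_self, add_zero]
      rfl
  rw [← Nat.card_prod]
  refine (Nat.card_congr (Equiv.ofBijective (fun y : selM h j A B × M =>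
    (⟨tr_fun e c κ ρ y.1.1 y.2, hmem y.1 y.2⟩ : selQ Sq (jQ e j je) (K.two.act h.act)
      (K.two.lin h.lin) (condQ κ SE je e c In K.two h.act h.lin A B))) ⟨?_, ?_⟩)).symm
  · rintro ⟨⟨x, hx⟩, m⟩ ⟨⟨x', hx'⟩, m'⟩ hxx
    have h1 : tr_fun e c κ ρ x m = tr_fun e c κ ρ x' m' := congrArg Subtype.val hxx
    have h2 : x = x' := by
      funext g
      have h3 := congrArg Prod.fst (congrFun h1 (e g))
      rwa [tr_fun_e X act, tr_fun_e X act] at h3
    subst h2
    have h3 := congrArg Prod.fst (congrFun h1 (e 1 * c))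
    rw [tr_fun_ec X act, tr_fun_ec X act, act.one, act.one] at h3
    rw [add_left_cancel h3]
  · rintro ⟨Z, hZ, hZc⟩
    have hz := tr_eq X act hZ.2
    have hxc : ∀ a b, (Z (e (a * b))).1 = (Z (e a)).1 + ρ a ((Z (e b)).1) := by
      intro a b
      rw [map_mul, hZ.2, X.ac_e]
      rfl
    have hZ1 : Z 1 = 0 := tr_one hact2 hZ.2
    have hx : Z1 S ρ (fun g => (Z (e g)).1) := by
      refine tr_zero act hxc (K.smo act h.sm _ hxc ?_ fun p d hd g hg => ?_)
      · obtain ⟨W, hW, h1⟩ := tr_van hact2 hZ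
        exact ⟨W, hW, fun g hg => by rw [h1 _ hg]; rfl⟩
      · have h1 := (hZc (.inr p)).2 d hd
        have h2 : Z (je p d) = 0 := h1
        rw [hg, h2]
        rfl
    refine ⟨⟨⟨fun g => (Z (e g)).1, hx, fun w => (hZc (.inl w)).1, fun w => ?_⟩, (Z c).1⟩,
      Subtype.ext hz.symm⟩
    have h1 : (fun d : D w => (Z (e (j w d))).2) ∈ B w := (hZc (.inl w)).2
    have e1 : (fun d : D w => (Z (e (κ (j w d)))).1) =
        (fun d => (Z (e (j w d))).2) - d0 (fun d => ρ (κ (j w d))) (Z c).1 := by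
      funext d
      have h2 := congrArg Prod.snd (congrFun hz (e (j w d)))
      rw [tr_fun_e X act] at h2
      show _ = (Z (e (j w d))).2 - (ρ (κ (j w d)) (Z c).1 - (Z c).1)
      rw [h2, add_sub_cancel_right]
    rw [e1]
    exact (B w).sub_mem h1 (hB w _)

end

end Pool.Agent.Work.MP_787500_nt.QS
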