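import Mathlib
import Pool.Agent.Work.MP_787500_nt.QS.KQ3
import Pool.Agent.Work.MP_787500_nt.QS.Qm2
import Pool.Agent.Work.MP_787500_nt.QS.Flag2
import Pool.Agent.Work.MP_787500_nt.QS.Trans
import Pool.Agent.Work.MP_787500_nt.QS.LagSp
import Pool.Agent.Work.MP_787500_nt.QS.NumSp
import Pool.Agent.Work.MP_787500_nt.QS.Par
import Pool.Agent.Work.MP_787500_nt.KR.MNSub

/-!
# Module StepMN (size M-L): from the level `N` to the level `N + 2`

`par_step` for `I = Φ ⊕ Ψ`, `HQ = K.glob`, `V = M_(N+2) × M_(N+2)`, `Vb = M_N × M_N`, `fl = flag_MN K.two h hr.st N`, `QM` from `qm_two` (`K.chi`, `K.chic`, `K.glob.glob.char.mul`,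
`K.up`, `H.ksys`), the pairs `(qm_two ..).pair` (QS/Th) of `M_1 × M_1` and `M_(N+1) × M_(N+1)`. Conditions: `Y = condQ (all) (perpM all)` for `M_(N+2)`, `Yb` the same for `M_N`:
at `inl w` Lagrangian by `lag_split`, at `inr p` by `hl2`, `hl0`. Numbers: at `inl w`: `t = h1(U)`, `s = |Z1(M_(N+2))| |Z1(M_N)|` (`num_split`, `h1_two`, `h1_pow`, `subU_MN`); at `inr p`:
`t` from `hnum p`, `s = 1`. The proofs of `IsAct`, linearity in `indQ` etc. are irrelevant (definitional).
Result: `EvPow (|Sel(V; Y)| |Sel(Vb; Yb)| ∏ |Z1(M_(N+2))| |Z1(M_N)|)` (`Fintype.prod_sum_type`).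
`card_trans` for both: `|Sel(V; Y)| = |selM(all, perp)| |M_(N+2)|`, and `|M_N| |M_(N+2)| = |M_1| ^ (2 N + 2)` is an even power (or: `|M_(N+2)| = |M_N| |M_1|^2` from `mnI`, `mnP`:
`subU_MN`, `card = card U * card M_(N+1)` etc.). With `hP` for `Λ = all`: parity at `N + 2` for `Λ = all`, then `KR.par_all`.
-/

set_option autoImplicit false
set_option linter.unusedSectionVars false

namespace Pool.Agent.Work.MP_787500_nt.QS

open Pool.Agent.Work.MP_787500_nt.GP (A0 IsAct d0 d1 d2 tw cup11 cup21 cup12 cup01 cup02 EvPow IsPow)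
open Pool.Agent.Work.MP_787500_nt.KR (FSys Sm1 Sm2 IsChar Smooth Z1 Z2 B2 LocH Pair LDual GlobH Mid Sha2
  IsTr zM z1s b1s ParD SDualF perpM selM Betw SubU h1 sh1)

universe u v

section

open Matrix
open Pool.Agent.Work.MP_787500_nt.GP (OE MN actN bN Lat bil)
open Pool.Agent.Work.MP_787500_nt.KR (mnI mnP sdualF_MN LocRep)

variable {F : Type v} [NormedField F] [NormedAlgebra ℚ_[2] F] [FiniteDimensional ℚ_[2] F] {n : ℕ}
  {b : Matrix (Fin n) (Fin n) F} {l : OE F} {t : F →ₗ[ℚ_[2]] ℚ_[2]}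
  {T : Submodule (OE F) (Fin n → F)}


variable {G : Type*} [Group G] {S : FSys G} {Φ Ψ : Type*} [Fintype Φ] [Fintype Ψ] {D : Φ → Type u}
  [∀ w, Group (D w)] {SD : ∀ w, FSys (D w)} {j : ∀ w, D w →* G} {χ : G → ℤ_[2]}
  {inv : ∀ w, (D w → D w → A0) → A0} {κ : G →* G} {Θ : Set (G × G)} {Γ : Type*} [Group Γ]
  {Sq : FSys Γ} {E : Ψ → Type u} [∀ p, Group (E p)] {SE : ∀ p, FSys (E p)} {je : ∀ p, E p →* Γ}
  {χq : Γ → ℤ_[2]} {inve : ∀ p, (E p → E p → A0) → A0} {e : G →* Γ} {c : Γ}
  {In : ∀ p, Set (E p)}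
  {tr : ((Γ → Γ → Γ → A0) × (∀ i, gQ D E i → gQ D E i → A0)) →+ A0}  {ρ : G → Matrix (Fin n) (Fin n) F}


private theorem card_ex {O : Type*} [CommRing O] {A B C : Type*} [AddCommGroup A] [Module O A]
    [AddCommGroup B] [Module O B] [AddCommGroup C] [Module O C] (f : A →ₗ[O] B) (g : B →ₗ[O] C)
    (hf : Function.Injective f) (hg : Function.Surjective g) (hk : ∀ x, g x = 0 ↔ ∃ a, f a = x) :
    Nat.card B = Nat.card C * Nat.card A := by
  have h1 : Nat.card B = Nat.card (B ⧸ g.toAddMonoidHom.ker) * Nat.card g.toAddMonoidHom.ker :=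
    AddSubgroup.card_eq_card_quotient_mul_card_addSubgroup _
  rw [Nat.card_congr (QuotientAddGroup.quotientKerEquivOfSurjective g.toAddMonoidHom hg).toEquiv]
    at h1
  have h2 : Nat.card A = Nat.card g.toAddMonoidHom.ker := by
    refine Nat.card_congr (Equiv.ofBijective (fun a => (⟨f a, (hk _).2 ⟨a, rfl⟩⟩ :
      g.toAddMonoidHom.ker)) ⟨fun a a' h => hf (congrArg Subtype.val h), ?_⟩)
    rintro ⟨x, hx⟩
    obtain ⟨a, ha⟩ := (hk x).1 hx
    exact ⟨a, Subtype.ext ha⟩
  rw [h1, h2]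

theorem step_MN [IsLocalRing (OE F)] (K : KQ.{u, v} S SD j χ inv κ Sq SE je χq inve e c In tr)
    (H : ParD.{v} S SD j χ inv κ Θ) (h : Lat b l t T)
    (hr : LocRep S χ T b ρ (fun g => ρ (κ g)))
    (hal : ∀ p ∈ Θ, ∀ x : Fin n → F, bil b x (ρ p.1 *ᵥ x) = 0) (N : ℕ)
    (hl0 : ∀ p, LagR K.two (SE p) (je p) (inve p) (In p) (sdualF_MN h hr hal N).act
      (sdualF_MN h hr hal N).lin (bN h N))
    (hl2 : ∀ p, LagR K.two (SE p) (je p) (inve p) (In p) (sdualF_MN h hr hal (N + 2)).act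
      (sdualF_MN h hr hal (N + 2)).lin (bN h (N + 2)))
    (hnum : ∀ p, NumN K.two H h hr hal N (SE p) (je p) (In p)) (hP : PN H h hr hal N) :
    PN H h hr hal (N + 2) := by
  have hres : Finite (IsLocalRing.ResidueField (OE F)) := GP.res_finite
  have hf : ∀ k, Finite (MN T l k) := fun k => GP.MN_finite h k
  have hfin := hf N
  have hfin1 := hf (N + 1)
  have hfin2 := hf (N + 2)
  have hfinU := hf 1
  have X := K.two
  have hq2 : 2 ≤ Nat.card (IsLocalRing.ResidueField (OE F)) := GP.q_two_le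
  -- the quadratic modules
  have qm : ∀ k, QM Sq χq (OE F) (ac2 e c κ (actN l k ρ hr.st)) (be2 (bN h k))
      (la2 e c κ (actN l k ρ hr.st) (bN h k)) := fun k =>
    qm_two K.two K.chi K.chic K.glob.glob.char.mul K.up H.ksys (sdualF_MN h hr hal k)
  have hs := KR.subU_MN h hr.st N
  -- the conditions
  let ZA : ∀ k, ∀ w, Submodule (OE F) (D w → MN T l k) := fun k w =>
    zM (SD w) ((sdualF_MN h hr hal k).act.comp (j w)) (fun d => (sdualF_MN h hr hal k).lin (j w d))
  let PA : ∀ k, ∀ w, Submodule (OE F) (D w → MN T l k) := fun k w =>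
    perpM H (sdualF_MN h hr hal k) w (ZA k w)
  have hbet : ∀ k w, Betw (SD w) (fun d => actN l k ρ hr.st (j w d)) (ZA k w) := by
    intro k w
    have hp := (sdualF_MN h hr hal k).locPair H w
    exact ⟨fun m => KR.d0_Z1 hp.act hp.sm m, fun x hx => hx⟩
  have hY : ∀ k, (∀ p, LagR K.two (SE p) (je p) (inve p) (In p) (sdualF_MN h hr hal k).act
      (sdualF_MN h hr hal k).lin (bN h k)) → ∀ i, Lag (sQ SD SE i) (iQ inv inve i)
      (fun d => ac2 e c κ (actN l k ρ hr.st) (jQ e j je i d)) (be2 (bN h k))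
      (fun a d => la2 e c κ (actN l k ρ hr.st) (bN h k) a (jQ e j je i d))
      (condQ κ SE je e c In K.two (sdualF_MN h hr hal k).act (sdualF_MN h hr hal k).lin
        (ZA k) (PA k) i) := by
    intro k hl i
    rcases i with w | p
    · exact lag_split K.two H (sdualF_MN h hr hal k) w (hbet k w)
    · exact hl p
  choose tp ht1 ht2 ht3 using hnum
  have main := par_step K.glob (qm (N + 2)) (qm N) (flag_MN K.two h hr.st N) (qm 1).pair
    (qm (N + 1)).pair (hY (N + 2) hl2) (hY N hl0)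
    (Sum.elim (fun w => h1 (SD w) ((sdualF_MN h hr hal 1).act.comp (j w))) tp)
    (Sum.elim (fun w => Nat.card (z1s (SD w) ((sdualF_MN h hr hal (N + 2)).act.comp (j w))) *
      Nat.card (z1s (SD w) ((sdualF_MN h hr hal N).act.comp (j w)))) (fun _ => 1))
    (fun i => by
      rcases i with w | p
      · exact (h1_two K.two H (sdualF_MN h hr hal 1) w).symm
      · exact ht1 p)
    (fun i => by
      rcases i with w | p
      · exact h1_pow H (sdualF_MN h hr hal 1) w
      · exact ht2 p)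
    (fun i => by
      rcases i with w | p
      · have l2 := (H.loc w).ld ((sdualF_MN h hr hal (N + 2)).locPair H w)
        have l0 := (H.loc w).ld ((sdualF_MN h hr hal N).locPair H w)
        exact GP.isPow_mul (KR.card_pow_z1s (O := OE F) _
          (fun d => (sdualF_MN h hr hal (N + 2)).lin (j w d)) l2.fin).1
          (KR.card_pow_z1s (O := OE F) _ (fun d => (sdualF_MN h hr hal N).lin (j w d)) l0.fin).1
      · exact ⟨0, by simp⟩)
    (fun i => by
      rcases i with w | p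
      · exact num_split K.two H (sdualF_MN h hr hal (N + 2)) (sdualF_MN h hr hal N)
          (sdualF_MN h hr hal 1) hs w
      · have h3 := ht3 p
        rw [← mul_one (_ * tp p)] at h3
        exact h3)
  have hB : ∀ k w m, d0 (fun d => actN l k ρ hr.st (κ (j w d))) m ∈ PA k w := by
    intro k w m
    have hp := (sdualF_MN h hr hal k).locPair H w
    exact ⟨KR.d0_Z1 hp.act' hp.sm' m, fun x _ hx => KR.f06_right (H.loc w).toLocH hp m hx⟩
  have c2 := card_trans K H (sdualF_MN h hr hal (N + 2)) (A := ZA (N + 2)) (B := PA (N + 2))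
    (hB (N + 2))
  have c0 := card_trans K H (sdualF_MN h hr hal N) (A := ZA N) (B := PA N) (hB N)
  have main' : EvPow (Nat.card (IsLocalRing.ResidueField (OE F)))
      (Nat.card (selQ Sq (jQ e j je) (K.two.act (sdualF_MN h hr hal (N + 2)).act)
        (K.two.lin (sdualF_MN h hr hal (N + 2)).lin) (condQ κ SE je e c In K.two
          (sdualF_MN h hr hal (N + 2)).act (sdualF_MN h hr hal (N + 2)).lin (ZA (N + 2))
          (PA (N + 2)))) *
      Nat.card (selQ Sq (jQ e j je) (K.two.act (sdualF_MN h hr hal N).act)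
        (K.two.lin (sdualF_MN h hr hal N).lin) (condQ κ SE je e c In K.two
          (sdualF_MN h hr hal N).act (sdualF_MN h hr hal N).lin (ZA N) (PA N))) *
      ∏ i, (Sum.elim (fun w => Nat.card (z1s (SD w)
          ((sdualF_MN h hr hal (N + 2)).act.comp (j w))) *
        Nat.card (z1s (SD w) ((sdualF_MN h hr hal N).act.comp (j w)))) (fun _ => 1) :
          Φ ⊕ Ψ → ℕ) i) := main
  rw [c2, c0, Fintype.prod_sum_type] at main'
  simp only [Sum.elim_inl, Sum.elim_inr, Finset.prod_const_one, mul_one,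
    Finset.prod_mul_distrib] at main'
  -- the order of the modules
  have hcard : Nat.card (MN T l (N + 2)) = Nat.card (MN T l N) * Nat.card (MN T l 1) *
      Nat.card (MN T l 1) := by
    rw [card_ex (mnI T l (Nat.le_succ (N + 1))) _ hs.iinj hs.qsurj hs.qker,
      card_ex (mnI T l (Nat.le_add_left 1 N)) _ hs.einj hs.psurj hs.pker]
    ring
  have hP' := hP (ZA N) (hbet N)
  have p2 : IsPow (Nat.card (IsLocalRing.ResidueField (OE F)))
      (Nat.card (selM (sdualF_MN h hr hal (N + 2)) j (ZA (N + 2)) (PA (N + 2)))) := by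
    have h1 := KR.sel_finite H (sdualF_MN h hr hal (N + 2)) (ZA (N + 2)) (PA (N + 2))
    exact GP.card_pow (O := OE F) _
  have p3 : IsPow (Nat.card (IsLocalRing.ResidueField (OE F)))
      (∏ w, Nat.card (z1s (SD w) ((sdualF_MN h hr hal (N + 2)).act.comp (j w)))) := by
    refine Finset.prod_induction _ (IsPow _) (fun a b => GP.isPow_mul) ⟨0, by simp⟩ fun w _ => ?_
    have l2 := (H.loc w).ld ((sdualF_MN h hr hal (N + 2)).locPair H w)
    exact (KR.card_pow_z1s (O := OE F) _
          (fun d => (sdualF_MN h hr hal (N + 2)).lin (j w d)) l2.fin).1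
  have p4 := GP.evPow_sq (GP.isPow_mul (GP.card_pow (O := OE F) (MN T l N))
    (GP.card_pow (O := OE F) (MN T l 1)))
  refine KR.par_all H (sdualF_MN h hr hal (N + 2)) (hbet (N + 2)) ?_
  refine GP.evPow_cancel hq2 (GP.isPow_mul p2 p3) (GP.evPow_mul p4 hP') ?_
  convert main' using 1
  rw [hcard]
  show Nat.card (selM (sdualF_MN h hr hal (N + 2)) j (ZA (N + 2)) (PA (N + 2))) *
    (∏ w, Nat.card (z1s (SD w) ((sdualF_MN h hr hal (N + 2)).act.comp (j w)))) *
    ((Nat.card (MN T l N) * Nat.card (MN T l 1)) ^ 2 *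
    (Nat.card (selM (sdualF_MN h hr hal N) j (ZA N) (PA N)) *
      ∏ w, Nat.card (z1s (SD w) ((sdualF_MN h hr hal N).act.comp (j w))))) = _
  ring

end

end Pool.Agent.Work.MP_787500_nt.QS
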