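import Mathlib
import Pool.Agent.Work.MP_787500_nt.QS.StepMN

/-!
# Module HfpQ (size S-M): parity for all levels

As `KR.MN_par`, `KR.MN_hfp` (KR/MNSub): `Nat.twoStepInduction`, level 0: everything has one element; level 1: `par_all` from `hP`; step: `step_MN`.
-/

set_option autoImplicit false
set_option linter.unusedSectionVars false

namespace Pool.Agent.Work.MP_787500_nt.QS

open Pool.Agent.Work.MP_787500_nt.GP (A0 IsAct d0 d1 d2 tw cup11 cup21 cup12 cup01 cup02 EvPow IsPow)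
open Pool.Agent.Work.MP_787500_nt.KR (FSys Sm1 Sm2 IsChar Smooth Z1 Z2 B2 LocH Pair LDual GlobH Mid Sha2
  IsTr zM z1s b1s ParD SDualF perpM selM Betw SubU h1 sh1)

universe u v

section

open Matrix
open Pool.Agent.Work.MP_787500_nt.GP (OE MN actN bN Lat bil)
open Pool.Agent.Work.MP_787500_nt.KR (mnI mnP sdualF_MN LocRep)

variable {F : Type v} [NormedField F] [NormedAlgebra ℚ_[2] F] [FiniteDimensional ℚ_[2] F] {n : ℕ}
  {b : Matrix (Fin n) (Fin n) F} {l : OE F} {t : F →ₗ[ℚ_[2]] ℚ_[2]}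
  {T : Submodule (OE F) (Fin n → F)}


variable {G : Type*} [Group G] {S : FSys G} {Φ Ψ : Type*} [Fintype Φ] [Fintype Ψ] {D : Φ → Type u}
  [∀ w, Group (D w)] {SD : ∀ w, FSys (D w)} {j : ∀ w, D w →* G} {χ : G → ℤ_[2]}
  {inv : ∀ w, (D w → D w → A0) → A0} {κ : G →* G} {Θ : Set (G × G)} {Γ : Type*} [Group Γ]
  {Sq : FSys Γ} {E : Ψ → Type u} [∀ p, Group (E p)] {SE : ∀ p, FSys (E p)} {je : ∀ p, E p →* Γ}
  {χq : Γ → ℤ_[2]} {inve : ∀ p, (E p → E p → A0) → A0} {e : G →* Γ} {c : Γ}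
  {In : ∀ p, Set (E p)}
  {tr : ((Γ → Γ → Γ → A0) × (∀ i, gQ D E i → gQ D E i → A0)) →+ A0}  {ρ : G →* Matrix (Fin n) (Fin n) F}


private theorem HfpQ_all {ρ : G → Matrix (Fin n) (Fin n) F} [IsLocalRing (OE F)]
    (K : KQ.{u, v} S SD j χ inv κ Sq SE je χq inve e c In tr)
    (H : ParD.{v} S SD j χ inv κ Θ) (hlat : Lat b l t T)
    (hr : LocRep S χ T b ρ (fun g => ρ (κ g)))
    (hal : ∀ p ∈ Θ, ∀ x : Fin n → F, bil b x (ρ p.1 *ᵥ x) = 0)
    (hl : ∀ N p, LagR K.two (SE p) (je p) (inve p) (In p)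
      (sdualF_MN hlat hr hal N).act (sdualF_MN hlat hr hal N).lin (bN hlat N))
    (hnum : ∀ N p, NumN K.two H hlat hr hal N (SE p) (je p) (In p))
    {Λ₀ : ∀ w, Submodule (OE F) (D w → MN T l 1)}
    (h₀ : ∀ w, Betw (SD w) (fun d => actN l 1 ρ hr.st (j w d)) (Λ₀ w))
    (hP : EvPow (Nat.card (IsLocalRing.ResidueField (OE F)))
      (Nat.card (selM (sdualF_MN hlat hr hal 1) j Λ₀
        fun w => perpM H (sdualF_MN hlat hr hal 1) w (Λ₀ w)) * ∏ w, Nat.card (Λ₀ w))) (N : ℕ) :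
    PN H hlat hr hal N := by
  have hres : Finite (IsLocalRing.ResidueField (OE F)) := GP.res_finite
  have hf : ∀ N, Finite (MN T l N) := fun N => GP.MN_finite hlat N
  induction N using Nat.twoStepInduction with
  | zero =>
    intro Λ hΛ
    have e1 : Nat.card (selM (sdualF_MN hlat hr hal 0) j Λ
        fun w => perpM H (sdualF_MN hlat hr hal 0) w (Λ w)) = 1 := Nat.card_unique
    have e2 : ∏ w, Nat.card (Λ w) = 1 := Finset.prod_eq_one fun w _ => Nat.card_unique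
    rw [e1, e2]
    exact ⟨0, by simp⟩
  | one => exact fun Λ hΛ => KR.par_all H (sdualF_MN hlat hr hal 1) h₀ hP Λ hΛ
  | more N ih _ => exact step_MN K H hlat hr hal N (hl N) (hl (N + 2)) (hnum N) ih

theorem hfp_Q [IsLocalRing (OE F)] (K : KQ.{u, v} S SD j χ inv κ Sq SE je χq inve e c In tr)
    (H : ParD.{v} S SD j χ inv κ Θ) (hlat : Lat b l t T) (hst : ∀ g, ∀ x ∈ T, ρ g *ᵥ x ∈ T)
    (hr : LocRep S χ T b (fun g => ρ g) (fun g => ρ (κ g)))
    (hal : ∀ p ∈ Θ, ∀ x : Fin n → F, bil b x (ρ p.1 *ᵥ x) = 0)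
    (hl : ∀ N p, LagR K.two (SE p) (je p) (inve p) (In p)
      (sdualF_MN (ρ := fun g => ρ g) hlat hr hal N).act
      (sdualF_MN (ρ := fun g => ρ g) hlat hr hal N).lin (bN hlat N))
    (hnum : ∀ N p, NumN (ρ := fun g => ρ g) K.two H hlat hr hal N (SE p) (je p) (In p))
    {Λ₀ : ∀ w, Submodule (OE F) (D w → MN T l 1)}
    (h₀ : ∀ w, Betw (SD w) (fun d => actN l 1 (fun g => ρ g) hst (j w d)) (Λ₀ w))
    (h₁ : SDualF S χ κ Θ (OE F) (actN l 1 (fun g => ρ g) hst) (bN hlat 1))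
    (hP : EvPow (Nat.card (IsLocalRing.ResidueField (OE F)))
      (Nat.card (selM h₁ j Λ₀ fun w => perpM H h₁ w (Λ₀ w)) * ∏ w, Nat.card (Λ₀ w))) (N : ℕ)
    (h : SDualF S χ κ Θ (OE F) (actN l N (fun g => ρ g) hst) (bN hlat N))
    (Λ : ∀ w, Submodule (OE F) (D w → MN T l N))
    (hΛ : ∀ w, Betw (SD w) (fun d => actN l N (fun g => ρ g) hst (j w d)) (Λ w)) :
    EvPow (Nat.card (IsLocalRing.ResidueField (OE F)))
      (Nat.card (selM h j Λ fun w => perpM H h w (Λ w)) * ∏ w, Nat.card (Λ w)) :=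
  HfpQ_all (ρ := fun g => ρ g) K H hlat hr hal hl hnum h₀ hP N Λ hΛ

end

end Pool.Agent.Work.MP_787500_nt.QS
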